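import Pool.Agent.Lib.GPX.FineArea

set_option autoImplicit false

/-!
Asymptotic form: area persistence of the fine walk sampled at multiples of `M^2`.
-/

namespace Pool.GP

open Finset Filter Topology

lemma ev_log_pow (C : ℝ) (m : ℕ) (c : ℝ) (hc : 0 < c) :
    ∀ᶠ K : ℕ in atTop, C * Real.log K ^ m ≤ (K:ℝ) ^ c := by
  have h1 := (isLittleO_log_rpow_rpow_atTop (m:ℝ) hc).comp_tendsto tendsto_natCast_atTop_atTop
  have h2 : 0 < 1 / (|C| + 1) := by positivity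
  filter_upwards [h1.bound h2, eventually_ge_atTop 3] with K hK h3
  simp only [Function.comp_apply, Real.rpow_natCast] at hK
  have hlog : 0 ≤ Real.log K := Real.log_natCast_nonneg K
  have hK0 : 0 ≤ (K:ℝ) ^ c := Real.rpow_nonneg (by positivity) _
  rw [Real.norm_of_nonneg (pow_nonneg hlog m), Real.norm_of_nonneg hK0, one_div, inv_mul_eq_div,
    le_div_iff₀ (by positivity)] at hK
  have h4 : C ≤ |C| + 1 := by have := le_abs_self C; linarith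
  calc C * Real.log K ^ m ≤ (|C| + 1) * Real.log K ^ m :=
        mul_le_mul_of_nonneg_right h4 (pow_nonneg hlog m)
    _ ≤ (K:ℝ) ^ c := by linarith

lemma ev_const (C : ℝ) (c : ℝ) (hc : 0 < c) : ∀ᶠ K : ℕ in atTop, C ≤ (K:ℝ) ^ c := by
  have := ev_log_pow C 0 c hc
  simpa using this

/-- one-scale inequality with explicit parameters -/
lemma area_chain (K M N u0 I K1 p : ℕ) (L T : ℝ) (hL : L = Real.log K) (hL1 : 1 ≤ L) (hT : 0 < T)
    (hM : 1 ≤ M) (hN : 2 * K * M^2 ≤ N) (hK : 2 ≤ K)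
    (hu0 : 48 * L ^ 2 ≤ Real.sqrt u0) (hI : (120 * L) ^ 12 ≤ I) (hIK : I ≤ K)
    (hK1a : 4 * u0 ≤ K1) (hK1b : 32 * L * (I:ℝ)^2 ≤ K1) (hK1K : K1 ≤ K) :
    1 / (8 * Real.sqrt (Real.sqrt (K+1))) ≤
      T * (64 * Real.sqrt K1 * Pr N (fun ω => ∀ k ∈ Icc 1 K, 0 ≤ ∑ i ∈ Icc 1 k, Y ω (i * M^2))
        + 16 / (K:ℝ)^2) + 1 / (K:ℝ)^2
      + Real.exp (((p:ℝ) + 1) ^ 2) / T ^ p := by
  have hKpos : (0:ℝ) < K := by exact_mod_cast (by omega : 0 < K)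
  have hexp : Real.exp L = K := by rw [hL, Real.exp_log hKpos]
  have hu0pos : 1 ≤ u0 := by
    by_contra h
    have : u0 = 0 := by omega
    rw [this] at hu0
    simp at hu0
    nlinarith
  have hexp3 : (K:ℝ) * Real.exp (-(3 * L)) = 1 / (K:ℝ)^2 := by
    have : Real.exp (-(3 * L)) = ((K:ℝ)^3)⁻¹ := by
      rw [Real.exp_neg, ← hexp, ← Real.exp_nat_mul]; norm_num
    rw [this]; field_simp
  -- tilt
  have h1 := tilt_area K u0 (1 / L) (by positivity) (by rw [div_le_one (by linarith)]; exact hL1) hu0pos T hT p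
  have h2 : (K:ℝ) * Real.exp (-(1 / L * Real.sqrt u0 / 16)) ≤ 1 / (K:ℝ)^2 := by
    rw [← hexp3]
    apply mul_le_mul_of_nonneg_left _ hKpos.le
    apply Real.exp_le_exp.2
    apply neg_le_neg
    rw [le_div_iff₀ (by norm_num), one_div, inv_mul_eq_div, le_div_iff₀ (by linarith)]
    nlinarith
  have h3 : Real.exp (((p:ℝ) + 1) ^ 2 * ((1 / L) ^ 2 * (1 + Real.log K)) / 2) / T ^ p
      ≤ Real.exp (((p:ℝ) + 1) ^ 2) / T ^ p := by
    apply div_le_div_of_nonneg_right _ (by positivity)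
    apply Real.exp_le_exp.2
    rw [← hL]
    have : (1 / L) ^ 2 * (1 + L) ≤ 2 := by
      rw [div_pow, one_pow, one_div, inv_mul_eq_div, div_le_iff₀ (by positivity)]
      nlinarith
    have h4 : 0 ≤ ((p:ℝ) + 1) ^ 2 := by positivity
    nlinarith
  have h0 := sinai K
  -- embedding
  have hx2 : (2:ℝ) ≤ 120 * L := by linarith
  have h4 := coarse_le_fine M I K N K1 (120 * L) hx2 hM hI hIK hK hN (fun _ => 0)
  have h5 : Pr K (fun ω => ∀ k ∈ Icc (4*u0) K,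
        1 / L / 8 * ((k:ℝ) * Real.sqrt k) ≤ ∑ i ∈ Icc 1 k, Y ω i)
      ≤ Pr K (fun ε => ∀ k ∈ Icc K1 K, (fun _ => (0:ℝ)) k + (k:ℝ) * Real.sqrt k / (120 * L) + 2 * (I:ℝ)^2
        ≤ ∑ i ∈ Icc 1 k, Y ε i) := by
    refine Pr_mono K fun ω h k hk => ?_
    rw [Finset.mem_Icc] at hk
    have e1 := h k (Finset.mem_Icc.2 ⟨by omega, hk.2⟩)
    refine le_trans ?_ e1
    have e2 : (K1:ℝ) ≤ k := by exact_mod_cast hk.1
    have hk1 : (1:ℝ) ≤ k := by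
      have : 1 ≤ k := by omega
      exact_mod_cast this
    have e3 : 1 ≤ Real.sqrt (k:ℝ) := by rw [Real.one_le_sqrt]; exact hk1
    have e4 : (k:ℝ) ≤ k * Real.sqrt k := by nlinarith
    have e5 : 32 * L * (I:ℝ)^2 ≤ k * Real.sqrt k := by linarith
    have e6 : 1 / L / 8 * ((k:ℝ) * Real.sqrt k) = (k:ℝ) * Real.sqrt k / (120 * L)
        + (k:ℝ) * Real.sqrt k * (14 / (120 * L)) := by field_simp; ring
    rw [e6, zero_add]
    have e7 : 2 * (I:ℝ)^2 ≤ (k:ℝ) * Real.sqrt k * (14 / (120 * L)) := by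
      calc 2 * (I:ℝ)^2 ≤ 32 * L * (I:ℝ)^2 * (14 / (120 * L)) := by
            have : 32 * L * (I:ℝ)^2 * (14 / (120 * L)) = 448 / 120 * (I:ℝ)^2 := by field_simp; ring
            rw [this]; nlinarith [sq_nonneg (I:ℝ)]
        _ ≤ _ := mul_le_mul_of_nonneg_right e5 (by positivity)
    linarith
  have h6 : 2 * (4 * (K:ℝ) * Real.exp (-(120 * L / 40)) + 2 * I * Real.exp (-((I:ℝ)/2))) ≤ 16 / (K:ℝ)^2 := by
    have e1 : 120 * L / 40 = 3 * L := by ring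
    rw [e1]
    have e2 : 4 * (K:ℝ) * Real.exp (-(3 * L)) = 4 * (1 / (K:ℝ)^2) := by rw [← hexp3]; ring
    rw [e2]
    have e3 : (I:ℝ) * Real.exp (-((I:ℝ)/2)) ≤ 2 * (1 / (K:ℝ)^2) := by
      -- I e^{-I/2} = (I/2 e^{-I/4}... ) use t ≤ e^t
      have f1 : (I:ℝ)/4 + 1 ≤ Real.exp ((I:ℝ)/4) := Real.add_one_le_exp _
      have f2 : 16 * L ≤ I := by
        refine le_trans ?_ hI
        have : (120 * L) ≤ (120 * L)^12 := by
          calc 120 * L = (120 * L)^1 := by ring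
            _ ≤ (120 * L)^12 := pow_le_pow_right₀ (by linarith) (by norm_num)
        linarith
      have f3 : Real.exp (-((I:ℝ)/4)) ≤ Real.exp (-(4 * L)) := Real.exp_le_exp.2 (by linarith)
      have f4 : Real.exp (-(4 * L)) = ((K:ℝ)^4)⁻¹ := by
        rw [Real.exp_neg, ← hexp, ← Real.exp_nat_mul]; norm_num
      have f5 : (I:ℝ) ≤ 4 * Real.exp ((I:ℝ)/4) := by linarith
      have f6 : Real.exp (-((I:ℝ)/2)) = Real.exp (-((I:ℝ)/4)) * Real.exp (-((I:ℝ)/4)) := by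
        rw [← Real.exp_add]; congr 1; ring
      have f7 : Real.exp ((I:ℝ)/4) * Real.exp (-((I:ℝ)/4)) = 1 := by
        rw [← Real.exp_add]; simp
      have f8 : (I:ℝ) * Real.exp (-((I:ℝ)/2)) ≤ 4 * Real.exp (-((I:ℝ)/4)) := by
        rw [f6]
        have := mul_le_mul_of_nonneg_right f5 (Real.exp_pos (-((I:ℝ)/4))).le
        have f9 := mul_le_mul_of_nonneg_right this (Real.exp_pos (-((I:ℝ)/4))).le
        calc _ = (I:ℝ) * Real.exp (-((I:ℝ)/4)) * Real.exp (-((I:ℝ)/4)) := by ring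
          _ ≤ _ := f9
          _ = 4 * (Real.exp ((I:ℝ)/4) * Real.exp (-((I:ℝ)/4))) * Real.exp (-((I:ℝ)/4)) := by ring
          _ = _ := by rw [f7]; ring
      refine f8.trans ?_
      have hK2 : (2:ℝ) ≤ K := by exact_mod_cast hK
      have f10 : ((K:ℝ)^4)⁻¹ ≤ 1/2 * (1 / (K:ℝ)^2) := by
        rw [show 1/2 * (1 / (K:ℝ)^2) = 1 / (2 * (K:ℝ)^2) by field_simp, ← one_div]
        apply one_div_le_one_div_of_le (by positivity)
        have g1 : (4:ℝ) ≤ (K:ℝ)^2 := by nlinarith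
        have g2 : (K:ℝ)^4 = (K:ℝ)^2 * (K:ℝ)^2 := by ring
        rw [g2]; nlinarith
      rw [f4] at f3
      linarith
    have : 2 * (4 * (1 / (K:ℝ)^2) + 2 * I * Real.exp (-((I:ℝ)/2)))
        = 8 * (1 / (K:ℝ)^2) + 4 * (I * Real.exp (-((I:ℝ)/2))) := by ring
    rw [this]
    have : 16 / (K:ℝ)^2 = 16 * (1 / (K:ℝ)^2) := by ring
    rw [this]
    linarith
  -- Harris
  have hK1pos : 1 ≤ K1 := by omega
  have h7 := initial_pos M K1 N hM hK1pos (by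
    have : K1 * M^2 ≤ K * M^2 := Nat.mul_le_mul_right _ hK1K
    have : K * M^2 ≤ 2 * K * M^2 := by nlinarith [Nat.zero_le (K * M^2)]
    omega)
  have h8 := harris_fine M K1 K N
  set P := Pr N (fun ω => ∀ k ∈ Icc 1 K, 0 ≤ ∑ i ∈ Icc 1 k, Y ω (i * M^2)) with hP
  set C := Pr N (fun ω => ∀ k ∈ Icc K1 K, 0 ≤ ∑ i ∈ Icc 1 k, Y ω (i * M^2)) with hC
  have hC0 : 0 ≤ C := Pr_nonneg _ _
  have h9 : C ≤ 64 * Real.sqrt K1 * P := by
    have e1 := mul_le_mul_of_nonneg_right h7 hC0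
    have e2 := e1.trans h8
    have hs : 0 < Real.sqrt (K1:ℝ) := Real.sqrt_pos.2 (by exact_mod_cast hK1pos)
    rw [one_div, inv_mul_eq_div, div_le_iff₀ (by positivity)] at e2
    linarith
  have h10 : Pr K (fun ω => ∀ k ∈ Icc (4*u0) K,
        1 / L / 8 * ((k:ℝ) * Real.sqrt k) ≤ ∑ i ∈ Icc 1 k, Y ω i) ≤ 64 * Real.sqrt K1 * P + 16 / (K:ℝ)^2 := by
    refine h5.trans (h4.trans ?_)
    simp only [mul_zero]
    linarith
  have h11 := mul_le_mul_of_nonneg_left h10 hT.le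
  linarith

/-- **Fine area persistence.** -/
theorem fine_area_lower (ε : ℝ) (hε : 0 < ε) : ∀ᶠ K : ℕ in atTop, ∀ M N : ℕ, 1 ≤ M →
    2 * K * M^2 ≤ N → (K:ℝ) ^ (-(1/4) - ε) ≤
      Pr N (fun ω => ∀ k ∈ Icc 1 K, 0 ≤ ∑ i ∈ Icc 1 k, Y ω (i * M^2)) := by
  set η := ε / 4 with hη
  have hηpos : 0 < η := by positivity
  set p := ⌈2 / η⌉₊ with hp
  have hpη : 2 ≤ η * p := by
    have := Nat.le_ceil (2 / η)
    rw [← hp, div_le_iff₀ hηpos] at this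
    linarith
  filter_upwards [eventually_ge_atTop 3, ev_log_pow (2 * 120^12) 12 1 one_pos,
    ev_log_pow (20000 + 1000 * (120:ℝ)^24) 25 1 one_pos,
    ev_log_pow (64^2 * (20000 + 1000 * (120:ℝ)^24)) 25 (2*η) (by positivity),
    ev_const (1000 * (1 + Real.exp (((p:ℝ)+1)^2))) 1 one_pos,
    ev_const 20 η hηpos] with K hK3 hI hK1 hK1b hC hC2
  intro M N hM hN
  have hKpos : (0:ℝ) < K := by exact_mod_cast (by omega : 0 < K)
  have hK1r : (1:ℝ) ≤ K := by exact_mod_cast (by omega : 1 ≤ K)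
  set L := Real.log K with hL
  have hL1 : 1 ≤ L := by
    rw [hL, Real.le_log_iff_exp_le hKpos]
    have := Real.exp_one_lt_d9
    have h3 : (3:ℝ) ≤ K := by exact_mod_cast hK3
    linarith
  have hpw : ∀ a b : ℕ, a ≤ b → L ^ a ≤ L ^ b := fun a b h => pow_le_pow_right₀ hL1 h
  rw [Real.rpow_one] at hI hK1 hC
  set u0 := ⌈(48 * L^2)^2⌉₊ with hu0
  set I := ⌈(120 * L)^12⌉₊ with hIdef
  set K1 := 4 * u0 + ⌈32 * L * (I:ℝ)^2⌉₊ with hK1def
  have hIle : (I:ℝ) ≤ 2 * (120 * L)^12 := by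
    have := (Nat.ceil_lt_add_one (show (0:ℝ) ≤ (120 * L)^12 by positivity)).le
    have h1 : 1 ≤ (120 * L)^12 := one_le_pow₀ (by linarith)
    rw [← hIdef] at this
    linarith
  have hu0le : (u0:ℝ) ≤ 2 * (48 * L^2)^2 := by
    have := (Nat.ceil_lt_add_one (show (0:ℝ) ≤ (48 * L^2)^2 by positivity)).le
    have h1 : 1 ≤ (48 * L^2)^2 := one_le_pow₀ (by nlinarith)
    rw [← hu0] at this
    linarith
  have hK1le : (K1:ℝ) ≤ (20000 + 1000 * (120:ℝ)^24) * L^25 := by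
    have h1 := (Nat.ceil_lt_add_one (show (0:ℝ) ≤ 32 * L * (I:ℝ)^2 by positivity)).le
    have h2 : (I:ℝ)^2 ≤ (2 * (120 * L)^12)^2 := pow_le_pow_left₀ (by positivity) hIle 2
    have h3 : 32 * L * (I:ℝ)^2 ≤ 32 * L * (2 * (120 * L)^12)^2 :=
      mul_le_mul_of_nonneg_left h2 (by positivity)
    have h4 : 32 * L * (2 * (120 * L)^12)^2 = 128 * 120^24 * L^25 := by ring
    have h5 : 4 * (2 * (48 * L^2)^2) = 18432 * L^4 := by ring
    have h6 := hpw 4 25 (by norm_num)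
    have h7 := hpw 0 25 (by norm_num)
    rw [hK1def]
    push_cast
    have h8 : (0:ℝ) ≤ L^25 := by positivity
    have h9 : (1000 * (120:ℝ)^24) * L^25 = 128 * 120^24 * L^25 + 872 * 120^24 * L^25 := by ring
    have h10 : 0 ≤ 872 * 120^24 * L^25 := by positivity
    rw [pow_zero] at h7
    linarith
  have hIK : I ≤ K := by
    have h1 : 2 * (120 * L)^12 = 2 * 120^12 * L^12 := by ring
    have : (I:ℝ) ≤ K := by rw [h1] at hIle; linarith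
    exact_mod_cast this
  have hK1K : K1 ≤ K := by
    have : (K1:ℝ) ≤ K := by linarith
    exact_mod_cast this
  have hsq : 48 * L^2 ≤ Real.sqrt u0 := by
    apply Real.le_sqrt_of_sq_le
    exact Nat.le_ceil _
  have hT : 0 < (K:ℝ)^η := Real.rpow_pos_of_pos hKpos _
  have key := area_chain K M N u0 I K1 p L ((K:ℝ)^η) hL hL1 hT hM hN (by omega) hsq
    (Nat.le_ceil _) hIK (by omega) (by
      have := Nat.le_ceil (32 * L * (I:ℝ)^2)
      rw [hK1def]; push_cast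
      have : (0:ℝ) ≤ 4 * (u0:ℝ) := by positivity
      linarith) hK1K
  set P := Pr N (fun ω => ∀ k ∈ Icc 1 K, 0 ≤ ∑ i ∈ Icc 1 k, Y ω (i * M^2)) with hP
  have hP0 : 0 ≤ P := Pr_nonneg _ _
  -- 64 sqrt K1 ≤ K^η
  have h1 : 64 * Real.sqrt K1 ≤ (K:ℝ)^η := by
    have e1 : 64 * Real.sqrt (K1:ℝ) = Real.sqrt (64^2 * K1) := by
      rw [Real.sqrt_mul (by norm_num), Real.sqrt_sq (by norm_num)]
    rw [e1]
    apply Real.sqrt_le_iff.2 ⟨hT.le, ?_⟩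
    rw [← Real.rpow_natCast ((K:ℝ)^η) 2, ← Real.rpow_mul hKpos.le]
    have e2 : η * ((2:ℕ):ℝ) = 2 * η := by push_cast; ring
    rw [e2]
    calc (64:ℝ)^2 * K1 ≤ 64^2 * ((20000 + 1000 * (120:ℝ)^24) * L^25) :=
          mul_le_mul_of_nonneg_left hK1le (by norm_num)
      _ = 64^2 * (20000 + 1000 * (120:ℝ)^24) * L^25 := by ring
      _ ≤ _ := hK1b
  -- T^p ≥ K^2
  have h2 : (K:ℝ)^2 ≤ ((K:ℝ)^η)^p := by
    rw [← Real.rpow_natCast ((K:ℝ)^η) p, ← Real.rpow_mul hKpos.le, ← Real.rpow_natCast]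
    exact Real.rpow_le_rpow_of_exponent_le hK1r (by push_cast; linarith)
  have h3 : Real.exp (((p:ℝ) + 1) ^ 2) / ((K:ℝ)^η)^p ≤ Real.exp (((p:ℝ) + 1) ^ 2) / (K:ℝ)^2 := by
    apply div_le_div_of_nonneg_left (Real.exp_pos _).le (by positivity) h2
  -- combine: 1/(8 (K+1)^{1/4}) ≤ K^{2η} P + 16 K^η/K² + (1+E)/K²
  have h4 : (K:ℝ)^η * (64 * Real.sqrt K1 * P) ≤ (K:ℝ)^η * ((K:ℝ)^η * P) :=
    mul_le_mul_of_nonneg_left (mul_le_mul_of_nonneg_right h1 hP0) hT.le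
  rcases le_or_gt (1/4 : ℝ) η with hbig | hsmall
  · -- easy range: use nothing but monotonicity? use smaller η; handled below by the same chain
    -- K^{-1/4-ε} with ε ≥ 1
    have h5 : 1 / (64 * Real.sqrt K) ≤ P := by
      have e1 := initial_pos M K N hM (by omega) (by
        have : K * M^2 ≤ 2 * K * M^2 := by nlinarith [Nat.zero_le (K * M^2)]
        omega)
      refine e1.trans (Pr_mono N fun ω h k hk => ?_)
      rw [Finset.mem_Icc] at hk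
      exact Finset.sum_nonneg fun i hi => h i
        (Finset.mem_Icc.2 ⟨(Finset.mem_Icc.1 hi).1, (Finset.mem_Icc.1 hi).2.trans hk.2⟩)
    refine le_trans ?_ h5
    have h6 : (K:ℝ)^(-(1/4) - ε) ≤ (K:ℝ)^(-(3/2) : ℝ) * (K:ℝ)^(1/4 : ℝ) := by
      rw [← Real.rpow_add hKpos]
      apply Real.rpow_le_rpow_of_exponent_le hK1r
      have : ε = 4 * η := by rw [hη]; ring
      rw [this]; linarith
    have h7 : (K:ℝ)^(-(3/2) : ℝ) * (K:ℝ)^(1/4 : ℝ) ≤ 1 / (64 * Real.sqrt K) := by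
      rw [Real.sqrt_eq_rpow, le_div_iff₀ (by positivity), ← Real.rpow_add hKpos]
      have e1 : (K:ℝ)^(-(3/2) + 1/4 : ℝ) * (64 * (K:ℝ)^(1/2 : ℝ)) = 64 * (K:ℝ)^(-(3/4):ℝ) := by
        rw [show (-(3/4) : ℝ) = (-(3/2) + 1/4) + 1/2 by norm_num, Real.rpow_add hKpos (-(3/2) + 1/4) (1/2)]
        ring
      rw [e1]
      have e2 : (64:ℝ) ≤ (K:ℝ)^(3/4 : ℝ) := by
        have e3 : (1000:ℝ) ≤ K := by
          have : (1:ℝ) ≤ 1 + Real.exp (((p:ℝ)+1)^2) := by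
            have := Real.exp_pos (((p:ℝ)+1)^2); linarith
          linarith
        calc (64:ℝ) = (256:ℝ)^(3/4:ℝ) := by
              rw [show (256:ℝ) = (4:ℝ)^(4:ℝ) by norm_num, ← Real.rpow_mul (by norm_num)]; norm_num
          _ ≤ (K:ℝ)^(3/4:ℝ) := Real.rpow_le_rpow (by norm_num) (by linarith) (by norm_num)
      rw [Real.rpow_neg hKpos.le, ← div_eq_mul_inv, div_le_one (by positivity)]
      exact e2
    exact h6.trans h7
  · -- main range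
    have h5 : (K:ℝ)^η ≤ (K:ℝ)^(1/4:ℝ) := Real.rpow_le_rpow_of_exponent_le hK1r hsmall.le
    have h6 : (K:ℝ)^(1/4:ℝ) ≤ K := by
      calc (K:ℝ)^(1/4:ℝ) ≤ (K:ℝ)^(1:ℝ) := Real.rpow_le_rpow_of_exponent_le hK1r (by norm_num)
        _ = K := Real.rpow_one _
    -- lower bound for the left side
    have h7 : (K:ℝ)^(-(1/4):ℝ) / 10 ≤ 1 / (8 * Real.sqrt (Real.sqrt (K+1))) := by
      have e1 : Real.sqrt (Real.sqrt ((K:ℝ)+1)) ≤ 5/4 * (K:ℝ)^(1/4:ℝ) := by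
        have e2 : Real.sqrt (Real.sqrt ((K:ℝ)+1)) = ((K:ℝ)+1)^(1/4:ℝ) := by
          rw [Real.sqrt_eq_rpow, Real.sqrt_eq_rpow, ← Real.rpow_mul (by positivity)]; norm_num
        rw [e2]
        have e3 : (K:ℝ) + 1 ≤ (5/4)^(4:ℕ) * K := by
          have : (3:ℝ) ≤ K := by exact_mod_cast hK3
          nlinarith
        calc ((K:ℝ)+1)^(1/4:ℝ) ≤ ((5/4)^(4:ℕ) * (K:ℝ))^(1/4:ℝ) :=
              Real.rpow_le_rpow (by positivity) e3 (by norm_num)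
          _ = 5/4 * (K:ℝ)^(1/4:ℝ) := by
              rw [Real.mul_rpow (by positivity) hKpos.le, ← Real.rpow_natCast, ← Real.rpow_mul (by norm_num)]
              norm_num
      rw [Real.rpow_neg hKpos.le, div_le_div_iff₀ (by norm_num) (by positivity)]
      have e4 : 0 < (K:ℝ)^(1/4:ℝ) := by positivity
      rw [inv_mul_le_iff₀ e4]
      linarith
    have h8 : (K:ℝ)^η * (16 / (K:ℝ)^2) + 1 / (K:ℝ)^2 + Real.exp (((p:ℝ) + 1) ^ 2) / (K:ℝ)^2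
        ≤ (K:ℝ)^(-(1/4):ℝ) / 20 := by
      have e1 : (K:ℝ)^η * (16 / (K:ℝ)^2) + 1 / (K:ℝ)^2 + Real.exp (((p:ℝ) + 1) ^ 2) / (K:ℝ)^2
          ≤ (17 * (1 + Real.exp (((p:ℝ) + 1) ^ 2))) * (K:ℝ)^(1/4:ℝ) / (K:ℝ)^2 := by
        rw [mul_div_assoc', ← add_div, ← add_div]
        apply div_le_div_of_nonneg_right _ (by positivity)
        have e2 : 1 ≤ (K:ℝ)^(1/4:ℝ) := Real.one_le_rpow hK1r (by norm_num)
        have e3 := Real.exp_pos (((p:ℝ) + 1) ^ 2)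
        nlinarith
      refine e1.trans ?_
      rw [Real.rpow_neg hKpos.le, ← one_div, div_div, div_le_div_iff₀ (by positivity) (by positivity)]
      have e2 : (K:ℝ)^(1/4:ℝ) * (K:ℝ)^(1/4:ℝ) ≤ K := by
        rw [← Real.rpow_add hKpos]
        calc (K:ℝ)^(1/4 + 1/4:ℝ) ≤ (K:ℝ)^(1:ℝ) := Real.rpow_le_rpow_of_exponent_le hK1r (by norm_num)
          _ = K := Real.rpow_one _
      have e3 := Real.exp_pos (((p:ℝ) + 1) ^ 2)
      calc 17 * (1 + Real.exp (((p:ℝ) + 1) ^ 2)) * (K:ℝ)^(1/4:ℝ) * ((K:ℝ)^(1/4:ℝ) * 20)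
          = 340 * (1 + Real.exp (((p:ℝ) + 1) ^ 2)) * ((K:ℝ)^(1/4:ℝ) * (K:ℝ)^(1/4:ℝ)) := by ring
        _ ≤ K * K := mul_le_mul (by linarith) e2 (by positivity) hKpos.le
        _ = 1 * (K:ℝ)^2 := by ring
    have h9 : (K:ℝ)^(-(1/4):ℝ) / 20 ≤ (K:ℝ)^η * ((K:ℝ)^η * P) := by linarith
    have h10 : (K:ℝ)^(-(1/4):ℝ) ≤ (K:ℝ)^η * ((K:ℝ)^η * ((K:ℝ)^η * P)) := by
      have e1 : (K:ℝ)^(-(1/4):ℝ) ≤ 20 * ((K:ℝ)^η * ((K:ℝ)^η * P)) := by linarith
      refine e1.trans ?_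
      have e2 : 0 ≤ (K:ℝ)^η * ((K:ℝ)^η * P) := by positivity
      exact mul_le_mul_of_nonneg_right hC2 e2
    have h11 : (K:ℝ)^(-(1/4) - ε) = (K:ℝ)^(-(1/4):ℝ) * (K:ℝ)^(-(4*η)) := by
      rw [← Real.rpow_add hKpos]; congr 1; rw [hη]; ring
    rw [h11]
    clear h11
    have h12 : (K:ℝ)^(-(4*η)) ≤ ((K:ℝ)^η)⁻¹ * (((K:ℝ)^η)⁻¹ * ((K:ℝ)^η)⁻¹) := by
      rw [← Real.rpow_neg hKpos.le, ← Real.rpow_add hKpos, ← Real.rpow_add hKpos]
      apply Real.rpow_le_rpow_of_exponent_le hK1r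
      linarith
    calc (K:ℝ)^(-(1/4):ℝ) * (K:ℝ)^(-(4*η))
        ≤ ((K:ℝ)^η * ((K:ℝ)^η * ((K:ℝ)^η * P))) * (((K:ℝ)^η)⁻¹ * (((K:ℝ)^η)⁻¹ * ((K:ℝ)^η)⁻¹)) :=
          mul_le_mul h10 h12 (by positivity) (by positivity)
      _ = P := by field_simp

end Pool.GP
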