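import Pool.Agent.Lib.GP.Window
import Mathlib

set_option autoImplicit false

/-!
Multi-dimensional central limit theorem for the simple walk, through characteristic functions.
-/

namespace Pool.GP

open Finset Filter Topology MeasureTheory ProbabilityTheory

lemma cos_exp_bound (w : ℝ) (hw : |w| ≤ 1) : |Real.cos w - Real.exp (-(w^2/2))| ≤ w^4 := by
  have h1 := Real.cos_bound hw
  have h2 : |-(w^2/2)| ≤ 1 := by
    rw [abs_neg, abs_of_nonneg (by positivity)]
    have : w^2 ≤ 1 := by rw [← sq_abs]; nlinarith [abs_nonneg w]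
    linarith
  have h3 := Real.abs_exp_sub_one_sub_id_le h2
  have h4 : (-(w^2/2))^2 = w^4/4 := by ring
  rw [h4] at h3
  have h5 : |w|^4 = w^4 := by
    have : |w|^4 = (|w|^2)^2 := by ring
    rw [this, sq_abs]; ring
  rw [h5] at h1
  have h6 : Real.cos w - Real.exp (-(w^2/2)) = (Real.cos w - (1 - w^2/2)) - (Real.exp (-(w^2/2)) - 1 - -(w^2/2)) := by
    ring
  rw [h6]
  have h7 : 0 ≤ w^4 := by positivity
  exact (abs_sub _ _).trans (by linarith)

lemma prod_sub_le (N : ℕ) (f g : ℕ → ℝ) (hf : ∀ v, |f v| ≤ 1) (hg : ∀ v, |g v| ≤ 1) :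
    |∏ v ∈ range N, f v - ∏ v ∈ range N, g v| ≤ ∑ v ∈ range N, |f v - g v| := by
  induction N with
  | zero => simp
  | succ N ih =>
    rw [Finset.prod_range_succ, Finset.prod_range_succ, Finset.sum_range_succ]
    have h1 : (∏ v ∈ range N, f v) * f N - (∏ v ∈ range N, g v) * g N
        = (∏ v ∈ range N, f v - ∏ v ∈ range N, g v) * f N + (∏ v ∈ range N, g v) * (f N - g N) := by
      ring
    rw [h1]
    refine (abs_add_le _ _).trans ?_
    rw [abs_mul, abs_mul]
    have h2 : |∏ v ∈ range N, g v| ≤ 1 := by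
      rw [Finset.abs_prod]
      exact Finset.prod_le_one (fun v _ => abs_nonneg _) (fun v _ => hg v)
    have h3 := hf N
    have h4 := abs_nonneg (∏ v ∈ range N, f v - ∏ v ∈ range N, g v)
    have h5 := abs_nonneg (f N - g N)
    nlinarith

/-- products of cosines of small weights -/
lemma prod_cos_tendsto (N : ℕ → ℕ) (w : ℕ → ℕ → ℝ) (m : ℕ → ℝ) (Q : ℝ)
    (hm : Tendsto m atTop (𝓝 0)) (hw : ∀ n v, |w n v| ≤ m n)
    (hQ : Tendsto (fun n => ∑ v ∈ range (N n), w n v ^ 2) atTop (𝓝 Q)) :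
    Tendsto (fun n => ∏ v ∈ range (N n), Real.cos (w n v)) atTop (𝓝 (Real.exp (-(Q/2)))) := by
  have h1 : Tendsto (fun n => ∏ v ∈ range (N n), Real.exp (-(w n v ^ 2 / 2))) atTop
      (𝓝 (Real.exp (-(Q/2)))) := by
    have : ∀ n, ∏ v ∈ range (N n), Real.exp (-(w n v ^ 2 / 2))
        = Real.exp (-((∑ v ∈ range (N n), w n v ^ 2) / 2)) := by
      intro n
      rw [← Real.exp_sum, Finset.sum_neg_distrib, Finset.sum_div]
    simp only [this]
    exact (Real.continuous_exp.tendsto _).comp ((hQ.div_const 2).neg)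
  have h2 : Tendsto (fun n => ∏ v ∈ range (N n), Real.cos (w n v)
      - ∏ v ∈ range (N n), Real.exp (-(w n v ^ 2 / 2))) atTop (𝓝 0) := by
    have h3 : Tendsto (fun n => m n ^ 2 * ∑ v ∈ range (N n), w n v ^ 2) atTop (𝓝 0) := by
      have := (hm.pow 2).mul hQ
      simpa using this
    rw [tendsto_zero_iff_abs_tendsto_zero]
    refine tendsto_of_tendsto_of_tendsto_of_le_of_le' tendsto_const_nhds h3
      (Eventually.of_forall fun n => abs_nonneg _) ?_
    filter_upwards [hm.eventually (gt_mem_nhds (zero_lt_one' ℝ))] with n hn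
    have h4 : ∀ v, |w n v| ≤ 1 := fun v => (hw n v).trans hn.le
    refine (prod_sub_le (N n) _ _ (fun v => Real.abs_cos_le_one _) (fun v => ?_)).trans ?_
    · rw [abs_of_pos (Real.exp_pos _), Real.exp_le_one_iff]
      have : 0 ≤ w n v ^ 2 := sq_nonneg _
      linarith
    · rw [Finset.mul_sum]
      refine Finset.sum_le_sum fun v _ => (cos_exp_bound _ (h4 v)).trans ?_
      have h5 : w n v ^ 2 ≤ m n ^ 2 := by
        rw [← sq_abs]
        exact pow_le_pow_left₀ (abs_nonneg _) (hw n v) 2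
      calc w n v ^ 4 = w n v ^ 2 * w n v ^ 2 := by ring
        _ ≤ m n ^ 2 * w n v ^ 2 := mul_le_mul_of_nonneg_right h5 (sq_nonneg _)
  have h3 := h2.add h1
  simpa using h3

section Law

variable {E : Type*} [MeasurableSpace E]

/-- law of a function of the uniform sign vector -/
noncomputable def law (N : ℕ) (X : (Fin N → Bool) → E) : Measure E :=
  ENNReal.ofReal (((2:ℝ)^N)⁻¹) • ∑ ω, Measure.dirac (X ω)

lemma law_apply (N : ℕ) (X : (Fin N → Bool) → E) (S : Set E) (hS : MeasurableSet S) :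
    law N X S = ENNReal.ofReal (Pr N (fun ω => X ω ∈ S)) := by
  unfold law Pr Pool.GP.E
  rw [Measure.smul_apply, Measure.finsetSum_apply, smul_eq_mul, div_eq_mul_inv, mul_comm _ ((2:ℝ)^N)⁻¹,
    ENNReal.ofReal_mul (by positivity), ENNReal.ofReal_sum_of_nonneg (fun ω _ => ind_nonneg _)]
  congr 1
  refine Finset.sum_congr rfl fun ω _ => ?_
  rw [Measure.dirac_apply' _ hS]
  by_cases h : X ω ∈ S
  · rw [Set.indicator_of_mem h, ind_of h]; simp
  · rw [Set.indicator_of_notMem h, ind_not h]; simp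

instance (N : ℕ) (X : (Fin N → Bool) → E) : IsProbabilityMeasure (law N X) := by
  constructor
  rw [law_apply N X Set.univ MeasurableSet.univ]
  have : Pr N (fun ω => X ω ∈ Set.univ) = 1 := by
    simp only [Set.mem_univ]
    exact Pr_true N
  rw [this]; simp

/-- the law as a bundled probability measure -/
noncomputable def lawP (N : ℕ) (X : (Fin N → Bool) → E) : ProbabilityMeasure E :=
  ⟨law N X, inferInstance⟩

lemma coe_lawP (N : ℕ) (X : (Fin N → Bool) → E) : (lawP N X : Measure E) = law N X := rfl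

lemma law_integral [MeasurableSingletonClass E] (N : ℕ) (X : (Fin N → Bool) → E) (f : E → ℂ) :
    ∫ x, f x ∂(law N X) = ((2:ℂ)^N)⁻¹ * ∑ ω, f (X ω) := by
  unfold law
  rw [integral_smul_measure, integral_finsetSum_measure]
  · simp only [integral_dirac]
    rw [ENNReal.toReal_ofReal (by positivity)]
    simp
  · intro ω _
    exact integrable_dirac (by simp)

end Law

/-- characteristic function of a weighted sign sum -/
lemma charsum (N : ℕ) (w : ℕ → ℝ) :
    ((2:ℂ)^N)⁻¹ * ∑ ω : Fin N → Bool, Complex.exp ((Ws N w ω : ℂ) * Complex.I)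
      = ((∏ v ∈ range N, Real.cos (w v) : ℝ) : ℂ) := by
  have h1 : ∀ ω : Fin N → Bool, Complex.exp ((Ws N w ω : ℂ) * Complex.I)
      = ∏ v : Fin N, Complex.exp (((w v * sg (ω v) : ℝ) : ℂ) * Complex.I) := by
    intro ω
    unfold Ws
    rw [← Complex.exp_sum]
    congr 1
    push_cast
    rw [Finset.sum_mul]
  simp only [h1]
  have h2 : ∑ ω : Fin N → Bool, ∏ v : Fin N, Complex.exp (((w v * sg (ω v) : ℝ) : ℂ) * Complex.I)
      = ∏ v : Fin N, ∑ b : Bool, Complex.exp (((w v * sg b : ℝ) : ℂ) * Complex.I) := by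
    rw [Finset.prod_univ_sum, Fintype.piFinset_univ]
  rw [h2]
  have h3 : ∀ v : Fin N, ∑ b : Bool, Complex.exp (((w v * sg b : ℝ) : ℂ) * Complex.I)
      = 2 * ((Real.cos (w v) : ℝ) : ℂ) := by
    intro v
    rw [Fintype.sum_bool]
    simp only [sg_true, sg_false, mul_one, mul_neg]
    rw [Complex.ofReal_cos, Complex.cos]
    push_cast
    ring_nf
  simp only [h3]
  rw [Finset.prod_mul_distrib, Finset.prod_const, Finset.card_univ, Fintype.card_fin, ← mul_assoc,
    inv_mul_cancel₀ (pow_ne_zero _ two_ne_zero), one_mul]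
  push_cast
  rw [← Fin.prod_univ_eq_prod_range (fun v => Complex.cos (w v)) N]

/-- weights of a linear combination of positions -/
noncomputable def cwt {K : ℕ} (t : Fin K → ℕ) (s : ℝ) (c : Fin K → ℝ) (v : ℕ) : ℝ :=
  ∑ k, if v < t k then c k / s else 0

lemma comb_eq_Ws {N K : ℕ} (t : Fin K → ℕ) (s : ℝ) (c : Fin K → ℝ) (ω : Fin N → Bool) :
    ∑ k, (Y ω (t k) / s) * c k = Ws N (cwt t s c) ω := by
  unfold cwt
  rw [Ws_sum]
  refine Finset.sum_congr rfl fun k _ => ?_
  unfold Y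
  have : (fun j : ℕ => if j < t k then c k / s else 0) = fun j : ℕ => (c k / s) * (if j < t k then 1 else 0) := by
    ext j; split_ifs <;> simp
  rw [this, Ws_smul]
  ring

lemma cwt_abs {K : ℕ} (t : Fin K → ℕ) (s : ℝ) (hs : 0 < s) (c : Fin K → ℝ) (v : ℕ) :
    |cwt t s c v| ≤ (∑ k, |c k|) / s := by
  unfold cwt
  refine (Finset.abs_sum_le_sum_abs _ _).trans ?_
  rw [Finset.sum_div]
  refine Finset.sum_le_sum fun k _ => ?_
  split_ifs
  · rw [abs_div, abs_of_pos hs]
  · rw [abs_zero]; positivity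

lemma cwt_sq_sum {K : ℕ} (N : ℕ) (t : Fin K → ℕ) (ht : ∀ k, t k ≤ N) (s : ℝ) (c : Fin K → ℝ) :
    ∑ v ∈ range N, cwt t s c v ^ 2 = ∑ k, ∑ l, c k * c l * (((min (t k) (t l) : ℕ) : ℝ) / s^2) := by
  have h1 : ∀ v, cwt t s c v ^ 2 = ∑ k, ∑ l, (if v < min (t k) (t l) then c k * c l / s^2 else 0) := by
    intro v
    unfold cwt
    rw [pow_two, Finset.sum_mul_sum]
    refine Finset.sum_congr rfl fun k _ => Finset.sum_congr rfl fun l _ => ?_
    by_cases h1 : v < t k <;> by_cases h2 : v < t l <;> simp [h1, h2]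
    ring
  simp only [h1]
  rw [Finset.sum_comm]
  refine Finset.sum_congr rfl fun k _ => ?_
  rw [Finset.sum_comm]
  refine Finset.sum_congr rfl fun l _ => ?_
  rw [← Finset.sum_filter, Finset.sum_const, nsmul_eq_mul]
  have h2 : (range N).filter (fun v => v < min (t k) (t l)) = range (min (t k) (t l)) := by
    ext v
    simp only [Finset.mem_filter, Finset.mem_range]
    have h3 := ht k
    have h4 : min (t k) (t l) ≤ t k := min_le_left _ _
    omega
  rw [h2, Finset.card_range]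
  ring

/-- **Multi-dimensional CLT for the simple walk.** -/
theorem clt_walk {K : ℕ} (N : ℕ → ℕ) (t : ℕ → Fin K → ℕ) (s : ℕ → ℝ) (r : Fin K → Fin K → ℝ)
    (hs : Tendsto s atTop atTop) (hs0 : ∀ n, 0 < s n) (ht : ∀ n k, t n k ≤ N n)
    (hr : ∀ k l, Tendsto (fun n => ((min (t n k) (t n l) : ℕ) : ℝ) / s n ^ 2) atTop (𝓝 (r k l)))
    (ν : ProbabilityMeasure (EuclideanSpace ℝ (Fin K)))
    (hν : ∀ c : EuclideanSpace ℝ (Fin K), charFun (ν : Measure (EuclideanSpace ℝ (Fin K))) c
      = ((Real.exp (-((∑ k, ∑ l, c k * c l * r k l) / 2)) : ℝ) : ℂ)) :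
    Tendsto (fun n => lawP (E := EuclideanSpace ℝ (Fin K)) (N n)
      (fun ω => WithLp.toLp 2 (fun k => Y ω (t n k) / s n))) atTop (𝓝 ν) := by
  apply ProbabilityMeasure.tendsto_of_tendsto_charFun
  intro c
  rw [hν]
  have h1 : ∀ n, charFun (lawP (E := EuclideanSpace ℝ (Fin K)) (N n)
      (fun ω => WithLp.toLp 2 (fun k => Y ω (t n k) / s n)) : Measure (EuclideanSpace ℝ (Fin K))) c
      = ((∏ v ∈ range (N n), Real.cos (cwt (t n) (s n) c v) : ℝ) : ℂ) := by
    intro n
    rw [charFun_apply]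
    rw [coe_lawP, law_integral, ← charsum]
    congr 1
    refine Finset.sum_congr rfl fun ω _ => ?_
    congr 2
    rw [← comb_eq_Ws]
    rw [PiLp.inner_apply]
    simp only [RCLike.inner_apply, conj_trivial]
    norm_cast
    refine Finset.sum_congr rfl fun k _ => ?_
    ring
  simp only [h1]
  refine (Complex.continuous_ofReal.tendsto _).comp ?_
  refine prod_cos_tendsto N (fun n => cwt (t n) (s n) c) (fun n => (∑ k, |c k|) / s n) _ ?_ ?_ ?_
  · exact hs.const_div_atTop _
  · intro n v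
    exact cwt_abs (t n) (s n) (hs0 n) c v
  · simp only [cwt_sq_sum (N _) (t _) (ht _)]
    refine tendsto_finsetSum _ fun k _ => tendsto_finsetSum _ fun l _ => ?_
    exact (hr k l).const_mul _

end Pool.GP
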