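import Pool.Agent.Lib.GPX.Gauss
import Pool.Agent.Lib.GPX.AreaAsymp
import Pool.Agent.Lib.GP.Canon

set_option autoImplicit false

/-!
Gaussian persistence probabilities as limits of walk probabilities.
-/

namespace Pool.GP

open Finset Filter Topology MeasureTheory ProbabilityTheory

/-- area persistence of the Gaussian walk -/
noncomputable def gA (K : ℕ) : ℝ := (gam K).real {ξ | ∀ k ∈ Icc 1 K, 0 ≤ Sk (Wg ξ) k}

/-- persistence of `∑ W_i / i` for the Gaussian walk -/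
noncomputable def gB (K1 K : ℕ) (h : ℝ) : ℝ :=
  (gam K).real {ξ | ∀ k ∈ Icc K1 K, h * Real.sqrt k ≤ Sk (fun i : Fin K => Wg ξ i / ((i:ℝ)+1)) k}

lemma measurableSet_evG (K1 K : ℕ) (h : ℝ) : MeasurableSet (evG K1 K h) :=
  (isClosed_evG K1 K h).measurableSet

lemma nuP_evG_A (K : ℕ) : (nuP (aA K) : Measure (EuclideanSpace ℝ (Fin K))) (evG 1 K 0)
    = ENNReal.ofReal (gA K) := by
  rw [coe_nuP, Measure.map_apply (measurable_LX _) (measurableSet_evG _ _ _)]
  unfold gA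
  rw [ofReal_measureReal]
  congr 1
  ext ξ
  simp only [evG, Set.mem_preimage, Set.mem_ofPred_eq, zero_mul]
  refine forall₂_congr fun k _ => ?_
  have : (fun i => LX (aA K) ξ i) = Wg ξ := by ext i; exact LX_aA ξ i
  change 0 ≤ Sk (fun i => LX (aA K) ξ i) k ↔ _
  rw [this]

lemma nuP_evG_B (K1 K : ℕ) (h : ℝ) : (nuP (aB K) : Measure (EuclideanSpace ℝ (Fin K))) (evG K1 K h)
    = ENNReal.ofReal (gB K1 K h) := by
  rw [coe_nuP, Measure.map_apply (measurable_LX _) (measurableSet_evG _ _ _)]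
  unfold gB
  rw [ofReal_measureReal]
  congr 1
  ext ξ
  simp only [evG, Set.mem_preimage, Set.mem_ofPred_eq]
  refine forall₂_congr fun k _ => ?_
  have : (fun i => LX (aB K) ξ i) = fun i => Wg ξ i / ((i:ℝ)+1) := by ext i; exact LX_aB ξ i
  change h * Real.sqrt k ≤ Sk (fun i => LX (aB K) ξ i) k ↔ _
  rw [this]

lemma Sk_div {K : ℕ} (x : Fin K → ℝ) (s : ℝ) (k : ℕ) : Sk (fun i => x i / s) k = Sk x k / s := by
  unfold Sk
  rw [Finset.sum_div]
  refine Finset.sum_congr rfl fun i _ => ?_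
  split_ifs <;> simp

/-- **Area persistence for the Gaussian walk.** -/
theorem gA_lower (ε : ℝ) (hε : 0 < ε) : ∀ᶠ K : ℕ in atTop, (K:ℝ) ^ (-(1/4) - ε) ≤ gA K := by
  filter_upwards [fine_area_lower ε hε, eventually_ge_atTop 1] with K hK hK1
  have h1 := closed_ge (tendsto_A K) (isClosed_evG 1 K 0) (ENNReal.ofReal ((K:ℝ) ^ (-(1/4) - ε))) ?_
  · rw [nuP_evG_A] at h1
    exact (ENNReal.ofReal_le_ofReal_iff measureReal_nonneg).1 h1
  · refine Frequently.of_forall fun n => ?_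
    rw [coe_lawP, law_apply _ _ _ (measurableSet_evG _ _ _)]
    apply ENNReal.ofReal_le_ofReal
    refine (hK (n+1) (2 * K * (n+1)^2) (by omega) le_rfl).trans (Pr_mono _ fun ω h => ?_)
    simp only [evG, Set.mem_ofPred_eq, zero_mul]
    intro k hk
    have hk' := Finset.mem_Icc.1 hk
    change 0 ≤ Sk (fun i : Fin K => Y ω (((i:ℕ)+1) * (n+1)^2) / ((n:ℝ)+1)) k
    rw [Sk_div, Sk_toIcc hk'.2 (fun i => Y ω (i * (n+1)^2))]
    exact div_nonneg (h k hk) (by positivity)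

/-- Abel summation: `gA ≤ gB` -/
lemma gA_le_gB (K : ℕ) : gA K ≤ gB 1 K 0 := by
  unfold gA gB
  apply measureReal_mono
  · intro ξ hξ
    simp only [Set.mem_ofPred_eq, zero_mul] at hξ ⊢
    intro k hk
    have hk' := Finset.mem_Icc.1 hk
    set x : ℕ → ℝ := fun i => if h : i < K then Wg ξ ⟨i, h⟩ else 0 with hx
    have e1 : ∀ k ≤ K, Sk (Wg ξ) k = ∑ i ∈ range k, x i := by
      intro k hk
      unfold Sk
      have h1 : ∀ i : Fin K, (if (i:ℕ) < k then Wg ξ i else 0) = (fun i : ℕ => if i < k then x i else 0) i := by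
        intro i
        simp only [hx, i.2, dif_pos, Fin.eta]
      simp only [h1]
      rw [Fin.sum_univ_eq_sum_range (fun i : ℕ => if i < k then x i else 0) K, ← Finset.sum_filter]
      congr 1
      ext i; simp only [Finset.mem_filter, Finset.mem_range]; omega
    have e2 : ∀ k ≤ K, Sk (fun i : Fin K => Wg ξ i / ((i:ℝ)+1)) k = ∑ i ∈ range k, x i / ((i:ℝ)+1) := by
      intro k hk
      unfold Sk
      have h1 : ∀ i : Fin K, (if (i:ℕ) < k then Wg ξ i / ((i:ℝ)+1) else 0)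
          = (fun i : ℕ => if i < k then x i / ((i:ℝ)+1) else 0) i := by
        intro i
        simp only [hx, i.2, dif_pos, Fin.eta]
      simp only [h1]
      rw [Fin.sum_univ_eq_sum_range (fun i : ℕ => if i < k then x i / ((i:ℝ)+1) else 0) K, ← Finset.sum_filter]
      congr 1
      ext i; simp only [Finset.mem_filter, Finset.mem_range]; omega
    rw [e2 k hk'.2]
    refine abel_nonneg x K (fun k hk => ?_) k hk'.2
    rw [← e1 k hk]
    rcases Nat.eq_zero_or_pos k with rfl | h0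
    · unfold Sk; simp
    · exact hξ k (Finset.mem_Icc.2 ⟨h0, hk⟩)
  · exact measure_ne_top _ _

theorem gB_lower (ε : ℝ) (hε : 0 < ε) : ∀ᶠ K : ℕ in atTop, (K:ℝ) ^ (-(1/4) - ε) ≤ gB 1 K 0 := by
  filter_upwards [gA_lower ε hε] with K hK
  exact hK.trans (gA_le_gB K)

lemma gB_mono {K1 K1' K : ℕ} (h : K1 ≤ K1') {a b : ℝ} (hab : a ≤ b) : gB K1 K b ≤ gB K1' K a := by
  unfold gB
  apply measureReal_mono
  · intro ξ hξ k hk
    have hk' := Finset.mem_Icc.1 hk
    exact le_trans (mul_le_mul_of_nonneg_right hab (Real.sqrt_nonneg _))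
      (hξ k (Finset.mem_Icc.2 ⟨h.trans hk'.1, hk'.2⟩))
  · exact measure_ne_top _ _

lemma ev_iff (n K k : ℕ) (hk : k ≤ K) (h : ℝ) (ω : Fin (n+1) → Bool) :
    (h * Real.sqrt k ≤ Sk (fun i : Fin K => Y ω ((n+1) / ((i:ℕ)+1)) / Real.sqrt ((n:ℝ)+1)) k)
      ↔ h * Real.sqrt (((n+1:ℕ):ℝ) * k) ≤ ZI (n+1) 1 ω k := by
  rw [Sk_div, Sk_toIcc hk (fun i => Y ω ((n+1) / i))]
  have h1 : 0 < Real.sqrt ((n:ℝ)+1) := Real.sqrt_pos.2 (by positivity)
  rw [le_div_iff₀ h1]
  have h2 : Real.sqrt (((n+1:ℕ):ℝ) * k) = Real.sqrt k * Real.sqrt ((n:ℝ)+1) := by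
    rw [Real.sqrt_mul (by positivity), mul_comm]; push_cast; rfl
  rw [h2, mul_assoc]
  rfl

/-- lower bounds for the walk pass to the Gaussian limit -/
lemma gB_ge (K1 K : ℕ) (h c : ℝ) (hc : ∃ᶠ A : ℕ in atTop, c ≤ G A K1 K h) : c ≤ gB K1 K h := by
  have h1 := closed_ge (tendsto_B K) (isClosed_evG K1 K h) (ENNReal.ofReal c) ?_
  · rw [nuP_evG_B] at h1
    exact (ENNReal.ofReal_le_ofReal_iff measureReal_nonneg).1 h1
  · have h2 : ∃ᶠ n : ℕ in atTop, c ≤ G (n+1) K1 K h := by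
      rw [Filter.frequently_atTop] at hc ⊢
      intro a
      obtain ⟨b, hb, hcb⟩ := hc (a+1)
      exact ⟨b - 1, by omega, by rw [Nat.sub_add_cancel (by omega)]; exact hcb⟩
    refine h2.mono fun n hn => ?_
    rw [coe_lawP, law_apply _ _ _ (measurableSet_evG _ _ _)]
    apply ENNReal.ofReal_le_ofReal
    refine hn.trans (le_of_eq ?_)
    unfold G
    refine Pr_congr _ fun ω => ?_
    simp only [evG, Set.mem_ofPred_eq]
    refine forall₂_congr fun k hk => ?_
    exact (ev_iff n K k (Finset.mem_Icc.1 hk).2 h ω).symm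

/-- upper bounds for the walk pass to the Gaussian limit -/
lemma gB_le (K1 K : ℕ) (hK1 : 1 ≤ K1) (h h' c : ℝ) (hh : h' < h) (hc0 : 0 ≤ c)
    (hc : ∃ᶠ A : ℕ in atTop, G A K1 K h' ≤ c) : gB K1 K h ≤ c := by
  have h1 := open_le (tendsto_B K) (isOpen_evGo K1 K h') (ENNReal.ofReal c) ?_
  · have h2 : evG K1 K h ⊆ evGo K1 K h' := by
      intro x hx k hk
      have hk0 : (0:ℝ) < Real.sqrt k := Real.sqrt_pos.2 (by
        have := (Finset.mem_Icc.1 hk).1
        exact_mod_cast (by omega : 0 < k))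
      exact lt_of_lt_of_le (mul_lt_mul_of_pos_right hh hk0) (hx k hk)
    have h3 := (measure_mono h2).trans h1
    rw [nuP_evG_B] at h3
    exact (ENNReal.ofReal_le_ofReal_iff hc0).1 h3
  · have h2 : ∃ᶠ n : ℕ in atTop, G (n+1) K1 K h' ≤ c := by
      rw [Filter.frequently_atTop] at hc ⊢
      intro a
      obtain ⟨b, hb, hcb⟩ := hc (a+1)
      exact ⟨b - 1, by omega, by rw [Nat.sub_add_cancel (by omega)]; exact hcb⟩
    refine h2.mono fun n hn => ?_
    rw [coe_lawP, law_apply _ _ _ (isOpen_evGo K1 K h').measurableSet]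
    apply ENNReal.ofReal_le_ofReal
    refine le_trans ?_ hn
    unfold G
    refine Pr_mono _ fun ω hω => ?_
    simp only [evGo, Set.mem_ofPred_eq] at hω
    intro k hk
    exact (ev_iff n K k (Finset.mem_Icc.1 hk).2 h' ω).1 (hω k hk).le

end Pool.GP
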