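import Pool.Agent.Lib.GPX.Corr
import Pool.Agent.Lib.GPX.GaussLim

set_option autoImplicit false

/-!
Slepian comparison of the two Gaussian persistence probabilities.
-/

namespace Pool.GP

open Finset MeasureTheory ProbabilityTheory

/-- area persistence of the Gaussian walk on `[K0, K]` -/
noncomputable def gA0 (K0 K : ℕ) : ℝ := (gam K).real {ξ | ∀ k ∈ Icc K0 K, 0 ≤ Sk (Wg ξ) k}

lemma cw_pred (w : ℕ → ℝ) (k : ℕ) (hk : 1 ≤ k) : cw w k (k-1) = w (k-1) := by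
  unfold cw
  obtain ⟨j, rfl⟩ : ∃ j, k = j + 1 := ⟨k - 1, by omega⟩
  simp

lemma cw_zero_of_le (w : ℕ → ℝ) (k j : ℕ) (h : k ≤ j) : cw w k j = 0 := by
  unfold cw; rw [Finset.Ico_eq_empty (by omega)]; simp

/-- normalised coefficient matrix -/
noncomputable def nm (w : ℕ → ℝ) (v : ℕ → ℝ) {n : ℕ} (K : ℕ) (c : Fin n → ℕ) (i : Fin n) (j : Fin K) : ℝ :=
  cw w (c i) j / Real.sqrt (v (c i))

lemma nm_gram (w v : ℕ → ℝ) {n : ℕ} (K : ℕ) (c : Fin n → ℕ) (i i' : Fin n) :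
    ∑ j, nm w v K c i j * nm w v K c i' j
      = cc w K (c i) (c i') / (Real.sqrt (v (c i)) * Real.sqrt (v (c i'))) := by
  unfold nm cc
  rw [Finset.sum_div]
  exact Finset.sum_congr rfl fun j _ => by rw [div_mul_div_comm]

lemma nm_pos (w v : ℕ → ℝ) {n : ℕ} (K : ℕ) (c : Fin n → ℕ) (hc : StrictMono c) (hc1 : ∀ i, 1 ≤ c i)
    (hcK : ∀ i, c i ≤ K) (hw : ∀ j, w j ≠ 0) (hv : ∀ i, 0 < v (c i)) (t : Fin n → ℝ) (ht : t ≠ 0) :
    0 < qf (fun k l => ∑ j, nm w v K c k j * nm w v K c l j) t := by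
  refine gram_pos (nm w v K c) (fun i => ⟨c i - 1, by have := hc1 i; have := hcK i; omega⟩) ?_ ?_ ?_ t ht
  · intro i i' h
    have := hc h
    have := hc1 i
    rw [Fin.lt_def]
    simp only
    omega
  · intro i
    unfold nm
    simp only
    rw [cw_pred w (c i) (hc1 i)]
    exact div_ne_zero (hw _) (Real.sqrt_pos.2 (hv i)).ne'
  · intro i j hj
    unfold nm
    rw [Fin.lt_def] at hj
    simp only at hj
    rw [cw_zero_of_le w (c i) j (by omega), zero_div]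

lemma Sk_S {K : ℕ} (k : ℕ) (hk : k ≤ K) (ξ : Fin K → ℝ) :
    Sk (fun i : Fin K => Wg ξ i / ((i:ℝ)+1)) k = ∑ j : Fin K, cw wS k j * ξ j := by
  rw [← Sk_Wg_eq wS k hk ξ]
  congr 1
  funext i
  unfold wS
  ring

lemma Sk_A {K : ℕ} (k : ℕ) (hk : k ≤ K) (ξ : Fin K → ℝ) :
    Sk (Wg ξ) k = ∑ j : Fin K, cw (fun _ => 1) k j * ξ j := by
  rw [← Sk_Wg_eq (fun _ => 1) k hk ξ]
  congr 1
  funext i
  ring

lemma VS_eq (k : ℕ) : CS k k = VS k := by unfold CS VS; ring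
lemma VA_eq (m : ℕ) : CA m m = VA m := by unfold CA VA; ring

/-- **Slepian comparison.** -/
theorem gB_le_gA0 (p : ℝ) (hp0 : 0 < p) (hp : 3 < p ^ 2) : ∃ M0 : ℕ, 1 ≤ M0 ∧ ∀ M : ℕ, M0 ≤ M →
    gB 1 (kp p M) 0 ≤ gA0 M0 M := by
  obtain ⟨M0, hM0, hcorr⟩ := corr_le p hp0 hp
  have hp1 : 1 ≤ p := by nlinarith
  refine ⟨M0, hM0, fun M hM => ?_⟩
  set n := M - M0 + 1 with hn
  set K := kp p M with hK
  -- index maps
  set cA : Fin n → ℕ := fun i => M0 + i with hcA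
  set cS : Fin n → ℕ := fun i => kp p (M0 + i) with hcS
  have hcA1 : ∀ i, 1 ≤ cA i := fun i => by simp only [hcA]; omega
  have hcAM : ∀ i, cA i ≤ M := fun i => by have := i.2; simp only [hcA]; omega
  have hcAmono : StrictMono cA := fun i j h => by
    rw [Fin.lt_def] at h; simp only [hcA]; omega
  have hcS1 : ∀ i, 1 ≤ cS i := fun i => kp_pos p _
  have hcSmono : StrictMono cS := fun i j h => by
    rw [Fin.lt_def] at h
    exact kp_lt p hp1 _ _ (by omega) (by omega)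
  have hcSK : ∀ i, cS i ≤ K := fun i => by
    have h1 := i.2
    rcases Nat.lt_or_ge (M0 + i) M with h | h
    · exact (kp_lt p hp1 _ _ (by omega) h).le
    · have : M0 + (i:ℕ) = M := by omega
      simp only [hcS, this]
      exact le_rfl
  have hvS : ∀ i, 0 < VS (cS i) := fun i => VS_pos _ (hcS1 i)
  have hvA : ∀ i, 0 < VA (cA i) := fun i => VA_pos _ (hcA1 i)
  -- covariances
  have gS : ∀ i i' : Fin n, i ≤ i' → ∑ j, nm wS VS K cS i j * nm wS VS K cS i' j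
      = CS (cS i) (cS i') / (Real.sqrt (VS (cS i)) * Real.sqrt (VS (cS i'))) := by
    intro i i' h
    rw [nm_gram, cc_S K _ _ (hcSmono.monotone h) (hcSK i)]
    rfl
  have gA : ∀ i i' : Fin n, i ≤ i' → ∑ j, nm (fun _ => 1) VA M cA i j * nm (fun _ => 1) VA M cA i' j
      = CA (cA i) (cA i') / (Real.sqrt (VA (cA i)) * Real.sqrt (VA (cA i'))) := by
    intro i i' h
    rw [nm_gram, cc_A M _ _ (hcAmono.monotone h) (hcAM i)]
    rfl
  have dS : ∀ i : Fin n, ∑ j, nm wS VS K cS i j * nm wS VS K cS i j = 1 := by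
    intro i
    rw [gS i i le_rfl, VS_eq, Real.mul_self_sqrt (hvS i).le, div_self (hvS i).ne']
  have dA : ∀ i : Fin n, ∑ j, nm (fun _ => 1) VA M cA i j * nm (fun _ => 1) VA M cA i j = 1 := by
    intro i
    rw [gA i i le_rfl, VA_eq, Real.mul_self_sqrt (hvA i).le, div_self (hvA i).ne']
  have sS : ∀ i i' : Fin n, ∑ j, nm wS VS K cS i j * nm wS VS K cS i' j
      = ∑ j, nm wS VS K cS i' j * nm wS VS K cS i j := fun i i' => Finset.sum_congr rfl fun j _ => mul_comm _ _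
  have sA : ∀ i i' : Fin n, ∑ j, nm (fun _ => 1) VA M cA i j * nm (fun _ => 1) VA M cA i' j
      = ∑ j, nm (fun _ => 1) VA M cA i' j * nm (fun _ => 1) VA M cA i j :=
    fun i i' => Finset.sum_congr rfl fun j _ => mul_comm _ _
  have hlt : ∀ i i' : Fin n, i < i' → ∑ j, nm wS VS K cS i j * nm wS VS K cS i' j
      ≤ ∑ j, nm (fun _ => 1) VA M cA i j * nm (fun _ => 1) VA M cA i' j := by
    intro i i' h
    rw [gS i i' h.le, gA i i' h.le]
    exact hcorr (M0 + i) (M0 + i') (by omega) (by rw [Fin.lt_def] at h; omega)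
  have hle : ∀ i i' : Fin n, ∑ j, nm wS VS K cS i j * nm wS VS K cS i' j
      ≤ ∑ j, nm (fun _ => 1) VA M cA i j * nm (fun _ => 1) VA M cA i' j := by
    intro i i'
    rcases lt_trichotomy i i' with h | h | h
    · exact hlt i i' h
    · subst h; rw [dS, dA]
    · rw [sS i i', sA i i']; exact hlt i' i h
  obtain ⟨l1, hl1, hpos1⟩ := exists_lam (fun k l => ∑ j, nm wS VS K cS k j * nm wS VS K cS l j)
    (nm_pos wS VS K cS hcSmono hcS1 hcSK (fun j => by unfold wS; positivity) hvS)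
  obtain ⟨l2, hl2, hpos2⟩ := exists_lam (fun k l => ∑ j, nm (fun _ => 1) VA M cA k j * nm (fun _ => 1) VA M cA l j)
    (nm_pos (fun _ => 1) VA M cA hcAmono hcA1 hcAM (fun j => one_ne_zero) hvA)
  have hole := slepian (S := fun k l => ∑ j, nm wS VS K cS k j * nm wS VS K cS l j)
    (T := fun k l => ∑ j, nm (fun _ => 1) VA M cA k j * nm (fun _ => 1) VA M cA l j)
    sS sA (fun i => by rw [dS, dA]) hle (min l1 l2) (lt_min hl1 hl2)
    (fun t => le_trans (mul_le_mul_of_nonneg_right (min_le_left _ _) (Finset.sum_nonneg fun i _ => sq_nonneg _)) (hpos1 t))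
    (fun t => le_trans (mul_le_mul_of_nonneg_right (min_le_right _ _) (Finset.sum_nonneg fun i _ => sq_nonneg _)) (hpos2 t))
    (isG_Lrc (nm wS VS K cS)) (isG_Lrc (nm (fun _ => 1) VA M cA))
  have h0 := hole (fun _ => 0)
  rw [Lrc_orth, Lrc_orth] at h0
  have e1 : (gam K) {ξ | ∀ k ∈ Icc 1 K, (0:ℝ) * Real.sqrt k ≤ Sk (fun i : Fin K => Wg ξ i / ((i:ℝ)+1)) k}
      ≤ (gam K) {ξ | ∀ k, 0 ≤ ∑ j, nm wS VS K cS k j * ξ j} := by
    apply measure_mono
    intro ξ hξ i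
    have h1 := hξ (cS i) (Finset.mem_Icc.2 ⟨hcS1 i, hcSK i⟩)
    rw [zero_mul, Sk_S _ (hcSK i)] at h1
    have h2 : ∑ j, nm wS VS K cS i j * ξ j = (∑ j : Fin K, cw wS (cS i) j * ξ j) / Real.sqrt (VS (cS i)) := by
      unfold nm
      rw [Finset.sum_div]
      exact Finset.sum_congr rfl fun j _ => by ring
    rw [h2]
    exact div_nonneg h1 (Real.sqrt_nonneg _)
  have e2 : (gam M) {ξ | ∀ k, 0 ≤ ∑ j, nm (fun _ => 1) VA M cA k j * ξ j}
      ≤ (gam M) {ξ | ∀ k ∈ Icc M0 M, 0 ≤ Sk (Wg ξ) k} := by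
    apply measure_mono
    intro ξ hξ k hk
    have hk' := Finset.mem_Icc.1 hk
    have h1 := hξ ⟨k - M0, by omega⟩
    have h3 : cA ⟨k - M0, by omega⟩ = k := by simp only [hcA]; omega
    have h2 : ∑ j, nm (fun _ => 1) VA M cA ⟨k - M0, by omega⟩ j * ξ j
        = (∑ j : Fin M, cw (fun _ => 1) k j * ξ j) / Real.sqrt (VA k) := by
      unfold nm
      rw [h3, Finset.sum_div]
      exact Finset.sum_congr rfl fun j _ => by ring
    rw [h2] at h1
    rw [Sk_A k hk'.2]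
    have h4 : 0 < Real.sqrt (VA k) := Real.sqrt_pos.2 (VA_pos k (by omega))
    have h5 := mul_nonneg h1 h4.le
    rwa [div_mul_cancel₀ _ h4.ne'] at h5
  unfold gB gA0
  exact ENNReal.toReal_mono (measure_ne_top _ _) (e1.trans (h0.trans e2))

end Pool.GP
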