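import Pool.Agent.Lib.GPX.Ident

set_option autoImplicit false

/-!
Persistence of `S_k = ∑_{i≤k} W_i/i` along the sparse sequence `k = j^4`.
-/

namespace Pool.GP

open Finset Filter Topology MeasureTheory ProbabilityTheory

lemma exp_Wg_eq {K : ℕ} (i : Fin K) (l : ℝ) (ξ : Fin K → ℝ) :
    Real.exp (l * Wg ξ i) = ∏ j : Fin K, Real.exp ((if j ≤ i then l else 0) * ξ j) := by
  rw [← Real.exp_sum]
  congr 1
  unfold Wg
  rw [Finset.mul_sum]
  refine Finset.sum_congr rfl fun j _ => ?_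
  split_ifs <;> simp

lemma integral_exp_gaussian (l : ℝ) : ∫ x : ℝ, Real.exp (l * x) ∂(gaussianReal 0 1) = Real.exp (l ^ 2 / 2) := by
  have h := congrFun (mgf_fun_id_gaussianReal (μ := 0) (v := 1)) l
  unfold mgf at h
  rw [h]
  congr 1
  push_cast
  ring

lemma integrable_exp_gaussian (l : ℝ) : Integrable (fun x : ℝ => Real.exp (l * x)) (gaussianReal 0 1) :=
  integrable_exp_mul_gaussianReal l

lemma mgf_Wg {K : ℕ} (i : Fin K) (l : ℝ) :
    mgf (fun ξ : Fin K → ℝ => Wg ξ i) (gam K) l = Real.exp (l ^ 2 * ((i:ℝ) + 1) / 2) := by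
  unfold mgf
  simp only [exp_Wg_eq]
  unfold gam
  rw [integral_fintype_prod_eq_prod (f := fun j (x : ℝ) => Real.exp ((if j ≤ i then l else 0) * x))]
  simp only [integral_exp_gaussian]
  rw [← Real.exp_sum]
  congr 1
  have h1 : ∀ j : Fin K, (if j ≤ i then l else 0) ^ 2 / 2 = if (j:ℕ) < (i:ℕ) + 1 then l ^ 2 / 2 else 0 := by
    intro j
    by_cases h : j ≤ i
    · rw [if_pos h, if_pos (by rw [Fin.le_def] at h; omega)]
    · rw [if_neg h, if_neg (by rw [Fin.le_def] at h; omega)]; simp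
  simp only [h1]
  rw [Fin.sum_univ_eq_sum_range (fun j => if j < (i:ℕ) + 1 then l ^ 2 / 2 else 0) K, ← Finset.sum_filter,
    Finset.sum_const]
  have h2 : (range K).filter (fun j => j < (i:ℕ) + 1) = range ((i:ℕ) + 1) := by
    ext j
    have := i.2
    simp only [Finset.mem_filter, Finset.mem_range]; omega
  rw [h2, Finset.card_range, nsmul_eq_mul]
  push_cast
  ring

lemma integrable_exp_Wg {K : ℕ} (i : Fin K) (l : ℝ) :
    Integrable (fun ξ : Fin K → ℝ => Real.exp (l * Wg ξ i)) (gam K) := by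
  simp only [exp_Wg_eq]
  unfold gam
  exact Integrable.fintype_prod (f := fun j (x : ℝ) => Real.exp ((if j ≤ i then l else 0) * x))
    (fun j => integrable_exp_gaussian _)

lemma Wg_tail {K : ℕ} (i : Fin K) (y : ℝ) (hy : 0 ≤ y) :
    (gam K).real {ξ | y * Real.sqrt ((i:ℝ)+1) ≤ Wg ξ i} ≤ Real.exp (-(y ^ 2 / 2)) := by
  have hs : 0 < Real.sqrt ((i:ℝ)+1) := Real.sqrt_pos.2 (by positivity)
  have hsq : Real.sqrt ((i:ℝ)+1) ^ 2 = (i:ℝ) + 1 := Real.sq_sqrt (by positivity)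
  have h := measure_ge_le_exp_mul_mgf (μ := gam K) (X := fun ξ : Fin K → ℝ => Wg ξ i)
    (y * Real.sqrt ((i:ℝ)+1)) (t := y / Real.sqrt ((i:ℝ)+1)) (by positivity) (integrable_exp_Wg i _)
  refine h.trans (le_of_eq ?_)
  rw [mgf_Wg, ← Real.exp_add]
  congr 1
  rw [div_pow, hsq]
  field_simp
  ring

lemma Wg_tail' {K : ℕ} (i : Fin K) (y : ℝ) (hy : 0 ≤ y) :
    (gam K).real {ξ | Wg ξ i ≤ -(y * Real.sqrt ((i:ℝ)+1))} ≤ Real.exp (-(y ^ 2 / 2)) := by
  have hs : 0 < Real.sqrt ((i:ℝ)+1) := Real.sqrt_pos.2 (by positivity)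
  have hsq : Real.sqrt ((i:ℝ)+1) ^ 2 = (i:ℝ) + 1 := Real.sq_sqrt (by positivity)
  have h := measure_le_le_exp_mul_mgf (μ := gam K) (X := fun ξ : Fin K → ℝ => Wg ξ i)
    (-(y * Real.sqrt ((i:ℝ)+1))) (t := -(y / Real.sqrt ((i:ℝ)+1))) (by
      have : 0 ≤ y / Real.sqrt ((i:ℝ)+1) := by positivity
      linarith) (integrable_exp_Wg i _)
  refine h.trans (le_of_eq ?_)
  rw [mgf_Wg, ← Real.exp_add]
  congr 1
  rw [neg_sq, div_pow, hsq]
  field_simp
  ring

/-- all walk values are moderate -/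
lemma Wg_all (K : ℕ) (y : ℝ) (hy : 0 ≤ y) :
    (gam K).real {ξ | ¬ ∀ i : Fin K, -(y * Real.sqrt ((i:ℝ)+1)) < Wg ξ i} ≤ K * Real.exp (-(y ^ 2 / 2)) := by
  have h1 : {ξ : Fin K → ℝ | ¬ ∀ i : Fin K, -(y * Real.sqrt ((i:ℝ)+1)) < Wg ξ i}
      ⊆ ⋃ i : Fin K, {ξ | Wg ξ i ≤ -(y * Real.sqrt ((i:ℝ)+1))} := by
    intro ξ hξ
    simp only [Set.mem_ofPred_eq] at hξ
    push Not at hξ
    obtain ⟨i, hi⟩ := hξ
    exact Set.mem_iUnion.2 ⟨i, hi⟩
  refine (measureReal_mono h1 (measure_ne_top _ _)).trans ((measureReal_iUnion_fintype_le _).trans ?_)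
  calc ∑ i : Fin K, (gam K).real {ξ | Wg ξ i ≤ -(y * Real.sqrt ((i:ℝ)+1))}
      ≤ ∑ _i : Fin K, Real.exp (-(y ^ 2 / 2)) := Finset.sum_le_sum fun i _ => Wg_tail' i y hy
    _ = K * Real.exp (-(y ^ 2 / 2)) := by simp

/-- the sum `S_k` -/
noncomputable def Sg {K : ℕ} (ξ : Fin K → ℝ) (k : ℕ) : ℝ := Sk (fun i : Fin K => Wg ξ i / ((i:ℝ)+1)) k

lemma Sk_split {K : ℕ} (x : Fin K → ℝ) (a b : ℕ) (hab : a ≤ b) :
    Sk x b = Sk x a + ∑ i : Fin K, if a ≤ (i:ℕ) ∧ (i:ℕ) < b then x i else 0 := by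
  unfold Sk
  rw [← Finset.sum_add_distrib]
  refine Finset.sum_congr rfl fun i _ => ?_
  by_cases h1 : (i:ℕ) < a
  · rw [if_pos h1, if_pos (by omega), if_neg (by omega), add_zero]
  · by_cases h2 : (i:ℕ) < b
    · rw [if_neg h1, if_pos h2, if_pos ⟨by omega, h2⟩, zero_add]
    · rw [if_neg h1, if_neg h2, if_neg (by omega), add_zero]

/-- interpolation between the sparse times -/
lemma interp {K : ℕ} (ξ : Fin K → ℝ) (y : ℝ) (hy : 0 ≤ y) (h : ∀ i : Fin K, -(y * Real.sqrt ((i:ℝ)+1)) < Wg ξ i)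
    (j k : ℕ) (hj : 1 ≤ j) (h1 : j ^ 4 ≤ k) (h2 : k < (j+1) ^ 4) (hk : k ≤ K) :
    Sg ξ (j^4) - 15 * y * j ≤ Sg ξ k := by
  unfold Sg
  rw [Sk_split _ (j^4) k h1]
  have hjr : (1:ℝ) ≤ j := by exact_mod_cast hj
  have h3 : ∀ i : Fin K, -(if j^4 ≤ (i:ℕ) ∧ (i:ℕ) < k then y / (j:ℝ)^2 else 0)
      ≤ (if j^4 ≤ (i:ℕ) ∧ (i:ℕ) < k then Wg ξ i / ((i:ℝ)+1) else 0) := by
    intro i
    by_cases hi : j^4 ≤ (i:ℕ) ∧ (i:ℕ) < k
    · rw [if_pos hi, if_pos hi]
      have hs : 0 < Real.sqrt ((i:ℝ)+1) := Real.sqrt_pos.2 (by positivity)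
      have hsq : Real.sqrt ((i:ℝ)+1) * Real.sqrt ((i:ℝ)+1) = (i:ℝ) + 1 := Real.mul_self_sqrt (by positivity)
      have h4 : (j:ℝ)^2 ≤ Real.sqrt ((i:ℝ)+1) := by
        apply Real.le_sqrt_of_sq_le
        have : ((j:ℝ)^4) ≤ i := by exact_mod_cast hi.1
        calc ((j:ℝ)^2)^2 = (j:ℝ)^4 := by ring
          _ ≤ (i:ℝ) + 1 := by linarith
      have h5 := (h i).le
      have h6 : -(y * Real.sqrt ((i:ℝ)+1)) / ((i:ℝ)+1) ≤ Wg ξ i / ((i:ℝ)+1) :=
        div_le_div_of_nonneg_right h5 (by positivity)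
      refine le_trans ?_ h6
      have e : -(y * Real.sqrt ((i:ℝ)+1)) / ((i:ℝ)+1) = -(y / Real.sqrt ((i:ℝ)+1)) := by
        have : y * Real.sqrt ((i:ℝ)+1) / ((i:ℝ)+1) = y / Real.sqrt ((i:ℝ)+1) := by
          rw [div_eq_div_iff (by positivity) hs.ne', mul_assoc, hsq]
        rw [neg_div, this]
      rw [e]
      apply neg_le_neg
      exact div_le_div_of_nonneg_left hy (by positivity) h4
    · rw [if_neg hi, if_neg hi]; simp
  have h4 := Finset.sum_le_sum (s := Finset.univ) fun i _ => h3 i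
  rw [Finset.sum_neg_distrib] at h4
  have h5 : ∑ i : Fin K, (if j^4 ≤ (i:ℕ) ∧ (i:ℕ) < k then y / (j:ℝ)^2 else 0) ≤ 15 * y * j := by
    rw [Fin.sum_univ_eq_sum_range (fun i => if j^4 ≤ i ∧ i < k then y / (j:ℝ)^2 else 0) K, ← Finset.sum_filter,
      Finset.sum_const, nsmul_eq_mul]
    have h6 : ((range K).filter (fun i => j^4 ≤ i ∧ i < k)).card ≤ k - j^4 := by
      have : (range K).filter (fun i => j^4 ≤ i ∧ i < k) ⊆ Ico (j^4) k := by
        intro i hi
        rw [Finset.mem_filter] at hi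
        rw [Finset.mem_Ico]; exact hi.2
      have := Finset.card_le_card this
      rwa [Nat.card_Ico] at this
    have h7 : k - j^4 ≤ 15 * j^3 := by
      have e : (j+1)^4 = j^4 + 4*j^3 + 6*j^2 + 4*j + 1 := by ring
      have e2 : j ≤ j^3 := Nat.le_self_pow (by norm_num) j
      have e3 : j^2 ≤ j^3 := Nat.pow_le_pow_right (by omega) (by norm_num)
      have e4 : 1 ≤ j^3 := Nat.one_le_pow _ _ (by omega)
      omega
    have h8 : (((range K).filter (fun i => j^4 ≤ i ∧ i < k)).card : ℝ) ≤ 15 * (j:ℝ)^3 := by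
      exact_mod_cast h6.trans h7
    calc (((range K).filter (fun i => j^4 ≤ i ∧ i < k)).card : ℝ) * (y / (j:ℝ)^2)
        ≤ 15 * (j:ℝ)^3 * (y / (j:ℝ)^2) := mul_le_mul_of_nonneg_right h8 (by positivity)
      _ = 15 * y * j := by field_simp
  linarith

/-- sparse persistence -/
noncomputable def gSp (j0 J : ℕ) : ℝ := (gam (J^4)).real {ξ | ∀ j ∈ Icc j0 J, 0 ≤ Sg ξ (j^4)}

/-- **Sparse persistence has the same exponent** (upper bound). -/
theorem gSp_upper (j0 : ℕ) (ε : ℝ) (hε : 0 < ε) :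
    ∀ᶠ J : ℕ in atTop, gSp j0 J ≤ (((J^4 : ℕ) : ℝ)) ^ (-(theta - ε)) := by
  have hθ := theta_nonneg
  have hθ1 := theta_le
  obtain ⟨m, hm⟩ : ∃ m : ℕ, 16 * theta / ε + 16 ≤ m := exists_nat_ge _
  have hm16 : 16 ≤ m := by
    have : (16:ℝ) ≤ m := le_trans (by have : 0 ≤ 16 * theta / ε := by positivity
                                      linarith) hm
    exact_mod_cast this
  have hmr : (16:ℝ) ≤ m := by exact_mod_cast hm16
  have hmε : 8 * theta / m ≤ ε / 2 := by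
    rw [div_le_iff₀ (by linarith)]
    have h1 : 16 * theta / ε ≤ m := by linarith
    rw [div_le_iff₀ hε] at h1
    linarith
  obtain ⟨X, hX400, hX⟩ := T1 m 2
  -- super-polynomial decay
  have hdec : ∀ᶠ K : ℕ in atTop, (K:ℝ) ^ (2:ℝ) * Real.exp (-(1/1800 * (K:ℝ) ^ (2/(m:ℝ)))) ≤ 1 := by
    have h1 := tendsto_rpow_mul_exp_neg_mul_atTop_nhds_zero (m:ℝ) (1/1800) (by norm_num)
    have h2 : Tendsto (fun K : ℕ => (K:ℝ) ^ (2/(m:ℝ))) atTop atTop :=
      (tendsto_rpow_atTop (by positivity)).comp tendsto_natCast_atTop_atTop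
    have h3 := h1.comp h2
    filter_upwards [h3.eventually_le_const (u := 1) one_pos] with K hK
    refine le_trans (le_of_eq ?_) hK
    simp only [Function.comp]
    congr 1
    · rw [← Real.rpow_mul (by positivity)]
      congr 1
      field_simp
    · congr 1; ring
  have hpow : Tendsto (fun J : ℕ => J^4) atTop atTop := tendsto_pow_atTop (by norm_num)
  have evK := (ev_const (2 * (4:ℝ) ^ theta + 1) (ε/2) (by positivity)).and ((ev_const X (1/(m:ℝ)) (by positivity)).and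
    ((eventually_ge_atTop 2).and (hdec.and (ev_const ((j0:ℝ)+1) (1/(m:ℝ)) (by positivity)))))
  filter_upwards [hpow.eventually evK] with J hJ
  obtain ⟨h1, h2, h3, h4, h5⟩ := hJ
  set K : ℕ := J^4 with hK
  have hKr : (2:ℝ) ≤ K := by exact_mod_cast h3
  have hK0 : (0:ℝ) < K := by linarith
  set x : ℝ := (K:ℝ) ^ (1/(m:ℝ)) with hx
  have hx400 : 400 ≤ x := hX400.trans h2
  have hx0 : 0 < x := by linarith
  have hx1 : 1 ≤ x := by linarith
  have hxm : x ^ m = K := by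
    rw [hx, ← Real.rpow_natCast, ← Real.rpow_mul hK0.le, one_div_mul_cancel (by linarith), Real.rpow_one]
  have hx2K : (K:ℝ) ^ (2/(m:ℝ)) = x ^ 2 := by
    rw [hx, ← Real.rpow_natCast, ← Real.rpow_mul hK0.le]; congr 1; push_cast; ring
  have hx8 : 1 ≤ x ^ 8 := one_le_pow₀ hx1
  set K1 : ℕ := ⌈x ^ 8⌉₊ with hK1
  have hK1a : x ^ 8 ≤ K1 := Nat.le_ceil _
  have hK1b : (K1:ℝ) ≤ 2 * x ^ 8 := by
    have : (K1:ℝ) < x ^ 8 + 1 := Nat.ceil_lt_add_one (by positivity)
    linarith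
  have hK1pos : 1 ≤ K1 := by
    have : (1:ℝ) ≤ K1 := hx8.trans hK1a
    exact_mod_cast this
  have hK1r : (1:ℝ) ≤ K1 := by exact_mod_cast hK1pos
  have hbig : 4 * x ^ 8 ≤ K := by
    rw [← hxm]
    calc 4 * x ^ 8 ≤ x * x ^ 8 := mul_le_mul_of_nonneg_right (by linarith) (by positivity)
      _ = x ^ 9 := by ring
      _ ≤ x ^ m := pow_le_pow_right₀ hx1 (by omega)
  set R : ℕ := K / K1 with hR
  have hRK : R * K1 ≤ K := Nat.div_mul_le_self _ _
  have hR2 : 2 ≤ R := by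
    rw [hR, Nat.le_div_iff_mul_le (by omega)]
    have : (2:ℝ) * K1 ≤ K := by linarith
    exact_mod_cast this
  have hRlow : (K:ℝ) / (4 * x ^ 8) ≤ R := by
    have h5 := Nat.lt_div_mul_add (a := K) (b := K1) (by omega)
    have h6 : (K:ℝ) < R * K1 + K1 := by exact_mod_cast h5
    have h7 : (2:ℝ) ≤ R := by exact_mod_cast hR2
    rw [div_le_iff₀ (by positivity)]
    have h8 : (K:ℝ) ≤ 2 * (R * K1) := by nlinarith
    have h9 : (R:ℝ) * K1 ≤ R * (2 * x ^ 8) := mul_le_mul_of_nonneg_left hK1b (by linarith)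
    linarith
  -- the walk bound
  have h6 : ∀ A : ℕ, x ^ 20 * (R * K1 : ℕ) ≤ A → G A K1 K (-(2/x)) ≤ 2 * (R:ℝ) ^ (-theta) := by
    intro A hA
    refine (G_anti_K A K1 (R * K1) K _ hRK).trans ?_
    refine hX x h2 K1 R A hK1a hR2 ?_ hA _ ?_
    · rw [hxm]; exact_mod_cast hRK
    · rw [abs_neg, abs_of_pos (by positivity)]; push_cast; exact le_rfl
  have h7 : gB K1 K (-(1/x)) ≤ 2 * (R:ℝ) ^ (-theta) := by
    refine gB_le K1 K hK1pos (-(1/x)) (-(2/x)) _ (by
      apply neg_lt_neg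
      exact div_lt_div_of_pos_right (by norm_num) hx0) (by positivity) ?_
    refine Eventually.frequently ?_
    filter_upwards [eventually_ge_atTop ⌈x ^ 20 * (R * K1 : ℕ)⌉₊] with A hA
    exact h6 A ((Nat.le_ceil _).trans (by exact_mod_cast hA))
  -- interpolation
  have h8 : gSp j0 J ≤ gB K1 K (-(1/x)) + K * Real.exp (-((x/30) ^ 2 / 2)) := by
    have hsub : {ξ : Fin (J^4) → ℝ | ∀ j ∈ Icc j0 J, 0 ≤ Sg ξ (j^4)}
        ⊆ {ξ | ∀ k ∈ Icc K1 K, -(1/x) * Real.sqrt k ≤ Sk (fun i : Fin K => Wg ξ i / ((i:ℝ)+1)) k}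
          ∪ {ξ | ¬ ∀ i : Fin K, -((x/30) * Real.sqrt ((i:ℝ)+1)) < Wg ξ i} := by
      intro ξ hξ
      by_cases hW : ∀ i : Fin K, -((x/30) * Real.sqrt ((i:ℝ)+1)) < Wg ξ i
      · left
        intro k hk
        have hk' := Finset.mem_Icc.1 hk
        -- j = floor of the fourth root
        obtain ⟨j, hj1, hj2⟩ : ∃ j : ℕ, j^4 ≤ k ∧ k < (j+1)^4 := by
          refine ⟨Nat.findGreatest (fun j => j^4 ≤ k) k, ?_, ?_⟩
          · exact Nat.findGreatest_spec (P := fun j => j^4 ≤ k) (Nat.zero_le k) (by simp)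
          · by_contra hcon
            push Not at hcon
            have hle : Nat.findGreatest (fun j => j^4 ≤ k) k + 1 ≤ k :=
              (Nat.le_self_pow (by norm_num) _).trans hcon
            have := Nat.le_findGreatest (P := fun j => j^4 ≤ k) hle hcon
            omega
        have hkx : x ^ 8 ≤ k := hK1a.trans (by exact_mod_cast hk'.1)
        have hjx : x ^ 2 < (j:ℝ) + 1 := by
          have h9 : (x^2)^4 < ((j:ℝ)+1)^4 := by
            calc (x^2)^4 = x ^ 8 := by ring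
              _ ≤ (k:ℝ) := hkx
              _ < ((j:ℝ)+1)^4 := by exact_mod_cast hj2
          exact lt_of_pow_lt_pow_left₀ 4 (by positivity) h9
        have hjx2 : x ≤ j := by nlinarith
        have hj0 : 1 ≤ j := by
          have : (1:ℝ) ≤ j := by linarith
          exact_mod_cast this
        have hjj0 : j0 ≤ j := by
          have : (j0:ℝ) ≤ j := by linarith
          exact_mod_cast this
        have hjJ : j ≤ J := by
          by_contra hcon
          push Not at hcon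
          have := Nat.pow_le_pow_left hcon 4
          have h9 : (J+1)^4 ≤ j^4 := this
          have h10 : J^4 < (J+1)^4 := Nat.pow_lt_pow_left (by omega) (by norm_num)
          omega
        have h9 := hξ j (Finset.mem_Icc.2 ⟨hjj0, hjJ⟩)
        have h10 := interp ξ (x/30) (by positivity) hW j k hj0 hj1 hj2 hk'.2
        change -(1/x) * Real.sqrt k ≤ Sg ξ k
        refine le_trans ?_ h10
        have h11 : x * (x * j / 2) ≤ Real.sqrt k := by
          apply Real.le_sqrt_of_sq_le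
          have h12 : ((j:ℝ))^4 ≤ k := by exact_mod_cast hj1
          have h13 : x ^ 2 / 2 ≤ j := by nlinarith
          have h14 : x * (x * j / 2) ≤ (j:ℝ)^2 := by nlinarith
          calc (x * (x * j / 2))^2 ≤ ((j:ℝ)^2)^2 := pow_le_pow_left₀ (by positivity) h14 2
            _ = (j:ℝ)^4 := by ring
            _ ≤ (k:ℝ) := h12
        have h12 : x * j / 2 ≤ Real.sqrt k / x := by
          rw [le_div_iff₀ hx0]; linarith
        have e : -(1/x) * Real.sqrt k = -(Real.sqrt k / x) := by ring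
        rw [e]
        have e2 : 15 * (x/30) * (j:ℝ) = x * j / 2 := by ring
        rw [e2]
        linarith
      · right; exact hW
    have h9 := (measureReal_mono (μ := gam K) hsub (measure_ne_top _ _)).trans (measureReal_union_le _ _)
    refine h9.trans ?_
    have h10 := Wg_all K (x/30) (by positivity)
    unfold gB
    linarith
  have h9 : (K:ℝ) * Real.exp (-((x/30) ^ 2 / 2)) ≤ (K:ℝ) ^ (-theta) := by
    have h10 : (K:ℝ) * Real.exp (-((x/30) ^ 2 / 2)) ≤ (K:ℝ) ^ (-(1:ℝ)) := by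
      rw [hx2K] at h4
      have e1 : -(1/1800 * x ^ 2) = -((x/30) ^ 2 / 2) := by ring
      rw [e1] at h4
      have e2 : (K:ℝ) ^ (2:ℝ) = K * K := by rw [← sq]; norm_cast
      rw [e2] at h4
      rw [Real.rpow_neg hK0.le, Real.rpow_one, ← one_div, le_div_iff₀ hK0]
      linarith
    exact h10.trans (Real.rpow_le_rpow_of_exponent_le (by linarith) (by linarith))
  have h10 : (R:ℝ) ^ (-theta) ≤ ((K:ℝ) / (4 * x ^ 8)) ^ (-theta) :=
    Real.rpow_le_rpow_of_nonpos (by positivity) hRlow (by linarith)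
  have h11 : ((K:ℝ) / (4 * x ^ 8)) ^ (-theta) = (4:ℝ) ^ theta * (K:ℝ) ^ (-(theta - 8 * theta / m)) := by
    have e1 : x ^ 8 = (K:ℝ) ^ (8 / (m:ℝ)) := by
      rw [hx, ← Real.rpow_natCast, ← Real.rpow_mul hK0.le]; congr 1; push_cast; ring
    rw [e1, Real.rpow_neg (by positivity), ← Real.inv_rpow (by positivity), inv_div, mul_div_assoc,
      Real.mul_rpow (by norm_num) (by positivity), Real.div_rpow (by positivity) (by positivity),
      ← Real.rpow_mul hK0.le, ← Real.rpow_sub hK0]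
    congr 2
    ring
  have h12 : (K:ℝ) ^ (-(theta - 8 * theta / m)) ≤ (K:ℝ) ^ (-(theta - ε/2)) :=
    Real.rpow_le_rpow_of_exponent_le (by linarith) (by linarith)
  have h13 : (K:ℝ) ^ (-theta) ≤ (K:ℝ) ^ (-(theta - ε/2)) :=
    Real.rpow_le_rpow_of_exponent_le (by linarith) (by linarith)
  have h14 : (0:ℝ) < (4:ℝ) ^ theta := by positivity
  calc gSp j0 J ≤ gB K1 K (-(1/x)) + K * Real.exp (-((x/30) ^ 2 / 2)) := h8
    _ ≤ 2 * ((4:ℝ) ^ theta * (K:ℝ) ^ (-(theta - 8 * theta / m))) + (K:ℝ) ^ (-theta) := by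
        rw [← h11]; linarith
    _ ≤ (2 * (4:ℝ) ^ theta + 1) * (K:ℝ) ^ (-(theta - ε/2)) := by nlinarith
    _ ≤ (K:ℝ) ^ (ε/2) * (K:ℝ) ^ (-(theta - ε/2)) := mul_le_mul_of_nonneg_right h1 (by positivity)
    _ = (K:ℝ) ^ (-(theta - ε)) := by rw [← Real.rpow_add hK0]; congr 1; ring

end Pool.GP
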