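import Pool.Agent.Lib.GPX.CorrStrict
import Pool.Agent.Lib.GPX.Sparse
import Pool.Agent.Lib.GPX.SlepApp

set_option autoImplicit false

/-!
`theta` as the persistence exponent of the stationary Gaussian process with covariance
`(1+|τ|/2) e^{-|τ|/2}`.
-/

namespace Pool.GP

open Finset Filter Topology MeasureTheory ProbabilityTheory

/-- correlation of `S_k, S_l` -/
noncomputable def co (k l : ℕ) : ℝ := CS (min k l) (max k l) / (Real.sqrt (VS k) * Real.sqrt (VS l))

lemma co_comm (k l : ℕ) : co k l = co l k := by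
  unfold co; rw [min_comm, max_comm, mul_comm (Real.sqrt (VS k))]

lemma co_of_le {k l : ℕ} (h : k ≤ l) : co k l = CS k l / (Real.sqrt (VS k) * Real.sqrt (VS l)) := by
  unfold co; rw [min_eq_left h, max_eq_right h]

lemma co_self (k : ℕ) (hk : 1 ≤ k) : co k k = 1 := by
  rw [co_of_le le_rfl, VS_eq, Real.mul_self_sqrt (VS_pos k hk).le, div_self (VS_pos k hk).ne']

/-- times in the discrete model -/
noncomputable def kM (t : ℝ) (M : ℕ) : ℕ := ⌊Real.exp t * M⌋₊

lemma kM_mono {s t : ℝ} (h : s ≤ t) (M : ℕ) : kM s M ≤ kM t M :=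
  Nat.floor_mono (mul_le_mul_of_nonneg_right (Real.exp_le_exp.2 h) (Nat.cast_nonneg M))

lemma le_kM {t : ℝ} (h : 0 ≤ t) (M : ℕ) : M ≤ kM t M := by
  apply Nat.le_floor
  have := Real.one_le_exp h
  have hM : (0:ℝ) ≤ M := Nat.cast_nonneg M
  nlinarith

lemma kM_le (t : ℝ) (M : ℕ) : (kM t M : ℝ) ≤ Real.exp t * M := Nat.floor_le (by positivity)

lemma kM_div (t : ℝ) : Tendsto (fun M : ℕ => (kM t M : ℝ) / M) atTop (𝓝 (Real.exp t)) :=
  (tendsto_nat_floor_mul_div_atTop (Real.exp_pos t).le).comp tendsto_natCast_atTop_atTop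

lemma kM_atTop (t : ℝ) : Tendsto (fun M : ℕ => kM t M) atTop atTop :=
  tendsto_nat_floor_atTop.comp (tendsto_natCast_atTop_atTop.const_mul_atTop (Real.exp_pos t))

lemma Hr_sub_log : ∃ γ : ℝ, Tendsto (fun n : ℕ => Hr n - Real.log n) atTop (𝓝 γ) := by
  refine ⟨_, (Real.tendsto_harmonic_sub_log).congr fun n => ?_⟩
  unfold harmonic Hr
  push_cast
  simp [one_div]

lemma Hr_div_tendsto : Tendsto (fun n : ℕ => Hr n / n) atTop (𝓝 0) := by
  have h1 : Tendsto (fun n : ℕ => 5 * (n:ℝ) ^ (-(3/4:ℝ))) atTop (𝓝 (5 * 0)) :=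
    ((tendsto_rpow_neg_atTop (by norm_num)).comp tendsto_natCast_atTop_atTop).const_mul 5
  rw [mul_zero] at h1
  refine tendsto_of_tendsto_of_tendsto_of_le_of_le' tendsto_const_nhds h1 ?_ ?_
  · filter_upwards [eventually_ge_atTop 1] with n hn
    have := one_le_Hr n hn
    positivity
  · filter_upwards [eventually_ge_atTop 1] with n hn
    have hn0 : (0:ℝ) < n := by exact_mod_cast hn
    have hn1 : (1:ℝ) ≤ n := by exact_mod_cast hn
    have h3 := Hr_le_log n hn
    have h4 := Real.log_le_rpow_div hn0.le (ε := 1/4) (by norm_num)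
    have h5 : (1:ℝ) ≤ (n:ℝ) ^ (1/4:ℝ) := Real.one_le_rpow hn1 (by norm_num)
    have h6 : Hr n ≤ 5 * (n:ℝ) ^ (1/4:ℝ) := by
      have : (n:ℝ) ^ (1/4:ℝ) / (1/4) = 4 * (n:ℝ) ^ (1/4:ℝ) := by ring
      rw [this] at h4; linarith
    have e3 : (n:ℝ) ^ (-(3/4:ℝ)) = (n:ℝ) ^ (1/4:ℝ) / n := by
      rw [eq_div_iff hn0.ne', ← Real.rpow_add_one hn0.ne']; norm_num
    rw [e3, ← mul_div_assoc]
    exact div_le_div_of_nonneg_right h6 hn0.le

lemma kM_ratio (s t : ℝ) : Tendsto (fun M : ℕ => (kM s M : ℝ) / kM t M) atTop (𝓝 (Real.exp (s - t))) := by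
  have h := (kM_div s).div (kM_div t) (Real.exp_pos t).ne'
  rw [← Real.exp_sub] at h
  refine h.congr' ?_
  filter_upwards [eventually_ge_atTop 1] with M hM
  have hM0 : (M:ℝ) ≠ 0 := by
    have : 0 < M := hM
    positivity
  simp only [Pi.div_apply]
  rw [div_div_div_cancel_right₀ hM0]

lemma Hr_diff (s t : ℝ) : Tendsto (fun M : ℕ => Hr (kM t M) - Hr (kM s M)) atTop (𝓝 (t - s)) := by
  obtain ⟨γ, hγ⟩ := Hr_sub_log
  have h1 := hγ.comp (kM_atTop t)
  have h2 := hγ.comp (kM_atTop s)
  have h3 : Tendsto (fun M : ℕ => Real.log ((kM t M : ℝ) / kM s M)) atTop (𝓝 (t - s)) := by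
    have := (kM_ratio t s).log (Real.exp_pos _).ne'
    rwa [Real.log_exp] at this
  have h4 := (h1.sub h2).add h3
  rw [sub_self, zero_add] at h4
  refine h4.congr' ?_
  filter_upwards [(kM_atTop t).eventually_ge_atTop 1, (kM_atTop s).eventually_ge_atTop 1] with M ht hs
  have ht0 : (0:ℝ) < kM t M := by exact_mod_cast ht
  have hs0 : (0:ℝ) < kM s M := by exact_mod_cast hs
  rw [Real.log_div ht0.ne' hs0.ne']
  simp only [Function.comp]
  ring

/-- convergence of the correlations -/
lemma co_limit_le (s t : ℝ) (hst : s ≤ t) :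
    Tendsto (fun M : ℕ => co (kM s M) (kM t M)) atTop (𝓝 (rM (s - t))) := by
  have hu1 := Hr_div_tendsto.comp (kM_atTop s)
  have hu2 := Hr_div_tendsto.comp (kM_atTop t)
  have hd := Hr_diff s t
  have hr := (kM_ratio s t).sqrt
  have hnum := (hu1.const_sub 2).add hd
  have h2ne : Real.sqrt (2 - 0) * Real.sqrt (2 - 0) ≠ 0 := by
    rw [Real.mul_self_sqrt (by norm_num)]; norm_num
  have hden := (hu1.const_sub 2).sqrt.mul (hu2.const_sub 2).sqrt
  have hmain := (hr.mul hnum).div hden h2ne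
  have hlim : Real.sqrt (Real.exp (s - t)) * (2 - 0 + (t - s)) / (Real.sqrt (2 - 0) * Real.sqrt (2 - 0)) = rM (s - t) := by
    rw [Real.mul_self_sqrt (by norm_num)]
    have h1 : rM (s - t) = rM (t - s) := by rw [← rM_neg (t - s), neg_sub]
    rw [h1, rM_of_nonneg (by linarith)]
    have h2 : Real.sqrt (Real.exp (s - t)) = Real.exp (-((t - s) / 2)) := by
      rw [Real.sqrt_eq_iff_mul_self_eq (Real.exp_pos _).le (Real.exp_pos _).le, ← Real.exp_add]
      congr 1; ring
    rw [h2]
    ring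
  rw [hlim] at hmain
  refine hmain.congr' ?_
  filter_upwards [(kM_atTop t).eventually_ge_atTop 1, (kM_atTop s).eventually_ge_atTop 1] with M ht hs
  have ht0 : (0:ℝ) < kM t M := by exact_mod_cast ht
  have hs0 : (0:ℝ) < kM s M := by exact_mod_cast hs
  rw [co_of_le (kM_mono hst M)]
  set k := kM s M with hk
  set l := kM t M with hl
  simp only [Pi.div_apply, Function.comp, ← hk, ← hl]
  have hkk := Hr_le_self k
  have hll := Hr_le_self l
  have hVk : VS k = k * (2 - Hr k / k) := by unfold VS; field_simp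
  have hVl : VS l = l * (2 - Hr l / l) := by unfold VS; field_simp
  have hC : CS k l = k * (2 - Hr k / k + (Hr l - Hr k)) := by unfold CS; field_simp; ring
  rw [hVk, hVl, hC, Real.sqrt_mul hs0.le, Real.sqrt_mul ht0.le, Real.sqrt_div hs0.le]
  have h1 : Real.sqrt k * Real.sqrt k = k := Real.mul_self_sqrt hs0.le
  have hsk : 0 < Real.sqrt k := Real.sqrt_pos.2 hs0
  have hsl : 0 < Real.sqrt l := Real.sqrt_pos.2 ht0
  have ha : 0 < Real.sqrt (2 - Hr k / k) := Real.sqrt_pos.2 (by
    have : Hr k / k ≤ 1 := by rw [div_le_one hs0]; exact hkk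
    linarith)
  have hb : 0 < Real.sqrt (2 - Hr l / l) := Real.sqrt_pos.2 (by
    have : Hr l / l ≤ 1 := by rw [div_le_one ht0]; exact hll
    linarith)
  rw [div_eq_div_iff (by positivity) (by positivity)]
  set X := 2 - Hr k / k + (Hr l - Hr k)
  have : Real.sqrt k / Real.sqrt l * X * (Real.sqrt k * Real.sqrt (2 - Hr k / k) * (Real.sqrt l * Real.sqrt (2 - Hr l / l)))
      = (Real.sqrt k * Real.sqrt k) * X * (Real.sqrt (2 - Hr k / k) * Real.sqrt (2 - Hr l / l)) := by
    field_simp
  rw [this, h1]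

lemma co_limit (s t : ℝ) : Tendsto (fun M : ℕ => co (kM s M) (kM t M)) atTop (𝓝 (rM (s - t))) := by
  rcases le_total s t with h | h
  · exact co_limit_le s t h
  · have h1 := co_limit_le t s h
    have h2 : rM (t - s) = rM (s - t) := by rw [← rM_neg (t - s), neg_sub]
    rw [h2] at h1
    exact h1.congr fun M => co_comm _ _

/-- Gram entries -/
lemma gram_co {n : ℕ} (K : ℕ) (c : Fin n → ℕ) (hcK : ∀ i, c i ≤ K) (i i' : Fin n) :
    ∑ j, nm wS VS K c i j * nm wS VS K c i' j = co (c i) (c i') := by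
  rw [nm_gram]
  unfold co
  rcases le_total (c i) (c i') with h | h
  · rw [min_eq_left h, max_eq_right h, cc_S K _ _ h (hcK i)]; rfl
  · rw [min_eq_right h, max_eq_left h, cc_comm, cc_S K _ _ h (hcK i')]; rfl

lemma isG_co {n : ℕ} (K : ℕ) (c : Fin n → ℕ) (hcK : ∀ i, c i ≤ K) :
    IsG ((gam K).map (Lrc (nm wS VS K c))) (fun i i' => co (c i) (c i')) :=
  (isG_Lrc (nm wS VS K c)).congr fun i j => gram_co K c hcK i j

lemma qf_co_nonneg {n : ℕ} (c : Fin n → ℕ) (x : Fin n → ℝ) : 0 ≤ qf (fun i i' => co (c i) (c i')) x := by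
  obtain ⟨K, hK⟩ : ∃ K, ∀ i, c i ≤ K := by
    refine ⟨∑ i, c i, fun i => Finset.single_le_sum (f := c) (fun _ _ => Nat.zero_le _) (Finset.mem_univ i)⟩
  have h := qf_gram (nm wS VS K c) x
  have e : (fun k l => ∑ j, nm wS VS K c k j * nm wS VS K c l j) = (fun i i' => co (c i) (c i')) := by
    funext i j; exact gram_co K c hK i j
  rw [e] at h
  rw [h]
  exact Finset.sum_nonneg fun j _ => sq_nonneg _

lemma qf_tendsto {n : ℕ} (S : ℕ → Fin n → Fin n → ℝ) (T : Fin n → Fin n → ℝ)
    (h : ∀ i j, Tendsto (fun M => S M i j) atTop (𝓝 (T i j))) (x : Fin n → ℝ) :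
    Tendsto (fun M => qf (S M) x) atTop (𝓝 (qf T x)) := by
  unfold qf
  exact tendsto_finsetSum _ fun k _ => tendsto_finsetSum _ fun l _ => (h k l).const_mul _

/-- the covariance matrix is positive semidefinite -/
lemma qf_rM_nonneg {n : ℕ} (t : Fin n → ℝ) (x : Fin n → ℝ) : 0 ≤ qf (fun i j => rM (t i - t j)) x :=
  ge_of_tendsto (qf_tendsto (fun M i j => co (kM (t i) M) (kM (t j) M)) _ (fun i j => co_limit (t i) (t j)) x)
    (Eventually.of_forall fun M => qf_co_nonneg (fun i => kM (t i) M) x)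

/-- law of the process at the times `t` -/
noncomputable def lawX {n : ℕ} (t : Fin n → ℝ) : Measure (EV n) :=
  multivariateGaussian 0 (Matrix.of fun i j => rM (t i - t j))

lemma qf_eq_dot {n : ℕ} (S : Fin n → Fin n → ℝ) (t : Fin n → ℝ) :
    dotProduct t ((Matrix.of S).mulVec t) = qf S t := by
  unfold dotProduct Matrix.mulVec dotProduct qf
  refine Finset.sum_congr rfl fun k _ => ?_
  rw [Finset.mul_sum]
  refine Finset.sum_congr rfl fun l _ => ?_
  change t k * (S k l * t l) = _
  ring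

lemma isG_lawX {n : ℕ} (t : Fin n → ℝ) : IsG (lawX t) (fun i j => rM (t i - t j)) := by
  have hS : (Matrix.of fun i j : Fin n => rM (t i - t j)).PosSemidef := by
    rw [Matrix.posSemidef_iff_dotProduct_mulVec]
    refine ⟨?_, fun x => ?_⟩
    · ext i j
      rw [Matrix.conjTranspose_apply, Matrix.of_apply, Matrix.of_apply, star_trivial, ← rM_neg, neg_sub]
    · rw [star_trivial, qf_eq_dot]; exact qf_rM_nonneg t x
  unfold lawX
  refine ⟨inferInstance, fun x => ?_⟩
  rw [charFun_multivariateGaussian hS]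
  have := qf_eq_dot (fun i j => rM (t i - t j)) x
  rw [inner_zero_right, Complex.ofReal_exp]
  congr 1
  rw [this]
  push_cast
  ring

/-- persistence probability at the times `t` -/
noncomputable def persV {n : ℕ} (t : Fin n → ℝ) : ℝ := (lawX t).real {x | ∀ i, 0 ≤ x i}

/-- weak convergence of the discrete model -/
lemma lawX_tendsto {n : ℕ} (t : Fin n → ℝ) (T : ℝ) (ht : ∀ i, t i ≤ T) :
    ∃ (μ : ℕ → ProbabilityMeasure (EV n)) (ν : ProbabilityMeasure (EV n)),
      (∀ M, (μ M : Measure (EV n)) = (gam (kM T M)).map (Lrc (nm wS VS (kM T M) (fun i => kM (t i) M))))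
      ∧ (ν : Measure (EV n)) = lawX t ∧ Tendsto μ atTop (𝓝 ν) := by
  have h1 : ∀ M, IsG ((gam (kM T M)).map (Lrc (nm wS VS (kM T M) (fun i => kM (t i) M))))
      (fun i i' => co (kM (t i) M) (kM (t i') M)) :=
    fun M => isG_co (kM T M) (fun i => kM (t i) M) (fun i => kM_mono (ht i) M)
  have h2 := isG_lawX t
  refine ⟨fun M => ⟨_, (h1 M).1⟩, ⟨lawX t, h2.1⟩, fun M => rfl, rfl, ?_⟩
  apply ProbabilityMeasure.tendsto_of_tendsto_charFun
  intro c
  change Tendsto (fun M => charFun ((gam (kM T M)).map (Lrc (nm wS VS (kM T M) (fun i => kM (t i) M)))) c) atTop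
    (𝓝 (charFun (lawX t) c))
  rw [h2.2 c]
  simp only [fun M => (h1 M).2 c]
  refine (Complex.continuous_ofReal.tendsto _).comp ?_
  refine (Real.continuous_exp.tendsto _).comp ?_
  exact ((qf_tendsto _ _ (fun i j => co_limit (t i) (t j)) c).div_const 2).neg

lemma isClosed_orth {n : ℕ} (a : Fin n → ℝ) : IsClosed (orth a) := by
  have : orth a = ⋂ i, {y : EV n | a i ≤ y i} := by ext y; simp [orth]
  rw [this]
  exact isClosed_iInter fun i => isClosed_le continuous_const (by fun_prop)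

lemma isOpen_orth' {n : ℕ} : IsOpen {y : EV n | ∀ i, 0 < y i} := by
  have : {y : EV n | ∀ i, 0 < y i} = ⋂ i, {y : EV n | 0 < y i} := by ext y; simp
  rw [this]
  exact isOpen_iInter_of_finite fun i => isOpen_lt continuous_const (by fun_prop)

/-- **Lower bound for the continuous model.** -/
theorem persV_lower (ε : ℝ) (hε : 0 < ε) : ∃ c : ℝ, 0 < c ∧ ∀ (T : ℝ) (n : ℕ) (t : Fin n → ℝ),
    (∀ i, 0 ≤ t i ∧ t i ≤ T) → 0 ≤ T → c * Real.exp (-((theta + ε) * T)) ≤ persV t := by
  obtain ⟨c, hc, N, hN, hT⟩ := T2 ε hε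
  refine ⟨c, hc, fun T n t ht hT0 => ?_⟩
  have hθ := theta_nonneg
  obtain ⟨μ, ν, hμ, hν, hlim⟩ := lawX_tendsto t T (fun i => (ht i).2)
  have key : ∀ M : ℕ, N ≤ M → ENNReal.ofReal (c * Real.exp (-((theta + ε) * T))) ≤ (μ M : Measure (EV n)) (orth (fun _ => 0)) := by
    intro M hM
    have hM1 : 1 ≤ M := hN.trans hM
    have hM0 : (0:ℝ) < M := by exact_mod_cast hM1
    have hK : M ≤ kM T M := le_kM hT0 M
    have h1 : c * Real.exp (-((theta + ε) * T)) ≤ gB M (kM T M) 0 := by
      apply gB_ge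
      apply Eventually.frequently
      filter_upwards [eventually_ge_atTop (N * kM T M)] with A hA
      refine le_trans ?_ (hT M (kM T M) A hM hK hA)
      apply mul_le_mul_of_nonneg_left _ hc.le
      have h2 : (kM T M : ℝ) / M ≤ Real.exp T := by
        rw [div_le_iff₀ hM0]; exact kM_le T M
      have h3 : (0:ℝ) < (kM T M : ℝ) / M := by
        have : (0:ℝ) < kM T M := lt_of_lt_of_le hM0 (by exact_mod_cast hK)
        positivity
      have h4 := Real.rpow_le_rpow_of_nonpos h3 h2 (by linarith : -(theta + ε) ≤ 0)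
      refine le_trans (le_of_eq ?_) h4
      rw [← Real.exp_mul]; congr 1; ring
    rw [hμ, Lrc_orth]
    refine (ENNReal.ofReal_le_ofReal h1).trans ?_
    unfold gB
    rw [ofReal_measureReal]
    apply measure_mono
    intro ξ hξ i
    have h5 := hξ (kM (t i) M) (Finset.mem_Icc.2 ⟨le_kM (ht i).1 M, kM_mono (ht i).2 M⟩)
    rw [zero_mul, Sk_S _ (kM_mono (ht i).2 M)] at h5
    have h6 : ∑ j, nm wS VS (kM T M) (fun i => kM (t i) M) i j * ξ j
        = (∑ j : Fin (kM T M), cw wS (kM (t i) M) j * ξ j) / Real.sqrt (VS (kM (t i) M)) := by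
      unfold nm
      rw [Finset.sum_div]
      exact Finset.sum_congr rfl fun j _ => by ring
    rw [h6]
    exact div_nonneg h5 (Real.sqrt_nonneg _)
  have h2 := closed_ge hlim (isClosed_orth _) _
    ((eventually_ge_atTop N).mono fun M hM => key M hM).frequently
  rw [hν] at h2
  unfold persV
  have := (isG_lawX t).1
  rw [← ENNReal.ofReal_le_ofReal_iff measureReal_nonneg, ofReal_measureReal]
  exact h2

/-- coordinates have no atom at `0` -/
lemma coord_null {n : ℕ} {ν : Measure (EV n)} {S : Fin n → Fin n → ℝ} (h : IsG ν S) (i : Fin n) (hS : S i i = 1) :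
    ν {x | x i = 0} = 0 := by
  have := h.1
  have hmeas : Measurable (fun x : EV n => x i) := by fun_prop
  have hlaw : ν.map (fun x : EV n => x i) = gaussianReal 0 1 := by
    have hp : IsProbabilityMeasure (ν.map (fun x : EV n => x i)) := Measure.isProbabilityMeasure_map hmeas.aemeasurable
    apply Measure.ext_of_charFun
    funext s
    rw [charFun_gaussianReal, charFun_apply_real, integral_map hmeas.aemeasurable (by fun_prop)]
    have h1 := h.2 (EuclideanSpace.single i s)
    rw [charFun_apply] at h1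
    have h2 : ∀ x : EV n, Complex.exp ((s:ℂ) * ((x i : ℝ) : ℂ) * Complex.I)
        = Complex.exp ((inner ℝ x (EuclideanSpace.single i s) : ℝ) * Complex.I) := by
      intro x
      congr 2
      rw [EuclideanSpace.inner_single_right]
      simp
    simp only [h2]
    rw [h1]
    have h3 : qf S (EuclideanSpace.single i s : EV n) = s ^ 2 := by
      unfold qf
      rw [Finset.sum_eq_single i]
      · rw [Finset.sum_eq_single i]
        · simp [hS]; ring
        · intro j _ hj; simp [hj]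
        · intro h; exact absurd (Finset.mem_univ _) h
      · intro j _ hj
        apply Finset.sum_eq_zero
        intro k _
        simp [hj]
      · intro h; exact absurd (Finset.mem_univ _) h
    rw [h3]
    push_cast
    congr 1
    simp
  have h1 : {x : EV n | x i = 0} = (fun x : EV n => x i) ⁻¹' {0} := by ext x; simp
  have hna : NullSingletonClass (gaussianReal 0 1) := nullSingletonClass_gaussianReal one_ne_zero
  rw [h1, ← Measure.map_apply hmeas (measurableSet_singleton 0), hlaw]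
  exact measure_singleton 0


/-- sparse times in logarithmic scale -/
noncomputable def ts (e : ℝ) (j0 J : ℕ) (i : Fin (J - j0 + 1)) : ℝ :=
  (1 + e) * (4 * Real.log (((j0 + (i:ℕ) : ℕ) : ℝ) / j0))

lemma kM_lt {s t : ℝ} (h : s < t) : ∀ᶠ M : ℕ in atTop, kM s M < kM t M := by
  have h1 := (kM_div t).sub (kM_div s)
  have h2 : 0 < Real.exp t - Real.exp s := sub_pos.2 (Real.exp_lt_exp.2 h)
  filter_upwards [h1.eventually_const_lt h2, eventually_ge_atTop 1] with M h3 hM
  have hM0 : (0:ℝ) < M := by exact_mod_cast hM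
  rw [← sub_div] at h3
  have h4 : (0:ℝ) < kM t M - kM s M := by
    by_contra hc
    push Not at hc
    exact absurd h3 (not_lt.2 (div_nonpos_of_nonpos_of_nonneg hc hM0.le))
  have h5 : (kM s M : ℝ) < kM t M := by linarith
  exact_mod_cast h5

/-- **Upper bound for the continuous model at well chosen times.** -/
theorem persV_upper (e : ℝ) (he : 0 < e) : ∃ j0 : ℕ, 2 ≤ j0 ∧ ∀ J : ℕ, j0 ≤ J →
    persV (ts e j0 J) ≤ gSp j0 J := by
  obtain ⟨j0, hj0, hcorr⟩ := corr_strict e he
  refine ⟨j0, hj0, fun J hJ => ?_⟩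
  have hj0r : (0:ℝ) < j0 := by exact_mod_cast (by omega : 0 < j0)
  set n := J - j0 + 1 with hn
  set t : Fin n → ℝ := ts e j0 J with ht
  -- differences
  have htdiff : ∀ i i' : Fin n, t i' - t i
      = (1 + e) * (4 * Real.log (((j0 + (i':ℕ) : ℕ) : ℝ) / ((j0 + (i:ℕ) : ℕ) : ℝ))) := by
    intro i i'
    have h1 : (0:ℝ) < ((j0 + (i:ℕ) : ℕ) : ℝ) := by exact_mod_cast (by omega : 0 < j0 + (i:ℕ))
    have h2 : (0:ℝ) < ((j0 + (i':ℕ) : ℕ) : ℝ) := by exact_mod_cast (by omega : 0 < j0 + (i':ℕ))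
    simp only [ht, ts]
    rw [Real.log_div h2.ne' hj0r.ne', Real.log_div h1.ne' hj0r.ne', Real.log_div h2.ne' h1.ne']
    ring
  have htmono : StrictMono t := by
    intro i i' h
    have h1 : (0:ℝ) < ((j0 + (i:ℕ) : ℕ) : ℝ) := by exact_mod_cast (by omega : 0 < j0 + (i:ℕ))
    have h2 : ((j0 + (i:ℕ) : ℕ) : ℝ) < ((j0 + (i':ℕ) : ℕ) : ℝ) := by
      rw [Fin.lt_def] at h
      exact_mod_cast (by omega : j0 + (i:ℕ) < j0 + (i':ℕ))
    have h3 : 0 < Real.log (((j0 + (i':ℕ) : ℕ) : ℝ) / ((j0 + (i:ℕ) : ℕ) : ℝ)) := Real.log_pos (by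
      rw [one_lt_div h1]; exact h2)
    have h4 := htdiff i i'
    have : 0 < t i' - t i := by rw [h4]; positivity
    linarith
  set T : ℝ := t ⟨n - 1, by omega⟩ with hT
  have htT : ∀ i, t i ≤ T := fun i => htmono.monotone (by
    rw [Fin.le_def]; have := i.2; simp only; omega)
  -- comparison sequence
  set c : Fin n → ℕ := fun i => (j0 + (i:ℕ)) ^ 4 with hc
  have hc1 : ∀ i, 1 ≤ c i := fun i => Nat.one_le_pow _ _ (by omega)
  have hcmono : StrictMono c := fun i i' h => by
    rw [Fin.lt_def] at h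
    exact Nat.pow_lt_pow_left (by omega) (by norm_num)
  have hcJ : ∀ i, c i ≤ J^4 := fun i => by
    have := i.2
    exact Nat.pow_le_pow_left (by omega) 4
  -- events holding eventually in M
  have ev1 : ∀ᶠ M : ℕ in atTop, ∀ i i' : Fin n, i < i' → kM (t i) M < kM (t i') M := by
    rw [Filter.eventually_all]
    intro i
    rw [Filter.eventually_all]
    intro i'
    by_cases h : i < i'
    · filter_upwards [kM_lt (htmono h)] with M hM _
      exact hM
    · exact Eventually.of_forall fun M h' => absurd h' h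
  have ev2 : ∀ᶠ M : ℕ in atTop, ∀ i i' : Fin n, i < i' → co (kM (t i) M) (kM (t i') M) ≤ co (c i) (c i') := by
    rw [Filter.eventually_all]
    intro i
    rw [Filter.eventually_all]
    intro i'
    by_cases h : i < i'
    · have h1 := co_limit (t i) (t i')
      have h2 : rM (t i - t i') < co (c i) (c i') := by
        rw [← rM_neg, neg_sub, htdiff i i', co_of_le (hcmono h).le]
        exact hcorr (j0 + i) (j0 + i') (by omega) (by rw [Fin.lt_def] at h; omega)
      filter_upwards [h1.eventually_lt_const h2] with M hM _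
      exact hM.le
    · exact Eventually.of_forall fun M h' => absurd h' h
  set μ' : Measure (EV n) := (gam (J^4)).map (Lrc (nm wS VS (J^4) c)) with hμ'
  have hG' : IsG μ' (fun i i' => co (c i) (c i')) := isG_co (J^4) c hcJ
  obtain ⟨l2, hl2, hpos2⟩ := exists_lam (fun i i' => co (c i) (c i')) (by
    have h := nm_pos wS VS (J^4) c hcmono hc1 hcJ (fun j => by unfold wS; positivity) (fun i => VS_pos _ (hc1 i))
    have e1 : (fun k l => ∑ j, nm wS VS (J^4) c k j * nm wS VS (J^4) c l j) = (fun i i' => co (c i) (c i')) := by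
      funext i j; exact gram_co (J^4) c hcJ i j
    rw [e1] at h
    exact h)
  obtain ⟨μ, ν, hμ, hν, hlim⟩ := lawX_tendsto t T htT
  have key : ∀ᶠ M : ℕ in atTop, (μ M : Measure (EV n)) {y | ∀ i, 0 < y i} ≤ μ' (orth (fun _ => 0)) := by
    filter_upwards [ev1, ev2, eventually_ge_atTop 1] with M h1 h2 hM
    set cM : Fin n → ℕ := fun i => kM (t i) M with hcM
    have ht0 : ∀ i, 0 ≤ t i := fun i => by
      have h3 := htmono.monotone (show (⟨0, by omega⟩ : Fin n) ≤ i by rw [Fin.le_def]; simp)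
      have h4 : t ⟨0, by omega⟩ = 0 := by
        simp only [ht, ts, add_zero]
        rw [div_self hj0r.ne']; simp
      linarith
    have hcM1 : ∀ i, 1 ≤ cM i := fun i => hM.trans (le_kM (ht0 i) M)
    have hcMmono : StrictMono cM := fun i i' h => h1 i i' h
    have hcMT : ∀ i, cM i ≤ kM T M := fun i => kM_mono (htT i) M
    have hG : IsG ((gam (kM T M)).map (Lrc (nm wS VS (kM T M) cM))) (fun i i' => co (cM i) (cM i')) :=
      isG_co (kM T M) cM hcMT
    obtain ⟨l1, hl1, hpos1⟩ := exists_lam (fun i i' => co (cM i) (cM i')) (by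
      have h := nm_pos wS VS (kM T M) cM hcMmono hcM1 hcMT (fun j => by unfold wS; positivity) (fun i => VS_pos _ (hcM1 i))
      have e1 : (fun k l => ∑ j, nm wS VS (kM T M) cM k j * nm wS VS (kM T M) cM l j) = (fun i i' => co (cM i) (cM i')) := by
        funext i j; exact gram_co (kM T M) cM hcMT i j
      rw [e1] at h
      exact h)
    have hole := slepian (S := fun i i' => co (cM i) (cM i')) (T := fun i i' => co (c i) (c i'))
      (fun i j => co_comm _ _) (fun i j => co_comm _ _) (fun i => by rw [co_self _ (hcM1 i), co_self _ (hc1 i)])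
      (fun i i' => by
        rcases lt_trichotomy i i' with h | h | h
        · exact h2 i i' h
        · subst h; rw [co_self _ (hcM1 i), co_self _ (hc1 i)]
        · rw [co_comm (cM i), co_comm (c i)]; exact h2 i' i h)
      (min l1 l2) (lt_min hl1 hl2)
      (fun t => le_trans (mul_le_mul_of_nonneg_right (min_le_left _ _) (Finset.sum_nonneg fun i _ => sq_nonneg _)) (hpos1 t))
      (fun t => le_trans (mul_le_mul_of_nonneg_right (min_le_right _ _) (Finset.sum_nonneg fun i _ => sq_nonneg _)) (hpos2 t))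
      hG hG'
    rw [hμ]
    refine le_trans (measure_mono ?_) (hole (fun _ => 0))
    intro y hy i
    exact (hy i).le
  have h1 := open_le hlim isOpen_orth' _ key.frequently
  rw [hν] at h1
  -- closed orthant versus open orthant
  have hI := isG_lawX t
  have hprob := hI.1
  have h2 : lawX t {x | ∀ i, 0 ≤ x i} ≤ lawX t {y | ∀ i, 0 < y i} + ∑ i, lawX t {x | x i = 0} := by
    have hsub : {x : EV n | ∀ i, 0 ≤ x i} ⊆ {y | ∀ i, 0 < y i} ∪ ⋃ i, {x | x i = 0} := by
      intro x hx
      by_cases h : ∀ i, 0 < x i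
      · exact Or.inl h
      · right
        push Not at h
        obtain ⟨i, hi⟩ := h
        exact Set.mem_iUnion.2 ⟨i, le_antisymm hi (hx i)⟩
    refine (measure_mono hsub).trans ((measure_union_le _ _).trans ?_)
    gcongr
    exact measure_iUnion_fintype_le _ _
  have h3 : ∑ i, lawX t {x | x i = 0} = 0 := Finset.sum_eq_zero fun i _ =>
    coord_null hI i (by rw [sub_self, rM_zero])
  rw [h3, add_zero] at h2
  -- conclusion
  have h4 : μ' (orth (fun _ => 0)) ≤ (gam (J^4)) {ξ | ∀ j ∈ Icc j0 J, 0 ≤ Sg ξ (j^4)} := by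
    rw [hμ', Lrc_orth]
    apply measure_mono
    intro ξ hξ j hj
    have hj' := Finset.mem_Icc.1 hj
    have h5 := hξ ⟨j - j0, by omega⟩
    have h6 : c ⟨j - j0, by omega⟩ = j^4 := by
      simp only [hc]
      congr 1
      omega
    have h7 : ∑ i, nm wS VS (J^4) c ⟨j - j0, by omega⟩ i * ξ i
        = (∑ i : Fin (J^4), cw wS (j^4) i * ξ i) / Real.sqrt (VS (j^4)) := by
      unfold nm
      rw [h6, Finset.sum_div]
      exact Finset.sum_congr rfl fun j _ => by ring
    rw [h7] at h5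
    unfold Sg
    rw [Sk_S _ (Nat.pow_le_pow_left hj'.2 4)]
    have h8 : 0 < Real.sqrt (VS (j^4)) := Real.sqrt_pos.2 (VS_pos _ (Nat.one_le_pow _ _ (by omega)))
    have h9 := mul_nonneg h5 h8.le
    rwa [div_mul_cancel₀ _ h8.ne'] at h9
  unfold persV gSp
  exact ENNReal.toReal_mono (measure_ne_top _ _) (h2.trans (h1.trans h4))

/-- persistence probability of the process on `[0,T]` (infimum over finite sets of times) -/
noncomputable def persC (T : ℝ) : ℝ := ⨅ p : (Σ n : ℕ, {t : Fin n → ℝ // ∀ i, 0 ≤ t i ∧ t i ≤ T}), persV p.2.1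

/-- **The exponent of the stationary process.** -/
theorem persC_tendsto : Tendsto (fun T : ℝ => -Real.log (persC T) / T) atTop (𝓝 theta) := by
  have hθpos := theta_pos
  have hbdd : ∀ T : ℝ, BddBelow (Set.range fun p : (Σ n : ℕ, {t : Fin n → ℝ // ∀ i, 0 ≤ t i ∧ t i ≤ T}) => persV p.2.1) :=
    fun T => ⟨0, by rintro _ ⟨p, rfl⟩; exact measureReal_nonneg⟩
  have hne : ∀ T : ℝ, Nonempty (Σ n : ℕ, {t : Fin n → ℝ // ∀ i, 0 ≤ t i ∧ t i ≤ T}) :=
    fun T => ⟨⟨0, ⟨fun i => i.elim0, fun i => i.elim0⟩⟩⟩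
  -- upper bound for the exponent
  have hup : ∀ ε : ℝ, 0 < ε → ∀ᶠ T : ℝ in atTop, 0 < persC T ∧ -Real.log (persC T) / T ≤ theta + ε := by
    intro ε hε
    obtain ⟨c, hc, hlow⟩ := persV_lower (ε/2) (by positivity)
    filter_upwards [eventually_ge_atTop 1, eventually_ge_atTop (-Real.log c / (ε/2))] with T hT1 hT2
    have h1 : c * Real.exp (-((theta + ε/2) * T)) ≤ persC T := by
      have := hne T
      exact le_ciInf fun p => hlow T p.1 p.2.1 p.2.2 (by linarith)
    have hpos : 0 < c * Real.exp (-((theta + ε/2) * T)) := by positivity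
    refine ⟨lt_of_lt_of_le hpos h1, ?_⟩
    have h2 := Real.log_le_log hpos h1
    rw [Real.log_mul hc.ne' (Real.exp_pos _).ne', Real.log_exp] at h2
    rw [div_le_iff₀ (by linarith)]
    rw [div_le_iff₀ (by positivity)] at hT2
    linarith
  -- lower bound for the exponent
  have hlo : ∀ ε : ℝ, 0 < ε → ε < theta → ∀ᶠ T : ℝ in atTop, (theta - ε) / (1 + ε) ≤ -Real.log (persC T) / T := by
    intro ε hε hεθ
    obtain ⟨j0, hj0, hJ⟩ := persV_upper ε hε
    have hj0r : (2:ℝ) ≤ j0 := by exact_mod_cast hj0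
    obtain ⟨J1, hJ1⟩ := eventually_atTop.1 (gSp_upper j0 ε hε)
    have hexp : Tendsto (fun T : ℝ => Real.exp (T / (4 * (1 + ε)))) atTop atTop :=
      Real.tendsto_exp_atTop.comp (tendsto_id.atTop_div_const (by positivity))
    filter_upwards [hup 1 one_pos, eventually_ge_atTop 1, hexp.eventually_ge_atTop ((J1:ℝ) + j0)] with T hT0 hT1 hT2
    set X := Real.exp (T / (4 * (1 + ε))) with hX
    have hX1 : 1 ≤ X := Real.one_le_exp (by positivity)
    have hXpos : 0 < X := by linarith
    set J : ℕ := ⌊(j0:ℝ) * X⌋₊ with hJdef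
    have hJup : (J:ℝ) ≤ j0 * X := Nat.floor_le (by positivity)
    have hJlow : X ≤ J := by
      have := Nat.lt_floor_add_one ((j0:ℝ) * X)
      rw [← hJdef] at this
      nlinarith
    have hJJ1 : J1 ≤ J := by
      have : (J1:ℝ) ≤ J := by
        have : (0:ℝ) ≤ j0 := by positivity
        linarith
      exact_mod_cast this
    have hJj0 : j0 ≤ J := by
      have : (j0:ℝ) ≤ J := by
        have : (0:ℝ) ≤ J1 := by positivity
        linarith
      exact_mod_cast this
    have h1 := hJ J hJj0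
    have h2 := hJ1 J hJJ1
    -- membership
    have hmem : ∀ i, 0 ≤ ts ε j0 J i ∧ ts ε j0 J i ≤ T := by
      intro i
      have hi := i.2
      have ha : (j0:ℝ) ≤ ((j0 + (i:ℕ) : ℕ) : ℝ) := by exact_mod_cast Nat.le_add_right _ _
      have hb : ((j0 + (i:ℕ) : ℕ) : ℝ) ≤ J := by exact_mod_cast (by omega : j0 + (i:ℕ) ≤ J)
      have hj00 : (0:ℝ) < j0 := by linarith
      constructor
      · unfold ts
        have : 0 ≤ Real.log (((j0 + (i:ℕ) : ℕ) : ℝ) / j0) := Real.log_nonneg (by rw [one_le_div hj00]; exact ha)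
        positivity
      · unfold ts
        have h3 : Real.log (((j0 + (i:ℕ) : ℕ) : ℝ) / j0) ≤ T / (4 * (1 + ε)) := by
          rw [Real.log_le_iff_le_exp (by positivity), div_le_iff₀ hj00]
          rw [← hX]; linarith
        have h4 : (1 + ε) * (4 * Real.log (((j0 + (i:ℕ) : ℕ) : ℝ) / j0)) ≤ (1 + ε) * (4 * (T / (4 * (1 + ε)))) := by
          apply mul_le_mul_of_nonneg_left _ (by positivity)
          linarith
        refine h4.trans (le_of_eq ?_)
        field_simp
    have h3 : persC T ≤ persV (ts ε j0 J) := ciInf_le (hbdd T) ⟨J - j0 + 1, ⟨ts ε j0 J, hmem⟩⟩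
    have hJ0 : (0:ℝ) < J := by linarith
    have h4 : ((J^4 : ℕ) : ℝ) ^ (-(theta - ε)) ≤ Real.exp (-((theta - ε) * T / (1 + ε))) := by
      have h5 : X ^ 4 ≤ ((J^4 : ℕ) : ℝ) := by push_cast; exact pow_le_pow_left₀ hXpos.le hJlow 4
      refine (Real.rpow_le_rpow_of_nonpos (by positivity) h5 (by linarith)).trans (le_of_eq ?_)
      rw [hX, ← Real.exp_nat_mul, ← Real.exp_mul]
      congr 1
      push_cast
      field_simp
    have h5 : persC T ≤ Real.exp (-((theta - ε) * T / (1 + ε))) := h3.trans (h1.trans (h2.trans h4))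
    have h6 := Real.log_le_log hT0.1 h5
    rw [Real.log_exp] at h6
    rw [le_div_iff₀ (by linarith)]
    have e1 : (theta - ε) / (1 + ε) * T = (theta - ε) * T / (1 + ε) := by ring
    rw [e1]; linarith
  -- conclusion
  rw [Metric.tendsto_nhds]
  intro δ hδ
  -- choose ε with (θ-ε)/(1+ε) > θ - δ
  have hcont : Tendsto (fun ε : ℝ => (theta - ε) / (1 + ε)) (𝓝[>] 0) (𝓝 ((theta - 0) / (1 + 0))) := by
    have h1 : ContinuousAt (fun ε : ℝ => (theta - ε) / (1 + ε)) 0 := by
      apply ContinuousAt.div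
      · fun_prop
      · fun_prop
      · norm_num
    exact h1.tendsto.mono_left nhdsWithin_le_nhds
  have h0 : (theta - 0) / (1 + 0) = theta := by norm_num
  rw [h0] at hcont
  have hev := (hcont.eventually_const_lt (show theta - δ < theta by linarith)).and
    ((Ioo_mem_nhdsGT hθpos))
  obtain ⟨ε, h1, h2⟩ := hev.exists
  filter_upwards [hup (δ/2) (by positivity), hlo ε h2.1 h2.2] with T h3 h4
  rw [Real.dist_eq, abs_lt]
  constructor
  · linarith
  · linarith [h3.2]

end Pool.GP
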