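import Mathlib

set_option autoImplicit false

/-!
Analytic inequalities comparing the correlation `(1+s) e^{-s}` with the correlation of
integrated Brownian motion run at speed `β < 1/√3`.
-/

namespace Pool.GP

open Real

/-- derivative test on `[0,∞)` -/
lemma nonneg_of_deriv {f f' : ℝ → ℝ} (hd : ∀ s, HasDerivAt f (f' s) s) (h0 : 0 ≤ f 0)
    (h : ∀ s, 0 ≤ s → 0 ≤ f' s) : ∀ s, 0 ≤ s → 0 ≤ f s := by
  intro s hs
  have hmono : MonotoneOn f (Set.Ici 0) := by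
    apply monotoneOn_of_deriv_nonneg (convex_Ici 0)
    · exact fun x _ => (hd x).continuousAt.continuousWithinAt
    · exact fun x _ => (hd x).differentiableAt.differentiableWithinAt
    · intro x hx
      rw [interior_Ici] at hx
      rw [(hd x).deriv]
      exact h x (le_of_lt hx)
  exact h0.trans (hmono (Set.mem_Ici.2 le_rfl) (Set.mem_Ici.2 hs) hs)

/-- the key inequality -/
lemma key_exp (β : ℝ) (h0 : 0 ≤ β) (h1 : 3 * β ^ 2 ≤ 1) (s : ℝ) (hs : 0 ≤ s) :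
    1 + s + (1 - 3 * β ^ 2) * s ^ 2 / 2 ≤ 3 / 2 * exp ((1 - β) * s) - 1 / 2 * exp ((1 - 3 * β) * s) := by
  set κ := 1 - 3 * β ^ 2 with hκ
  have hκ0 : 0 ≤ κ := by rw [hκ]; linarith
  have hβ1 : β ≤ 1 := by nlinarith
  -- second derivative
  have hF2 : ∀ s : ℝ, 0 ≤ s → 0 ≤ 3 / 2 * (1 - β) ^ 2 * exp ((1 - β) * s) - 1 / 2 * (1 - 3 * β) ^ 2 * exp ((1 - 3 * β) * s) - κ := by
    intro s hs
    have e1 : 3 / 2 * (1 - β) ^ 2 - 1 / 2 * (1 - 3 * β) ^ 2 = κ := by rw [hκ]; ring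
    have e2 : 1 ≤ exp ((1 - β) * s) := one_le_exp (mul_nonneg (by linarith) hs)
    rcases le_total (1 - 3 * β) 0 with h | h
    · have e3 : exp ((1 - 3 * β) * s) ≤ 1 := exp_le_one_iff.2 (mul_nonpos_of_nonpos_of_nonneg h hs)
      have e4 : 3 / 2 * (1 - β) ^ 2 * 1 ≤ 3 / 2 * (1 - β) ^ 2 * exp ((1 - β) * s) :=
        mul_le_mul_of_nonneg_left e2 (by positivity)
      have e5 : 1 / 2 * (1 - 3 * β) ^ 2 * exp ((1 - 3 * β) * s) ≤ 1 / 2 * (1 - 3 * β) ^ 2 * 1 :=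
        mul_le_mul_of_nonneg_left e3 (by positivity)
      linarith
    · have e3 : exp ((1 - 3 * β) * s) ≤ exp ((1 - β) * s) :=
        exp_le_exp.2 (mul_le_mul_of_nonneg_right (by linarith) hs)
      have e5 : 1 / 2 * (1 - 3 * β) ^ 2 * exp ((1 - 3 * β) * s) ≤ 1 / 2 * (1 - 3 * β) ^ 2 * exp ((1 - β) * s) :=
        mul_le_mul_of_nonneg_left e3 (by positivity)
      have e6 : κ * 1 ≤ κ * exp ((1 - β) * s) := mul_le_mul_of_nonneg_left e2 hκ0
      have e7 : κ * exp ((1 - β) * s) = 3 / 2 * (1 - β) ^ 2 * exp ((1 - β) * s) - 1 / 2 * (1 - 3 * β) ^ 2 * exp ((1 - β) * s) := by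
        rw [← e1]; ring
      linarith
  have hd1 : ∀ s : ℝ, HasDerivAt (fun s => 3 / 2 * (1 - β) * exp ((1 - β) * s) - 1 / 2 * (1 - 3 * β) * exp ((1 - 3 * β) * s) - 1 - κ * s)
      (3 / 2 * (1 - β) ^ 2 * exp ((1 - β) * s) - 1 / 2 * (1 - 3 * β) ^ 2 * exp ((1 - 3 * β) * s) - κ) s := by
    intro s
    have h1 : HasDerivAt (fun s => exp ((1 - β) * s)) (exp ((1 - β) * s) * ((1 - β) * 1)) s :=
      ((hasDerivAt_id s).const_mul (1 - β)).exp
    have h2 : HasDerivAt (fun s => exp ((1 - 3 * β) * s)) (exp ((1 - 3 * β) * s) * ((1 - 3 * β) * 1)) s :=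
      ((hasDerivAt_id s).const_mul (1 - 3 * β)).exp
    have h3 := (((h1.const_mul (3 / 2 * (1 - β))).sub (h2.const_mul (1 / 2 * (1 - 3 * β)))).sub_const 1).sub
      ((hasDerivAt_id s).const_mul κ)
    refine h3.congr_deriv ?_
    ring
  have hG1 := nonneg_of_deriv hd1 (by simp; linarith) hF2
  have hd0 : ∀ s : ℝ, HasDerivAt (fun s => 3 / 2 * exp ((1 - β) * s) - 1 / 2 * exp ((1 - 3 * β) * s) - s - κ / 2 * s ^ 2)
      (3 / 2 * (1 - β) * exp ((1 - β) * s) - 1 / 2 * (1 - 3 * β) * exp ((1 - 3 * β) * s) - 1 - κ * s) s := by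
    intro s
    have h1 : HasDerivAt (fun s => exp ((1 - β) * s)) (exp ((1 - β) * s) * ((1 - β) * 1)) s :=
      ((hasDerivAt_id s).const_mul (1 - β)).exp
    have h2 : HasDerivAt (fun s => exp ((1 - 3 * β) * s)) (exp ((1 - 3 * β) * s) * ((1 - 3 * β) * 1)) s :=
      ((hasDerivAt_id s).const_mul (1 - 3 * β)).exp
    have h3 := (((h1.const_mul (3 / 2)).sub (h2.const_mul (1 / 2))).sub (hasDerivAt_id s)).sub
      (((hasDerivAt_id s).pow 2).const_mul (κ / 2))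
    refine h3.congr_deriv ?_
    simp only [id]
    ring
  have hG0 : 0 ≤ 3 / 2 * exp ((1 - β) * s) - 1 / 2 * exp ((1 - 3 * β) * s) - s - κ / 2 * s ^ 2 - 1 := by
    have h5 := nonneg_of_deriv (f := fun s => 3 / 2 * exp ((1 - β) * s) - 1 / 2 * exp ((1 - 3 * β) * s) - s - κ / 2 * s ^ 2 - 1)
      (fun s => (hd0 s).sub_const 1) (by simp; norm_num) hG1 s hs
    exact h5
  linarith

/-- `e^{-σ}(1+(1+ε)σ)` is decreasing once `σ ≥ ε` -/
lemma phi_anti (ε τ σ : ℝ) (hε : 0 ≤ ε) (hτ : ε ≤ τ) (h : τ ≤ σ) :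
    exp (-σ) * (1 + (1 + ε) * σ) ≤ exp (-τ) * (1 + (1 + ε) * τ) := by
  obtain ⟨d, hd, rfl⟩ : ∃ d, 0 ≤ d ∧ σ = τ + d := ⟨σ - τ, by linarith, by ring⟩
  have e1 : exp (-τ) = exp (-(τ + d)) * exp d := by rw [← exp_add]; congr 1; ring
  rw [e1, mul_assoc]
  apply mul_le_mul_of_nonneg_left _ (exp_pos _).le
  have e2 := add_one_le_exp d
  have hτ0 : 0 ≤ τ := hε.trans hτ
  have e3 : (d + 1) * (1 + (1 + ε) * τ) ≤ exp d * (1 + (1 + ε) * τ) :=
    mul_le_mul_of_nonneg_right e2 (by positivity)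
  refine le_trans ?_ e3
  have : 0 ≤ d * (τ - ε) := mul_nonneg hd (by linarith)
  have h2 : 0 ≤ d * (ε * τ) := by positivity
  nlinarith

/-- the final analytic comparison -/
lemma analytic_main (β κ x s σ η ε ρ : ℝ) (hκ : κ = 1 - 3 * β ^ 2) (hβ0 : 0 ≤ β) (hκ0 : 0 < κ)
    (hx : 128 / κ ≤ x) (hs : 1 / (4 * x) ≤ s) (hη0 : 0 ≤ η) (hη : η ≤ κ / (100 * x)) (hε0 : 0 ≤ ε)
    (hε : ε ≤ κ / (100 * x)) (hσ : s - η ≤ σ) (hρ1 : 1 - ρ ≤ 4 * s / (3 * x ^ 2)) (hρ2 : 1 - ρ ≤ 1 / (3 * x ^ 2)) :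
    exp (-σ) * (1 + (1 + ε) * σ) ≤ (3 / 2 * exp (-(β * s)) - 1 / 2 * exp (-(3 * β * s))) * ρ := by
  have hκ1 : κ ≤ 1 := by rw [hκ]; nlinarith [sq_nonneg β]
  have hx128 : 128 ≤ x := by
    refine le_trans ?_ hx
    rw [le_div_iff₀ hκ0]; linarith
  have hx0 : 0 < x := by linarith
  have hκx : 128 ≤ κ * x := by rw [div_le_iff₀ hκ0] at hx; linarith
  have hs0 : 0 < s := lt_of_lt_of_le (by positivity) hs
  have hxs : 1 ≤ 4 * s * x := by
    rw [div_le_iff₀ (by positivity)] at hs; linarith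
  -- κ/(100x) ≤ κ s/25
  have hinv : κ / (100 * x) ≤ κ * s / 25 := by
    rw [div_le_div_iff₀ (by positivity) (by norm_num)]
    nlinarith
  have hη' : η ≤ κ * s / 25 := hη.trans hinv
  have hε' : ε ≤ κ * s / 25 := hε.trans hinv
  have hsm : κ * s / 25 ≤ s / 25 := by nlinarith
  have hη1 : η ≤ 1 / 100 := by
    refine hη.trans ?_
    rw [div_le_div_iff₀ (by positivity) (by norm_num)]
    nlinarith
  have hε1 : ε ≤ 1 / 100 := by
    refine hε.trans ?_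
    rw [div_le_div_iff₀ (by positivity) (by norm_num)]
    nlinarith
  have hmono := phi_anti ε (s - η) σ hε0 (by linarith) hσ
  refine hmono.trans ?_
  -- LHS bound
  have hexp : exp (-(s - η)) = exp (-s) * exp η := by rw [← exp_add]; congr 1; ring
  have heη : exp η ≤ 1 + η + η ^ 2 := by
    have := abs_exp_sub_one_sub_id_le (x := η) (by rw [abs_of_nonneg hη0]; linarith)
    have := (abs_le.1 this).2
    linarith
  have hL : exp η * (1 + (1 + ε) * (s - η)) ≤ 1 + s + 6 / 25 * κ * s ^ 2 := by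
    have h1 : 0 ≤ 1 + (1 + ε) * (s - η) := by
      have : 0 ≤ (1 + ε) * (s - η) := mul_nonneg (by linarith) (by linarith)
      linarith
    refine (mul_le_mul_of_nonneg_right heη h1).trans ?_
    have h2 : (1 + ε) * (s - η) ≤ s - η + ε * s := by nlinarith [mul_nonneg hε0 hη0]
    have h3 : (1 + η + η ^ 2) * (1 + (1 + ε) * (s - η)) ≤ (1 + η + η ^ 2) * (1 + (s - η + ε * s)) :=
      mul_le_mul_of_nonneg_left (by linarith) (by positivity)
    refine h3.trans ?_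
    have h4 : (1 + η + η ^ 2) * (1 + (s - η + ε * s)) = 1 + s + s * (ε + η + η * ε + η ^ 2 * (1 + ε)) - η ^ 3 := by
      ring
    rw [h4]
    have h5 : 0 ≤ η ^ 3 := by positivity
    have h6 : η * ε ≤ η / 100 := by nlinarith
    have h7 : η ^ 2 * (1 + ε) ≤ η / 25 := by nlinarith [mul_nonneg hη0 hε0, mul_nonneg hη0 hη0]
    have h8 : ε + η + η * ε + η ^ 2 * (1 + ε) ≤ 3 * (κ * s / 25) := by nlinarith
    have h9 : s * (ε + η + η * ε + η ^ 2 * (1 + ε)) ≤ s * (3 * (κ * s / 25)) := mul_le_mul_of_nonneg_left h8 hs0.le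
    nlinarith
  -- RHS
  have hkey := key_exp β hβ0 (by rw [hκ] at hκ0; linarith) s hs0.le
  rw [← hκ] at hkey
  have e1 : 3 / 2 * exp (-(β * s)) - 1 / 2 * exp (-(3 * β * s))
      = exp (-s) * (3 / 2 * exp ((1 - β) * s) - 1 / 2 * exp ((1 - 3 * β) * s)) := by
    have a1 : exp (-(β * s)) = exp (-s) * exp ((1 - β) * s) := by rw [← exp_add]; congr 1; ring
    have a2 : exp (-(3 * β * s)) = exp (-s) * exp ((1 - 3 * β) * s) := by rw [← exp_add]; congr 1; ring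
    rw [a1, a2]; ring
  rw [e1, hexp, mul_assoc, mul_assoc]
  apply mul_le_mul_of_nonneg_left _ (exp_pos _).le
  refine hL.trans ?_
  have hρ0 : 0 ≤ ρ := by
    have : 1 / (3 * x ^ 2) ≤ 1 := by
      rw [div_le_one (by positivity)]; nlinarith
    linarith
  refine le_trans ?_ (mul_le_mul_of_nonneg_right hkey hρ0)
  -- 1+s+6/25 κ s² ≤ (1+s+κ s²/2) ρ
  have hgoal : (1 + s + κ * s ^ 2 / 2) * (1 - ρ) ≤ κ * s ^ 2 / 8 := by
    have hA0 : 0 ≤ 1 + s + κ * s ^ 2 / 2 := by positivity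
    rcases le_total s 1 with h | h
    · have h1 : (1 + s + κ * s ^ 2 / 2) ≤ 3 := by nlinarith
      have h2 : (1 + s + κ * s ^ 2 / 2) * (1 - ρ) ≤ (1 + s + κ * s ^ 2 / 2) * (4 * s / (3 * x ^ 2)) :=
        mul_le_mul_of_nonneg_left hρ1 hA0
      have h3 : (1 + s + κ * s ^ 2 / 2) * (4 * s / (3 * x ^ 2)) ≤ 3 * (4 * s / (3 * x ^ 2)) :=
        mul_le_mul_of_nonneg_right h1 (by positivity)
      refine h2.trans (h3.trans ?_)
      have h4 : 3 * (4 * s / (3 * x ^ 2)) = 4 * s / x ^ 2 := by field_simp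
      rw [h4, div_le_iff₀ (by positivity)]
      -- 4 s ≤ κ s²/8 x²
      have h5 : 128 * (4 * s * x) ≤ κ * x * (4 * s * x) := mul_le_mul_of_nonneg_right hκx (by positivity)
      nlinarith
    · have h1 : (1 + s + κ * s ^ 2 / 2) ≤ 3 * s ^ 2 := by nlinarith
      have h2 : (1 + s + κ * s ^ 2 / 2) * (1 - ρ) ≤ (1 + s + κ * s ^ 2 / 2) * (1 / (3 * x ^ 2)) :=
        mul_le_mul_of_nonneg_left hρ2 hA0
      have h3 : (1 + s + κ * s ^ 2 / 2) * (1 / (3 * x ^ 2)) ≤ 3 * s ^ 2 * (1 / (3 * x ^ 2)) :=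
        mul_le_mul_of_nonneg_right h1 (by positivity)
      refine h2.trans (h3.trans ?_)
      have h4 : 3 * s ^ 2 * (1 / (3 * x ^ 2)) = s ^ 2 / x ^ 2 := by field_simp
      rw [h4, div_le_iff₀ (by positivity)]
      have h5 : 8 ≤ κ * x ^ 2 := by nlinarith
      have h6 : s ^ 2 * 8 ≤ s ^ 2 * (κ * x ^ 2) := mul_le_mul_of_nonneg_left h5 (by positivity)
      linarith
  have hks : 0 ≤ κ * s ^ 2 := by positivity
  nlinarith

end Pool.GP
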