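import Pool.Agent.Lib.GPX.Lin
import Pool.Agent.Lib.GPX.CorrAnalytic

set_option autoImplicit false

/-!
Comparison of the correlations of `∑ W_i/i` (sampled at `⌈(m+1/2)^p⌉`) and of `∑ W_i` (at `m`).
-/

namespace Pool.GP

open Finset Filter

lemma Hr_succ (n : ℕ) : Hr (n+1) = Hr n + 1 / ((n:ℝ)+1) := by
  unfold Hr; rw [Finset.sum_range_succ]

lemma Hr_sub_le_log (k n : ℕ) (hk : 1 ≤ k) (hkn : k ≤ n) : Hr n - Hr k ≤ Real.log (n / k) := by
  have hkr : (0:ℝ) < k := by exact_mod_cast hk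
  induction n, hkn using Nat.le_induction with
  | base => simp [hkr.ne']
  | succ n hn ih =>
    have hnr : (0:ℝ) < n := by exact_mod_cast (by omega : 0 < n)
    rw [Hr_succ]
    have h1 : 1 / ((n:ℝ)+1) ≤ Real.log (((n:ℝ)+1)/n) := by
      have := Real.one_sub_inv_le_log_of_pos (x := ((n:ℝ)+1)/n) (by positivity)
      refine le_trans (le_of_eq ?_) this
      rw [inv_div]; field_simp; ring
    have h2 : Real.log (((n+1:ℕ):ℝ) / k) = Real.log (n / k) + Real.log (((n:ℝ)+1)/n) := by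
      rw [← Real.log_mul (by positivity) (by positivity)]
      congr 1
      push_cast
      field_simp
    rw [h2]
    linarith

lemma Hr_le_log (k : ℕ) (hk : 1 ≤ k) : Hr k ≤ 1 + Real.log k := by
  have h := Hr_sub_le_log 1 k le_rfl hk
  have h1 : Hr 1 = 1 := by simp [Hr]
  rw [h1] at h
  simp at h
  linarith

lemma one_le_Hr (k : ℕ) (hk : 1 ≤ k) : 1 ≤ Hr k := by
  induction k, hk using Nat.le_induction with
  | base => simp [Hr]
  | succ n hn ih => rw [Hr_succ]; have : 0 < 1 / ((n:ℝ)+1) := by positivity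
                    linarith

lemma Hr_ratio (k n : ℕ) (hk : 1 ≤ k) (hkn : k ≤ n) : k * Hr n ≤ n * Hr k := by
  have hkr : (0:ℝ) < k := by exact_mod_cast hk
  induction n, hkn using Nat.le_induction with
  | base => exact le_rfl
  | succ n hn ih =>
    rw [Hr_succ]
    have h1 := one_le_Hr k hk
    have h2 : (k:ℝ) * (1 / ((n:ℝ)+1)) ≤ 1 := by
      rw [mul_one_div, div_le_one (by positivity)]
      have : (k:ℝ) ≤ n := by exact_mod_cast hn
      linarith
    push_cast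
    nlinarith

/-- variances and covariances -/
noncomputable def VS (k : ℕ) : ℝ := 2 * k - Hr k
noncomputable def CS (k n : ℕ) : ℝ := 2 * k + k * Hr n - (k + 1) * Hr k
noncomputable def VA (m : ℕ) : ℝ := m * (m + 1) * (2 * m + 1) / 6
noncomputable def CA (m l : ℕ) : ℝ := m * (m + 1) * (3 * l - m + 1) / 6

lemma Hr_le_self (k : ℕ) : Hr k ≤ k := by
  induction k with
  | zero => simp [Hr]
  | succ k ih =>
    rw [Hr_succ]
    have : 1 / ((k:ℝ)+1) ≤ 1 := by rw [div_le_one (by positivity)]; have : (0:ℝ) ≤ k := Nat.cast_nonneg k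
                                   linarith
    push_cast; linarith

lemma VS_pos (k : ℕ) (hk : 1 ≤ k) : 0 < VS k := by
  unfold VS
  have h1 := Hr_le_self k
  have : (1:ℝ) ≤ k := by exact_mod_cast hk
  linarith

lemma VA_pos (m : ℕ) (hm : 1 ≤ m) : 0 < VA m := by
  unfold VA
  have : (1:ℝ) ≤ m := by exact_mod_cast hm
  positivity

/-- S side -/
lemma S_side (k n : ℕ) (hk : 1 ≤ k) (hkn : k ≤ n) (σ : ℝ) (hσ : σ = Real.log (n / k) / 2) :
    CS k n ≤ (Real.exp (-σ) * (1 + (1 + Hr k / k) * σ)) * (Real.sqrt (VS k) * Real.sqrt (VS n)) := by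
  have hkr : (1:ℝ) ≤ k := by exact_mod_cast hk
  have hk0 : (0:ℝ) < k := by linarith
  have hknr : (k:ℝ) ≤ n := by exact_mod_cast hkn
  have hn0 : (0:ℝ) < n := by linarith
  have hV := VS_pos k hk
  have hσ0 : 0 ≤ σ := by
    rw [hσ]
    have : 0 ≤ Real.log ((n:ℝ)/k) := Real.log_nonneg (by rw [one_le_div hk0]; exact hknr)
    linarith
  have hH := Hr_le_self k
  have hH1 := one_le_Hr k hk
  set u := Hr k / k with hu
  have hu0 : 0 ≤ u := by positivity
  have hu1 : u ≤ 1 := by rw [hu, div_le_one hk0]; exact hH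
  have huk : u * k = Hr k := by rw [hu]; field_simp
  -- sqrt
  have h1 : VS k * Real.exp σ ≤ Real.sqrt (VS k) * Real.sqrt (VS n) := by
    have e1 : Real.exp σ = Real.sqrt ((n:ℝ) / k) := by
      rw [hσ, Real.sqrt_eq_rpow, Real.rpow_def_of_pos (by positivity)]
      congr 1; ring
    have e2 : (n:ℝ) / k * VS k ≤ VS n := by
      rw [div_mul_eq_mul_div, div_le_iff₀ hk0]
      unfold VS
      have := Hr_ratio k n hk hkn
      nlinarith
    calc VS k * Real.exp σ = Real.sqrt (VS k) * (Real.sqrt (VS k) * Real.exp σ) := by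
          rw [← mul_assoc, Real.mul_self_sqrt hV.le]
      _ ≤ Real.sqrt (VS k) * Real.sqrt (VS n) := by
          apply mul_le_mul_of_nonneg_left _ (Real.sqrt_nonneg _)
          rw [e1, ← Real.sqrt_mul hV.le]
          apply Real.sqrt_le_sqrt
          rw [mul_comm]; exact e2
  have h2 : 0 ≤ Real.exp (-σ) * (1 + (1 + u) * σ) := by positivity
  refine le_trans ?_ (mul_le_mul_of_nonneg_left h1 h2)
  have e3 : Real.exp (-σ) * (1 + (1 + u) * σ) * (VS k * Real.exp σ) = (1 + (1 + u) * σ) * VS k := by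
    have : Real.exp (-σ) * Real.exp σ = 1 := by rw [← Real.exp_add]; simp
    calc Real.exp (-σ) * (1 + (1 + u) * σ) * (VS k * Real.exp σ)
        = (Real.exp (-σ) * Real.exp σ) * ((1 + (1 + u) * σ) * VS k) := by ring
      _ = _ := by rw [this, one_mul]
  rw [e3]
  have h3 := Hr_sub_le_log k n hk hkn
  have h4 : Hr n - Hr k ≤ 2 * σ := by rw [hσ]; linarith
  have h5 : CS k n = VS k + k * (Hr n - Hr k) := by unfold CS VS; ring
  have h6 : VS k = k * (2 - u) := by unfold VS; rw [← huk]; ring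
  rw [h5]
  have h7 : (k:ℝ) * (Hr n - Hr k) ≤ k * (2 * σ) := mul_le_mul_of_nonneg_left h4 hk0.le
  have h8 : (k:ℝ) * (2 * σ) ≤ (1 + u) * σ * VS k := by
    rw [h6]
    have : 0 ≤ k * σ * (u * (1 - u)) := by
      have : 0 ≤ 1 - u := by linarith
      positivity
    nlinarith
  nlinarith

/-- A side -/
lemma A_side (m l : ℕ) (hm : 1 ≤ m) (hml : m ≤ l) (x y r : ℝ) (hx : x = m + 1/2) (hy : y = l + 1/2)
    (hr : r = Real.log (y / x) / 2) :
    (3 / 2 * Real.exp (-r) - 1 / 2 * Real.exp (-(3 * r)))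
      * ((1 - 1 / (4 * x ^ 2)) / (1 - 1 / (4 * y ^ 2))) * (Real.sqrt (VA m) * Real.sqrt (VA l)) ≤ CA m l := by
  have hmr : (1:ℝ) ≤ m := by exact_mod_cast hm
  have hlr : (m:ℝ) ≤ l := by exact_mod_cast hml
  have hx1 : 3/2 ≤ x := by rw [hx]; linarith
  have hxy : x ≤ y := by rw [hx, hy]; linarith
  have hx0 : 0 < x := by linarith
  have hy0 : 0 < y := by linarith
  set q := Real.exp (-r) with hq
  have hqpos : 0 < q := Real.exp_pos _
  have hq2 : q ^ 2 = x / y := by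
    rw [hq, ← Real.exp_nat_mul, hr]
    have : ((2:ℕ):ℝ) * -(Real.log (y/x) / 2) = Real.log (x / y) := by
      rw [← inv_div y x, Real.log_inv]; push_cast; ring
    rw [this, Real.exp_log (by positivity)]
  have hq3 : Real.exp (-(3 * r)) = q ^ 3 := by
    rw [hq, ← Real.exp_nat_mul]; congr 1; push_cast; ring
  rw [hq3]
  have hR : 3 / 2 * q - 1 / 2 * q ^ 3 = q * ((3 * y - x) / (2 * y)) := by
    have : q ^ 3 = q * (x / y) := by rw [← hq2]; ring
    rw [this]; field_simp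
  rw [hR]
  have ex : 0 < 4 * x ^ 2 - 1 := by nlinarith
  have ey : 0 < 4 * y ^ 2 - 1 := by nlinarith
  have hρ : (1 - 1 / (4 * x ^ 2)) / (1 - 1 / (4 * y ^ 2)) = (4 * x ^ 2 - 1) * y ^ 2 / (x ^ 2 * (4 * y ^ 2 - 1)) := by
    have h1 : 1 - 1 / (4 * x ^ 2) = (4 * x ^ 2 - 1) / (4 * x ^ 2) := by field_simp
    have h2 : 1 - 1 / (4 * y ^ 2) = (4 * y ^ 2 - 1) / (4 * y ^ 2) := by field_simp
    rw [h1, h2, div_div_div_eq]
    rw [div_eq_div_iff (by positivity) (by positivity)]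
    ring
  rw [hρ]
  have hVm : VA m = x * (4 * x ^ 2 - 1) / 12 := by unfold VA; rw [hx]; ring
  have hVl : VA l = y * (4 * y ^ 2 - 1) / 12 := by unfold VA; rw [hy]; ring
  have hC : CA m l = (4 * x ^ 2 - 1) * (3 * y - x) / 24 := by unfold CA; rw [hx, hy]; ring
  have h3yx : 0 < 3 * y - x := by linarith
  rw [← Real.sqrt_mul (by rw [hVm]; positivity), hVm, hVl, hC]
  -- compare squares
  rw [← pow_le_pow_iff_left₀ (by positivity) (by positivity) (two_ne_zero)]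
  rw [mul_pow, Real.sq_sqrt (by positivity), mul_pow, mul_pow, hq2]
  have hle : (4 * x ^ 2 - 1) * y ^ 2 ≤ x ^ 2 * (4 * y ^ 2 - 1) := by nlinarith
  have e1 : x / y * ((3 * y - x) / (2 * y)) ^ 2 * ((4 * x ^ 2 - 1) * y ^ 2 / (x ^ 2 * (4 * y ^ 2 - 1))) ^ 2
      * (x * (4 * x ^ 2 - 1) / 12 * (y * (4 * y ^ 2 - 1) / 12))
      = ((4 * x ^ 2 - 1) * (3 * y - x) / 24) ^ 2 * ((4 * x ^ 2 - 1) * y ^ 2 / (x ^ 2 * (4 * y ^ 2 - 1))) := by
    have ey' := ey.ne'
    have ex' := ex.ne'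
    field_simp
    ring
  rw [e1]
  have h5 : (4 * x ^ 2 - 1) * y ^ 2 / (x ^ 2 * (4 * y ^ 2 - 1)) ≤ 1 := by
    rw [div_le_one (by positivity)]; exact hle
  calc ((4 * x ^ 2 - 1) * (3 * y - x) / 24) ^ 2 * ((4 * x ^ 2 - 1) * y ^ 2 / (x ^ 2 * (4 * y ^ 2 - 1)))
      ≤ ((4 * x ^ 2 - 1) * (3 * y - x) / 24) ^ 2 * 1 := mul_le_mul_of_nonneg_left h5 (sq_nonneg _)
    _ = _ := mul_one _


/-- sampling times -/
noncomputable def kp (p : ℝ) (m : ℕ) : ℕ := ⌈((m:ℝ) + 1/2) ^ p⌉₊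

lemma kp_lt (p : ℝ) (hp : 1 ≤ p) (m l : ℕ) (hm : 1 ≤ m) (h : m < l) : kp p m < kp p l := by
  unfold kp
  have hmr : (1:ℝ) ≤ m := by exact_mod_cast hm
  have hlr : (m:ℝ) + 1 ≤ l := by exact_mod_cast h
  set x : ℝ := (m:ℝ) + 1/2 with hx
  have hx1 : 1 ≤ x := by rw [hx]; linarith
  have h1 : x ^ p + 1 ≤ ((l:ℝ) + 1/2) ^ p := by
    have h2 : (x + 1) ^ p ≤ ((l:ℝ) + 1/2) ^ p := Real.rpow_le_rpow (by linarith) (by rw [hx]; linarith) (by linarith)
    refine le_trans ?_ h2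
    have e1 : (x + 1) ^ p = (x + 1) * (x + 1) ^ (p - 1) := by
      rw [← Real.rpow_one_add' (by linarith) (by linarith)]; congr 1; ring
    have e2 : x ^ (p - 1) ≤ (x + 1) ^ (p - 1) := Real.rpow_le_rpow (by linarith) (by linarith) (by linarith)
    have e3 : x ^ p = x * x ^ (p - 1) := by
      rw [← Real.rpow_one_add' (by linarith) (by linarith)]; congr 1; ring
    have e4 : 1 ≤ x ^ (p - 1) := Real.one_le_rpow hx1 (by linarith)
    rw [e1, e3]
    nlinarith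
  have h2 : (⌈x ^ p⌉₊ : ℝ) < x ^ p + 1 := Nat.ceil_lt_add_one (by positivity)
  have h3 : (⌈x ^ p⌉₊ : ℝ) < (⌈((l:ℝ) + 1/2) ^ p⌉₊ : ℝ) := lt_of_lt_of_le (lt_of_lt_of_le h2 h1) (Nat.le_ceil _)
  exact_mod_cast h3

lemma kp_pos (p : ℝ) (m : ℕ) : 1 ≤ kp p m := by
  unfold kp
  rw [Nat.one_le_ceil_iff]
  positivity

/-- **Comparison of correlations.** -/
theorem corr_le (p : ℝ) (hp0 : 0 < p) (hp : 3 < p ^ 2) : ∃ M0 : ℕ, 1 ≤ M0 ∧ ∀ m l : ℕ, M0 ≤ m → m < l →
    CS (kp p m) (kp p l) / (Real.sqrt (VS (kp p m)) * Real.sqrt (VS (kp p l)))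
      ≤ CA m l / (Real.sqrt (VA m) * Real.sqrt (VA l)) := by
  have hp1 : 3/2 < p := by nlinarith
  set κ : ℝ := 1 - 3 * (1 / p) ^ 2 with hκ
  have hκ0 : 0 < κ := by
    rw [hκ]
    have : 3 * (1 / p) ^ 2 < 1 := by
      rw [one_div, inv_pow, ← div_eq_mul_inv, div_lt_one (by positivity)]; exact hp
    linarith
  have ev1 : ∀ᶠ x : ℝ in atTop, 50 / κ ≤ x ^ (p - 1) := (tendsto_rpow_atTop (by linarith)).eventually_ge_atTop _
  have ev2 : ∀ᶠ x : ℝ in atTop, 500 / κ ≤ x ^ (3/4 * p - 1) := (tendsto_rpow_atTop (by linarith)).eventually_ge_atTop _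
  obtain ⟨X, hX⟩ := eventually_atTop.1 (ev1.and (ev2.and (eventually_ge_atTop (128/κ))))
  refine ⟨⌈X⌉₊ + 1, by omega, fun m l hm hml => ?_⟩
  have hm1 : 1 ≤ m := by omega
  have hmr : (1:ℝ) ≤ m := by exact_mod_cast hm1
  have hlr : (m:ℝ) + 1 ≤ l := by exact_mod_cast hml
  set x : ℝ := (m:ℝ) + 1/2 with hx
  set y : ℝ := (l:ℝ) + 1/2 with hy
  have hx1 : 1 ≤ x := by rw [hx]; linarith
  have hx0 : 0 < x := by linarith
  have hxy : x + 1 ≤ y := by rw [hx, hy]; linarith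
  have hy0 : 0 < y := by linarith
  obtain ⟨c1, c2, c3⟩ := hX x (by
    have : X ≤ m := (Nat.le_ceil X).trans (by exact_mod_cast (by omega : ⌈X⌉₊ ≤ m))
    rw [hx]; linarith)
  set k := kp p m with hk
  set n := kp p l with hn
  have hk1 : 1 ≤ k := kp_pos p m
  have hkn : k < n := kp_lt p (by linarith) m l hm1 hml
  have hk1r : (1:ℝ) ≤ k := by exact_mod_cast hk1
  have hk0 : (0:ℝ) < k := by linarith
  have hknr : (k:ℝ) ≤ n := by exact_mod_cast hkn.le
  have hxp : 0 < x ^ p := by positivity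
  have hkx : x ^ p ≤ k := Nat.le_ceil _
  have hkx2 : (k:ℝ) ≤ x ^ p + 1 := (Nat.ceil_lt_add_one (by positivity)).le
  have hny : y ^ p ≤ n := Nat.le_ceil _
  -- parameters
  set σ : ℝ := Real.log (n / k) / 2 with hσ
  set s : ℝ := p / 2 * Real.log (y / x) with hs
  set r : ℝ := Real.log (y / x) / 2 with hr
  set ρ : ℝ := (1 - 1 / (4 * x ^ 2)) / (1 - 1 / (4 * y ^ 2)) with hρ
  have hβs : 1 / p * s = r := by rw [hs, hr]; field_simp
  have hyx : 1 / (x + 1) ≤ Real.log (y / x) := by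
    have h1 := Real.one_sub_inv_le_log_of_pos (x := y / x) (by positivity)
    refine le_trans ?_ h1
    rw [inv_div]
    have h2 : x / y ≤ x / (x + 1) := div_le_div_of_nonneg_left hx0.le (by linarith) hxy
    have h3 : 1 / (x + 1) = 1 - x / (x + 1) := by field_simp; ring
    rw [h3]; linarith
  have hs1 : 1 / (4 * x) ≤ s := by
    have h1 : 1 / (2 * x) ≤ 1 / (x + 1) := one_div_le_one_div_of_le (by linarith) (by linarith)
    have h2 : 1 / (4 * x) = 1 / 2 * (1 / (2 * x)) := by field_simp; ring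
    rw [h2, hs]
    have h3 : 0 ≤ 1 / (2 * x) := by positivity
    have h4 : 1 / (2*x) ≤ Real.log (y / x) := h1.trans hyx
    exact mul_le_mul (by linarith) h4 h3 (by linarith)
  have hinvx : ∀ c : ℝ, 0 < c → ∀ q : ℝ, c / κ ≤ x ^ (q - 1) → x ^ (-q) * c ≤ κ / x := by
    intro c hc q h
    rw [div_le_iff₀ hκ0] at h
    have e : x ^ (q - 1) = x ^ q / x := by rw [Real.rpow_sub hx0, Real.rpow_one]
    rw [e] at h
    have hxq : 0 < x ^ q := by positivity
    rw [Real.rpow_neg hx0.le, inv_mul_eq_div, div_le_div_iff₀ hxq hx0]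
    rw [div_mul_eq_mul_div, le_div_iff₀ hx0] at h
    linarith
  have hη : x ^ (-p) / 2 ≤ κ / (100 * x) := by
    have := hinvx 50 (by norm_num) p c1
    have e : κ / (100 * x) = κ / x / 100 := by field_simp
    rw [e]; linarith
  have hε : Hr k / k ≤ κ / (100 * x) := by
    have h1 := hinvx 500 (by norm_num) (3/4*p) c2
    have e : κ / (100 * x) = κ / x / 100 := by field_simp
    rw [e]
    have h2 : Hr k / k ≤ 5 * (k:ℝ) ^ (-(3/4:ℝ)) := by
      have h3 := Hr_le_log k hk1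
      have h4 := Real.log_le_rpow_div hk0.le (ε := 1/4) (by norm_num)
      have h5 : (1:ℝ) ≤ (k:ℝ) ^ (1/4:ℝ) := Real.one_le_rpow hk1r (by norm_num)
      have h6 : Hr k ≤ 5 * (k:ℝ) ^ (1/4:ℝ) := by
        have : (k:ℝ) ^ (1/4:ℝ) / (1/4) = 4 * (k:ℝ) ^ (1/4:ℝ) := by ring
        rw [this] at h4; linarith
      have e3 : (k:ℝ) ^ (-(3/4:ℝ)) = (k:ℝ) ^ (1/4:ℝ) / k := by
        rw [eq_div_iff hk0.ne', ← Real.rpow_add_one hk0.ne']; norm_num
      rw [e3, ← mul_div_assoc]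
      exact div_le_div_of_nonneg_right h6 hk0.le
    have h3 : (k:ℝ) ^ (-(3/4:ℝ)) ≤ x ^ (-(3/4 * p)) := by
      have e3 : x ^ (-(3/4 * p)) = (x ^ p) ^ (-(3/4:ℝ)) := by
        rw [← Real.rpow_mul hx0.le]; congr 1; ring
      rw [e3]
      exact Real.rpow_le_rpow_of_nonpos hxp hkx (by norm_num)
    linarith
  have hσs : s - x ^ (-p) / 2 ≤ σ := by
    have h1 : Real.log (y ^ p / (x ^ p + 1)) ≤ Real.log ((n:ℝ) / k) := by
      apply Real.log_le_log (by positivity)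
      exact div_le_div₀ (by positivity) hny hk0 hkx2
    have h2 : Real.log (y ^ p / (x ^ p + 1)) = p * Real.log y - Real.log (x ^ p + 1) := by
      rw [Real.log_div (by positivity) (by positivity), Real.log_rpow hy0]
    have h3 : Real.log (x ^ p + 1) ≤ p * Real.log x + x ^ (-p) := by
      have e1 : x ^ p + 1 = x ^ p * (1 + x ^ (-p)) := by
        rw [mul_add, mul_one, ← Real.rpow_add hx0]; simp
      rw [e1, Real.log_mul (by positivity) (by positivity), Real.log_rpow hx0]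
      have := Real.log_le_sub_one_of_pos (x := 1 + x ^ (-p)) (by positivity)
      linarith
    have h4 : Real.log (y / x) = Real.log y - Real.log x := Real.log_div (by positivity) (by positivity)
    rw [hs, hσ, h4]
    linarith
  -- rho
  have hy2 : 1 ≤ y ^ 2 := by nlinarith
  have e4y : 0 < 4 * y ^ 2 - 1 := by linarith
  have h1ρ : 1 - ρ = (1 - x ^ 2 / y ^ 2) * (y ^ 2 / (x ^ 2 * (4 * y ^ 2 - 1))) := by
    rw [hρ]
    have h2 : 1 - 1 / (4 * y ^ 2) = (4 * y ^ 2 - 1) / (4 * y ^ 2) := by field_simp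
    rw [h2]
    field_simp
    ring
  have hfac : y ^ 2 / (x ^ 2 * (4 * y ^ 2 - 1)) ≤ 1 / (3 * x ^ 2) := by
    rw [div_le_div_iff₀ (by positivity) (by positivity)]
    nlinarith [mul_nonneg (sq_nonneg x) (by linarith : 0 ≤ y ^ 2 - 1)]
  have hfac0 : 0 ≤ y ^ 2 / (x ^ 2 * (4 * y ^ 2 - 1)) := by positivity
  have hq0 : 0 ≤ x ^ 2 / y ^ 2 := by positivity
  have hq1 : x ^ 2 / y ^ 2 ≤ 1 := by
    rw [div_le_one (by positivity)]; nlinarith
  have hρ2 : 1 - ρ ≤ 1 / (3 * x ^ 2) := by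
    rw [h1ρ]
    calc (1 - x ^ 2 / y ^ 2) * (y ^ 2 / (x ^ 2 * (4 * y ^ 2 - 1)))
        ≤ 1 * (y ^ 2 / (x ^ 2 * (4 * y ^ 2 - 1))) := mul_le_mul_of_nonneg_right (by linarith) hfac0
      _ ≤ 1 / (3 * x ^ 2) := by rw [one_mul]; exact hfac
  have hρ1 : 1 - ρ ≤ 4 * s / (3 * x ^ 2) := by
    rw [h1ρ]
    have h5 : 1 - x ^ 2 / y ^ 2 ≤ 4 * s := by
      have h6 := Real.one_sub_inv_le_log_of_pos (x := (y / x) ^ 2) (by positivity)
      rw [Real.log_pow] at h6
      have h7 : ((y / x) ^ 2)⁻¹ = x ^ 2 / y ^ 2 := by rw [div_pow, inv_div]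
      rw [h7] at h6
      have h8 : 0 ≤ Real.log (y / x) := le_trans (by positivity) hyx
      have h9 : 2 * Real.log (y / x) ≤ 4 * s := by
        rw [hs]; nlinarith
      push_cast at h6
      linarith
    have h10 : 0 ≤ 1 / (3 * x ^ 2) := by positivity
    calc (1 - x ^ 2 / y ^ 2) * (y ^ 2 / (x ^ 2 * (4 * y ^ 2 - 1)))
        ≤ (1 - x ^ 2 / y ^ 2) * (1 / (3 * x ^ 2)) := mul_le_mul_of_nonneg_left hfac (by linarith)
      _ ≤ 4 * s * (1 / (3 * x ^ 2)) := mul_le_mul_of_nonneg_right h5 h10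
      _ = 4 * s / (3 * x ^ 2) := by ring
  have hmain := analytic_main (1/p) κ x s σ (x ^ (-p) / 2) (Hr k / k) ρ hκ (by positivity) hκ0 c3 hs1
    (by positivity) hη (div_nonneg (le_trans zero_le_one (one_le_Hr k hk1)) hk0.le) hε hσs hρ1 hρ2
  have hS := S_side k n hk1 hkn.le σ rfl
  have hA := A_side m l hm1 hml.le x y r rfl rfl rfl
  have hVS1 : 0 < Real.sqrt (VS k) * Real.sqrt (VS n) :=
    mul_pos (Real.sqrt_pos.2 (VS_pos k hk1)) (Real.sqrt_pos.2 (VS_pos n (by omega)))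
  have hVA1 : 0 < Real.sqrt (VA m) * Real.sqrt (VA l) :=
    mul_pos (Real.sqrt_pos.2 (VA_pos m hm1)) (Real.sqrt_pos.2 (VA_pos l (by omega)))
  have h3r : 3 * (1 / p) * s = 3 * r := by rw [mul_assoc, hβs]
  rw [h3r, hβs] at hmain
  calc CS k n / (Real.sqrt (VS k) * Real.sqrt (VS n))
      ≤ Real.exp (-σ) * (1 + (1 + Hr k / k) * σ) := by rw [div_le_iff₀ hVS1]; exact hS
    _ ≤ (3 / 2 * Real.exp (-r) - 1 / 2 * Real.exp (-(3 * r))) * ρ := hmain
    _ ≤ CA m l / (Real.sqrt (VA m) * Real.sqrt (VA l)) := by rw [le_div_iff₀ hVA1]; exact hA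

end Pool.GP
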