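import Pool.Agent.Lib.GPX.Corr

set_option autoImplicit false

/-!
Lower bound for the correlation of `S_k, S_l` in terms of `(1+τ/2) e^{-τ/2}`.
-/

namespace Pool.GP

open Finset Filter

/-- correlation function of the limiting stationary process -/
noncomputable def rM (τ : ℝ) : ℝ := (1 + |τ| / 2) * Real.exp (-(|τ| / 2))

lemma rM_of_nonneg {τ : ℝ} (h : 0 ≤ τ) : rM τ = (1 + τ / 2) * Real.exp (-(τ / 2)) := by
  unfold rM; rw [abs_of_nonneg h]

lemma rM_neg (τ : ℝ) : rM (-τ) = rM τ := by unfold rM; rw [abs_neg]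

lemma rM_zero : rM 0 = 1 := by simp [rM]

lemma rM_pos (τ : ℝ) : 0 < rM τ := by unfold rM; positivity

lemma sech_ineq (τ : ℝ) (hτ : 0 ≤ τ) : 4 ≤ (2 + τ) * (1 + Real.exp (-τ)) := by
  have hd : ∀ s : ℝ, HasDerivAt (fun s => (2 + s) * (1 + Real.exp (-s)) - 4)
      (1 - (1 + s) * Real.exp (-s)) s := by
    intro s
    have h1 : HasDerivAt (fun s : ℝ => Real.exp (-s)) (Real.exp (-s) * (-1)) s := (hasDerivAt_neg s).exp
    have h2 := (((hasDerivAt_id s).const_add 2).mul (h1.const_add 1)).sub_const 4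
    refine h2.congr_deriv ?_
    simp only [id]
    ring
  have h := nonneg_of_deriv hd (by simp; norm_num) (fun s hs => by
    have h1 := Real.add_one_le_exp s
    have h2 : Real.exp (-s) * Real.exp s = 1 := by rw [← Real.exp_add]; simp
    have h3 : (1 + s) * Real.exp (-s) ≤ Real.exp s * Real.exp (-s) :=
      mul_le_mul_of_nonneg_right (by linarith) (Real.exp_pos _).le
    linarith) τ hτ
  linarith

/-- monotonicity in `u` -/
lemma u_ineq (τ u : ℝ) (hτ : 0 ≤ τ) (hu : 0 ≤ u) :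
    (2 + τ) ^ 2 * ((2 - u) * (2 * Real.exp τ - u)) ≤ (2 - u + τ) ^ 2 * (4 * Real.exp τ) := by
  set b := Real.exp τ with hb
  have hbpos : 0 < b := Real.exp_pos _
  have h1 := sech_ineq τ hτ
  have h2 : b * Real.exp (-τ) = 1 := by rw [hb, ← Real.exp_add]; simp
  have h3 : 4 * b ≤ (2 + τ) * (1 + b) := by
    have := mul_le_mul_of_nonneg_left h1 hbpos.le
    have e : b * ((2 + τ) * (1 + Real.exp (-τ))) = (2 + τ) * (b + b * Real.exp (-τ)) := by ring
    rw [e, h2] at this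
    linarith
  have h4 : (2 + τ) ^ 2 ≤ 4 * b := by
    have h5 := Real.add_one_le_exp (τ/2)
    have h6 : b = Real.exp (τ/2) ^ 2 := by rw [hb, ← Real.exp_nat_mul]; congr 1; push_cast; ring
    have h7 : (τ/2 + 1)^2 ≤ Real.exp (τ/2) ^ 2 := pow_le_pow_left₀ (by linarith) h5 2
    rw [h6]
    nlinarith
  have e : (2 - u + τ) ^ 2 * (4 * b) - (2 + τ) ^ 2 * ((2 - u) * (2 * b - u))
      = u * (2 * (2 + τ) * ((2 + τ) * (1 + b) - 4 * b)) + u ^ 2 * (4 * b - (2 + τ) ^ 2) := by ring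
  have h8 : 0 ≤ u * (2 * (2 + τ) * ((2 + τ) * (1 + b) - 4 * b)) := by
    apply mul_nonneg hu
    apply mul_nonneg (by linarith) (by linarith)
  have h9 : 0 ≤ u ^ 2 * (4 * b - (2 + τ) ^ 2) := mul_nonneg (sq_nonneg _) (by linarith)
  linarith

lemma log_succ_le_Hr (k n : ℕ) (hk : 1 ≤ k) (hkn : k ≤ n) :
    Real.log (((n:ℝ)+1) / ((k:ℝ)+1)) ≤ Hr n - Hr k := by
  have hkr : (0:ℝ) < k := by exact_mod_cast hk
  induction n, hkn using Nat.le_induction with
  | base => rw [div_self (by positivity)]; simp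
  | succ n hn ih =>
    have hnr : (0:ℝ) < n := by exact_mod_cast (by omega : 0 < n)
    rw [Hr_succ]
    have h1 : Real.log (((n:ℝ)+2)/((n:ℝ)+1)) ≤ 1 / ((n:ℝ)+1) := by
      have := Real.log_le_sub_one_of_pos (x := ((n:ℝ)+2)/((n:ℝ)+1)) (by positivity)
      refine this.trans (le_of_eq ?_)
      field_simp; ring
    have h2 : Real.log ((((n+1:ℕ):ℝ)+1) / ((k:ℝ)+1)) = Real.log (((n:ℝ)+1) / ((k:ℝ)+1)) + Real.log (((n:ℝ)+2)/((n:ℝ)+1)) := by
      rw [← Real.log_mul (by positivity) (by positivity)]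
      congr 1
      push_cast
      field_simp
      ring
    rw [h2]
    linarith

/-- lower bound for the correlation -/
lemma corr_lower (k l : ℕ) (hk : 1 ≤ k) (hkl : k ≤ l) (τ z : ℝ) (hτ : τ = Real.log (l / k))
    (hz1 : τ / k ≤ z ∨ 1 / (k:ℝ) ≤ z) (hz2 : z ≤ 1) :
    (1 - z) * rM τ ≤ CS k l / (Real.sqrt (VS k) * Real.sqrt (VS l)) := by
  have hkr : (1:ℝ) ≤ k := by exact_mod_cast hk
  have hk0 : (0:ℝ) < k := by linarith
  have hklr : (k:ℝ) ≤ l := by exact_mod_cast hkl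
  have hl0 : (0:ℝ) < l := by linarith
  have hτ0 : 0 ≤ τ := by rw [hτ]; exact Real.log_nonneg (by rw [one_le_div hk0]; exact hklr)
  have hVk := VS_pos k hk
  have hVl := VS_pos l (by omega)
  have hH := Hr_le_self k
  have hH1 := one_le_Hr k hk
  set u := Hr k / k with hu
  have hu0 : 0 ≤ u := by positivity
  have hu1 : u ≤ 1 := by rw [hu, div_le_one hk0]; exact hH
  have huk : u * k = Hr k := by rw [hu]; field_simp
  have hbl : Real.exp τ * k = l := by
    rw [hτ, Real.exp_log (by positivity)]; field_simp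
  have hz0 : 0 ≤ z := by
    rcases hz1 with h | h
    · exact le_trans (by positivity) h
    · exact le_trans (by positivity) h
  -- h ≥ τ - z
  have hh : τ - z ≤ Hr l - Hr k := by
    have h1 := log_succ_le_Hr k l hk hkl
    refine le_trans ?_ h1
    have h2 : τ - Real.log (((l:ℝ)+1) / ((k:ℝ)+1)) ≤ 1 / k - 1 / l := by
      rw [hτ, ← Real.log_div (by positivity) (by positivity)]
      have h3 := Real.log_le_sub_one_of_pos (x := (l:ℝ) / k / (((l:ℝ)+1) / ((k:ℝ)+1))) (by positivity)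
      refine h3.trans ?_
      have e : (l:ℝ) / k / (((l:ℝ)+1) / ((k:ℝ)+1)) - 1 = (1 / k - 1 / l) * (l / (l + 1)) := by
        field_simp; ring
      rw [e]
      have h4 : (0:ℝ) ≤ 1 / k - 1 / l := sub_nonneg.2 (one_div_le_one_div_of_le hk0 hklr)
      have h5 : (l:ℝ) / (l + 1) ≤ 1 := by rw [div_le_one (by positivity)]; linarith
      calc (1 / (k:ℝ) - 1 / l) * (l / (l + 1)) ≤ (1 / (k:ℝ) - 1 / l) * 1 := mul_le_mul_of_nonneg_left h5 h4
        _ = _ := mul_one _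
    have h3 : 1 / (k:ℝ) - 1 / l ≤ z := by
      rcases hz1 with h | h
      · refine le_trans ?_ h
        have e : 1 / (k:ℝ) - 1 / l = (1 - Real.exp (-τ)) / k := by
          have : Real.exp (-τ) = k / l := by
            rw [Real.exp_neg, ← hbl]; field_simp
          rw [this]; field_simp
        rw [e]
        apply div_le_div_of_nonneg_right _ hk0.le
        have := Real.add_one_le_exp (-τ)
        linarith
      · have : 0 < 1 / (l:ℝ) := by positivity
        linarith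
    linarith
  have hC : CS k l = k * (2 - u + (Hr l - Hr k)) := by
    unfold CS; rw [mul_add, mul_sub, mul_comm (k:ℝ) u, huk]; ring
  have hC1 : k * ((1 - z) * (2 - u + τ)) ≤ CS k l := by
    rw [hC]
    apply mul_le_mul_of_nonneg_left _ hk0.le
    nlinarith [mul_nonneg hz0 (by linarith : (0:ℝ) ≤ 1 - u + τ)]
  have hVk' : VS k = k * (2 - u) := by unfold VS; rw [← huk]; ring
  have hVl' : VS l ≤ k * (2 * Real.exp τ - u) := by
    have : VS l = 2 * l - Hr l := rfl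
    rw [this]
    have h1 : Hr k ≤ Hr l := by
      have := log_succ_le_Hr k l hk hkl
      have h2 : 0 ≤ Real.log (((l:ℝ)+1) / ((k:ℝ)+1)) := Real.log_nonneg (by
        rw [one_le_div (by positivity)]; linarith)
      linarith
    rw [mul_sub, mul_comm (k:ℝ) u, huk]
    have : (k:ℝ) * (2 * Real.exp τ) = 2 * l := by rw [← hbl]; ring
    linarith
  rw [le_div_iff₀ (mul_pos (Real.sqrt_pos.2 hVk) (Real.sqrt_pos.2 hVl)), ← Real.sqrt_mul hVk.le]
  refine le_trans ?_ hC1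
  have h1z : 0 ≤ 1 - z := by linarith
  have hrp := rM_pos τ
  rw [← pow_le_pow_iff_left₀ (by positivity) (by
    apply mul_nonneg hk0.le
    apply mul_nonneg h1z (by linarith)) (two_ne_zero)]
  rw [mul_pow, Real.sq_sqrt (by positivity)]
  have hr2 : rM τ ^ 2 = (2 + τ) ^ 2 / (4 * Real.exp τ) := by
    rw [rM_of_nonneg hτ0, mul_pow, ← Real.exp_nat_mul]
    have : Real.exp (((2:ℕ):ℝ) * -(τ/2)) = (Real.exp τ)⁻¹ := by
      rw [← Real.exp_neg]; congr 1; push_cast; ring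
    rw [this]
    field_simp
    ring
  have h2u : 0 ≤ 2 - u := by linarith
  have h1 : VS k * VS l ≤ k * (2 - u) * (k * (2 * Real.exp τ - u)) := by
    rw [hVk']
    exact mul_le_mul_of_nonneg_left hVl' (by positivity)
  have h2 := u_ineq τ u hτ0 hu0
  have h3 : rM τ ^ 2 * (VS k * VS l) ≤ k ^ 2 * (2 - u + τ) ^ 2 := by
    rw [hr2, div_mul_eq_mul_div, div_le_iff₀ (by positivity)]
    calc (2 + τ) ^ 2 * (VS k * VS l) ≤ (2 + τ) ^ 2 * (k * (2 - u) * (k * (2 * Real.exp τ - u))) :=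
          mul_le_mul_of_nonneg_left h1 (by positivity)
      _ = k ^ 2 * ((2 + τ) ^ 2 * ((2 - u) * (2 * Real.exp τ - u))) := by ring
      _ ≤ k ^ 2 * ((2 - u + τ) ^ 2 * (4 * Real.exp τ)) := mul_le_mul_of_nonneg_left h2 (by positivity)
      _ = k ^ 2 * (2 - u + τ) ^ 2 * (4 * Real.exp τ) := by ring
  calc ((1 - z) * rM τ) ^ 2 * (VS k * VS l) = (1 - z) ^ 2 * (rM τ ^ 2 * (VS k * VS l)) := by ring
    _ ≤ (1 - z) ^ 2 * (k ^ 2 * (2 - u + τ) ^ 2) := mul_le_mul_of_nonneg_left h3 (by positivity)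
    _ = (k * ((1 - z) * (2 - u + τ))) ^ 2 := by ring

/-- speeding up decreases the correlation -/
lemma rM_speed (τ e : ℝ) (hτ : 0 ≤ τ) (he : 0 ≤ e) :
    rM ((1 + e) * τ) ≤ rM τ * Real.exp (-(e * τ ^ 2 / (2 * (2 + τ)))) := by
  rw [rM_of_nonneg hτ, rM_of_nonneg (by positivity)]
  have h1 := Real.add_one_le_exp (e * τ / (2 + τ))
  have h2 : 1 + (1 + e) * τ / 2 = (1 + τ / 2) * (e * τ / (2 + τ) + 1) := by field_simp; ring
  rw [h2]
  have h3 : (1 + τ / 2) * (e * τ / (2 + τ) + 1) ≤ (1 + τ / 2) * Real.exp (e * τ / (2 + τ)) :=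
    mul_le_mul_of_nonneg_left h1 (by positivity)
  refine (mul_le_mul_of_nonneg_right h3 (Real.exp_pos _).le).trans (le_of_eq ?_)
  rw [mul_assoc, mul_assoc, ← Real.exp_add, ← Real.exp_add]
  congr 2
  field_simp
  ring

lemma exp_two_le (z : ℝ) (h0 : 0 ≤ z) (h1 : z ≤ 1/2) : Real.exp (-(2 * z)) ≤ 1 - z := by
  rw [Real.exp_neg]
  have h2 := Real.add_one_le_exp (2 * z)
  have h3 : (Real.exp (2 * z))⁻¹ ≤ (2 * z + 1)⁻¹ := inv_anti₀ (by positivity) h2
  refine h3.trans ?_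
  rw [inv_eq_one_div, div_le_iff₀ (by positivity)]
  nlinarith

/-- **Strict comparison of correlations along the sparse sequence.** -/
theorem corr_strict (e : ℝ) (he : 0 < e) : ∃ i0 : ℕ, 2 ≤ i0 ∧ ∀ i j : ℕ, i0 ≤ i → i < j →
    rM ((1 + e) * (4 * Real.log (j / i)))
      < CS (i^4) (j^4) / (Real.sqrt (VS (i^4)) * Real.sqrt (VS (j^4))) := by
  obtain ⟨i0, hi0⟩ : ∃ i0 : ℕ, 12 / e + 2 ≤ i0 := exists_nat_ge _
  have h12 : 0 < 12 / e := by positivity
  have hi02 : 2 ≤ i0 := by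
    have : (2:ℝ) ≤ i0 := by linarith
    exact_mod_cast this
  refine ⟨i0, hi02, fun i j hi hij => ?_⟩
  have hir : (2:ℝ) ≤ i := by exact_mod_cast hi02.trans hi
  have hii0 : (i0:ℝ) ≤ i := by exact_mod_cast hi
  have hi12 : 12 < e * i := by
    have : 12 / e < i := by linarith
    rw [div_lt_iff₀ he] at this; linarith
  have hjr : (i:ℝ) + 1 ≤ j := by exact_mod_cast hij
  have hi0' : (0:ℝ) < i := by linarith
  have hj0' : (0:ℝ) < j := by linarith
  set τ : ℝ := 4 * Real.log (j / i) with hτ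
  have hτ' : τ = Real.log (((j^4 : ℕ) : ℝ) / ((i^4 : ℕ) : ℝ)) := by
    rw [hτ]; push_cast; rw [← div_pow, Real.log_pow]; norm_num
  have hk1 : 1 ≤ i^4 := Nat.one_le_pow _ _ (by omega)
  have hτlow : 2 / i ≤ τ := by
    have h1 := Real.one_sub_inv_le_log_of_pos (x := (j:ℝ) / i) (by positivity)
    have h2 : 1 / ((i:ℝ) + 1) ≤ 1 - ((j:ℝ)/i)⁻¹ := by
      rw [inv_div]
      have h3 : (i:ℝ) / j ≤ i / (i + 1) := div_le_div_of_nonneg_left hi0'.le (by positivity) hjr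
      have h4 : 1 / ((i:ℝ) + 1) = 1 - i / (i + 1) := by field_simp; ring
      rw [h4]; linarith
    have h3 : 1 / (2 * (i:ℝ)) ≤ 1 / ((i:ℝ) + 1) := one_div_le_one_div_of_le (by positivity) (by linarith)
    have h4 : 2 / (i:ℝ) = 4 * (1 / (2 * (i:ℝ))) := by field_simp; norm_num
    rw [h4, hτ]
    linarith
  have hτpos : 0 < τ := lt_of_lt_of_le (by positivity) hτlow
  have hkr : ((i^4 : ℕ) : ℝ) = (i:ℝ)^4 := by push_cast; ring
  have hi4 : 16 ≤ (i:ℝ)^4 := by
    calc (16:ℝ) = 2^4 := by norm_num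
      _ ≤ (i:ℝ)^4 := pow_le_pow_left₀ (by norm_num) hir 4
  -- choose z
  set z : ℝ := min τ 1 / (i:ℝ)^4 with hz
  have hz0 : 0 ≤ z := by rw [hz]; positivity
  have hzle : z ≤ 1/2 := by
    rw [hz, div_le_iff₀ (by positivity)]
    have := min_le_right τ 1
    linarith
  have hlow := corr_lower (i^4) (j^4) hk1 (Nat.pow_le_pow_left hij.le 4) τ z hτ' (by
    rw [hkr, hz]
    rcases le_total τ 1 with h | h
    · left; rw [min_eq_left h]
    · right; rw [min_eq_right h]) (by linarith)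
  refine lt_of_lt_of_le ?_ hlow
  refine lt_of_le_of_lt (rM_speed τ e hτpos.le he.le) ?_
  rw [mul_comm]
  apply mul_lt_mul_of_pos_right _ (rM_pos τ)
  refine lt_of_lt_of_le ?_ (exp_two_le z hz0 hzle)
  apply Real.exp_lt_exp.2
  apply neg_lt_neg
  -- 2 z < e τ²/(2(2+τ))
  rw [lt_div_iff₀ (by positivity)]
  rcases le_total τ 1 with h | h
  · rw [hz, min_eq_left h]
    have h1 : 2 * (τ / (i:ℝ)^4) * (2 * (2 + τ)) ≤ 12 * (τ / (i:ℝ)^4) := by
      have : 0 ≤ τ / (i:ℝ)^4 := by positivity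
      nlinarith
    refine lt_of_le_of_lt h1 ?_
    -- 12 τ / i^4 < e τ²
    have h3 : e * (2 / i) ≤ e * τ := mul_le_mul_of_nonneg_left hτlow he.le
    have h5 : 12 / (i:ℝ)^4 < e * (2 / i) := by
      rw [div_lt_iff₀ (by positivity)]
      have e4 : e * (2 / (i:ℝ)) * (i:ℝ)^4 = 2 * ((e * i) * (i:ℝ)^2) := by field_simp
      rw [e4]
      nlinarith
    have h6 : τ * (12 / (i:ℝ)^4) < τ * (e * τ) := mul_lt_mul_of_pos_left (lt_of_lt_of_le h5 h3) hτpos
    calc 12 * (τ / (i:ℝ)^4) = τ * (12 / (i:ℝ)^4) := by ring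
      _ < τ * (e * τ) := h6
      _ = e * τ ^ 2 := by ring
  · rw [hz, min_eq_right h]
    have h1 : 2 * (1 / (i:ℝ)^4) * (2 * (2 + τ)) ≤ 12 * τ * (1 / (i:ℝ)^4) := by
      have : 0 ≤ 1 / (i:ℝ)^4 := by positivity
      nlinarith
    refine lt_of_le_of_lt h1 ?_
    have h2 : 12 * (1 / (i:ℝ)^4) < e := by
      rw [mul_one_div, div_lt_iff₀ (by positivity)]
      have : (i:ℝ) ≤ (i:ℝ)^4 := by
        calc (i:ℝ) = (i:ℝ)^1 := (pow_one _).symm
          _ ≤ (i:ℝ)^4 := pow_le_pow_right₀ (by linarith) (by norm_num)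
      nlinarith
    have h3 : 12 * τ * (1 / (i:ℝ)^4) = τ * (12 * (1 / (i:ℝ)^4)) := by ring
    rw [h3]
    have h4 : τ * (12 * (1 / (i:ℝ)^4)) < τ * e := mul_lt_mul_of_pos_left h2 hτpos
    nlinarith

end Pool.GP
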