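import Pool.Agent.Lib.GPX.Shift
import Pool.Agent.Lib.GP.Embed

set_option autoImplicit false

/-!
From the unit walk to the fine walk sampled at multiples of `M^2`.
-/

namespace Pool.GP

open Finset

lemma abs_Yi_le (b : ℕ → Bool) (t : ℕ) : |Yi b t| ≤ t := by
  induction t with
  | zero => simp [Yi_zero]
  | succ t ih =>
    rw [Yi_succ]
    have h1 := abs_add_le (Yi b t) (si (b t))
    rw [abs_si] at h1
    push_cast
    omega

lemma Cw_const (M : ℕ) {m : ℕ} (ε : Fin m → Bool) (l : ℕ) :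
    Cw (fun _ => M) ε l = M * Y ε l := by
  unfold Cw Y
  rw [Wk_eq_Ws, ← Ws_smul]
  refine Ws_congr m (fun j _ => ?_) ε
  split_ifs <;> simp

lemma sqrt_mul_sq (i M : ℕ) : Real.sqrt ((i:ℝ) * (M:ℝ)^2) = Real.sqrt i * M := by
  rw [Real.sqrt_mul (by positivity), Real.sqrt_sq (by positivity)]

/-- the good event -/
def gd (M I K N : ℕ) (x : ℝ) (ω : Fin N → Bool) : Prop :=
  K ≤ stg (fun _ => M) (ext ω) N ∧
  (∀ i ∈ Icc I K, |(M:ℝ) * Y (esig (fun _ => M) K N ω) i - Y ω (i * M^2)| ≤ Real.sqrt i * M / x) ∧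
  (∀ i ∈ Icc 1 I, |Y ω (i * M^2)| ≤ M * I)

lemma gd_prob (M I K N : ℕ) (x : ℝ) (hx : 2 ≤ x) (hM : 1 ≤ M) (hI : x ^ 12 ≤ I) (hIK : I ≤ K)
    (hK : 2 ≤ K) (hN : 2 * K * M^2 ≤ N) :
    Pr N (fun ω => ¬ gd M I K N x ω) ≤ 4 * K * Real.exp (-(x/40)) + 2 * I * Real.exp (-((I:ℝ)/2)) := by
  have hx0 : 0 < x := by linarith
  have hMpos : (0:ℝ) < M := by exact_mod_cast hM
  have hIpos : (0:ℝ) < I := lt_of_lt_of_le (by positivity) hI
  have hI1 : 1 ≤ I := by
    have : 0 < I := by exact_mod_cast hIpos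
    omega
  have hM1 : (1:ℝ) ≤ (M:ℝ)^2 := by
    have : (1:ℝ) ≤ M := by exact_mod_cast hM
    nlinarith
  have hNr : 2 * (K:ℝ) * (M:ℝ)^2 ≤ N := by exact_mod_cast hN
  -- each index
  have h1 : ∀ i ∈ Icc I K, Pr N (fun ω => ¬ (i ≤ stg (fun _ => M) (ext ω) N ∧
      |Cw (fun _ => M) (esig (fun _ => M) K N ω) i - Y ω (i * M^2)| ≤ Real.sqrt ((i:ℝ) * (M:ℝ)^2) / x))
      ≤ 4 * Real.exp (-(x/40)) := by
    intro i hi
    rw [Finset.mem_Icc] at hi
    have hi0 : (0:ℝ) < i := by exact_mod_cast (by omega : 0 < i)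
    have hiI : (I:ℝ) ≤ i := by exact_mod_cast hi.1
    have hiK : (i:ℝ) ≤ K := by exact_mod_cast hi.2
    have hcast : ((i * M^2 : ℕ) : ℝ) = (i:ℝ) * (M:ℝ)^2 := by push_cast; ring
    have hs : ∑ j ∈ range i, (((fun _ => M) j : ℕ) : ℝ) ^ 2 = (i:ℝ) * (M:ℝ)^2 := by
      rw [Finset.sum_const, Finset.card_range, nsmul_eq_mul]
    have hf : ∑ j ∈ range i, (((fun _ => M) j : ℕ) : ℝ) ^ 4 = (i:ℝ) * (M:ℝ)^4 := by
      rw [Finset.sum_const, Finset.card_range, nsmul_eq_mul]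
    refine one_index (fun _ => M) (fun _ => hM) K N i (i * M^2) x ((i:ℝ) * (M:ℝ)^2) hx hi.2
      (by positivity) (by rw [hcast]) (by rw [hcast]; linarith) ?_ ?_ ?_
    · rw [hs, sub_self, abs_zero]; positivity
    · rw [hf, le_div_iff₀ (by positivity)]
      have : (i:ℝ) * (M:ℝ)^4 * x^12 ≤ (i:ℝ) * (M:ℝ)^4 * i :=
        mul_le_mul_of_nonneg_left (hI.trans hiI) (by positivity)
      calc _ ≤ (i:ℝ) * (M:ℝ)^4 * i := this
        _ = _ := by ring
    · have hx3 : 8 ≤ x ^ 3 := by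
        calc (8:ℝ) = 2 ^ 3 := by norm_num
          _ ≤ x ^ 3 := pow_le_pow_left₀ (by norm_num) hx 3
      have h3 : 2 / x ^ 3 ≤ 1 / 4 := by
        rw [div_le_div_iff₀ (by positivity) (by norm_num)]; linarith
      have h4 : (i:ℝ) * (M:ℝ)^2 ≤ K * (M:ℝ)^2 := mul_le_mul_of_nonneg_right hiK (by positivity)
      have h5 : (i:ℝ) * (M:ℝ)^2 * (1 + 2 / x^3) ≤ K * (M:ℝ)^2 * (1 + 1/4) := by
        apply mul_le_mul h4 (by linarith) (by positivity) (by positivity)
      have h6 : (2:ℝ) * 1 ≤ K * (M:ℝ)^2 := mul_le_mul (by exact_mod_cast hK) hM1 (by norm_num) (by positivity)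
      linarith
  have h2 : ∀ i ∈ Icc 1 I, Pr N (fun ω => ¬ (|Y ω (i * M^2)| ≤ M * I)) ≤ 2 * Real.exp (-((I:ℝ)/2)) := by
    intro i hi
    rw [Finset.mem_Icc] at hi
    have hiI : (i:ℝ) ≤ I := by exact_mod_cast hi.2
    have h3 := hoeffding_abs N (fun j => if j < i * M^2 then 1 else 0) ((I:ℝ) * (M:ℝ)^2) ((M:ℝ) * I)
      ?_ (by positivity) (by positivity)
    · refine le_trans (Pr_mono N fun ω h => ?_) (h3.trans (le_of_eq ?_))
      · push Not at h
        exact h.le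
      · congr 2
        field_simp
    · have h4 : ∑ j ∈ range N, (if j < i * M^2 then (1:ℝ) else 0) ^ 2 ≤ ((i * M^2 : ℕ):ℝ) := by
        have h5 : ∀ j ∈ range N, (if j < i * M^2 then (1:ℝ) else 0) ^ 2 = if j < i * M^2 then (1:ℝ) else 0 := by
          intro j _; split_ifs <;> norm_num
        rw [Finset.sum_congr rfl h5, ← Finset.sum_filter, Finset.sum_const, nsmul_eq_mul, mul_one]
        have h6 : (range N).filter (fun j => j < i * M^2) ⊆ range (i * M^2) := by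
          intro j hj
          rw [Finset.mem_filter] at hj
          exact Finset.mem_range.2 hj.2
        have h7 := Finset.card_le_card h6
        rw [Finset.card_range] at h7
        exact_mod_cast h7
      refine h4.trans ?_
      push_cast
      exact mul_le_mul_of_nonneg_right hiI (by positivity)
  have h3 : ∀ ω : Fin N → Bool, ¬ gd M I K N x ω →
      (∃ i ∈ Icc I K, ¬ (i ≤ stg (fun _ => M) (ext ω) N ∧
      |Cw (fun _ => M) (esig (fun _ => M) K N ω) i - Y ω (i * M^2)| ≤ Real.sqrt ((i:ℝ) * (M:ℝ)^2) / x)) ∨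
      (∃ i ∈ Icc 1 I, ¬ (|Y ω (i * M^2)| ≤ M * I)) := by
    intro ω hneg
    by_contra hc
    push Not at hc
    obtain ⟨hc1, hc2⟩ := hc
    apply hneg
    refine ⟨(hc1 K (Finset.mem_Icc.2 ⟨hIK, le_rfl⟩)).1, fun i hi => ?_, fun i hi => hc2 i hi⟩
    have := (hc1 i hi).2
    rw [Cw_const, sqrt_mul_sq] at this
    exact this
  refine (Pr_mono N h3).trans ((Pr_or_le N _ _).trans (add_le_add ?_ ?_))
  · refine (Pr_exists_le N (Icc I K) _).trans ((Finset.sum_le_sum h1).trans ?_)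
    rw [Finset.sum_const, nsmul_eq_mul, Nat.card_Icc]
    have h5 : ((K + 1 - I : ℕ):ℝ) ≤ K := by exact_mod_cast (by omega : K + 1 - I ≤ K)
    have := Real.exp_pos (-(x/40))
    nlinarith
  · refine (Pr_exists_le N (Icc 1 I) _).trans ((Finset.sum_le_sum h2).trans ?_)
    rw [Finset.sum_const, nsmul_eq_mul, Nat.card_Icc]
    have : ((I + 1 - 1 : ℕ):ℝ) = I := by
      have : I + 1 - 1 = I := by omega
      rw [this]
    rw [this]
    linarith

/-- coarse areas are dominated by fine areas -/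
lemma coarse_le_fine (M I K N K1 : ℕ) (x : ℝ) (hx : 2 ≤ x) (hM : 1 ≤ M) (hI : x ^ 12 ≤ I) (hIK : I ≤ K)
    (hK : 2 ≤ K) (hN : 2 * K * M^2 ≤ N) (h : ℕ → ℝ) :
    Pr K (fun ε => ∀ k ∈ Icc K1 K, h k + (k:ℝ) * Real.sqrt k / x + 2 * (I:ℝ)^2 ≤ ∑ i ∈ Icc 1 k, Y ε i)
      ≤ Pr N (fun ω => ∀ k ∈ Icc K1 K, M * h k ≤ ∑ i ∈ Icc 1 k, Y ω (i * M^2))
        + 2 * (4 * K * Real.exp (-(x/40)) + 2 * I * Real.exp (-((I:ℝ)/2))) := by
  set F : (Fin K → Bool) → ℝ := fun ε =>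
    ind (∀ k ∈ Icc K1 K, h k + (k:ℝ) * Real.sqrt k / x + 2 * (I:ℝ)^2 ≤ ∑ i ∈ Icc 1 k, Y ε i) with hF
  have hx0 : 0 < x := by linarith
  have hMpos : (0:ℝ) < M := by exact_mod_cast hM
  have hlaw := law_esig (fun _ => M) K N F
  have hgood := gd_prob M I K N x hx hM hI hIK hK hN
  set δ := 4 * (K:ℝ) * Real.exp (-(x/40)) + 2 * I * Real.exp (-((I:ℝ)/2)) with hδ
  have hδ0 : 0 ≤ δ := by positivity
  have hEF : E K F = Pr K (fun ε => ∀ k ∈ Icc K1 K,
    h k + (k:ℝ) * Real.sqrt k / x + 2 * (I:ℝ)^2 ≤ ∑ i ∈ Icc 1 k, Y ε i) := rfl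
  have h1 : 1 - δ ≤ Pr N (fun ω => K ≤ stg (fun _ => M) (ext ω) N) := by
    have h2 := Pr_add_not N (fun ω => K ≤ stg (fun _ => M) (ext ω) N)
    have h3 : Pr N (fun ω => ¬ K ≤ stg (fun _ => M) (ext ω) N) ≤ δ := by
      refine le_trans (Pr_mono N fun ω hn => ?_) hgood
      exact fun hc => hn hc.1
    linarith
  have hE1 : E K F ≤ 1 := by rw [hEF]; exact Pr_le_one _ _
  have hE0 : 0 ≤ E K F := by rw [hEF]; exact Pr_nonneg _ _
  have hlow : E K F - δ ≤ E N (fun ω => F (esig (fun _ => M) K N ω) * ind (K ≤ stg (fun _ => M) (ext ω) N)) := by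
    rw [hlaw]
    nlinarith
  have hup : E N (fun ω => F (esig (fun _ => M) K N ω) * ind (K ≤ stg (fun _ => M) (ext ω) N))
      ≤ Pr N (fun ω => ∀ k ∈ Icc K1 K, M * h k ≤ ∑ i ∈ Icc 1 k, Y ω (i * M^2)) + δ := by
    refine le_trans ?_ (add_le_add le_rfl hgood)
    unfold Pr
    rw [← E_add]
    refine E_mono N fun ω => ?_
    by_cases hg : gd M I K N x ω
    · have e1 : F (esig (fun _ => M) K N ω)
          ≤ ind (∀ k ∈ Icc K1 K, M * h k ≤ ∑ i ∈ Icc 1 k, Y ω (i * M^2)) := by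
        rw [hF]
        apply ind_mono
        intro hall k hk
        have hk' := Finset.mem_Icc.1 hk
        have e2 := hall k hk
        set ε := esig (fun _ => M) K N ω with hε
        have e3 : ∀ i ∈ Icc 1 k, (M:ℝ) * Y ε i - (M * (Real.sqrt k / x) + (if i ≤ I then 2 * (M:ℝ) * I else 0))
            ≤ Y ω (i * M^2) := by
          intro i hi
          rw [Finset.mem_Icc] at hi
          rcases le_or_gt i I with h4 | h4
          · rw [if_pos h4]
            have e4 := hg.2.2 i (Finset.mem_Icc.2 ⟨hi.1, h4⟩)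
            have e5 : Y ε i ≤ I := by
              rw [Y_eq_Yi ε (by omega)]
              have e6 := abs_Yi_le (ext ε) i
              have e7 : Yi (ext ε) i ≤ I := (le_abs_self _).trans (e6.trans (by exact_mod_cast h4))
              exact_mod_cast e7
            have e6 := (abs_le.1 e4).1
            have e7 : (M:ℝ) * Y ε i ≤ M * I := mul_le_mul_of_nonneg_left e5 hMpos.le
            have e8 : 0 ≤ (M:ℝ) * (Real.sqrt k / x) := by positivity
            linarith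
          · rw [if_neg (by omega)]
            have e4 := hg.2.1 i (Finset.mem_Icc.2 ⟨h4.le, hi.2.trans hk'.2⟩)
            have e6 := (abs_le.1 e4).2
            have e7 : Real.sqrt i * M / x ≤ M * (Real.sqrt k / x) := by
              have : Real.sqrt i ≤ Real.sqrt k := Real.sqrt_le_sqrt (by exact_mod_cast hi.2)
              calc Real.sqrt i * M / x ≤ Real.sqrt k * M / x := by gcongr
                _ = _ := by ring
            linarith
        have e4 := Finset.sum_le_sum e3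
        refine le_trans ?_ e4
        rw [Finset.sum_sub_distrib, ← Finset.mul_sum, Finset.sum_add_distrib, Finset.sum_const,
          nsmul_eq_mul, Nat.card_Icc]
        have e5 : ((k + 1 - 1 : ℕ):ℝ) = k := by
          have : k + 1 - 1 = k := by omega
          rw [this]
        rw [e5]
        have e6 : ∑ i ∈ Icc 1 k, (if i ≤ I then 2 * (M:ℝ) * I else 0) ≤ 2 * M * (I:ℝ)^2 := by
          rw [← Finset.sum_filter, Finset.sum_const, nsmul_eq_mul]
          have e7 : (Icc 1 k).filter (fun i => i ≤ I) ⊆ Icc 1 I := by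
            intro i hi
            rw [Finset.mem_filter, Finset.mem_Icc] at hi
            rw [Finset.mem_Icc]; omega
          have e8 := Finset.card_le_card e7
          rw [Nat.card_Icc] at e8
          have e9 : (((Icc 1 k).filter (fun i => i ≤ I)).card : ℝ) ≤ I := by
            exact_mod_cast (by omega : ((Icc 1 k).filter (fun i => i ≤ I)).card ≤ I)
          calc _ ≤ (I:ℝ) * (2 * M * I) := mul_le_mul_of_nonneg_right e9 (by positivity)
            _ = _ := by ring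
        have e7 := mul_le_mul_of_nonneg_left e2 hMpos.le
        have e8 : (M:ℝ) * (h k + (k:ℝ) * Real.sqrt k / x + 2 * (I:ℝ)^2)
            = M * h k + k * (M * (Real.sqrt k / x)) + 2 * M * (I:ℝ)^2 := by ring
        rw [e8] at e7
        linarith
      have e5 : F (esig (fun _ => M) K N ω) * ind (K ≤ stg (fun _ => M) (ext ω) N)
          ≤ F (esig (fun _ => M) K N ω) * 1 :=
        mul_le_mul_of_nonneg_left (ind_le_one _) (ind_nonneg _)
      have e6 := ind_nonneg (¬ gd M I K N x ω)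
      linarith
    · rw [ind_of hg]
      have e5 : F (esig (fun _ => M) K N ω) * ind (K ≤ stg (fun _ => M) (ext ω) N) ≤ 1 * 1 :=
        mul_le_mul (ind_le_one _) (ind_le_one _) (ind_nonneg _) zero_le_one
      have e6 := ind_nonneg (∀ k ∈ Icc K1 K, M * h k ≤ ∑ i ∈ Icc 1 k, Y ω (i * M^2))
      linarith
  rw [← hEF]
  linarith

lemma Y_mono {n : ℕ} (t : ℕ) {ω ω' : Fin n → Bool} (h : ∀ j, sg (ω j) ≤ sg (ω' j)) :
    Y ω t ≤ Y ω' t := by
  unfold Y Ws
  refine Finset.sum_le_sum fun j _ => ?_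
  beta_reduce
  split_ifs
  · linarith [h j]
  · simp

/-- initial positivity -/
lemma initial_pos (M K1 N : ℕ) (hM : 1 ≤ M) (hK1 : 1 ≤ K1) (hN : K1 * M^2 ≤ N) :
    1 / (64 * Real.sqrt K1) ≤ Pr N (fun ω => ∀ i ∈ Icc 1 K1, 0 ≤ Y ω (i * M^2)) := by
  have hMpos : (0:ℝ) < M := by exact_mod_cast hM
  have hM1 : (1:ℝ) ≤ (M:ℝ)^2 := by
    have : (1:ℝ) ≤ M := by exact_mod_cast hM
    nlinarith
  have hK1pos : (0:ℝ) < K1 := by exact_mod_cast hK1
  have hMM : M^2 ≤ K1 * M^2 := Nat.le_mul_of_pos_left _ (by omega)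
  obtain ⟨r, hr⟩ : ∃ r, K1 * M^2 = M^2 + r := ⟨K1 * M^2 - M^2, by omega⟩
  -- marginal
  have h1 : Pr N (fun ω => ∀ i ∈ Icc 1 K1, 0 ≤ Y ω (i * M^2))
      = Pr (M^2 + r) (fun ω => ∀ i ∈ Icc 1 K1, 0 ≤ Yi (ext ω) (i * M^2)) := by
    rw [← Pr_prefix (N := N) (t := M^2 + r) (by omega)
      (fun b => ∀ i ∈ Icc 1 K1, 0 ≤ Yi b (i * M^2))]
    · refine Pr_congr N fun ω => ?_
      refine forall₂_congr fun i hi => ?_
      rw [Finset.mem_Icc] at hi
      have : i * M^2 ≤ K1 * M^2 := Nat.mul_le_mul_right _ hi.2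
      rw [Y_eq_Yi ω (by omega)]
      exact_mod_cast Iff.rfl
    · intro b b' hb
      refine forall₂_congr fun i hi => ?_
      rw [Finset.mem_Icc] at hi
      have : i * M^2 ≤ K1 * M^2 := Nat.mul_le_mul_right _ hi.2
      rw [Yi_congr (fun v hv => hb v (by omega))]
  rw [h1]
  have h2 := Pr_append (M^2) r (fun a => (M:ℝ) / 2 ≤ Ws (M^2) (fun _ => 1) a)
    (fun a => ∀ k ≤ r, 0 < (M:ℝ)/2 + Wk (fun _ => 1) a k)
  have h3 : Pr (M^2 + r) (fun ω => (fun a => (M:ℝ) / 2 ≤ Ws (M^2) (fun _ => 1) a)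
        (fun i => ω (Fin.castAdd r i)) ∧
      (fun a => ∀ k ≤ r, 0 < (M:ℝ)/2 + Wk (fun _ => 1) a k) (fun i => ω (Fin.natAdd (M^2) i)))
      ≤ Pr (M^2 + r) (fun ω => ∀ i ∈ Icc 1 K1, 0 ≤ Yi (ext ω) (i * M^2)) := by
    refine Pr_mono _ fun ω hω i hi => ?_
    obtain ⟨hA, hB⟩ := hω
    rw [Finset.mem_Icc] at hi
    have hle : M^2 ≤ i * M^2 := Nat.le_mul_of_pos_left _ (by omega)
    have hle2 : i * M^2 ≤ K1 * M^2 := Nat.mul_le_mul_right _ hi.2
    set k := i * M^2 - M^2 with hk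
    have hik : i * M^2 = M^2 + k := by omega
    have hkr : k ≤ r := by omega
    have e1 := hB k hkr
    beta_reduce at hA e1
    rw [Ws_one_eq] at hA
    rw [Wk_eq_Ws] at e1
    have e2 : Ws r (fun j => if j < k then (1:ℝ) else 0) (fun i => ω (Fin.natAdd (M^2) i))
        = (Yi (ext (fun i => ω (Fin.natAdd (M^2) i))) k : ℝ) := by
      rw [← Y_eq_Yi _ hkr]; rfl
    rw [e2] at e1
    have e3 : Yi (ext (fun i : Fin (M^2) => ω (Fin.castAdd r i))) (M^2) = Yi (ext ω) (M^2) :=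
      Yi_congr fun v hv => ext_castAdd ω hv
    have e4 : Yi (ext (fun i : Fin r => ω (Fin.natAdd (M^2) i))) k = Yi (shb (M^2) (ext ω)) k :=
      Yi_congr fun v hv => ext_natAdd ω (by omega)
    rw [e3] at hA
    rw [e4, Yi_shb] at e1
    rw [hik]
    have e5 : (0:ℝ) < (Yi (ext ω) (M^2 + k) : ℝ) := by
      push_cast at e1
      linarith
    exact_mod_cast e5.le
  refine le_trans ?_ h3
  rw [h2]
  have h4 := paley_zygmund (M^2) (fun _ => 1) M hMpos (by simp)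
  have h5 := survive r (fun _ => 1) 1 r ((M:ℝ)/2) (fun j _ => by norm_num) (by simp) (by positivity)
  have h6 : 1 / (4 * Real.sqrt (2 * K1)) ≤ Pr r (fun a => ∀ k ≤ r, 0 < (M:ℝ)/2 + Wk (fun _ => 1) a k) := by
    refine le_trans ?_ h5
    have e1 : 2 * (r:ℝ) + 1 ^ 2 + ((M:ℝ)/2)^2 ≤ (2 * K1) * (M:ℝ)^2 := by
      have : (K1:ℝ) * (M:ℝ)^2 = (M:ℝ)^2 + r := by exact_mod_cast hr
      nlinarith
    have e2 : Real.sqrt (2 * (r:ℝ) + 1 ^ 2 + ((M:ℝ)/2)^2) ≤ Real.sqrt (2 * K1) * M := by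
      refine (Real.sqrt_le_sqrt e1).trans (le_of_eq ?_)
      rw [Real.sqrt_mul (by positivity), Real.sqrt_sq (by positivity)]
    have e3 : 0 < Real.sqrt (2 * (r:ℝ) + 1 ^ 2 + ((M:ℝ)/2)^2) := Real.sqrt_pos.2 (by positivity)
    have e4 : 0 < Real.sqrt (2 * (K1:ℝ)) := Real.sqrt_pos.2 (by positivity)
    rw [div_le_div_iff₀ (by positivity) (by positivity)]
    nlinarith
  have h7 : 1 / (64 * Real.sqrt K1) ≤ 3 / 32 * (1 / (4 * Real.sqrt (2 * K1))) := by
    have e4 : 0 < Real.sqrt (K1:ℝ) := Real.sqrt_pos.2 (by positivity)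
    have e5 : Real.sqrt (2 * (K1:ℝ)) ≤ 3 / 2 * Real.sqrt K1 := by
      rw [show 3 / 2 * Real.sqrt (K1:ℝ) = Real.sqrt ((3/2)^2 * K1) by
        rw [Real.sqrt_mul (by norm_num), Real.sqrt_sq (by norm_num)]]
      apply Real.sqrt_le_sqrt; nlinarith
    have e6 : 0 < Real.sqrt (2 * (K1:ℝ)) := Real.sqrt_pos.2 (by positivity)
    have e7 : 3 / 32 * (1 / (4 * Real.sqrt (2 * (K1:ℝ)))) = 3 / (128 * Real.sqrt (2 * K1)) := by
      field_simp; norm_num
    rw [e7, div_le_div_iff₀ (by positivity) (by positivity)]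
    linarith
  refine h7.trans (mul_le_mul h4 h6 (by positivity) (Pr_nonneg _ _))

/-- extension to all indices by Harris -/
lemma harris_fine (M K1 K N : ℕ) :
    Pr N (fun ω => ∀ i ∈ Icc 1 K1, 0 ≤ Y ω (i * M^2))
      * Pr N (fun ω => ∀ k ∈ Icc K1 K, 0 ≤ ∑ i ∈ Icc 1 k, Y ω (i * M^2))
      ≤ Pr N (fun ω => ∀ k ∈ Icc 1 K, 0 ≤ ∑ i ∈ Icc 1 k, Y ω (i * M^2)) := by
  refine (harris N ?_ ?_).trans (Pr_mono N fun ω h k hk => ?_)
  · intro ω ω' hle hA i hi
    exact (hA i hi).trans (Y_mono _ hle)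
  · intro ω ω' hle hA k hk
    exact (hA k hk).trans (Finset.sum_le_sum fun i _ => Y_mono _ hle)
  · rw [Finset.mem_Icc] at hk
    rcases le_or_gt K1 k with h1 | h1
    · exact h.2 k (Finset.mem_Icc.2 ⟨h1, hk.2⟩)
    · exact Finset.sum_nonneg fun i hi => h.1 i
        (Finset.mem_Icc.2 ⟨(Finset.mem_Icc.1 hi).1, by have := (Finset.mem_Icc.1 hi).2; omega⟩)

end Pool.GP
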