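import Pool.Agent.Lib.GPX.GaussLim
import Pool.Agent.Lib.GP.Sinai3

set_option autoImplicit false

/-!
Upper bounds for the area persistence of the fine walk and of the Gaussian walk.
-/

namespace Pool.GP

open Finset Filter Topology MeasureTheory ProbabilityTheory

/-- upper bound for the area persistence of the simple walk -/
lemma area_upper_srw (K : ℕ) :
    Pr K (fun ω => ∀ k ∈ Icc 1 K, 0 ≤ ∑ i ∈ Icc 1 k, Y ω i) ≤
      4 / Real.sqrt (Real.sqrt ((K:ℝ) + 1)) := by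
  have h1 : Pr K (fun ω => ∀ k ∈ Icc 1 K, 0 ≤ ∑ i ∈ Icc 1 k, Y ω i) ≤ Sinai.rr K := by
    unfold Sinai.rr Sinai.PP
    refine Pr_mono K fun ω hω t ht _ => ?_
    rcases Nat.eq_zero_or_pos t with rfl | h0
    · simp [Sinai.Ar_zero]
    · have h2 := hω t (Finset.mem_Icc.2 ⟨h0, ht⟩)
      rw [sum_Y_eq_Ai ω t ht] at h2
      have h3 : (0:ℤ) ≤ Ai (ext ω) t := by exact_mod_cast h2
      exact h3
  refine h1.trans ?_
  have h2 := Sinai.rr_le K
  have h3 : Sinai.fr (K + 1) = Real.sqrt (Real.sqrt ((K:ℝ) + 1)) := by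
    unfold Sinai.fr; push_cast; rfl
  rw [h3] at h2
  rw [le_div_iff₀ (Real.sqrt_pos.2 (Real.sqrt_pos.2 (by positivity)))]
  exact h2

/-- the tilt for areas, from a negative threshold -/
lemma tilt_area_neg (K u0 K1 : ℕ) (hK1 : 4 * u0 ≤ K1) (δ : ℝ) (hδ0 : 0 < δ) (hδ1 : δ ≤ 1)
    (hu0 : 1 ≤ u0) (M : ℝ) (hM : 0 < M) (p : ℕ) :
    Pr K (fun ω => ∀ k ∈ Icc K1 K, -(δ / 8 * ((k:ℝ) * Real.sqrt k)) ≤ ∑ i ∈ Icc 1 k, Y ω i) ≤
      M * Pr K (fun ω => ∀ k ∈ Icc K1 K, 0 ≤ ∑ i ∈ Icc 1 k, Y ω i)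
      + K * Real.exp (-(δ * Real.sqrt u0 / 16))
      + Real.exp (((p:ℝ) + 1) ^ 2 * (δ ^ 2 * (1 + Real.log K)) / 2) / M ^ p := by
  set b : ℕ → ℝ := fun v => δ / Real.sqrt ((v:ℝ)+1) with hb
  have hsq1 : ∀ v : ℕ, 1 ≤ Real.sqrt ((v:ℝ)+1) := by
    intro v; rw [Real.one_le_sqrt]; have : (0:ℝ) ≤ v := by positivity
    linarith
  have hb0 : ∀ v, 0 ≤ b v := fun v => by simp only [hb]; positivity
  have hb1 : ∀ v, b v ≤ 1 := fun v => by
    simp only [hb]
    rw [div_le_one (by have := hsq1 v; linarith)]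
    have := hsq1 v; linarith
  have hsumb : ∀ u : ℕ, δ * Real.sqrt u ≤ ∑ v ∈ range u, b v := by
    intro u
    simp only [hb]
    have := mul_le_mul_of_nonneg_left (sqrt_le_sum_inv_sqrt' u) hδ0.le
    refine this.trans (le_of_eq ?_)
    rw [Finset.mul_sum]
    exact Finset.sum_congr rfl fun v _ => by ring
  have hsumb2 : ∑ v ∈ range K, b v ^ 2 ≤ δ ^ 2 * (1 + Real.log K) := by
    have h1 : ∑ v ∈ range K, b v ^ 2 = δ ^ 2 * ∑ v ∈ range K, 1 / ((v:ℝ)+1) := by
      rw [Finset.mul_sum]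
      refine Finset.sum_congr rfl fun v _ => ?_
      simp only [hb]
      rw [div_pow, Real.sq_sqrt (by positivity)]; ring
    rw [h1]
    exact mul_le_mul_of_nonneg_left (sum_range_inv_le_log K) (by positivity)
  set bad : (Fin K → Bool) → (Fin K → Bool) → Prop := fun ω F =>
    ∃ u ∈ Icc u0 K, zc u ω F < δ * Real.sqrt u / 2 / 2 with hbad
  have hJbad : J K b (fun ω F => ind (bad ω F)) ≤ K * Real.exp (-(δ * Real.sqrt u0 / 16)) := by
    have h1 : ∀ ω F : Fin K → Bool, ind (bad ω F)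
        ≤ ∑ u ∈ Icc u0 K, ind (zc u ω F < δ * Real.sqrt u / 2 / 2) := by
      intro ω F
      by_cases h : bad ω F
      · rw [ind_of h]
        obtain ⟨u, hu, h2⟩ := h
        calc (1:ℝ) = ind (zc u ω F < δ * Real.sqrt u / 2 / 2) := (ind_of h2).symm
          _ ≤ _ := Finset.single_le_sum (f := fun u : ℕ => ind (zc u ω F < δ * Real.sqrt u / 2 / 2))
              (fun j _ => ind_nonneg _) hu
      · rw [ind_not h]
        exact Finset.sum_nonneg fun j _ => ind_nonneg _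
    refine (J_mono hb0 hb1 h1).trans ?_
    have h2 : ∀ s : Finset ℕ, J K b (fun ω F => ∑ u ∈ s, ind (zc u ω F < δ * Real.sqrt u / 2 / 2))
        = ∑ u ∈ s, J K b (fun ω F => ind (zc u ω F < δ * Real.sqrt u / 2 / 2)) := by
      intro s
      induction s using Finset.induction_on with
      | empty =>
        simp only [Finset.sum_empty]
        unfold J; simp [E_const]
      | insert a s ha ih =>
        simp only [Finset.sum_insert ha]
        rw [J_add, ih]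
    rw [h2]
    have h3 : ∀ u ∈ Icc u0 K, J K b (fun ω F => ind (zc u ω F < δ * Real.sqrt u / 2 / 2))
        ≤ Real.exp (-(δ * Real.sqrt u0 / 16)) := by
      intro u hu
      rw [Finset.mem_Icc] at hu
      refine (J_flips K b hb0 hb1 u hu.2 (δ * Real.sqrt u / 2) (by positivity) ?_).trans ?_
      · have := hsumb u; linarith
      · apply Real.exp_le_exp.2
        have h4 : Real.sqrt u0 ≤ Real.sqrt u := Real.sqrt_le_sqrt (by exact_mod_cast hu.1)
        have h5 : δ * Real.sqrt u0 ≤ δ * Real.sqrt u := mul_le_mul_of_nonneg_left h4 hδ0.le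
        linarith
    refine (Finset.sum_le_sum h3).trans ?_
    rw [Finset.sum_const, nsmul_eq_mul, Nat.card_Icc]
    apply mul_le_mul_of_nonneg_right _ (Real.exp_pos _).le
    exact_mod_cast (by omega : K + 1 - u0 ≤ K)
  have key := tilt_abstract K b hb0 hb1
    (fun ω => ∀ k ∈ Icc K1 K, -(δ / 8 * ((k:ℝ) * Real.sqrt k)) ≤ ∑ i ∈ Icc 1 k, Y ω i)
    (fun ω => ∀ k ∈ Icc K1 K, 0 ≤ ∑ i ∈ Icc 1 k, Y ω i) bad ?_ _ M hM p hJbad
  · refine key.trans ?_
    have h1 : Real.exp (((p:ℝ) + 1) ^ 2 * (∑ v ∈ range K, b v ^ 2) / 2) / M ^ p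
        ≤ Real.exp (((p:ℝ) + 1) ^ 2 * (δ ^ 2 * (1 + Real.log K)) / 2) / M ^ p := by
      gcongr
    linarith
  · intro ω F hA hnb k hk
    rw [Finset.mem_Icc] at hk
    have h1 : ∀ i, Y (orv ω F) i = Y ω i + 2 * zc i ω F := fun i => Y_orv i ω F
    simp only [h1]
    rw [Finset.sum_add_distrib]
    have h2 := hA k (Finset.mem_Icc.2 hk)
    have h3 : ∀ i ∈ Icc 1 k, δ / 2 * (if u0 ≤ i then Real.sqrt i else 0) ≤ 2 * zc i ω F := by
      intro i hi
      rw [Finset.mem_Icc] at hi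
      split_ifs with h4
      · have h5 : ¬ zc i ω F < δ * Real.sqrt i / 2 / 2 := fun hc =>
          hnb ⟨i, Finset.mem_Icc.2 ⟨h4, by omega⟩, hc⟩
        push Not at h5
        linarith
      · rw [mul_zero]
        have : 0 ≤ zc i ω F := by
          unfold zc
          exact Finset.sum_nonneg fun v _ => by split_ifs <;> norm_num
        linarith
    have h4 := Finset.sum_le_sum h3
    rw [← Finset.mul_sum] at h4
    have h5 := quarter_sum k u0 (by omega) (by omega)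
    have h6 : δ / 2 * (3 / 8 * ((k:ℝ) * Real.sqrt k))
        ≤ δ / 2 * ∑ i ∈ Icc 1 k, (if u0 ≤ i then Real.sqrt i else 0) :=
      mul_le_mul_of_nonneg_left h5 (by positivity)
    have h7 : 0 ≤ δ * ((k:ℝ) * Real.sqrt k) := by positivity
    linarith

/-- fine areas are dominated by coarse areas -/
lemma fine_le_coarse (M I K N K1 : ℕ) (x : ℝ) (hx : 2 ≤ x) (hM : 1 ≤ M) (hI : x ^ 12 ≤ I) (hIK : I ≤ K)
    (hK : 2 ≤ K) (hN : 2 * K * M^2 ≤ N) (h : ℕ → ℝ) :
    Pr N (fun ω => ∀ k ∈ Icc K1 K, M * h k ≤ ∑ i ∈ Icc 1 k, Y ω (i * M^2)) ≤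
    Pr K (fun ε => ∀ k ∈ Icc K1 K, h k - (k:ℝ) * Real.sqrt k / x - 2 * (I:ℝ)^2 ≤ ∑ i ∈ Icc 1 k, Y ε i)
        + (4 * K * Real.exp (-(x/40)) + 2 * I * Real.exp (-((I:ℝ)/2))) := by
  set F : (Fin K → Bool) → ℝ := fun ε =>
    ind (∀ k ∈ Icc K1 K, h k - (k:ℝ) * Real.sqrt k / x - 2 * (I:ℝ)^2 ≤ ∑ i ∈ Icc 1 k, Y ε i) with hF
  have hx0 : 0 < x := by linarith
  have hMpos : (0:ℝ) < M := by exact_mod_cast hM
  have hlaw := law_esig (fun _ => M) K N F
  have hgood := gd_prob M I K N x hx hM hI hIK hK hN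
  set δ := 4 * (K:ℝ) * Real.exp (-(x/40)) + 2 * I * Real.exp (-((I:ℝ)/2)) with hδ
  have hEF : E K F = Pr K (fun ε => ∀ k ∈ Icc K1 K,
    h k - (k:ℝ) * Real.sqrt k / x - 2 * (I:ℝ)^2 ≤ ∑ i ∈ Icc 1 k, Y ε i) := rfl
  have hE0 : 0 ≤ E K F := by rw [hEF]; exact Pr_nonneg _ _
  have hlow : E N (fun ω => F (esig (fun _ => M) K N ω) * ind (K ≤ stg (fun _ => M) (ext ω) N)) ≤ E K F := by
    rw [hlaw]
    have := Pr_le_one N (fun ω => K ≤ stg (fun _ => M) (ext ω) N)
    nlinarith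
  have hup : Pr N (fun ω => ∀ k ∈ Icc K1 K, M * h k ≤ ∑ i ∈ Icc 1 k, Y ω (i * M^2)) ≤
      E N (fun ω => F (esig (fun _ => M) K N ω) * ind (K ≤ stg (fun _ => M) (ext ω) N)) + δ := by
    refine le_trans ?_ (add_le_add le_rfl hgood)
    unfold Pr
    rw [← E_add]
    refine E_mono N fun ω => ?_
    by_cases hg : gd M I K N x ω
    · rw [ind_of hg.1, mul_one]
      have e1 : ind (∀ k ∈ Icc K1 K, M * h k ≤ ∑ i ∈ Icc 1 k, Y ω (i * M^2)) ≤
          F (esig (fun _ => M) K N ω) := by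
        rw [hF]
        apply ind_mono
        intro hall k hk
        have hk' := Finset.mem_Icc.1 hk
        have e2 := hall k hk
        set ε := esig (fun _ => M) K N ω with hε
        have e3 : ∀ i ∈ Icc 1 k, Y ω (i * M^2) - (M * (Real.sqrt k / x) + (if i ≤ I then 2 * (M:ℝ) * I else 0))
            ≤ (M:ℝ) * Y ε i := by
          intro i hi
          rw [Finset.mem_Icc] at hi
          rcases le_or_gt i I with h4 | h4
          · rw [if_pos h4]
            have e4 := hg.2.2 i (Finset.mem_Icc.2 ⟨hi.1, h4⟩)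
            have e5 : -(I:ℝ) ≤ Y ε i := by
              rw [Y_eq_Yi ε (by omega)]
              have e6 := abs_Yi_le (ext ε) i
              have e7 : -(I:ℤ) ≤ Yi (ext ε) i := by
                have e8 := (abs_le.1 e6).1
                have e9 : (i:ℤ) ≤ I := by exact_mod_cast h4
                linarith
              exact_mod_cast e7
            have e6 := (abs_le.1 e4).2
            have e7 : (M:ℝ) * (-(I:ℝ)) ≤ M * Y ε i := mul_le_mul_of_nonneg_left e5 hMpos.le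
            have e8 : 0 ≤ (M:ℝ) * (Real.sqrt k / x) := by positivity
            linarith
          · rw [if_neg (by omega)]
            have e4 := hg.2.1 i (Finset.mem_Icc.2 ⟨h4.le, hi.2.trans hk'.2⟩)
            have e6 := (abs_le.1 e4).1
            have e7 : Real.sqrt i * M / x ≤ M * (Real.sqrt k / x) := by
              have : Real.sqrt i ≤ Real.sqrt k := Real.sqrt_le_sqrt (by exact_mod_cast hi.2)
              calc Real.sqrt i * M / x ≤ Real.sqrt k * M / x := by gcongr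
                _ = _ := by ring
            linarith
        have e4 := Finset.sum_le_sum e3
        rw [Finset.sum_sub_distrib, ← Finset.mul_sum, Finset.sum_add_distrib, Finset.sum_const,
          nsmul_eq_mul, Nat.card_Icc] at e4
        have e5 : ((k + 1 - 1 : ℕ):ℝ) = k := by
          have : k + 1 - 1 = k := by omega
          rw [this]
        rw [e5] at e4
        have e6 : ∑ i ∈ Icc 1 k, (if i ≤ I then 2 * (M:ℝ) * I else 0) ≤ 2 * M * (I:ℝ)^2 := by
          rw [← Finset.sum_filter, Finset.sum_const, nsmul_eq_mul]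
          have e7 : (Icc 1 k).filter (fun i => i ≤ I) ⊆ Icc 1 I := by
            intro i hi
            rw [Finset.mem_filter, Finset.mem_Icc] at hi
            rw [Finset.mem_Icc]; omega
          have e8 := Finset.card_le_card e7
          rw [Nat.card_Icc] at e8
          have e9 : (((Icc 1 k).filter (fun i => i ≤ I)).card : ℝ) ≤ I := by
            exact_mod_cast (by omega : ((Icc 1 k).filter (fun i => i ≤ I)).card ≤ I)
          calc _ ≤ (I:ℝ) * (2 * M * I) := mul_le_mul_of_nonneg_right e9 (by positivity)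
            _ = _ := by ring
        have e8 : (M:ℝ) * (h k - (k:ℝ) * Real.sqrt k / x - 2 * (I:ℝ)^2)
            = M * h k - k * (M * (Real.sqrt k / x)) - 2 * M * (I:ℝ)^2 := by ring
        have e9 : (M:ℝ) * (h k - (k:ℝ) * Real.sqrt k / x - 2 * (I:ℝ)^2) ≤
            M * ∑ i ∈ Icc 1 k, Y ε i := by
          rw [e8]; linarith
        exact le_of_mul_le_mul_left e9 hMpos
      have e6 := ind_nonneg (¬ gd M I K N x ω)
      linarith
    · rw [ind_of hg]
      have e5 : 0 ≤ F (esig (fun _ => M) K N ω) * ind (K ≤ stg (fun _ => M) (ext ω) N) :=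
        mul_nonneg (ind_nonneg _) (ind_nonneg _)
      have e6 := ind_le_one (∀ k ∈ Icc K1 K, M * h k ≤ ∑ i ∈ Icc 1 k, Y ω (i * M^2))
      linarith
  rw [← hEF]
  linarith

/-- one-scale inequality with explicit parameters -/
lemma area_chain_up (K M N u0 I K1 p : ℕ) (L T : ℝ) (hL : L = Real.log K) (hL1 : 1 ≤ L) (hT : 0 < T)
    (hM : 1 ≤ M) (hN : 2 * K * M^2 ≤ N) (hK : 2 ≤ K)
    (hu0 : 48 * L ^ 2 ≤ Real.sqrt u0) (hI : (120 * L) ^ 12 ≤ I) (hIK : I ≤ K)
    (hK1a : 4 * u0 ≤ K1) (hK1b : 32 * L * (I:ℝ)^2 ≤ K1) (hK1K : K1 ≤ K) :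
    Pr N (fun ω => ∀ k ∈ Icc K1 K, M * (-Real.sqrt k) ≤ ∑ i ∈ Icc 1 k, Y ω (i * M^2)) ≤
      T * (64 * Real.sqrt K1 * (4 / Real.sqrt (Real.sqrt ((K:ℝ)+1)))) + 17 / (K:ℝ)^2
      + Real.exp (((p:ℝ) + 1) ^ 2) / T ^ p := by
  have hKpos : (0:ℝ) < K := by exact_mod_cast (by omega : 0 < K)
  have hexp : Real.exp L = K := by rw [hL, Real.exp_log hKpos]
  have hu0pos : 1 ≤ u0 := by
    by_contra h
    have : u0 = 0 := by omega
    rw [this] at hu0
    simp at hu0
    nlinarith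
  have hIpos : (0:ℝ) < I := lt_of_lt_of_le (by positivity) hI
  have hI1 : (1:ℝ) ≤ I := by
    have : 0 < I := by exact_mod_cast hIpos
    exact_mod_cast this
  have hexp3 : (K:ℝ) * Real.exp (-(3 * L)) = 1 / (K:ℝ)^2 := by
    have : Real.exp (-(3 * L)) = ((K:ℝ)^3)⁻¹ := by
      rw [Real.exp_neg, ← hexp, ← Real.exp_nat_mul]; norm_num
    rw [this]; field_simp
  -- tilt
  have h1 := tilt_area_neg K u0 K1 hK1a (1 / L) (by positivity)
    (by rw [div_le_one (by linarith)]; exact hL1) hu0pos T hT p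
  have h2 : (K:ℝ) * Real.exp (-(1 / L * Real.sqrt u0 / 16)) ≤ 1 / (K:ℝ)^2 := by
    rw [← hexp3]
    apply mul_le_mul_of_nonneg_left _ hKpos.le
    apply Real.exp_le_exp.2
    apply neg_le_neg
    rw [le_div_iff₀ (by norm_num), one_div, inv_mul_eq_div, le_div_iff₀ (by linarith)]
    nlinarith
  have h3 : Real.exp (((p:ℝ) + 1) ^ 2 * ((1 / L) ^ 2 * (1 + Real.log K)) / 2) / T ^ p
      ≤ Real.exp (((p:ℝ) + 1) ^ 2) / T ^ p := by
    apply div_le_div_of_nonneg_right _ (by positivity)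
    apply Real.exp_le_exp.2
    rw [← hL]
    have : (1 / L) ^ 2 * (1 + L) ≤ 2 := by
      rw [div_pow, one_pow, one_div, inv_mul_eq_div, div_le_iff₀ (by positivity)]
      nlinarith
    have h4 : 0 ≤ ((p:ℝ) + 1) ^ 2 := by positivity
    nlinarith
  -- embedding
  have hx2 : (2:ℝ) ≤ 120 * L := by linarith
  have h4 := fine_le_coarse M I K N K1 (120 * L) hx2 hM hI hIK hK hN (fun k => -Real.sqrt k)
  have h5 : Pr K (fun ε => ∀ k ∈ Icc K1 K, (fun k : ℕ => -Real.sqrt k) k - (k:ℝ) * Real.sqrt k / (120 * L)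
        - 2 * (I:ℝ)^2 ≤ ∑ i ∈ Icc 1 k, Y ε i) ≤
      Pr K (fun ω => ∀ k ∈ Icc K1 K, -(1 / L / 8 * ((k:ℝ) * Real.sqrt k)) ≤ ∑ i ∈ Icc 1 k, Y ω i) := by
    refine Pr_mono K fun ω h k hk => ?_
    have hk' := Finset.mem_Icc.1 hk
    have e1 := h k hk
    refine le_trans ?_ e1
    have e2 : (K1:ℝ) ≤ k := by exact_mod_cast hk'.1
    have hk1 : (1:ℝ) ≤ k := by
      have : 1 ≤ k := by omega
      exact_mod_cast this
    have e3 : 1 ≤ Real.sqrt (k:ℝ) := by rw [Real.one_le_sqrt]; exact hk1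
    have e4 : (k:ℝ) ≤ k * Real.sqrt k := by nlinarith
    have e5 : 32 * L * (I:ℝ)^2 ≤ k * Real.sqrt k := by linarith
    have e6 : 1 / L / 8 * ((k:ℝ) * Real.sqrt k) = (k:ℝ) * Real.sqrt k / (120 * L)
        + (k:ℝ) * Real.sqrt k * (14 / (120 * L)) := by field_simp; ring
    have e7 : 2 * (I:ℝ)^2 ≤ (k:ℝ) * Real.sqrt k * (8 / (120 * L)) := by
      calc 2 * (I:ℝ)^2 ≤ 32 * L * (I:ℝ)^2 * (8 / (120 * L)) := by
            have : 32 * L * (I:ℝ)^2 * (8 / (120 * L)) = 256 / 120 * (I:ℝ)^2 := by field_simp; ring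
            rw [this]; nlinarith [sq_nonneg (I:ℝ)]
        _ ≤ _ := mul_le_mul_of_nonneg_right e5 (by positivity)
    have e8 : Real.sqrt k ≤ (k:ℝ) * Real.sqrt k * (6 / (120 * L)) := by
      have f1 : 20 * L ≤ k := by
        have f2 : (1:ℝ) ≤ (I:ℝ)^2 := one_le_pow₀ hI1
        have f3 : 32 * L * 1 ≤ 32 * L * (I:ℝ)^2 := mul_le_mul_of_nonneg_left f2 (by positivity)
        linarith
      have f4 : (k:ℝ) * Real.sqrt k * (6 / (120 * L)) = Real.sqrt k * (k / (20 * L)) := by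
        field_simp; ring
      rw [f4]
      have f5 : 1 ≤ (k:ℝ) / (20 * L) := by
        rw [le_div_iff₀ (by positivity)]; linarith
      nlinarith
    have e9 : (k:ℝ) * Real.sqrt k * (14 / (120 * L)) =
        (k:ℝ) * Real.sqrt k * (8 / (120 * L)) + (k:ℝ) * Real.sqrt k * (6 / (120 * L)) := by ring
    rw [e6, e9]
    beta_reduce
    linarith
  have h6 : 4 * (K:ℝ) * Real.exp (-(120 * L / 40)) + 2 * I * Real.exp (-((I:ℝ)/2)) ≤ 16 / (K:ℝ)^2 := by
    have e1 : 120 * L / 40 = 3 * L := by ring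
    rw [e1]
    have e2 : 4 * (K:ℝ) * Real.exp (-(3 * L)) = 4 * (1 / (K:ℝ)^2) := by rw [← hexp3]; ring
    rw [e2]
    have e3 : (I:ℝ) * Real.exp (-((I:ℝ)/2)) ≤ 2 * (1 / (K:ℝ)^2) := by
      have f1 : (I:ℝ)/4 + 1 ≤ Real.exp ((I:ℝ)/4) := Real.add_one_le_exp _
      have f2 : 16 * L ≤ I := by
        refine le_trans ?_ hI
        have : (120 * L) ≤ (120 * L)^12 := by
          calc 120 * L = (120 * L)^1 := by ring
            _ ≤ (120 * L)^12 := pow_le_pow_right₀ (by linarith) (by norm_num)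
        linarith
      have f3 : Real.exp (-((I:ℝ)/4)) ≤ Real.exp (-(4 * L)) := Real.exp_le_exp.2 (by linarith)
      have f4 : Real.exp (-(4 * L)) = ((K:ℝ)^4)⁻¹ := by
        rw [Real.exp_neg, ← hexp, ← Real.exp_nat_mul]; norm_num
      have f5 : (I:ℝ) ≤ 4 * Real.exp ((I:ℝ)/4) := by linarith
      have f6 : Real.exp (-((I:ℝ)/2)) = Real.exp (-((I:ℝ)/4)) * Real.exp (-((I:ℝ)/4)) := by
        rw [← Real.exp_add]; congr 1; ring
      have f7 : Real.exp ((I:ℝ)/4) * Real.exp (-((I:ℝ)/4)) = 1 := by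
        rw [← Real.exp_add]; simp
      have f8 : (I:ℝ) * Real.exp (-((I:ℝ)/2)) ≤ 4 * Real.exp (-((I:ℝ)/4)) := by
        rw [f6]
        have := mul_le_mul_of_nonneg_right f5 (Real.exp_pos (-((I:ℝ)/4))).le
        have f9 := mul_le_mul_of_nonneg_right this (Real.exp_pos (-((I:ℝ)/4))).le
        calc _ = (I:ℝ) * Real.exp (-((I:ℝ)/4)) * Real.exp (-((I:ℝ)/4)) := by ring
          _ ≤ _ := f9
          _ = 4 * (Real.exp ((I:ℝ)/4) * Real.exp (-((I:ℝ)/4))) * Real.exp (-((I:ℝ)/4)) := by ring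
          _ = _ := by rw [f7]; ring
      refine f8.trans ?_
      have hK2 : (2:ℝ) ≤ K := by exact_mod_cast hK
      have f10 : ((K:ℝ)^4)⁻¹ ≤ 1/2 * (1 / (K:ℝ)^2) := by
        rw [show 1/2 * (1 / (K:ℝ)^2) = 1 / (2 * (K:ℝ)^2) by field_simp, ← one_div]
        apply one_div_le_one_div_of_le (by positivity)
        have g1 : (4:ℝ) ≤ (K:ℝ)^2 := by nlinarith
        have g2 : (K:ℝ)^4 = (K:ℝ)^2 * (K:ℝ)^2 := by ring
        rw [g2]; nlinarith
      rw [f4] at f3
      linarith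
    have e4 : 2 * (I:ℝ) * Real.exp (-((I:ℝ)/2)) = 2 * (I * Real.exp (-((I:ℝ)/2))) := by ring
    rw [e4]
    have : 16 / (K:ℝ)^2 = 16 * (1 / (K:ℝ)^2) := by ring
    rw [this]
    have e5 : 0 < 1 / (K:ℝ)^2 := by positivity
    linarith
  -- Harris at the coarse level
  have hK1pos : 1 ≤ K1 := by omega
  have h7 := initial_pos 1 K1 K le_rfl hK1pos (by omega)
  have h8 := harris_fine 1 K1 K K
  have h9 := area_upper_srw K
  simp only [one_pow, mul_one] at h7 h8
  set C := Pr K (fun ω => ∀ k ∈ Icc K1 K, 0 ≤ ∑ i ∈ Icc 1 k, Y ω i) with hC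
  have hC0 : 0 ≤ C := Pr_nonneg _ _
  have h10 : C ≤ 64 * Real.sqrt K1 * (4 / Real.sqrt (Real.sqrt ((K:ℝ)+1))) := by
    have e1 := mul_le_mul_of_nonneg_right h7 hC0
    have e2 := (e1.trans h8).trans h9
    have hs : 0 < Real.sqrt (K1:ℝ) := Real.sqrt_pos.2 (by exact_mod_cast hK1pos)
    rw [one_div, inv_mul_eq_div, div_le_iff₀ (by positivity)] at e2
    linarith
  have h11 := mul_le_mul_of_nonneg_left h10 hT.le
  have h12 : 17 / (K:ℝ)^2 = 16 / (K:ℝ)^2 + 1 / (K:ℝ)^2 := by ring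
  rw [h12]
  have h13 := h4.trans (add_le_add_left h5 _)
  linarith

end Pool.GP
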