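import Pool.Agent.Lib.GPX.GAUp

set_option autoImplicit false

/-!
The area persistence exponent of the Gaussian walk: upper bound.
-/

namespace Pool.GP

open Finset Filter Topology MeasureTheory ProbabilityTheory

/-- **Fine area persistence, upper bound.** -/
theorem fine_area_upper (K0 : ℕ) (ε : ℝ) (hε : 0 < ε) : ∀ᶠ K : ℕ in atTop, ∃ K1 : ℕ, K0 ≤ K1 ∧ 1 ≤ K1 ∧
    ∀ M N : ℕ, 1 ≤ M → 2 * K * M^2 ≤ N →
      Pr N (fun ω => ∀ k ∈ Icc K1 K, M * (-Real.sqrt k) ≤ ∑ i ∈ Icc 1 k, Y ω (i * M^2)) ≤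
        (K:ℝ) ^ (-(1/4) + ε) := by
  set η := ε / 4 with hη
  have hηpos : 0 < η := by positivity
  set p := ⌈2 / η⌉₊ with hp
  have hpη : 2 ≤ η * p := by
    have := Nat.le_ceil (2 / η)
    rw [← hp, div_le_iff₀ hηpos] at this
    linarith
  filter_upwards [eventually_ge_atTop 3, ev_log_pow (2 * 120^12) 12 1 one_pos,
    ev_log_pow ((K0:ℝ) + 20000 + 1000 * (120:ℝ)^24) 25 1 one_pos,
    ev_log_pow (64^2 * ((K0:ℝ) + 20000 + 1000 * (120:ℝ)^24)) 25 (2*η) (by positivity),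
    ev_const (17 + Real.exp (((p:ℝ)+1)^2)) 1 one_pos,
    ev_const 20 η hηpos] with K hK3 hI hK1 hK1b hC hC2
  have hKpos : (0:ℝ) < K := by exact_mod_cast (by omega : 0 < K)
  have hK1r : (1:ℝ) ≤ K := by exact_mod_cast (by omega : 1 ≤ K)
  set L := Real.log K with hL
  have hL1 : 1 ≤ L := by
    rw [hL, Real.le_log_iff_exp_le hKpos]
    have := Real.exp_one_lt_d9
    have h3 : (3:ℝ) ≤ K := by exact_mod_cast hK3
    linarith
  have hpw : ∀ a b : ℕ, a ≤ b → L ^ a ≤ L ^ b := fun a b h => pow_le_pow_right₀ hL1 h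
  rw [Real.rpow_one] at hI hK1 hC
  set u0 := ⌈(48 * L^2)^2⌉₊ with hu0
  set I := ⌈(120 * L)^12⌉₊ with hIdef
  set K1 := K0 + 4 * u0 + ⌈32 * L * (I:ℝ)^2⌉₊ with hK1def
  have hIle : (I:ℝ) ≤ 2 * (120 * L)^12 := by
    have := (Nat.ceil_lt_add_one (show (0:ℝ) ≤ (120 * L)^12 by positivity)).le
    have h1 : 1 ≤ (120 * L)^12 := one_le_pow₀ (by linarith)
    rw [← hIdef] at this
    linarith
  have hu0le : (u0:ℝ) ≤ 2 * (48 * L^2)^2 := by
    have := (Nat.ceil_lt_add_one (show (0:ℝ) ≤ (48 * L^2)^2 by positivity)).le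
    have h1 : 1 ≤ (48 * L^2)^2 := one_le_pow₀ (by nlinarith)
    rw [← hu0] at this
    linarith
  have hu0pos : 1 ≤ u0 := by
    rw [hu0]
    exact Nat.one_le_iff_ne_zero.2 (by
      have : 0 < ⌈(48 * L^2)^2⌉₊ := Nat.ceil_pos.2 (by positivity)
      omega)
  have hK1le : (K1:ℝ) ≤ ((K0:ℝ) + 20000 + 1000 * (120:ℝ)^24) * L^25 := by
    have h1 := (Nat.ceil_lt_add_one (show (0:ℝ) ≤ 32 * L * (I:ℝ)^2 by positivity)).le
    have h2 : (I:ℝ)^2 ≤ (2 * (120 * L)^12)^2 := pow_le_pow_left₀ (by positivity) hIle 2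
    have h3 : 32 * L * (I:ℝ)^2 ≤ 32 * L * (2 * (120 * L)^12)^2 :=
      mul_le_mul_of_nonneg_left h2 (by positivity)
    have h4 : 32 * L * (2 * (120 * L)^12)^2 = 128 * 120^24 * L^25 := by ring
    have h5 : 4 * (2 * (48 * L^2)^2) = 18432 * L^4 := by ring
    have h6 := hpw 4 25 (by norm_num)
    have h7 := hpw 0 25 (by norm_num)
    rw [hK1def]
    push_cast
    have h8 : (0:ℝ) ≤ L^25 := by positivity
    have h9 : (1000 * (120:ℝ)^24) * L^25 = 128 * 120^24 * L^25 + 872 * 120^24 * L^25 := by ring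
    have h10 : 0 ≤ 872 * 120^24 * L^25 := by positivity
    rw [pow_zero] at h7
    have h11 : (K0:ℝ) * 1 ≤ K0 * L^25 := mul_le_mul_of_nonneg_left h7 (Nat.cast_nonneg _)
    linarith
  have hIK : I ≤ K := by
    have h1 : 2 * (120 * L)^12 = 2 * 120^12 * L^12 := by ring
    have : (I:ℝ) ≤ K := by rw [h1] at hIle; linarith
    exact_mod_cast this
  have hK1K : K1 ≤ K := by
    have : (K1:ℝ) ≤ K := by linarith
    exact_mod_cast this
  refine ⟨K1, by omega, by omega, fun M N hM hN => ?_⟩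
  have hsq : 48 * L^2 ≤ Real.sqrt u0 := by
    apply Real.le_sqrt_of_sq_le
    exact Nat.le_ceil _
  have hT : 0 < (K:ℝ)^η := Real.rpow_pos_of_pos hKpos _
  have key := area_chain_up K M N u0 I K1 p L ((K:ℝ)^η) hL hL1 hT hM hN (by omega) hsq
    (Nat.le_ceil _) hIK (by omega) (by
      have := Nat.le_ceil (32 * L * (I:ℝ)^2)
      rw [hK1def]; push_cast
      have : (0:ℝ) ≤ 4 * (u0:ℝ) := by positivity
      have : (0:ℝ) ≤ (K0:ℝ) := by positivity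
      linarith) hK1K
  refine key.trans ?_
  -- 64 sqrt K1 ≤ K^η
  have h1 : 64 * Real.sqrt K1 ≤ (K:ℝ)^η := by
    have e1 : 64 * Real.sqrt (K1:ℝ) = Real.sqrt (64^2 * K1) := by
      rw [Real.sqrt_mul (by norm_num), Real.sqrt_sq (by norm_num)]
    rw [e1]
    apply Real.sqrt_le_iff.2 ⟨hT.le, ?_⟩
    rw [← Real.rpow_natCast ((K:ℝ)^η) 2, ← Real.rpow_mul hKpos.le]
    have e2 : η * ((2:ℕ):ℝ) = 2 * η := by push_cast; ring
    rw [e2]
    calc (64:ℝ)^2 * K1 ≤ 64^2 * (((K0:ℝ) + 20000 + 1000 * (120:ℝ)^24) * L^25) :=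
          mul_le_mul_of_nonneg_left hK1le (by norm_num)
      _ = 64^2 * ((K0:ℝ) + 20000 + 1000 * (120:ℝ)^24) * L^25 := by ring
      _ ≤ _ := hK1b
  -- T^p ≥ K^2
  have h2 : (K:ℝ)^2 ≤ ((K:ℝ)^η)^p := by
    rw [← Real.rpow_natCast ((K:ℝ)^η) p, ← Real.rpow_mul hKpos.le, ← Real.rpow_natCast]
    exact Real.rpow_le_rpow_of_exponent_le hK1r (by push_cast; linarith)
  have h3 : Real.exp (((p:ℝ) + 1) ^ 2) / ((K:ℝ)^η)^p ≤ Real.exp (((p:ℝ) + 1) ^ 2) / (K:ℝ)^2 := by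
    apply div_le_div_of_nonneg_left (Real.exp_pos _).le (by positivity) h2
  -- 4/(K+1)^{1/4} ≤ 4 K^{-1/4}
  have h4 : 4 / Real.sqrt (Real.sqrt ((K:ℝ)+1)) ≤ 4 * (K:ℝ)^(-(1/4):ℝ) := by
    have e1 : (K:ℝ)^(1/4:ℝ) ≤ Real.sqrt (Real.sqrt ((K:ℝ)+1)) := by
      have e2 : Real.sqrt (Real.sqrt ((K:ℝ)+1)) = ((K:ℝ)+1)^(1/4:ℝ) := by
        rw [Real.sqrt_eq_rpow, Real.sqrt_eq_rpow, ← Real.rpow_mul (by positivity)]; norm_num
      rw [e2]
      exact Real.rpow_le_rpow hKpos.le (by linarith) (by norm_num)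
    rw [Real.rpow_neg hKpos.le, ← div_eq_mul_inv]
    exact div_le_div_of_nonneg_left (by norm_num) (by positivity) e1
  have h5 : (K:ℝ)^η * (64 * Real.sqrt K1 * (4 / Real.sqrt (Real.sqrt ((K:ℝ)+1)))) ≤
      4 * (K:ℝ)^(2 * η - 1/4) := by
    have e1 : 64 * Real.sqrt K1 * (4 / Real.sqrt (Real.sqrt ((K:ℝ)+1))) ≤
        (K:ℝ)^η * (4 * (K:ℝ)^(-(1/4):ℝ)) := mul_le_mul h1 h4 (by positivity) hT.le
    have e2 := mul_le_mul_of_nonneg_left e1 hT.le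
    refine e2.trans (le_of_eq ?_)
    have e3 : (K:ℝ)^(2 * η - 1/4) = (K:ℝ)^η * (K:ℝ)^η * (K:ℝ)^(-(1/4):ℝ) := by
      rw [← Real.rpow_add hKpos, ← Real.rpow_add hKpos]; congr 1; ring
    rw [e3]; ring
  have h6 : 17 / (K:ℝ)^2 + Real.exp (((p:ℝ) + 1) ^ 2) / (K:ℝ)^2 ≤ (K:ℝ)^(2 * η - 1/4) := by
    rw [← add_div]
    have e1 : (17 + Real.exp (((p:ℝ) + 1) ^ 2)) / (K:ℝ)^2 ≤ K / (K:ℝ)^2 :=
      div_le_div_of_nonneg_right hC (by positivity)
    refine e1.trans ?_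
    have e2 : (K:ℝ) / (K:ℝ)^2 = (K:ℝ)^(-1:ℝ) := by
      rw [Real.rpow_neg_one]; field_simp
    rw [e2]
    exact Real.rpow_le_rpow_of_exponent_le hK1r (by linarith)
  have h7 : 5 * (K:ℝ)^(2 * η - 1/4) ≤ (K:ℝ)^(-(1/4) + ε) := by
    have e1 : (K:ℝ)^(-(1/4) + ε) = (K:ℝ)^(2 * η) * (K:ℝ)^(2 * η - 1/4) := by
      rw [← Real.rpow_add hKpos]; congr 1; rw [hη]; ring
    rw [e1]
    apply mul_le_mul_of_nonneg_right _ (by positivity)
    have e2 : (K:ℝ)^η ≤ (K:ℝ)^(2*η) := Real.rpow_le_rpow_of_exponent_le hK1r (by linarith)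
    linarith
  linarith

/-- **Area persistence for the Gaussian walk, upper bound.** -/
theorem gA_upper (K0 : ℕ) (hK0 : 1 ≤ K0) (ε : ℝ) (hε : 0 < ε) : ∀ᶠ K : ℕ in atTop,
    (gam K).real {ξ | ∀ k ∈ Icc K0 K, 0 ≤ Sk (Wg ξ) k} ≤ (K:ℝ) ^ (-(1/4) + ε) := by
  filter_upwards [fine_area_upper K0 ε hε, eventually_ge_atTop 1] with K hK hK1
  obtain ⟨K1, h01, h11, hK⟩ := hK
  set c : ℝ := (K:ℝ) ^ (-(1/4) + ε) with hc
  have hc0 : 0 ≤ c := by positivity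
  have h1 := open_le (tendsto_A K) (isOpen_evGo K1 K (-1)) (ENNReal.ofReal c) ?_
  · have h2 : evG K1 K 0 ⊆ evGo K1 K (-1) := by
      intro x hx k hk
      have hk0 : (0:ℝ) < Real.sqrt k := Real.sqrt_pos.2 (by
        have := (Finset.mem_Icc.1 hk).1
        exact_mod_cast (by omega : 0 < k))
      have h3 := hx k hk
      rw [zero_mul] at h3
      linarith
    have h3 : (gam K).real {ξ | ∀ k ∈ Icc K0 K, 0 ≤ Sk (Wg ξ) k} ≤
        (gam K).real {ξ | ∀ k ∈ Icc K1 K, 0 ≤ Sk (Wg ξ) k} := by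
      apply measureReal_mono
      · intro ξ hξ k hk
        have hk' := Finset.mem_Icc.1 hk
        exact hξ k (Finset.mem_Icc.2 ⟨h01.trans hk'.1, hk'.2⟩)
      · exact measure_ne_top _ _
    refine h3.trans ?_
    have h4 : (nuP (aA K) : Measure (EuclideanSpace ℝ (Fin K))) (evG K1 K 0)
        = ENNReal.ofReal ((gam K).real {ξ | ∀ k ∈ Icc K1 K, 0 ≤ Sk (Wg ξ) k}) := by
      rw [coe_nuP, Measure.map_apply (measurable_LX _) (measurableSet_evG _ _ _), ofReal_measureReal]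
      congr 1
      ext ξ
      simp only [evG, Set.mem_preimage, Set.mem_ofPred_eq, zero_mul]
      refine forall₂_congr fun k _ => ?_
      have : (fun i => LX (aA K) ξ i) = Wg ξ := by ext i; exact LX_aA ξ i
      change 0 ≤ Sk (fun i => LX (aA K) ξ i) k ↔ _
      rw [this]
    have h5 := (measure_mono h2).trans h1
    rw [h4] at h5
    exact (ENNReal.ofReal_le_ofReal_iff hc0).1 h5
  · refine Frequently.of_forall fun n => ?_
    rw [coe_lawP, law_apply _ _ _ (isOpen_evGo K1 K (-1)).measurableSet]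
    apply ENNReal.ofReal_le_ofReal
    refine le_trans (Pr_mono _ fun ω h => ?_) (hK (n+1) (2 * K * (n+1)^2) (by omega) le_rfl)
    simp only [evGo, Set.mem_ofPred_eq] at h
    intro k hk
    have hk' := Finset.mem_Icc.1 hk
    have h6 : -1 * Real.sqrt k < Sk (fun i : Fin K => Y ω (((i:ℕ)+1) * (n+1)^2) / ((n:ℝ)+1)) k := h k hk
    rw [Sk_div, Sk_toIcc hk'.2 (fun i => Y ω (i * (n+1)^2)), lt_div_iff₀ (by positivity)] at h6
    push_cast
    linarith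

end Pool.GP
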