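import Pool.Agent.Lib.GPX.CLT

set_option autoImplicit false

/-!
Linear images of iid Gaussian vectors.
-/

namespace Pool.GP

open Finset Filter Topology MeasureTheory ProbabilityTheory

/-- standard Gaussian measure on `Fin K → ℝ` -/
noncomputable def gam (K : ℕ) : Measure (Fin K → ℝ) := Measure.pi (fun _ => gaussianReal 0 1)

instance (K : ℕ) : IsProbabilityMeasure (gam K) := by unfold gam; infer_instance

/-- linear image -/
noncomputable def LX {K : ℕ} (a : Fin K → Fin K → ℝ) (ξ : Fin K → ℝ) : EuclideanSpace ℝ (Fin K) :=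
  WithLp.toLp 2 (fun k => ∑ j, a k j * ξ j)

lemma measurable_LX {K : ℕ} (a : Fin K → Fin K → ℝ) : Measurable (LX a) := by
  unfold LX
  have h : Measurable (fun ξ : Fin K → ℝ => (fun k => ∑ j, a k j * ξ j)) := by fun_prop
  exact (MeasurableEquiv.toLp 2 (Fin K → ℝ)).measurable.comp h

instance {K : ℕ} (a : Fin K → Fin K → ℝ) : IsProbabilityMeasure ((gam K).map (LX a)) :=
  Measure.isProbabilityMeasure_map (measurable_LX a).aemeasurable

/-- law of a linear image -/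
noncomputable def nuP {K : ℕ} (a : Fin K → Fin K → ℝ) : ProbabilityMeasure (EuclideanSpace ℝ (Fin K)) :=
  ⟨(gam K).map (LX a), inferInstance⟩

lemma coe_nuP {K : ℕ} (a : Fin K → Fin K → ℝ) :
    (nuP a : Measure (EuclideanSpace ℝ (Fin K))) = (gam K).map (LX a) := rfl

lemma charFun_nuP {K : ℕ} (a : Fin K → Fin K → ℝ) (r : Fin K → Fin K → ℝ)
    (hr : ∀ k l, ∑ j, a k j * a l j = r k l) (c : EuclideanSpace ℝ (Fin K)) :
    charFun (nuP a : Measure (EuclideanSpace ℝ (Fin K))) c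
      = ((Real.exp (-((∑ k, ∑ l, c k * c l * r k l) / 2)) : ℝ) : ℂ) := by
  rw [charFun_apply, coe_nuP, integral_map (measurable_LX a).aemeasurable (by fun_prop)]
  have h1 : ∀ ξ : Fin K → ℝ, Complex.exp ((inner ℝ (LX a ξ) c : ℝ) * Complex.I)
      = ∏ j, Complex.exp ((((∑ k, c k * a k j) * ξ j : ℝ) : ℂ) * Complex.I) := by
    intro ξ
    rw [← Complex.exp_sum]
    congr 1
    rw [← Finset.sum_mul]
    congr 1
    rw [← Complex.ofReal_sum]
    congr 1
    unfold LX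
    rw [PiLp.inner_apply]
    simp only [RCLike.inner_apply, conj_trivial]
    have : ∀ j, (∑ k, c k * a k j) * ξ j = ∑ k, c k * (a k j * ξ j) := by
      intro j; rw [Finset.sum_mul]; exact Finset.sum_congr rfl fun k _ => by ring
    simp only [this]
    rw [Finset.sum_comm]
    refine Finset.sum_congr rfl fun k _ => ?_
    rw [← Finset.mul_sum]
  simp only [h1]
  unfold gam
  rw [integral_fintype_prod_eq_prod (f := fun j (x : ℝ) =>
    Complex.exp ((((∑ k, c k * a k j) * x : ℝ) : ℂ) * Complex.I))]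
  have h2 : ∀ j, ∫ x : ℝ, Complex.exp ((((∑ k, c k * a k j) * x : ℝ) : ℂ) * Complex.I) ∂(gaussianReal 0 1)
      = ((Real.exp (-((∑ k, c k * a k j)^2 / 2)) : ℝ) : ℂ) := by
    intro j
    have h3 := charFun_gaussianReal (μ := 0) (v := 1) (∑ k, c k * a k j)
    rw [charFun_apply_real] at h3
    have h4 : ∀ x : ℝ, Complex.exp ((((∑ k, c k * a k j) * x : ℝ) : ℂ) * Complex.I)
        = Complex.exp (((∑ k, c k * a k j : ℝ) : ℂ) * (x : ℂ) * Complex.I) := by
      intro x; push_cast; rfl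
    simp only [h4]
    rw [h3]
    push_cast
    congr 1
    ring
  simp only [h2]
  rw [← Complex.ofReal_prod, ← Real.exp_sum]
  congr 2
  rw [Finset.sum_neg_distrib, ← Finset.sum_div]
  congr 2
  have h5 : ∀ j, (∑ k, c k * a k j)^2 = ∑ k, ∑ l, c k * c l * (a k j * a l j) := by
    intro j
    rw [pow_two, Finset.sum_mul_sum]
    exact Finset.sum_congr rfl fun k _ => Finset.sum_congr rfl fun l _ => by ring
  simp only [h5]
  rw [Finset.sum_comm]
  refine Finset.sum_congr rfl fun k _ => ?_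
  rw [Finset.sum_comm]
  refine Finset.sum_congr rfl fun l _ => ?_
  rw [← Finset.mul_sum, hr]

/-- partial sums of coordinates -/
noncomputable def Sk {K : ℕ} (x : Fin K → ℝ) (k : ℕ) : ℝ := ∑ i : Fin K, if (i:ℕ) < k then x i else 0

lemma Sk_toIcc {K k : ℕ} (hk : k ≤ K) (f : ℕ → ℝ) :
    Sk (fun i : Fin K => f (i+1)) k = ∑ i ∈ Icc 1 k, f i := by
  unfold Sk
  rw [Fin.sum_univ_eq_sum_range (fun i => if i < k then f (i+1) else 0) K]
  rw [← Finset.sum_filter]
  have h1 : (range K).filter (fun i => i < k) = range k := by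
    ext i; simp only [Finset.mem_filter, Finset.mem_range]; omega
  rw [h1, Finset.range_eq_Ico, Finset.sum_Ico_add' f 0 k 1]
  rfl

/-- Gaussian random walk -/
noncomputable def Wg {K : ℕ} (ξ : Fin K → ℝ) (i : Fin K) : ℝ := ∑ j : Fin K, if j ≤ i then ξ j else 0

/-- coefficient matrices -/
noncomputable def aA (K : ℕ) : Fin K → Fin K → ℝ := fun k j => if j ≤ k then 1 else 0
noncomputable def aB (K : ℕ) : Fin K → Fin K → ℝ := fun k j => if j ≤ k then 1 / ((k:ℝ)+1) else 0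

lemma LX_aA {K : ℕ} (ξ : Fin K → ℝ) (k : Fin K) : LX (aA K) ξ k = Wg ξ k := by
  unfold LX aA Wg
  change ∑ j, (if j ≤ k then (1:ℝ) else 0) * ξ j = _
  refine Finset.sum_congr rfl fun j _ => ?_
  split_ifs <;> simp

lemma LX_aB {K : ℕ} (ξ : Fin K → ℝ) (k : Fin K) : LX (aB K) ξ k = Wg ξ k / ((k:ℝ)+1) := by
  unfold LX aB Wg
  change ∑ j, (if j ≤ k then 1 / ((k:ℝ)+1) else 0) * ξ j = _
  rw [Finset.sum_div]
  refine Finset.sum_congr rfl fun j _ => ?_
  split_ifs <;> simp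
  ring

lemma cov_aA (K : ℕ) (k l : Fin K) : ∑ j, aA K k j * aA K l j = ((min (k:ℕ) (l:ℕ) : ℕ) : ℝ) + 1 := by
  unfold aA
  have h1 : ∀ j : Fin K, (if j ≤ k then (1:ℝ) else 0) * (if j ≤ l then 1 else 0)
      = if (j:ℕ) < min (k:ℕ) (l:ℕ) + 1 then 1 else 0 := by
    intro j
    have e1 : (j ≤ k) ↔ (j:ℕ) ≤ k := Iff.rfl
    have e2 : (j ≤ l) ↔ (j:ℕ) ≤ l := Iff.rfl
    by_cases h1 : (j:ℕ) ≤ k <;> by_cases h2 : (j:ℕ) ≤ l <;> simp [e1, e2, h1, h2]
  simp only [h1]
  rw [Fin.sum_univ_eq_sum_range (fun j => if j < min (k:ℕ) (l:ℕ) + 1 then (1:ℝ) else 0) K,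
    ← Finset.sum_filter, Finset.sum_const, nsmul_eq_mul, mul_one]
  have h2 : (range K).filter (fun j => j < min (k:ℕ) (l:ℕ) + 1) = range (min (k:ℕ) (l:ℕ) + 1) := by
    ext j
    have := k.2
    have h3 : min (k:ℕ) (l:ℕ) ≤ k := min_le_left _ _
    simp only [Finset.mem_filter, Finset.mem_range]; omega
  rw [h2, Finset.card_range]
  push_cast; ring

lemma cov_aB (K : ℕ) (k l : Fin K) :
    ∑ j, aB K k j * aB K l j = 1 / (((max (k:ℕ) (l:ℕ) : ℕ) : ℝ) + 1) := by
  have h1 : ∀ j : Fin K, aB K k j * aB K l j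
      = (aA K k j * aA K l j) * (1 / (((k:ℝ)+1) * ((l:ℝ)+1))) := by
    intro j
    unfold aA aB
    have hk : (k:ℝ) + 1 ≠ 0 := by positivity
    have hl : (l:ℝ) + 1 ≠ 0 := by positivity
    by_cases h1 : j ≤ k <;> by_cases h2 : j ≤ l <;> simp [h1, h2]
    ring
  simp only [h1]
  rw [← Finset.sum_mul, cov_aA]
  have hk : (0:ℝ) < (k:ℝ) + 1 := by positivity
  have hl : (0:ℝ) < (l:ℝ) + 1 := by positivity
  rcases le_total (k:ℕ) (l:ℕ) with h | h
  · rw [min_eq_left h, max_eq_right h]; field_simp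
  · rw [min_eq_right h, max_eq_left h]; field_simp

/-- Abel summation -/
lemma abel_nonneg (x : ℕ → ℝ) (K : ℕ) (h : ∀ k ≤ K, 0 ≤ ∑ i ∈ range k, x i) :
    ∀ k ≤ K, 0 ≤ ∑ i ∈ range k, x i / ((i:ℝ)+1) := by
  -- stronger: ∑_{i<k} x i/(i+1) ≥ (∑_{i<k} x i)/(k) for k ≥ 1
  have key : ∀ k ≤ K, (∑ i ∈ range k, x i) / ((k:ℝ)+1) ≤ ∑ i ∈ range k, x i / ((i:ℝ)+1) := by
    intro k
    induction k with
    | zero => intro _; simp
    | succ k ih =>
      intro hk
      have h1 := ih (by omega)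
      have h2 := h (k+1) hk
      have h3 : (∑ i ∈ range (k+1), x i) / (((k+1:ℕ):ℝ)+1) ≤ (∑ i ∈ range (k+1), x i) / ((k:ℝ)+1) := by
        apply div_le_div_of_nonneg_left h2 (by positivity)
        push_cast; linarith
      refine h3.trans ?_
      rw [Finset.sum_range_succ, Finset.sum_range_succ, add_div]
      linarith
  intro k hk
  exact le_trans (div_nonneg (h k hk) (by positivity)) (key k hk)

/-- Gaussian persistence events (index `k` from `K1` to `K`) -/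
def evG (K1 K : ℕ) (h : ℝ) : Set (EuclideanSpace ℝ (Fin K)) :=
  {x | ∀ k ∈ Icc K1 K, h * Real.sqrt k ≤ Sk x k}

lemma continuous_Sk {K : ℕ} (k : ℕ) : Continuous (fun x : EuclideanSpace ℝ (Fin K) => Sk x k) := by
  unfold Sk
  refine continuous_finsetSum _ fun i _ => ?_
  split_ifs
  · fun_prop
  · exact continuous_const

lemma isClosed_evG (K1 K : ℕ) (h : ℝ) : IsClosed (evG K1 K h) := by
  unfold evG
  have : {x : EuclideanSpace ℝ (Fin K) | ∀ k ∈ Icc K1 K, h * Real.sqrt k ≤ Sk x k}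
      = ⋂ k ∈ Icc K1 K, {x : EuclideanSpace ℝ (Fin K) | h * Real.sqrt k ≤ Sk x k} := by
    ext x; simp
  rw [this]
  exact isClosed_biInter fun k _ => isClosed_le continuous_const (continuous_Sk k)

def evGo (K1 K : ℕ) (h : ℝ) : Set (EuclideanSpace ℝ (Fin K)) :=
  {x | ∀ k ∈ Icc K1 K, h * Real.sqrt k < Sk x k}

lemma isOpen_evGo (K1 K : ℕ) (h : ℝ) : IsOpen (evGo K1 K h) := by
  unfold evGo
  have : {x : EuclideanSpace ℝ (Fin K) | ∀ k ∈ Icc K1 K, h * Real.sqrt k < Sk x k}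
      = ⋂ k ∈ Icc K1 K, {x : EuclideanSpace ℝ (Fin K) | h * Real.sqrt k < Sk x k} := by
    ext x; simp
  rw [this]
  exact isOpen_biInter_finset fun k _ => isOpen_lt continuous_const (continuous_Sk k)

lemma closed_ge {E : Type*} [MeasurableSpace E] [TopologicalSpace E] [OpensMeasurableSpace E]
    [HasOuterApproxClosed E] {μ : ℕ → ProbabilityMeasure E} {ν : ProbabilityMeasure E}
    (h : Tendsto μ atTop (𝓝 ν)) {F : Set E} (hF : IsClosed F) (c : ENNReal)
    (hc : ∃ᶠ n in atTop, c ≤ (μ n : Measure E) F) : c ≤ (ν : Measure E) F :=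
  (Filter.le_limsup_of_frequently_le hc).trans
    (ProbabilityMeasure.limsup_measure_closed_le_of_tendsto h hF)

lemma open_le {E : Type*} [MeasurableSpace E] [TopologicalSpace E] [OpensMeasurableSpace E]
    [HasOuterApproxClosed E] {μ : ℕ → ProbabilityMeasure E} {ν : ProbabilityMeasure E}
    (h : Tendsto μ atTop (𝓝 ν)) {O : Set E} (hO : IsOpen O) (c : ENNReal)
    (hc : ∃ᶠ n in atTop, (μ n : Measure E) O ≤ c) : (ν : Measure E) O ≤ c :=
  (ProbabilityMeasure.le_liminf_measure_open_of_tendsto h hO).trans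
    (Filter.liminf_le_of_frequently_le hc)

/-- convergence for the fine walk sampled at multiples of `M^2` -/
lemma tendsto_A (K : ℕ) : Tendsto (fun n : ℕ => lawP (E := EuclideanSpace ℝ (Fin K)) (2 * K * (n+1)^2)
      (fun ω => WithLp.toLp 2 (fun k : Fin K => Y ω (((k:ℕ)+1) * (n+1)^2) / ((n:ℝ)+1)))) atTop
      (𝓝 (nuP (aA K))) := by
  refine clt_walk (fun n => 2 * K * (n+1)^2) (fun n k => ((k:ℕ)+1) * (n+1)^2) (fun n => (n:ℝ)+1)
    (fun k l => ((min (k:ℕ) (l:ℕ) : ℕ) : ℝ) + 1) ?_ (fun n => by positivity) ?_ ?_ (nuP (aA K)) ?_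
  · exact tendsto_atTop_add_const_right _ _ tendsto_natCast_atTop_atTop
  · intro n k
    apply Nat.mul_le_mul_right
    have := k.2; omega
  · intro k l
    have h1 : ∀ n : ℕ, ((min (((k:ℕ)+1) * (n+1)^2) (((l:ℕ)+1) * (n+1)^2) : ℕ) : ℝ) / ((n:ℝ)+1)^2
        = ((min (k:ℕ) (l:ℕ) : ℕ) : ℝ) + 1 := by
      intro n
      have h2 : min (((k:ℕ)+1) * (n+1)^2) (((l:ℕ)+1) * (n+1)^2) = (min (k:ℕ) (l:ℕ) + 1) * (n+1)^2 := by
        rcases le_total (k:ℕ) (l:ℕ) with h | h
        · rw [min_eq_left h, min_eq_left]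
          exact Nat.mul_le_mul_right _ (by omega)
        · rw [min_eq_right h, min_eq_right]
          exact Nat.mul_le_mul_right _ (by omega)
      rw [h2]
      push_cast
      have : ((n:ℝ)+1)^2 ≠ 0 := by positivity
      field_simp
    simp only [h1]
    exact tendsto_const_nhds
  · intro c
    exact charFun_nuP (aA K) _ (cov_aA K) c

/-- convergence for the canonical sampling -/
lemma tendsto_B (K : ℕ) : Tendsto (fun n : ℕ => lawP (E := EuclideanSpace ℝ (Fin K)) (n+1)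
      (fun ω => WithLp.toLp 2 (fun k : Fin K => Y ω ((n+1) / ((k:ℕ)+1)) / Real.sqrt ((n:ℝ)+1)))) atTop
      (𝓝 (nuP (aB K))) := by
  refine clt_walk (fun n => n+1) (fun n k => (n+1) / ((k:ℕ)+1)) (fun n => Real.sqrt ((n:ℝ)+1))
    (fun k l => 1 / (((max (k:ℕ) (l:ℕ) : ℕ) : ℝ) + 1)) ?_ (fun n => by positivity) ?_ ?_ (nuP (aB K)) ?_
  · exact Real.tendsto_sqrt_atTop.comp
      (tendsto_atTop_add_const_right _ _ tendsto_natCast_atTop_atTop)
  · intro n k
    exact Nat.div_le_self _ _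
  · intro k l
    have h1 : ∀ n : ℕ, ((min ((n+1)/((k:ℕ)+1)) ((n+1)/((l:ℕ)+1)) : ℕ) : ℝ) / Real.sqrt ((n:ℝ)+1)^2
        = (((n+1) / (max (k:ℕ) (l:ℕ) + 1) : ℕ) : ℝ) / ((n+1 : ℕ):ℝ) := by
      intro n
      have h2 : min ((n+1)/((k:ℕ)+1)) ((n+1)/((l:ℕ)+1)) = (n+1) / (max (k:ℕ) (l:ℕ) + 1) := by
        rcases le_total (k:ℕ) (l:ℕ) with h | h
        · rw [max_eq_right h, min_eq_right]
          exact Nat.div_le_div_left (by omega) (by omega)
        · rw [max_eq_left h, min_eq_left]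
          exact Nat.div_le_div_left (by omega) (by omega)
      rw [h2, Real.sq_sqrt (by positivity)]
      push_cast; rfl
    simp only [h1]
    set m := max (k:ℕ) (l:ℕ) + 1 with hm
    have hm0 : (0:ℝ) < m := by rw [hm]; positivity
    have hmc : ((max (k:ℕ) (l:ℕ) : ℕ) : ℝ) + 1 = (m:ℝ) := by rw [hm]; push_cast; ring
    rw [hmc]
    have h2 : Tendsto (fun n : ℕ => ((n+1 : ℕ):ℝ)) atTop atTop :=
      tendsto_natCast_atTop_atTop.comp (tendsto_add_atTop_nat 1)
    have h3 : Tendsto (fun n : ℕ => 1 / (m:ℝ) - 1 / ((n+1 : ℕ):ℝ)) atTop (𝓝 (1 / (m:ℝ) - 0)) :=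
      tendsto_const_nhds.sub (h2.const_div_atTop 1)
    rw [sub_zero] at h3
    refine tendsto_of_tendsto_of_tendsto_of_le_of_le h3 tendsto_const_nhds (fun n => ?_) (fun n => ?_)
    · have hn : (0:ℝ) < ((n+1 : ℕ):ℝ) := by positivity
      have h4 := Nat.lt_div_mul_add (a := n+1) (b := m) (by omega)
      have h5 : ((n+1:ℕ):ℝ) < ((n+1)/m : ℕ) * m + m := by exact_mod_cast h4
      change 1 / (m:ℝ) - 1 / ((n+1 : ℕ):ℝ) ≤ (((n+1) / m : ℕ) : ℝ) / ((n+1 : ℕ):ℝ)
      rw [le_div_iff₀ hn, sub_mul, one_div_mul_cancel hn.ne', sub_le_iff_le_add,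
        one_div_mul_eq_div, div_le_iff₀ hm0]
      linarith
    · have hn : (0:ℝ) < ((n+1 : ℕ):ℝ) := by positivity
      change (((n+1) / m : ℕ) : ℝ) / ((n+1 : ℕ):ℝ) ≤ 1 / (m:ℝ)
      rw [div_le_div_iff₀ hn hm0, one_mul]
      have h4 := Nat.div_mul_le_self (n+1) m
      exact_mod_cast h4
  · intro c
    exact charFun_nuP (aB K) _ (cov_aB K) c

end Pool.GP
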