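import Pool.Agent.Lib.GPX.Pos
import Pool.Agent.Lib.GP.Theta

set_option autoImplicit false

/-!
The persistence exponent is positive.
-/

namespace Pool.GP

open Finset Filter

lemma log_ten_thousand : Real.log 10000 ≤ 10 := by
  rw [Real.log_le_iff_le_exp (by norm_num)]
  have h := Real.exp_one_gt_d9
  have h2 : (Real.exp 1)^10 = Real.exp 10 := by rw [← Real.exp_nat_mul]; norm_num
  rw [← h2]
  calc (10000:ℝ) ≤ (2.7:ℝ)^10 := by norm_num
    _ ≤ (Real.exp 1)^10 := pow_le_pow_left₀ (by norm_num) (by linarith) 10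

/-- **Positivity of the exponent.** -/
theorem theta_ge : 1 / 800 ≤ theta := by
  apply le_of_forall_pos_le_add
  intro ε hε
  by_contra hcon
  push Not at hcon
  obtain ⟨c, hc, N, hN, hT⟩ := T2 ε hε
  have hθ := theta_nonneg
  set d : ℝ := 1/20 - 40 * (theta + ε) with hd
  have hdpos : 0 < d := by rw [hd]; linarith
  -- for all J: c ≤ 3 exp(-d J)
  have key : ∀ J : ℕ, c ≤ 3 * Real.exp (-(d * J)) := by
    intro J
    have hNr : (1:ℝ) ≤ N := by exact_mod_cast hN
    have hrJ : 1 ≤ 10000 ^ (4*J) := Nat.one_le_pow _ _ (by norm_num)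
    have h1 := hT N (N * 10000 ^ (4*J)) (4 * (N * (N * 10000 ^ (4*J)))) le_rfl
      (Nat.le_mul_of_pos_right _ (by omega)) (by omega)
    have h2 := G_exp_upper (4 * (N * (N * 10000 ^ (4*J)))) N 10000 J hN le_rfl (by
      apply Nat.mul_le_mul_left
      exact Nat.le_mul_of_pos_left _ hN)
    have h3 := h1.trans h2
    have e1 : (((N * 10000 ^ (4*J) : ℕ) : ℝ) / N) = (10000:ℝ) ^ (4*J) := by
      push_cast
      field_simp
    rw [e1] at h3
    have h4 : Real.exp (-(40 * (theta + ε) * J)) ≤ ((10000:ℝ) ^ (4*J)) ^ (-(theta + ε)) := by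
      rw [Real.rpow_def_of_pos (by positivity), Real.log_pow]
      apply Real.exp_le_exp.2
      have h5 := log_ten_thousand
      have h6 : 0 ≤ (theta + ε) * J := mul_nonneg (by linarith) (Nat.cast_nonneg J)
      push_cast
      nlinarith
    have h5 : c * Real.exp (-(40 * (theta + ε) * J)) ≤ 3 * Real.exp (-(J / 20)) :=
      (mul_le_mul_of_nonneg_left h4 hc.le).trans h3
    have h6 : Real.exp (-(J / 20 : ℝ)) = Real.exp (-(d * J)) * Real.exp (-(40 * (theta + ε) * J)) := by
      rw [← Real.exp_add]; congr 1; rw [hd]; ring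
    rw [h6, ← mul_assoc] at h5
    exact le_of_mul_le_mul_right h5 (Real.exp_pos _)
  have hlim : Tendsto (fun J : ℕ => 3 * Real.exp (-(d * J))) atTop (nhds (3 * 0)) := by
    apply Tendsto.const_mul
    apply Real.tendsto_exp_neg_atTop_nhds_zero.comp
    exact Tendsto.const_mul_atTop hdpos tendsto_natCast_atTop_atTop
  have := ge_of_tendsto hlim (Eventually.of_forall key)
  linarith

theorem theta_pos : 0 < theta := lt_of_lt_of_le (by norm_num) theta_ge

end Pool.GP
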