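import Pool.Agent.Lib.GPX.GaussLim
import Pool.Agent.Lib.GPX.ThetaPos

set_option autoImplicit false

/-!
Identification of `theta` as the Gaussian persistence exponent, and `theta ≤ 1/4`.
-/

namespace Pool.GP

open Finset Filter Topology MeasureTheory ProbabilityTheory

/-- lower bound for the Gaussian persistence probability -/
lemma gB_lower_theta (ε : ℝ) (hε : 0 < ε) : ∀ᶠ K : ℕ in atTop, (K:ℝ) ^ (-(theta + ε)) ≤ gB 1 K 0 := by
  obtain ⟨c, hc, N, hN, hT⟩ := T2 (ε/2) (by positivity)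
  have hNr : (1:ℝ) ≤ N := by exact_mod_cast hN
  have hsN : 0 < Real.sqrt N := Real.sqrt_pos.2 (by linarith)
  have hθ := theta_nonneg
  -- the constant
  set c0 : ℝ := 1 / (200 * Real.sqrt N) * c with hc0
  have hc0pos : 0 < c0 := by rw [hc0]; positivity
  filter_upwards [ev_const (1 / c0) (ε/2) (by positivity), eventually_ge_atTop N] with K h1 h2
  have hKr : (1:ℝ) ≤ K := hNr.trans (by exact_mod_cast h2)
  have hK0 : (0:ℝ) < K := by linarith
  have h3 : ∀ A : ℕ, N * K ≤ A → c0 * (K:ℝ) ^ (-(theta + ε/2)) ≤ G A 1 K 0 := by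
    intro A hA
    have hKA : K ≤ A := le_trans (Nat.le_mul_of_pos_left _ (by omega)) hA
    have h4 := hT N K A le_rfl h2 hA
    have h5 := G_lower A 1 N (by omega) (h2.trans hKA)
    have h6 := G_split A 1 N K 0
    refine le_trans ?_ h6
    rw [hc0, mul_assoc]
    apply mul_le_mul h5 _ (by positivity) (G_nonneg _ _ _ _)
    refine le_trans ?_ h4
    apply mul_le_mul_of_nonneg_left _ hc.le
    apply Real.rpow_le_rpow_of_nonpos (by positivity) _ (by linarith)
    exact div_le_self hK0.le hNr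
  have h4 := gB_ge 1 K 0 (c0 * (K:ℝ) ^ (-(theta + ε/2)))
    ((eventually_ge_atTop (N*K)).mono fun A hA => h3 A hA).frequently
  refine le_trans ?_ h4
  have e : (K:ℝ) ^ (-(theta + ε/2)) = (K:ℝ) ^ (-(theta + ε)) * (K:ℝ) ^ (ε/2) := by
    rw [← Real.rpow_add hK0]; congr 1; ring
  rw [e]
  rw [div_le_iff₀ hc0pos] at h1
  have h5 : 0 < (K:ℝ) ^ (-(theta + ε)) := by positivity
  nlinarith

/-- upper bound for the Gaussian persistence probability -/
lemma gB_upper_theta (ε : ℝ) (hε : 0 < ε) : ∀ᶠ K : ℕ in atTop, gB 1 K 0 ≤ (K:ℝ) ^ (-(theta - ε)) := by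
  have hθ := theta_nonneg
  obtain ⟨m, hm⟩ : ∃ m : ℕ, 16 * theta / ε + 16 ≤ m := exists_nat_ge _
  have hm16 : 16 ≤ m := by
    have : (16:ℝ) ≤ m := le_trans (by have : 0 ≤ 16 * theta / ε := by positivity
                                      linarith) hm
    exact_mod_cast this
  have hmr : (16:ℝ) ≤ m := by exact_mod_cast hm16
  have hmε : 8 * theta / m ≤ ε / 2 := by
    rw [div_le_iff₀ (by linarith)]
    have h1 : 16 * theta / ε ≤ m := by linarith
    rw [div_le_iff₀ hε] at h1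
    linarith
  obtain ⟨X, hX400, hX⟩ := T1 m 1
  filter_upwards [ev_const (2 * (4:ℝ) ^ theta) (ε/2) (by positivity), ev_const X (1/(m:ℝ)) (by positivity),
    eventually_ge_atTop 2] with K h1 h2 h3
  have hKr : (2:ℝ) ≤ K := by exact_mod_cast h3
  have hK0 : (0:ℝ) < K := by linarith
  set x : ℝ := (K:ℝ) ^ (1/(m:ℝ)) with hx
  have hx400 : 400 ≤ x := hX400.trans h2
  have hx0 : 0 < x := by linarith
  have hx1 : 1 ≤ x := by linarith
  have hxm : x ^ m = K := by
    rw [hx, ← Real.rpow_natCast, ← Real.rpow_mul hK0.le, one_div_mul_cancel (by linarith), Real.rpow_one]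
  have hx8 : 1 ≤ x ^ 8 := one_le_pow₀ hx1
  set K1 : ℕ := ⌈x ^ 8⌉₊ with hK1
  have hK1a : x ^ 8 ≤ K1 := Nat.le_ceil _
  have hK1b : (K1:ℝ) ≤ 2 * x ^ 8 := by
    have : (K1:ℝ) < x ^ 8 + 1 := Nat.ceil_lt_add_one (by positivity)
    linarith
  have hK1pos : 1 ≤ K1 := by
    have : (1:ℝ) ≤ K1 := hx8.trans hK1a
    exact_mod_cast this
  have hK1r : (1:ℝ) ≤ K1 := by exact_mod_cast hK1pos
  have hbig : 4 * x ^ 8 ≤ K := by
    rw [← hxm]
    calc 4 * x ^ 8 ≤ x * x ^ 8 := mul_le_mul_of_nonneg_right (by linarith) (by positivity)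
      _ = x ^ 9 := by ring
      _ ≤ x ^ m := pow_le_pow_right₀ hx1 (by omega)
  set R : ℕ := K / K1 with hR
  have hRK : R * K1 ≤ K := Nat.div_mul_le_self _ _
  have hR2 : 2 ≤ R := by
    rw [hR, Nat.le_div_iff_mul_le (by omega)]
    have : (2:ℝ) * K1 ≤ K := by linarith
    exact_mod_cast this
  have hRlow : (K:ℝ) / (4 * x ^ 8) ≤ R := by
    have h5 := Nat.lt_div_mul_add (a := K) (b := K1) (by omega)
    have h6 : (K:ℝ) < R * K1 + K1 := by exact_mod_cast h5
    have h7 : (2:ℝ) ≤ R := by exact_mod_cast hR2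
    rw [div_le_iff₀ (by positivity)]
    have h8 : (K:ℝ) ≤ 2 * (R * K1) := by nlinarith
    have h9 : (R:ℝ) * K1 ≤ R * (2 * x ^ 8) := mul_le_mul_of_nonneg_left hK1b (by linarith)
    linarith
  -- the walk bound
  have h4 : ∀ A : ℕ, x ^ 20 * (R * K1 : ℕ) ≤ A → G A K1 K (-(1/x)) ≤ 2 * (R:ℝ) ^ (-theta) := by
    intro A hA
    refine (G_anti_K A K1 (R * K1) K _ hRK).trans ?_
    refine hX x h2 K1 R A hK1a hR2 ?_ hA _ ?_
    · rw [hxm]; exact_mod_cast hRK
    · rw [abs_neg, abs_of_pos (by positivity)]; push_cast; exact le_rfl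
  have h5 : gB K1 K 0 ≤ 2 * (R:ℝ) ^ (-theta) := by
    refine gB_le K1 K hK1pos 0 (-(1/x)) _ (by
      have : 0 < 1/x := by positivity
      linarith) (by positivity) ?_
    refine Eventually.frequently ?_
    filter_upwards [eventually_ge_atTop ⌈x ^ 20 * (R * K1 : ℕ)⌉₊] with A hA
    exact h4 A ((Nat.le_ceil _).trans (by exact_mod_cast hA))
  have h6 : gB 1 K 0 ≤ gB K1 K 0 := gB_mono hK1pos le_rfl
  refine (h6.trans h5).trans ?_
  have h7 : (R:ℝ) ^ (-theta) ≤ ((K:ℝ) / (4 * x ^ 8)) ^ (-theta) :=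
    Real.rpow_le_rpow_of_nonpos (by positivity) hRlow (by linarith)
  have h8 : ((K:ℝ) / (4 * x ^ 8)) ^ (-theta) = (4:ℝ) ^ theta * (K:ℝ) ^ (-(theta - 8 * theta / m)) := by
    have e1 : x ^ 8 = (K:ℝ) ^ (8 / (m:ℝ)) := by
      rw [hx, ← Real.rpow_natCast, ← Real.rpow_mul hK0.le]; congr 1; push_cast; ring
    rw [e1, Real.rpow_neg (by positivity), ← Real.inv_rpow (by positivity), inv_div, mul_div_assoc,
      Real.mul_rpow (by norm_num) (by positivity), Real.div_rpow (by positivity) (by positivity),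
      ← Real.rpow_mul hK0.le, ← Real.rpow_sub hK0]
    congr 2
    ring
  calc 2 * (R:ℝ) ^ (-theta) ≤ 2 * ((4:ℝ) ^ theta * (K:ℝ) ^ (-(theta - 8 * theta / m))) := by
        rw [← h8]; linarith
    _ = (2 * (4:ℝ) ^ theta) * (K:ℝ) ^ (-(theta - 8 * theta / m)) := by ring
    _ ≤ (K:ℝ) ^ (ε/2) * (K:ℝ) ^ (-(theta - 8 * theta / m)) := mul_le_mul_of_nonneg_right h1 (by positivity)
    _ = (K:ℝ) ^ (ε/2 - (theta - 8 * theta / m)) := by rw [← Real.rpow_add hK0]; congr 1
    _ ≤ (K:ℝ) ^ (-(theta - ε)) := by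
        apply Real.rpow_le_rpow_of_exponent_le (by linarith)
        linarith

/-- **Identification of the exponent.** -/
theorem gB_tendsto : Tendsto (fun K : ℕ => -Real.log (gB 1 K 0) / Real.log K) atTop (𝓝 theta) := by
  rw [Metric.tendsto_atTop']
  intro ε hε
  have hev := ((gB_lower_theta (ε/2) (by positivity)).and (gB_upper_theta (ε/2) (by positivity))).and
    (eventually_ge_atTop 2)
  obtain ⟨N, hN⟩ := eventually_atTop.1 hev
  refine ⟨N, fun K hK => ?_⟩
  obtain ⟨⟨h1, h2⟩, h3⟩ := hN K hK.le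
  have hKr : (2:ℝ) ≤ K := by exact_mod_cast h3
  have hK0 : (0:ℝ) < K := by linarith
  have hlog : 0 < Real.log K := Real.log_pos (by linarith)
  have hpos : 0 < gB 1 K 0 := lt_of_lt_of_le (by positivity) h1
  have h4 := Real.log_le_log (by positivity) h1
  have h5 := Real.log_le_log hpos h2
  rw [Real.log_rpow hK0] at h4 h5
  rw [Real.dist_eq, abs_lt]
  constructor
  · rw [lt_sub_iff_add_lt, lt_div_iff₀ hlog]; nlinarith
  · rw [sub_lt_iff_lt_add, div_lt_iff₀ hlog]; nlinarith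

/-- **The exponent is at most `1/4`.** -/
theorem theta_le : theta ≤ 1/4 := by
  apply le_of_forall_pos_le_add
  intro ε hε
  refine le_of_tendsto gB_tendsto ?_
  filter_upwards [gB_lower ε hε, eventually_ge_atTop 2] with K h1 h3
  have hKr : (2:ℝ) ≤ K := by exact_mod_cast h3
  have hK0 : (0:ℝ) < K := by linarith
  have hlog : 0 < Real.log K := Real.log_pos (by linarith)
  have h4 := Real.log_le_log (by positivity) h1
  rw [Real.log_rpow hK0] at h4
  rw [div_le_iff₀ hlog]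
  linarith

end Pool.GP
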