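import Pool.Agent.Lib.GPX.Slepian
import Pool.Agent.Lib.GPX.Gauss

set_option autoImplicit false

/-!
Linear images of iid Gaussian vectors, positive definiteness, covariances of the two
Gaussian sequences that are compared.
-/

namespace Pool.GP

open Finset MeasureTheory ProbabilityTheory

/-- rectangular linear image -/
noncomputable def Lrc {n K : ℕ} (a : Fin n → Fin K → ℝ) (ξ : Fin K → ℝ) : EV n :=
  WithLp.toLp 2 (fun k => ∑ j, a k j * ξ j)

lemma measurable_Lrc {n K : ℕ} (a : Fin n → Fin K → ℝ) : Measurable (Lrc a) := by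
  unfold Lrc
  have h : Measurable (fun ξ : Fin K → ℝ => (fun k => ∑ j, a k j * ξ j)) := by fun_prop
  exact (MeasurableEquiv.toLp 2 (Fin n → ℝ)).measurable.comp h

lemma isG_Lrc {n K : ℕ} (a : Fin n → Fin K → ℝ) :
    IsG ((gam K).map (Lrc a)) (fun k l => ∑ j, a k j * a l j) := by
  refine ⟨Measure.isProbabilityMeasure_map (measurable_Lrc a).aemeasurable, fun c => ?_⟩
  rw [charFun_apply, integral_map (measurable_Lrc a).aemeasurable (by fun_prop)]
  have h1 : ∀ ξ : Fin K → ℝ, Complex.exp ((inner ℝ (Lrc a ξ) c : ℝ) * Complex.I)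
      = ∏ j, Complex.exp ((((∑ k, c k * a k j) * ξ j : ℝ) : ℂ) * Complex.I) := by
    intro ξ
    rw [← Complex.exp_sum]
    congr 1
    rw [← Finset.sum_mul]
    congr 1
    rw [← Complex.ofReal_sum]
    congr 1
    unfold Lrc
    rw [PiLp.inner_apply]
    simp only [RCLike.inner_apply, conj_trivial]
    have : ∀ j, (∑ k, c k * a k j) * ξ j = ∑ k, c k * (a k j * ξ j) := by
      intro j; rw [Finset.sum_mul]; exact Finset.sum_congr rfl fun k _ => by ring
    simp only [this]
    rw [Finset.sum_comm]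
    refine Finset.sum_congr rfl fun k _ => ?_
    rw [← Finset.mul_sum]
  simp only [h1]
  unfold gam
  rw [integral_fintype_prod_eq_prod (f := fun j (x : ℝ) =>
    Complex.exp ((((∑ k, c k * a k j) * x : ℝ) : ℂ) * Complex.I))]
  have h2 : ∀ j, ∫ x : ℝ, Complex.exp ((((∑ k, c k * a k j) * x : ℝ) : ℂ) * Complex.I) ∂(gaussianReal 0 1)
      = ((Real.exp (-((∑ k, c k * a k j)^2 / 2)) : ℝ) : ℂ) := by
    intro j
    have h3 := charFun_gaussianReal (μ := 0) (v := 1) (∑ k, c k * a k j)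
    rw [charFun_apply_real] at h3
    have h4 : ∀ x : ℝ, Complex.exp ((((∑ k, c k * a k j) * x : ℝ) : ℂ) * Complex.I)
        = Complex.exp (((∑ k, c k * a k j : ℝ) : ℂ) * (x : ℂ) * Complex.I) := by
      intro x; push_cast; rfl
    simp only [h4]
    rw [h3]
    push_cast
    congr 1
    ring
  simp only [h2]
  rw [← Complex.ofReal_prod, ← Real.exp_sum]
  congr 2
  rw [Finset.sum_neg_distrib, ← Finset.sum_div]
  congr 2
  unfold qf
  have h5 : ∀ j, (∑ k, c k * a k j)^2 = ∑ k, ∑ l, c k * c l * (a k j * a l j) := by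
    intro j
    rw [pow_two, Finset.sum_mul_sum]
    exact Finset.sum_congr rfl fun k _ => Finset.sum_congr rfl fun l _ => by ring
  simp only [h5]
  rw [Finset.sum_comm]
  refine Finset.sum_congr rfl fun k _ => ?_
  rw [Finset.sum_comm]
  refine Finset.sum_congr rfl fun l _ => ?_
  rw [← Finset.mul_sum]

/-- orthant probability of a linear image -/
lemma Lrc_orth {n K : ℕ} (a : Fin n → Fin K → ℝ) :
    ((gam K).map (Lrc a)) (orth (fun _ => 0)) = (gam K) {ξ | ∀ k, 0 ≤ ∑ j, a k j * ξ j} := by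
  rw [Measure.map_apply (measurable_Lrc a) (measurableSet_orth _)]
  rfl

lemma qf_gram {n K : ℕ} (a : Fin n → Fin K → ℝ) (t : Fin n → ℝ) :
    qf (fun k l => ∑ j, a k j * a l j) t = ∑ j, (∑ k, t k * a k j) ^ 2 := by
  unfold qf
  have h5 : ∀ j, (∑ k, t k * a k j)^2 = ∑ k, ∑ l, t k * t l * (a k j * a l j) := by
    intro j
    rw [pow_two, Finset.sum_mul_sum]
    exact Finset.sum_congr rfl fun k _ => Finset.sum_congr rfl fun l _ => by ring
  simp only [h5]
  symm
  rw [Finset.sum_comm]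
  refine Finset.sum_congr rfl fun k _ => ?_
  rw [Finset.sum_comm]
  refine Finset.sum_congr rfl fun l _ => ?_
  rw [← Finset.mul_sum]

/-- strict positivity implies a uniform lower bound -/
lemma exists_lam {n : ℕ} (S : Fin n → Fin n → ℝ) (h : ∀ t : Fin n → ℝ, t ≠ 0 → 0 < qf S t) :
    ∃ lam : ℝ, 0 < lam ∧ ∀ t : Fin n → ℝ, lam * ∑ i, t i ^ 2 ≤ qf S t := by
  rcases Nat.eq_zero_or_pos n with hn | hn
  · subst hn
    refine ⟨1, one_pos, fun t => ?_⟩
    simp [qf]
  have hne : Nonempty (Fin n) := ⟨⟨0, hn⟩⟩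
  have hcont : Continuous (fun t : EV n => qf S t) := by
    unfold qf
    fun_prop
  have hcomp : IsCompact (Metric.sphere (0 : EV n) 1) := isCompact_sphere 0 1
  have hnonempty : (Metric.sphere (0 : EV n) 1).Nonempty := NormedSpace.sphere_nonempty.2 zero_le_one
  obtain ⟨t0, ht0, hmin⟩ := hcomp.exists_isMinOn hnonempty hcont.continuousOn
  have ht0n : ‖t0‖ = 1 := by simpa using ht0
  have ht0ne : (fun i => t0 i) ≠ (0 : Fin n → ℝ) := by
    intro h0
    have : t0 = 0 := by
      ext i; exact congrFun h0 i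
    rw [this] at ht0n
    simp at ht0n
  refine ⟨qf S (fun i => t0 i), h _ ht0ne, fun t => ?_⟩
  by_cases ht : t = 0
  · subst ht
    simp [qf]
  set T : EV n := WithLp.toLp 2 t with hT
  have hTi : ∀ i, T i = t i := fun i => rfl
  have hTn : 0 < ‖T‖ := by
    rw [norm_pos_iff]
    intro h0
    apply ht
    funext i
    rw [← hTi i, h0]; rfl
  have hnorm : ‖T‖ ^ 2 = ∑ i, t i ^ 2 := by
    rw [EuclideanSpace.real_norm_sq_eq]
  have hmem : (‖T‖⁻¹ • T) ∈ Metric.sphere (0 : EV n) 1 := by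
    rw [mem_sphere_zero_iff_norm, norm_smul, norm_inv, norm_norm, inv_mul_cancel₀ hTn.ne']
  have h1 : qf S (fun i => t0 i) ≤ qf S (fun i => (‖T‖⁻¹ • T) i) := hmin hmem
  have h2 : qf S (fun i => (‖T‖⁻¹ • T) i) = qf S t / ‖T‖ ^ 2 := by
    unfold qf
    rw [Finset.sum_div]
    refine Finset.sum_congr rfl fun k _ => ?_
    rw [Finset.sum_div]
    refine Finset.sum_congr rfl fun l _ => ?_
    change (‖T‖⁻¹ * T k) * (‖T‖⁻¹ * T l) * S k l = _
    rw [hTi, hTi]
    field_simp
  rw [h2, le_div_iff₀ (by positivity), hnorm] at h1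
  exact h1

/-- staircase matrices have positive definite Gram matrix -/
lemma gram_pos {n K : ℕ} (a : Fin n → Fin K → ℝ) (c : Fin n → Fin K) (hc : StrictMono c)
    (h1 : ∀ i, a i (c i) ≠ 0) (h2 : ∀ i j, c i < j → a i j = 0) (t : Fin n → ℝ) (ht : t ≠ 0) :
    0 < qf (fun k l => ∑ j, a k j * a l j) t := by
  rw [qf_gram]
  -- maximal index with nonzero coefficient
  have hex : (Finset.univ.filter (fun i => t i ≠ 0)).Nonempty := by
    by_contra hcon
    apply ht
    funext i
    by_contra hi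
    exact hcon ⟨i, Finset.mem_filter.2 ⟨Finset.mem_univ _, hi⟩⟩
  set i0 := (Finset.univ.filter (fun i => t i ≠ 0)).max' hex with hi0
  have hi0mem := Finset.max'_mem _ hex
  rw [← hi0] at hi0mem
  have hi0ne : t i0 ≠ 0 := (Finset.mem_filter.1 hi0mem).2
  have hbig : ∀ i, i0 < i → t i = 0 := by
    intro i hi
    by_contra h
    have hmem : i ∈ Finset.univ.filter (fun i => t i ≠ 0) := Finset.mem_filter.2 ⟨Finset.mem_univ _, h⟩
    have := Finset.le_max' _ i hmem
    rw [← hi0] at this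
    exact absurd hi (not_lt.2 this)
  have hcol : ∑ k, t k * a k (c i0) = t i0 * a i0 (c i0) := by
    rw [Finset.sum_eq_single i0]
    · intro k _ hk
      rcases lt_or_gt_of_ne hk with h | h
      · rw [h2 k (c i0) (hc h), mul_zero]
      · rw [hbig k h, zero_mul]
    · intro h; exact absurd (Finset.mem_univ _) h
  have hpos : 0 < (∑ k, t k * a k (c i0)) ^ 2 := by
    rw [hcol]
    have : t i0 * a i0 (c i0) ≠ 0 := mul_ne_zero hi0ne (h1 i0)
    positivity
  exact lt_of_lt_of_le hpos (Finset.single_le_sum (f := fun j => (∑ k, t k * a k j) ^ 2)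
    (fun j _ => sq_nonneg _) (Finset.mem_univ _))

/-! ### weighted sums of the walk -/

/-- coefficient of `ξ_j` in `∑_{i<k} w_i W_i` -/
noncomputable def cw (w : ℕ → ℝ) (k j : ℕ) : ℝ := ∑ i ∈ Ico j k, w i

lemma Sk_Wg_eq {K : ℕ} (w : ℕ → ℝ) (k : ℕ) (hk : k ≤ K) (ξ : Fin K → ℝ) :
    Sk (fun i : Fin K => w i * Wg ξ i) k = ∑ j : Fin K, cw w k j * ξ j := by
  unfold Sk Wg cw
  have h1 : ∀ i : Fin K, (if (i:ℕ) < k then w i * ∑ j : Fin K, (if j ≤ i then ξ j else 0) else 0)
      = ∑ j : Fin K, (if (i:ℕ) < k ∧ (j:ℕ) ≤ i then w i else 0) * ξ j := by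
    intro i
    by_cases h : (i:ℕ) < k
    · rw [if_pos h, Finset.mul_sum]
      refine Finset.sum_congr rfl fun j _ => ?_
      by_cases h2 : j ≤ i
      · rw [if_pos h2, if_pos ⟨h, h2⟩]
      · rw [if_neg h2, if_neg (fun h3 => h2 h3.2)]; ring
    · rw [if_neg h]
      symm
      refine Finset.sum_eq_zero fun j _ => ?_
      rw [if_neg (fun h3 => h h3.1), zero_mul]
  simp only [h1]
  rw [Finset.sum_comm]
  refine Finset.sum_congr rfl fun j _ => ?_
  rw [← Finset.sum_mul]
  congr 1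
  rw [Fin.sum_univ_eq_sum_range (fun i => if i < k ∧ (j:ℕ) ≤ i then w i else 0) K, ← Finset.sum_filter]
  congr 1
  ext i
  simp only [Finset.mem_filter, Finset.mem_range, Finset.mem_Ico]
  omega

/-- covariance of the weighted sums -/
noncomputable def cc (w : ℕ → ℝ) (K k l : ℕ) : ℝ := ∑ j : Fin K, cw w k j * cw w l j

lemma cc_zero (w : ℕ → ℝ) (K l : ℕ) : cc w K 0 l = 0 := by
  unfold cc cw
  simp

lemma cc_comm (w : ℕ → ℝ) (K k l : ℕ) : cc w K k l = cc w K l k := by
  unfold cc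
  exact Finset.sum_congr rfl fun j _ => mul_comm _ _

lemma cw_succ (w : ℕ → ℝ) (k j : ℕ) : cw w (k+1) j = cw w k j + if j ≤ k then w k else 0 := by
  unfold cw
  by_cases h : j ≤ k
  · rw [Finset.sum_Ico_succ_top h, if_pos h]
  · rw [if_neg h, Finset.Ico_eq_empty (by omega), Finset.Ico_eq_empty (by omega)]; simp

lemma cc_succ (w : ℕ → ℝ) (K k l : ℕ) (hk : k < K) :
    cc w K (k+1) l = cc w K k l + w k * ∑ j ∈ range (k+1), cw w l j := by
  unfold cc
  simp only [cw_succ w k]
  have h1 : ∀ j : Fin K, (cw w k j + if (j:ℕ) ≤ k then w k else 0) * cw w l j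
      = cw w k j * cw w l j + (if (j:ℕ) ≤ k then w k * cw w l j else 0) := by
    intro j
    split_ifs <;> ring
  simp only [h1]
  rw [Finset.sum_add_distrib]
  congr 1
  rw [Fin.sum_univ_eq_sum_range (fun j => if j ≤ k then w k * cw w l j else 0) K, ← Finset.sum_filter,
    Finset.mul_sum]
  have : (range K).filter (fun j => j ≤ k) = range (k+1) := by
    ext j; simp only [Finset.mem_filter, Finset.mem_range]; omega
  rw [this]

/-- column sums -/
lemma sum_cw (w : ℕ → ℝ) (k l : ℕ) (h : k < l) :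
    ∑ j ∈ range (k+1), cw w l j = ∑ i ∈ range (k+1), ((i:ℝ)+1) * w i + ((k:ℝ)+1) * ∑ i ∈ Ico (k+1) l, w i := by
  induction k with
  | zero =>
    simp only [Finset.range_one, Finset.sum_singleton, zero_add]
    unfold cw
    rw [← Finset.sum_Ico_consecutive w (Nat.zero_le 1) (by omega : 1 ≤ l)]
    simp
  | succ k ih =>
    rw [Finset.sum_range_succ, ih (by omega), Finset.sum_range_succ (fun i : ℕ => ((i:ℝ)+1) * w i) (k+1)]
    have e1 : cw w l (k+1) = w (k+1) + ∑ i ∈ Ico (k+1+1) l, w i := by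
      unfold cw
      rw [Finset.sum_eq_sum_Ico_succ_bot (by omega : k+1 < l)]
    have e2 : ∑ i ∈ Ico (k+1) l, w i = w (k+1) + ∑ i ∈ Ico (k+1+1) l, w i := by
      rw [Finset.sum_eq_sum_Ico_succ_bot (by omega : k+1 < l)]
    rw [e1, e2]
    push_cast
    ring

/-- real harmonic numbers -/
noncomputable def Hr (n : ℕ) : ℝ := ∑ i ∈ range n, 1 / ((i:ℝ)+1)

/-- weights `1/(i+1)` -/
noncomputable def wS (i : ℕ) : ℝ := 1 / ((i:ℝ)+1)

/-- covariance for the weights `1/(i+1)` -/
lemma cc_S (K k l : ℕ) (hkl : k ≤ l) (hk : k ≤ K) :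
    cc wS K k l = 2 * k + k * Hr l - (k + 1) * Hr k := by
  induction k with
  | zero => rw [cc_zero]; simp [Hr]
  | succ k ih =>
    rw [cc_succ wS K k l (by omega), ih (by omega) (by omega), sum_cw wS k l (by omega)]
    have e1 : ∑ i ∈ range (k+1), ((i:ℝ)+1) * wS i = (k:ℝ)+1 := by
      have : ∀ i ∈ range (k+1), ((i:ℝ)+1) * wS i = 1 := by
        intro i _
        unfold wS
        field_simp
      rw [Finset.sum_congr rfl this]; simp
    have e2 : ∑ i ∈ Ico (k+1) l, wS i = Hr l - Hr (k+1) := by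
      unfold Hr wS
      rw [Finset.sum_Ico_eq_sub _ (by omega)]
    have e3 : Hr (k+1) = Hr k + 1 / ((k:ℝ)+1) := by
      unfold Hr; rw [Finset.sum_range_succ]
    rw [e1, e2, e3]
    unfold wS
    push_cast
    field_simp
    ring

/-- covariance for the weights `1` -/
lemma cc_A (K k l : ℕ) (hkl : k ≤ l) (hk : k ≤ K) :
    cc (fun _ => 1) K k l = k * (k + 1) * (3 * l - k + 1) / 6 := by
  induction k with
  | zero => rw [cc_zero]; simp
  | succ k ih =>
    rw [cc_succ _ K k l (by omega), ih (by omega) (by omega), sum_cw _ k l (by omega)]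
    have e1 : ∑ i ∈ range (k+1), ((i:ℝ)+1) * (fun _ : ℕ => (1:ℝ)) i = ((k:ℝ)+1)*(k+2)/2 := by
      have : ∀ n : ℕ, ∑ i ∈ range n, ((i:ℝ)+1) * (fun _ : ℕ => (1:ℝ)) i = (n:ℝ)*(n+1)/2 := by
        intro n
        induction n with
        | zero => simp
        | succ n ih => rw [Finset.sum_range_succ, ih]; push_cast; ring
      rw [this]; push_cast; ring
    have e2 : ∑ i ∈ Ico (k+1) l, (fun _ : ℕ => (1:ℝ)) i = (l:ℝ) - (k+1) := by
      simp only [Finset.sum_const, Nat.card_Ico, nsmul_eq_mul, mul_one]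
      push_cast [Nat.cast_sub hkl]; ring
    rw [e1, e2]
    push_cast
    ring

end Pool.GP
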