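import Pool.Agent.Lib.GPX.Sinai
import Pool.Agent.Lib.GP.Canon

set_option autoImplicit false

/-!
Exponential upper bound for the persistence probability in logarithmic time: `theta > 0`.
-/

namespace Pool.GP

open Finset

/-! ### independence of blocks of coordinates -/

/-- depends only on the coordinates `< t` -/
def DepLt (t : ℕ) (f : (ℕ → Bool) → ℝ) : Prop := ∀ b b' : ℕ → Bool, (∀ v < t, b v = b' v) → f b = f b'

/-- depends only on the coordinates `≥ t` -/
def DepGe (t : ℕ) (f : (ℕ → Bool) → ℝ) : Prop := ∀ b b' : ℕ → Bool, (∀ v, t ≤ v → b v = b' v) → f b = f b'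

lemma E_two (A t : ℕ) (ht : t ≤ A) (f g : (ℕ → Bool) → ℝ) (hf : DepLt t f) (hg : DepGe t g) :
    E A (fun ω => f (ext ω) * g (ext ω)) = E A (fun ω => f (ext ω)) * E A (fun ω => g (ext ω)) := by
  obtain ⟨r, rfl⟩ : ∃ r, A = t + r := ⟨A - t, by omega⟩
  have h1 : ∀ (a : Fin t → Bool) (b : Fin r → Bool), f (ext (Fin.append a b)) = f (ext a) := by
    intro a b
    apply hf
    intro v hv
    rw [ext_lt _ (by omega : v < t + r), ext_lt _ hv]
    have : (⟨v, by omega⟩ : Fin (t+r)) = Fin.castAdd r ⟨v, hv⟩ := rfl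
    rw [this, Fin.append_left]
  have h2 : ∀ (a : Fin t → Bool) (b : Fin r → Bool), g (ext (Fin.append a b))
      = g (fun v => ext b (v - t)) := by
    intro a b
    apply hg
    intro v hv
    by_cases hvr : v < t + r
    · rw [ext_lt _ hvr, ext_lt _ (by omega : v - t < r)]
      have : (⟨v, hvr⟩ : Fin (t+r)) = Fin.natAdd t ⟨v - t, by omega⟩ := by
        ext; simp; omega
      rw [this, Fin.append_right]
    · unfold ext
      rw [dif_neg hvr, dif_neg (by omega)]
  rw [E_append, E_append, E_append]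
  simp only [h1, h2]
  simp only [E_mul_left, E_const]
  rw [E_mul_right]

lemma E_blocks (A : ℕ) (lo hi : ℕ → ℕ) (g : ℕ → (ℕ → Bool) → ℝ) (hhi : ∀ j, hi j ≤ A)
    (hord : ∀ j, hi (j+1) ≤ lo j) (hlo : ∀ j, lo j ≤ hi j)
    (hg1 : ∀ j, DepGe (lo j) (g j)) (hg2 : ∀ j, DepLt (hi j) (g j)) (J : ℕ) :
    E A (fun ω => ∏ j ∈ range J, g j (ext ω)) = ∏ j ∈ range J, E A (fun ω => g j (ext ω)) := by
  induction J with
  | zero => simp [E_const]
  | succ J ih =>
    rw [Finset.prod_range_succ, ← ih]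
    have hlomono : ∀ j < J, hi J ≤ lo j := by
      intro j hj
      obtain ⟨k, rfl⟩ : ∃ k, J = j + 1 + k := ⟨J - (j+1), by omega⟩
      clear ih hj
      induction k with
      | zero => exact hord j
      | succ k ihk => exact (hord (j+1+k)).trans ((hlo _).trans ihk)
    have h1 := E_two A (hi J) (hhi J) (g J) (fun b => ∏ j ∈ range J, g j b) (hg2 J) (by
      intro b b' hb
      refine Finset.prod_congr rfl fun j hj => ?_
      rw [Finset.mem_range] at hj
      exact hg1 j b b' fun v hv => hb v ((hlomono j hj).trans hv))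
    rw [mul_comm, ← h1]
    refine E_congr A fun ω => ?_
    rw [Finset.prod_range_succ, mul_comm]

/-! ### sums of absolute values of weighted sign sums -/

lemma cosh_prod (A n : ℕ) (w : Fin n → ℕ → ℝ) (V : ℝ)
    (hV : ∀ σ : Fin n → Bool, ∑ v ∈ range A, (∑ m, sg (σ m) * w m v) ^ 2 ≤ V) :
    E A (fun ω => ∏ m, Real.cosh (Ws A (w m) ω)) ≤ Real.exp (V / 2) := by
  have h1 : ∀ ω : Fin A → Bool, ∏ m, Real.cosh (Ws A (w m) ω)
      = E n (fun σ => Real.exp (Ws A (fun v => ∑ m, sg (σ m) * w m v) ω)) := by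
    intro ω
    have h2 : ∀ σ : Fin n → Bool, Real.exp (Ws A (fun v => ∑ m, sg (σ m) * w m v) ω)
        = ∏ m, Real.exp (sg (σ m) * Ws A (w m) ω) := by
      intro σ
      rw [← Real.exp_sum]
      congr 1
      rw [Ws_sum]
      exact Finset.sum_congr rfl fun m _ => Ws_smul A (sg (σ m)) (w m) ω
    simp only [h2]
    rw [E_prod n (fun m b => Real.exp (sg b * Ws A (w m) ω))]
    refine Finset.prod_congr rfl fun m _ => ?_
    simp only [sg_true, sg_false, one_mul, neg_mul]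
    rw [Real.cosh_eq]
  simp only [h1]
  have h3 : E A (fun ω => E n (fun σ => Real.exp (Ws A (fun v => ∑ m, sg (σ m) * w m v) ω)))
      = E n (fun σ => E A (fun ω => Real.exp (Ws A (fun v => ∑ m, sg (σ m) * w m v) ω))) := by
    unfold E
    rw [← Finset.sum_div, ← Finset.sum_div, Finset.sum_comm]
    ring
  rw [h3]
  calc E n (fun σ => E A (fun ω => Real.exp (Ws A (fun v => ∑ m, sg (σ m) * w m v) ω)))
      ≤ E n (fun _ => Real.exp (V / 2)) := by
        refine E_mono n fun σ => ?_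
        have h4 := E_exp_Ws_le A (fun v => ∑ m, sg (σ m) * w m v) 1
        simp only [one_mul, one_pow] at h4
        refine h4.trans (Real.exp_le_exp.2 ?_)
        have := hV σ
        linarith
    _ = Real.exp (V / 2) := E_const n _

lemma abs_sum_tail (A n : ℕ) (w : Fin n → ℕ → ℝ) (V L : ℝ)
    (hV : ∀ σ : Fin n → Bool, ∑ v ∈ range A, (∑ m, sg (σ m) * w m v) ^ 2 ≤ V) :
    Pr A (fun ω => L ≤ ∑ m, |Ws A (w m) ω|) ≤ 2 ^ n * Real.exp (V / 2) / Real.exp L := by
  have h1 : Pr A (fun ω => L ≤ ∑ m, |Ws A (w m) ω|)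
      ≤ Pr A (fun ω => Real.exp L ≤ 2 ^ n * ∏ m, Real.cosh (Ws A (w m) ω)) := by
    refine Pr_mono A fun ω h => ?_
    refine (Real.exp_le_exp.2 h).trans ?_
    rw [Real.exp_sum]
    have h2 : (2:ℝ) ^ n = ∏ _m : Fin n, (2:ℝ) := by simp
    rw [h2, ← Finset.prod_mul_distrib]
    refine Finset.prod_le_prod (fun m _ => (Real.exp_pos _).le) (fun m _ => ?_)
    rw [← Real.cosh_abs, Real.cosh_eq]
    have := Real.exp_pos (-|Ws A (w m) ω|)
    linarith
  refine h1.trans ((Pr_markov A _ (fun ω => ?_) (Real.exp_pos _)).trans ?_)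
  · exact mul_nonneg (by positivity) (Finset.prod_nonneg fun m _ => (Real.cosh_pos _).le)
  · rw [E_mul_left]
    gcongr
    exact cosh_prod A n w V hV

/-! ### the canonical functional as a weighted sum -/

lemma ZI_Ws_min (A k : ℕ) (ω : Fin A → Bool) :
    ZI A 1 ω k = Ws A (fun v => ((min k (A / (v+1)) : ℕ) : ℝ)) ω := by
  unfold ZI
  have h1 : ∀ i ∈ Icc 1 k, Y ω (A / i) = Ws A (fun j => if j < A / i then 1 else 0) ω := fun i _ => rfl
  rw [Finset.sum_congr rfl h1, ← Ws_sum]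
  refine Ws_congr A (fun v _ => ?_) ω
  rw [← Finset.sum_filter, Finset.sum_const, nsmul_eq_mul, mul_one]
  congr 1
  have h2 : (Icc 1 k).filter (fun i => v < A / i) = Icc 1 (min k (A / (v+1))) := by
    ext i
    rw [Finset.mem_filter, Finset.mem_Icc, Finset.mem_Icc]
    constructor
    · rintro ⟨⟨hi1, hi2⟩, hi3⟩
      refine ⟨hi1, le_min hi2 ?_⟩
      rw [Nat.le_div_iff_mul_le (by omega)]
      have : v + 1 ≤ A / i := hi3
      rw [Nat.le_div_iff_mul_le (by omega)] at this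
      rw [mul_comm]; exact this
    · rintro ⟨hi1, hi2⟩
      have h3 := hi2.trans (min_le_left _ _)
      have h4 := hi2.trans (min_le_right _ _)
      refine ⟨⟨hi1, h3⟩, ?_⟩
      rw [Nat.le_div_iff_mul_le (by omega)] at h4
      have : v + 1 ≤ A / i := by
        rw [Nat.le_div_iff_mul_le (by omega), mul_comm]; exact h4
      omega
  rw [h2, Nat.card_Icc, Nat.add_sub_cancel]

/-! ### geometric sums -/

lemma geo_half (n : ℕ) : ∑ i ∈ range n, (1/2:ℝ)^i ≤ 2 := by
  have h : ∀ n : ℕ, ∑ i ∈ range n, (1/2:ℝ)^i = 2 - 2 * (1/2:ℝ)^n := by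
    intro n
    induction n with
    | zero => simp
    | succ n ih => rw [Finset.sum_range_succ, ih, pow_succ]; ring
  rw [h]
  have : 0 < (1/2:ℝ)^n := by positivity
  linarith

lemma geo_two (n m : ℕ) (hm : m < n) : ∑ i ∈ range n, (1/2:ℝ)^((m - i) + (i - m)) ≤ 3 := by
  obtain ⟨r, rfl⟩ : ∃ r, n = (m + 1) + r := ⟨n - (m+1), by omega⟩
  rw [Finset.sum_range_add]
  have h1 : ∑ i ∈ range (m+1), (1/2:ℝ)^((m - i) + (i - m)) ≤ 2 := by
    have e1 : ∑ i ∈ range (m+1), (1/2:ℝ)^((m - i) + (i - m)) = ∑ i ∈ range (m+1), (1/2:ℝ)^(m + 1 - 1 - i) := by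
      refine Finset.sum_congr rfl fun i hi => ?_
      rw [Finset.mem_range] at hi
      congr 1; omega
    rw [e1, Finset.sum_range_reflect (fun i => (1/2:ℝ)^i) (m+1)]
    exact geo_half _
  have h2 : ∑ i ∈ range r, (1/2:ℝ)^((m - (m+1+i)) + ((m+1+i) - m)) ≤ 1 := by
    have e1 : ∑ i ∈ range r, (1/2:ℝ)^((m - (m+1+i)) + ((m+1+i) - m)) = 1/2 * ∑ i ∈ range r, (1/2:ℝ)^i := by
      rw [Finset.mul_sum]
      refine Finset.sum_congr rfl fun i _ => ?_
      have : (m - (m+1+i)) + ((m+1+i) - m) = i + 1 := by omega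
      rw [this, pow_succ]; ring
    rw [e1]
    have := geo_half r
    linarith
  linarith

lemma quad_bound (A n : ℕ) (w : Fin n → ℕ → ℝ) (C : ℝ) (hC : 0 ≤ C)
    (h : ∀ m m' : Fin n, |∑ v ∈ range A, w m v * w m' v|
      ≤ C * (1/2:ℝ)^(((m:ℕ) - (m':ℕ)) + ((m':ℕ) - (m:ℕ)))) (σ : Fin n → Bool) :
    ∑ v ∈ range A, (∑ m, sg (σ m) * w m v) ^ 2 ≤ 3 * C * n := by
  have h1 : ∑ v ∈ range A, (∑ m, sg (σ m) * w m v) ^ 2
      = ∑ m, ∑ m', sg (σ m) * sg (σ m') * ∑ v ∈ range A, w m v * w m' v := by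
    have e1 : ∀ v, (∑ m, sg (σ m) * w m v) ^ 2
        = ∑ m, ∑ m', sg (σ m) * sg (σ m') * (w m v * w m' v) := by
      intro v
      rw [pow_two, Finset.sum_mul_sum]
      exact Finset.sum_congr rfl fun m _ => Finset.sum_congr rfl fun m' _ => by ring
    simp only [e1]
    rw [Finset.sum_comm]
    refine Finset.sum_congr rfl fun m _ => ?_
    rw [Finset.sum_comm]
    exact Finset.sum_congr rfl fun m' _ => by rw [← Finset.mul_sum]
  rw [h1]
  have h2 : ∀ m : Fin n, ∑ m', sg (σ m) * sg (σ m') * ∑ v ∈ range A, w m v * w m' v ≤ 3 * C := by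
    intro m
    calc ∑ m', sg (σ m) * sg (σ m') * ∑ v ∈ range A, w m v * w m' v
        ≤ ∑ m' : Fin n, C * (1/2:ℝ)^(((m:ℕ) - (m':ℕ)) + ((m':ℕ) - (m:ℕ))) := by
          refine Finset.sum_le_sum fun m' _ => ?_
          refine (le_abs_self _).trans ?_
          rw [abs_mul, abs_mul, abs_sg, abs_sg, one_mul, one_mul]
          exact h m m'
      _ = C * ∑ i ∈ range n, (1/2:ℝ)^(((m:ℕ) - i) + (i - (m:ℕ))) := by
          rw [← Finset.mul_sum, ← Fin.sum_univ_eq_sum_range
            (fun i => (1/2:ℝ)^(((m:ℕ) - i) + (i - (m:ℕ)))) n]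
      _ ≤ C * 3 := mul_le_mul_of_nonneg_left (geo_two n m m.2) hC
      _ = 3 * C := by ring
  calc _ ≤ ∑ _m : Fin n, 3 * C := Finset.sum_le_sum fun m _ => h2 m
    _ = 3 * C * n := by simp; ring

/-! ### the two kinds of far contributions -/

/-- number of coordinates with large quotient -/
lemma high_count (A β : ℕ) (hβ : 1 ≤ β) :
    ∑ v ∈ range A, (if β ≤ A / (v+1) then (1:ℝ) else 0) = ((A / β : ℕ) : ℝ) := by
  rw [← Finset.sum_filter, Finset.sum_const, nsmul_eq_mul, mul_one]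
  congr 1
  have : (range A).filter (fun v => β ≤ A / (v+1)) = range (A / β) := by
    ext v
    rw [Finset.mem_filter, Finset.mem_range, Finset.mem_range]
    constructor
    · rintro ⟨_, h⟩
      rw [Nat.le_div_iff_mul_le (by omega)] at h
      have : v + 1 ≤ A / β := by rw [Nat.le_div_iff_mul_le (by omega), mul_comm]; exact h
      omega
    · intro h
      have h1 : v + 1 ≤ A / β := h
      have h2 := Nat.div_le_self A β
      rw [Nat.le_div_iff_mul_le (by omega)] at h1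
      refine ⟨by omega, ?_⟩
      rw [Nat.le_div_iff_mul_le (by omega), mul_comm]; exact h1
  rw [this, Finset.card_range]

lemma inv_sq_tail (t A : ℕ) (ht : 1 ≤ t) : ∑ v ∈ Ico t A, 1 / ((v:ℝ)+1)^2 ≤ 1 / (t:ℝ) := by
  rcases le_or_gt A t with h | h
  · rw [Finset.Ico_eq_empty (by omega), Finset.sum_empty]; positivity
  have key : ∀ A, t ≤ A → ∑ v ∈ Ico t A, 1 / ((v:ℝ)+1)^2 ≤ 1 / (t:ℝ) - 1 / (A:ℝ) := by
    intro A hA
    induction A, hA using Nat.le_induction with
    | base => simp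
    | succ A hA ih =>
      rw [Finset.sum_Ico_succ_top hA]
      have hApos : (0:ℝ) < A := by exact_mod_cast (by omega : 0 < A)
      have : 1 / ((A:ℝ)+1)^2 ≤ 1 / (A:ℝ) - 1 / ((A:ℝ)+1) := by
        have e : 1 / (A:ℝ) - 1 / ((A:ℝ)+1) = 1 / ((A:ℝ) * ((A:ℝ)+1)) := by field_simp; ring
        rw [e]
        apply one_div_le_one_div_of_le (by positivity)
        nlinarith
      push_cast
      linarith
  have h1 := key A h.le
  have : 0 < 1 / (A:ℝ) := by
    have : (0:ℝ) < A := by exact_mod_cast (by omega : 0 < A)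
    positivity
  linarith

/-- squares of small quotients -/
lemma low_sum (A β : ℕ) (hβ : 1 ≤ β) (hA : β ≤ A) :
    ∑ v ∈ range A, (if A / (v+1) < β then (((A / (v+1) : ℕ) : ℝ))^2 else 0) ≤ 2 * A * β := by
  set t := A / β with ht
  have ht1 : 1 ≤ t := by rw [ht, Nat.le_div_iff_mul_le (by omega)]; omega
  have hβpos : (0:ℝ) < β := by exact_mod_cast hβ
  have hApos : (0:ℝ) < A := by exact_mod_cast (by omega : 0 < A)
  have htpos : (0:ℝ) < t := by exact_mod_cast ht1
  have h1 : ∑ v ∈ range A, (if A / (v+1) < β then (((A / (v+1) : ℕ) : ℝ))^2 else 0)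
      ≤ ∑ v ∈ Ico t A, (A:ℝ)^2 * (1 / ((v:ℝ)+1)^2) := by
    rw [← Finset.sum_filter]
    have hsub : (range A).filter (fun v => A / (v+1) < β) ⊆ Ico t A := by
      intro v hv
      rw [Finset.mem_filter, Finset.mem_range] at hv
      rw [Finset.mem_Ico]
      refine ⟨?_, hv.1⟩
      by_contra hc
      push Not at hc
      have h2 : v + 1 ≤ A / β := hc
      rw [Nat.le_div_iff_mul_le (by omega)] at h2
      have h3 : β ≤ A / (v+1) := by rw [Nat.le_div_iff_mul_le (by omega), mul_comm]; exact h2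
      omega
    calc ∑ v ∈ (range A).filter (fun v => A / (v+1) < β), (((A / (v+1) : ℕ) : ℝ))^2
        ≤ ∑ v ∈ (range A).filter (fun v => A / (v+1) < β), (A:ℝ)^2 * (1 / ((v:ℝ)+1)^2) := by
          refine Finset.sum_le_sum fun v _ => ?_
          have h4 : (((A / (v+1) : ℕ) : ℝ)) ≤ (A:ℝ) / ((v:ℝ)+1) := by
            have := Nat.cast_div_le (α := ℝ) (m := A) (n := v+1)
            push_cast at this
            exact this
          calc (((A / (v+1) : ℕ) : ℝ))^2 ≤ ((A:ℝ) / ((v:ℝ)+1))^2 := pow_le_pow_left₀ (by positivity) h4 2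
            _ = _ := by rw [div_pow]; ring
      _ ≤ _ := Finset.sum_le_sum_of_subset_of_nonneg hsub fun v _ _ => by positivity
  refine h1.trans ?_
  rw [← Finset.mul_sum]
  have h2 := mul_le_mul_of_nonneg_left (inv_sq_tail t A ht1) (by positivity : 0 ≤ (A:ℝ)^2)
  refine h2.trans ?_
  rw [mul_one_div, div_le_iff₀ htpos]
  have h3 := Nat.lt_div_mul_add (a := A) (b := β) (by omega)
  have h4 : (A:ℝ) < t * β + β := by exact_mod_cast h3
  have h5 : (1:ℝ) ≤ t := by exact_mod_cast ht1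
  have h6 : (A:ℝ) ≤ 2 * (t * β) := by nlinarith
  nlinarith


/-! ### the blocks -/

/-- weighted sign sum of an infinite sign sequence -/
noncomputable def Wb (A : ℕ) (w : ℕ → ℝ) (b : ℕ → Bool) : ℝ := ∑ v ∈ range A, w v * sg (b v)

lemma Ws_eq_Wb (A : ℕ) (w : ℕ → ℝ) (ω : Fin A → Bool) : Ws A w ω = Wb A w (ext ω) := by
  unfold Ws Wb
  rw [← Fin.sum_univ_eq_sum_range (fun v => w v * sg (ext ω v)) A]
  refine Finset.sum_congr rfl fun v _ => ?_
  rw [ext_lt _ v.2]

lemma Wb_depGe (A t : ℕ) (w : ℕ → ℝ) (hw : ∀ v < t, w v = 0) : DepGe t (Wb A w) := by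
  intro b b' h
  unfold Wb
  refine Finset.sum_congr rfl fun v _ => ?_
  by_cases hv : v < t
  · rw [hw v hv]; ring
  · rw [h v (by omega)]

lemma Wb_depLt (A t : ℕ) (w : ℕ → ℝ) (hw : ∀ v, t ≤ v → w v = 0) : DepLt t (Wb A w) := by
  intro b b' h
  unfold Wb
  refine Finset.sum_congr rfl fun v _ => ?_
  by_cases hv : v < t
  · rw [h v hv]
  · rw [hw v (by omega)]; ring

/-- block boundaries -/
def bb (K r m : ℕ) : ℕ := K * r ^ (4*m)

/-- weights of the high part -/
noncomputable def wh (A K r m : ℕ) (v : ℕ) : ℝ :=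
  (if bb K r m ≤ A / (v+1) then 1 else 0) * (Real.sqrt K * r ^ (2*m) / Real.sqrt A)

/-- weights of the low part -/
noncomputable def wl (A K r m : ℕ) (v : ℕ) : ℝ :=
  (if A / (v+1) < bb K r m then (((A / (v+1) : ℕ) : ℝ)) else 0) * (1 / (Real.sqrt A * (Real.sqrt K * r ^ (2*m))))

/-- weights of the main part -/
noncomputable def wm (A K r j : ℕ) (v : ℕ) : ℝ :=
  if bb K r j ≤ A / (v+1) ∧ A / (v+1) < bb K r (j+1) then ((min (K * r ^ (4*j+2)) (A / (v+1)) : ℕ) : ℝ) else 0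

lemma bb_mono (K r : ℕ) (hr : 1 ≤ r) {m m' : ℕ} (h : m ≤ m') : bb K r m ≤ bb K r m' := by
  unfold bb
  exact Nat.mul_le_mul_left _ (Nat.pow_le_pow_right hr (by omega))

lemma ratio_le (r : ℝ) (hr : 2 ≤ r) (m m' : ℕ) (h : m ≤ m') : r ^ (2*m) / r ^ (2*m') ≤ (1/2:ℝ) ^ (m' - m) := by
  obtain ⟨d, rfl⟩ : ∃ d, m' = m + d := ⟨m' - m, by omega⟩
  have e : m + d - m = d := by omega
  rw [e]
  have hrpos : 0 < r := by linarith
  have e2 : r ^ (2*m) / r ^ (2*(m+d)) = (1 / r^2) ^ d := by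
    rw [mul_add, pow_add, pow_mul r 2 d, one_div, inv_pow]
    field_simp
  rw [e2]
  apply pow_le_pow_left₀ (by positivity)
  apply one_div_le_one_div_of_le (by norm_num)
  nlinarith

lemma wh_inner (A K r : ℕ) (hA : 1 ≤ A) (hK : 1 ≤ K) (hr : 2 ≤ r) (m m' : ℕ) (h : m ≤ m') :
    ∑ v ∈ range A, wh A K r m v * wh A K r m' v ≤ (1/2:ℝ) ^ (m' - m) := by
  have hrr : (2:ℝ) ≤ r := by exact_mod_cast hr
  have hKr : (1:ℝ) ≤ K := by exact_mod_cast hK
  have hAr : (1:ℝ) ≤ A := by exact_mod_cast hA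
  have hsK : 0 < Real.sqrt K := Real.sqrt_pos.2 (by linarith)
  have hsA : 0 < Real.sqrt A := Real.sqrt_pos.2 (by linarith)
  have hbpos : 1 ≤ bb K r m' := Nat.one_le_iff_ne_zero.2 (by unfold bb; positivity)
  have e1 : ∀ v, wh A K r m v * wh A K r m' v
      = (if bb K r m' ≤ A / (v+1) then (1:ℝ) else 0)
        * ((Real.sqrt K * r ^ (2*m) / Real.sqrt A) * (Real.sqrt K * r ^ (2*m') / Real.sqrt A)) := by
    intro v
    unfold wh
    have hle := bb_mono K r (by omega) h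
    by_cases h1 : bb K r m' ≤ A / (v+1)
    · rw [if_pos h1, if_pos (hle.trans h1)]; ring
    · rw [if_neg h1]; ring
  simp only [e1]
  rw [← Finset.sum_mul, high_count A _ hbpos]
  have h2 : ((A / bb K r m' : ℕ) : ℝ) ≤ (A:ℝ) / (K * r ^ (4*m')) := by
    have := Nat.cast_div_le (α := ℝ) (m := A) (n := bb K r m')
    unfold bb at this ⊢
    push_cast at this
    exact this
  have hpos : 0 ≤ (Real.sqrt K * r ^ (2*m) / Real.sqrt A) * (Real.sqrt K * r ^ (2*m') / Real.sqrt A) := by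
    positivity
  refine (mul_le_mul_of_nonneg_right h2 hpos).trans (le_trans (le_of_eq ?_) (ratio_le r hrr m m' h))
  have e3 : (Real.sqrt K * r ^ (2*m) / Real.sqrt A) * (Real.sqrt K * r ^ (2*m') / Real.sqrt A)
      = (K:ℝ) * (r ^ (2*m) * r ^ (2*m')) / A := by
    have h5 := Real.mul_self_sqrt (by linarith : (0:ℝ) ≤ K)
    have h6 := Real.mul_self_sqrt (by linarith : (0:ℝ) ≤ A)
    rw [div_mul_div_comm, h6]
    congr 1
    calc Real.sqrt K * r ^ (2*m) * (Real.sqrt K * r ^ (2*m'))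
        = (Real.sqrt K * Real.sqrt K) * (r ^ (2*m) * r ^ (2*m')) := by ring
      _ = _ := by rw [h5]
  rw [e3]
  have e4 : (r:ℝ) ^ (4*m') = r ^ (2*m') * r ^ (2*m') := by rw [← pow_add]; congr 1; ring
  rw [e4]
  field_simp

lemma wl_inner (A K r : ℕ) (hK : 1 ≤ K) (hr : 2 ≤ r) (m m' : ℕ) (h : m ≤ m') (hA : bb K r m ≤ A) :
    ∑ v ∈ range A, wl A K r m v * wl A K r m' v ≤ 2 * (1/2:ℝ) ^ (m' - m) := by
  have hrr : (2:ℝ) ≤ r := by exact_mod_cast hr
  have hKr : (1:ℝ) ≤ K := by exact_mod_cast hK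
  have hbpos : 1 ≤ bb K r m := Nat.one_le_iff_ne_zero.2 (by unfold bb; positivity)
  have hAr : (1:ℝ) ≤ A := by exact_mod_cast (hbpos.trans hA)
  have hsK : 0 < Real.sqrt K := Real.sqrt_pos.2 (by linarith)
  have hsA : 0 < Real.sqrt A := Real.sqrt_pos.2 (by linarith)
  have e1 : ∀ v, wl A K r m v * wl A K r m' v
      = (if A / (v+1) < bb K r m then (((A / (v+1) : ℕ) : ℝ))^2 else 0)
        * ((1 / (Real.sqrt A * (Real.sqrt K * r ^ (2*m)))) * (1 / (Real.sqrt A * (Real.sqrt K * r ^ (2*m'))))) := by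
    intro v
    unfold wl
    have hle := bb_mono K r (by omega) h
    by_cases h1 : A / (v+1) < bb K r m
    · rw [if_pos h1, if_pos (by omega), if_pos h1]; ring
    · rw [if_neg h1, if_neg h1]; ring
  simp only [e1]
  rw [← Finset.sum_mul]
  have h2 := low_sum A (bb K r m) hbpos hA
  have h2' : (2:ℝ) * A * (bb K r m : ℕ) = 2 * A * (K * r ^ (4*m)) := by unfold bb; push_cast; ring
  rw [h2'] at h2
  have hpos : 0 ≤ (1 / (Real.sqrt A * (Real.sqrt K * r ^ (2*m)))) * (1 / (Real.sqrt A * (Real.sqrt K * r ^ (2*m')))) := by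
    positivity
  refine (mul_le_mul_of_nonneg_right h2 hpos).trans ?_
  have e3 : (1 / (Real.sqrt A * (Real.sqrt K * r ^ (2*m)))) * (1 / (Real.sqrt A * (Real.sqrt K * r ^ (2*m'))))
      = 1 / (A * (K * (r ^ (2*m) * r ^ (2*m')))) := by
    have h5 := Real.mul_self_sqrt (by linarith : (0:ℝ) ≤ K)
    have h6 := Real.mul_self_sqrt (by linarith : (0:ℝ) ≤ A)
    rw [div_mul_div_comm, one_mul]
    congr 1
    calc Real.sqrt A * (Real.sqrt K * r ^ (2*m)) * (Real.sqrt A * (Real.sqrt K * r ^ (2*m')))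
        = (Real.sqrt A * Real.sqrt A) * ((Real.sqrt K * Real.sqrt K) * (r ^ (2*m) * r ^ (2*m'))) := by ring
      _ = _ := by rw [h5, h6]
  rw [e3]
  have e4 : (r:ℝ) ^ (4*m) = r ^ (2*m) * r ^ (2*m) := by rw [← pow_add]; congr 1; ring
  rw [e4]
  have e5 : 2 * (A:ℝ) * (K * (r ^ (2*m) * r ^ (2*m))) * (1 / (A * (K * (r ^ (2*m) * r ^ (2*m')))))
      = 2 * (r ^ (2*m) / r ^ (2*m')) := by field_simp
  rw [e5]
  exact mul_le_mul_of_nonneg_left (ratio_le r hrr m m' h) (by norm_num)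

lemma wm_var (A K r j : ℕ) (hK : 1 ≤ K) (hr : 2 ≤ r) (hA : 4 * (K * r ^ (4*j+2)) ≤ A) :
    (A:ℝ) * (K * r ^ (4*j+2)) / 4 ≤ ∑ v ∈ range A, wm A K r j v ^ 2 := by
  set k := K * r ^ (4*j+2) with hk
  have hkpos : 1 ≤ k := Nat.one_le_iff_ne_zero.2 (by rw [hk]; positivity)
  have hkr : (0:ℝ) < k := by exact_mod_cast hkpos
  have hbpos : 1 ≤ bb K r (j+1) := Nat.one_le_iff_ne_zero.2 (by unfold bb; positivity)
  have hbk : bb K r (j+1) = k * r ^ 2 := by unfold bb; rw [hk]; ring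
  have hkb : bb K r j ≤ k := by
    unfold bb; rw [hk]; exact Nat.mul_le_mul_left _ (Nat.pow_le_pow_right (by omega) (by omega))
  have hkb2 : k ≤ bb K r (j+1) := by rw [hbk]; exact Nat.le_mul_of_pos_right _ (by positivity)
  have h1 : ∀ v ∈ range A, (k:ℝ)^2 * ((if k ≤ A / (v+1) then (1:ℝ) else 0) - (if bb K r (j+1) ≤ A / (v+1) then (1:ℝ) else 0))
      ≤ wm A K r j v ^ 2 := by
    intro v _
    unfold wm
    by_cases h2 : k ≤ A / (v+1)
    · by_cases h3 : bb K r (j+1) ≤ A / (v+1)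
      · rw [if_pos h2, if_pos h3]
        simp only [sub_self, mul_zero]
        positivity
      · rw [if_pos h2, if_neg h3, if_pos ⟨hkb.trans h2, by omega⟩, min_eq_left h2]
        simp
    · rw [if_neg h2, if_neg (fun h3 => h2 (hkb2.trans h3))]
      simp only [sub_self, mul_zero]
      positivity
  have h2 := Finset.sum_le_sum h1
  rw [← Finset.mul_sum, Finset.sum_sub_distrib, high_count A k hkpos, high_count A _ hbpos] at h2
  refine le_trans ?_ h2
  have hAr : (4:ℝ) * k ≤ A := by exact_mod_cast hA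
  have h3 : (A:ℝ) / k - 1 ≤ ((A / k : ℕ) : ℝ) := by
    have h5 := Nat.lt_div_mul_add (a := A) (b := k) (by omega)
    have h6 : (A:ℝ) < ((A / k : ℕ):ℝ) * k + k := by exact_mod_cast h5
    rw [sub_le_iff_le_add, div_le_iff₀ hkr]
    linarith
  have h4 : ((A / bb K r (j+1) : ℕ) : ℝ) ≤ (A:ℝ) / k / 4 := by
    have := Nat.cast_div_le (α := ℝ) (m := A) (n := bb K r (j+1))
    refine this.trans ?_
    rw [hbk, div_div]
    apply div_le_div_of_nonneg_left (by positivity) (by positivity)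
    push_cast
    have hr2 : (4:ℝ) ≤ (r:ℝ)^2 := by
      have : (2:ℝ) ≤ r := by exact_mod_cast hr
      nlinarith
    exact mul_le_mul_of_nonneg_left hr2 hkr.le
  have h5 : (k:ℝ)^2 * ((A:ℝ) / k - 1 - (A:ℝ) / k / 4) ≤ (k:ℝ)^2 * (((A / k : ℕ) : ℝ) - ((A / bb K r (j+1) : ℕ) : ℝ)) := by
    apply mul_le_mul_of_nonneg_left _ (by positivity)
    linarith
  refine le_trans ?_ h5
  have e : (k:ℝ)^2 * ((A:ℝ) / k - 1 - (A:ℝ) / k / 4) = 3/4 * (A * k) - k^2 := by field_simp; ring
  rw [e]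
  have : (K:ℝ) * (r:ℝ) ^ (4*j+2) = k := by rw [hk]; push_cast; ring
  rw [this]
  nlinarith


/-- decomposition of the canonical functional at the times `k_j` -/
lemma ZI_decomp (A K r j : ℕ) (hK : 1 ≤ K) (hA : 1 ≤ A) (hr : 2 ≤ r) (ω : Fin A → Bool) :
    ZI A 1 ω (K * r ^ (4*j+2)) = Ws A (wm A K r j) ω
      + (Real.sqrt A * (Real.sqrt K * r ^ (2*j))) * (Ws A (wh A K r (j+1)) ω + Ws A (wl A K r j) ω) := by
  have hrr : (2:ℝ) ≤ r := by exact_mod_cast hr
  have hKr : (1:ℝ) ≤ K := by exact_mod_cast hK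
  have hAr : (1:ℝ) ≤ A := by exact_mod_cast hA
  have hsK : 0 < Real.sqrt K := Real.sqrt_pos.2 (by linarith)
  have hsA : 0 < Real.sqrt A := Real.sqrt_pos.2 (by linarith)
  have hrp : 0 < (r:ℝ) ^ (2*j) := by positivity
  rw [ZI_Ws_min, ← Ws_add, ← Ws_smul, ← Ws_add]
  refine Ws_congr A (fun v _ => ?_) ω
  set k := K * r ^ (4*j+2) with hk
  have hbk : bb K r (j+1) = k * r ^ 2 := by unfold bb; rw [hk]; ring
  have hkb : bb K r j ≤ k := by
    unfold bb; rw [hk]; exact Nat.mul_le_mul_left _ (Nat.pow_le_pow_right (by omega) (by omega))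
  have hkb2 : k ≤ bb K r (j+1) := by rw [hbk]; exact Nat.le_mul_of_pos_right _ (by positivity)
  unfold wm wh wl
  by_cases h1 : bb K r j ≤ A / (v+1)
  · by_cases h2 : bb K r (j+1) ≤ A / (v+1)
    · rw [if_neg (by omega), if_pos h2, if_neg (by omega), min_eq_left (hkb2.trans h2)]
      rw [hk]
      push_cast
      have h5 := Real.mul_self_sqrt (by linarith : (0:ℝ) ≤ K)
      have e : (K:ℝ) * (r:ℝ) ^ (4*j+2) = (Real.sqrt K * Real.sqrt K) * (r:ℝ) ^ (4*j+2) := by rw [h5]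
      rw [e]
      field_simp
      ring
    · rw [if_pos ⟨h1, by omega⟩, if_neg h2, if_neg (by omega)]
      ring
  · rw [if_neg (by omega), if_neg (by omega), if_pos (by omega), min_eq_right (by omega)]
    field_simp
    ring

/-- block event -/
def Bev (A K r j : ℕ) (b : ℕ → Bool) : Prop :=
  Wb A (wm A K r j) b ≤ - (Real.sqrt A * (Real.sqrt K * r ^ (2*j+1)) / 4)

lemma Bev_prob (A K r j : ℕ) (hK : 1 ≤ K) (hr : 2 ≤ r) (hA : 4 * (K * r ^ (4*j+2)) ≤ A) :
    3 / 32 ≤ Pr A (fun ω => Bev A K r j (ext ω)) := by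
  have hk1 : 1 ≤ K * r ^ (4*j+2) := Nat.one_le_iff_ne_zero.2 (by positivity)
  have hKr : (1:ℝ) ≤ K := by exact_mod_cast hK
  have hAr : (1:ℝ) ≤ A := by exact_mod_cast (by omega : 1 ≤ A)
  have hsK : 0 < Real.sqrt K := Real.sqrt_pos.2 (by linarith)
  have hsA : 0 < Real.sqrt A := Real.sqrt_pos.2 (by linarith)
  have hrr : (2:ℝ) ≤ r := by exact_mod_cast hr
  have h1 := paley_zygmund A (wm A K r j) (Real.sqrt A * (Real.sqrt K * r ^ (2*j+1)) / 2) (by positivity) (by
    refine le_trans (le_of_eq ?_) (wm_var A K r j hK hr hA)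
    have h5 := Real.mul_self_sqrt (by linarith : (0:ℝ) ≤ K)
    have h6 := Real.mul_self_sqrt (by linarith : (0:ℝ) ≤ A)
    calc (Real.sqrt A * (Real.sqrt K * r ^ (2*j+1)) / 2) ^ 2
        = (Real.sqrt A * Real.sqrt A) * ((Real.sqrt K * Real.sqrt K) * r ^ (4*j+2)) / 4 := by ring
      _ = _ := by rw [h5, h6])
  refine h1.trans (le_of_eq ?_)
  rw [← Pr_equiv A (flipAll A)]
  refine Pr_congr A fun ω => ?_
  unfold Bev
  rw [← Ws_eq_Wb, Ws_neg]
  constructor <;> intro h <;> linarith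

/-- few block events occur with exponentially small probability -/
lemma few_blocks (A K r J : ℕ) (hK : 1 ≤ K) (hr : 2 ≤ r) (hA : 4 * (K * r ^ (4*J)) ≤ A) (δ : ℝ) :
    Pr A (fun ω => ∑ j ∈ range J, ind (Bev A K r j (ext ω)) ≤ δ * J) ≤ Real.exp ((δ - 0.058) * J) := by
  have hrpos : 0 < r := by omega
  have hbpos : ∀ j, 1 ≤ bb K r j := fun j => Nat.one_le_iff_ne_zero.2 (by unfold bb; positivity)
  -- expectation of one factor
  have h1 : ∀ j ∈ range J, E A (fun ω => Real.exp (- ind (Bev A K r j (ext ω)))) ≤ Real.exp (-0.058) := by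
    intro j hj
    rw [Finset.mem_range] at hj
    have hA' : 4 * (K * r ^ (4*j+2)) ≤ A := by
      refine le_trans ?_ hA
      exact Nat.mul_le_mul_left _ (Nat.mul_le_mul_left _ (Nat.pow_le_pow_right hrpos (by omega)))
    have h2 := Bev_prob A K r j hK hr hA'
    have h3 : ∀ ω : Fin A → Bool, Real.exp (- ind (Bev A K r j (ext ω)))
        = 1 - (1 - Real.exp (-1)) * ind (Bev A K r j (ext ω)) := by
      intro ω
      by_cases h : Bev A K r j (ext ω)
      · rw [ind_of h]; ring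
      · rw [ind_not h]; simp
    simp only [h3]
    rw [E_sub, E_const, E_mul_left]
    have h4 : E A (fun ω => ind (Bev A K r j (ext ω))) = Pr A (fun ω => Bev A K r j (ext ω)) := rfl
    rw [h4]
    have h5 := Real.exp_neg_one_lt_d9
    have h6 := Real.add_one_le_exp (-0.058)
    have h7 : (1 - 0.37) * (3/32) ≤ (1 - Real.exp (-1)) * Pr A (fun ω => Bev A K r j (ext ω)) := by
      apply mul_le_mul _ h2 (by norm_num) (by linarith)
      linarith
    norm_num at h7 h6 ⊢
    linarith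
  have h2 := E_blocks A (fun j => A / bb K r (j+1)) (fun j => A / bb K r j)
    (fun j b => Real.exp (- ind (Bev A K r j b))) (fun j => Nat.div_le_self _ _) (fun j => le_rfl)
    (fun j => Nat.div_le_div_left (bb_mono K r hrpos (by omega)) (by have := hbpos j; omega))
    (fun j => by
      intro b b' h
      have h3 := Wb_depGe A (A / bb K r (j+1)) (wm A K r j) (fun v hv => by
        unfold wm
        rw [if_neg]
        rintro ⟨_, h5⟩
        have h6 : v + 1 ≤ A / bb K r (j+1) := hv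
        rw [Nat.le_div_iff_mul_le (by have := hbpos (j+1); omega)] at h6
        have h7 : bb K r (j+1) ≤ A / (v+1) := by
          rw [Nat.le_div_iff_mul_le (by omega), mul_comm]; exact h6
        omega) b b' h
      unfold Bev
      beta_reduce
      rw [h3])
    (fun j => by
      intro b b' h
      have h3 := Wb_depLt A (A / bb K r j) (wm A K r j) (fun v hv => by
        unfold wm
        rw [if_neg]
        rintro ⟨h5, _⟩
        rw [Nat.le_div_iff_mul_le (by omega)] at h5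
        have h7 : v + 1 ≤ A / bb K r j := by
          rw [Nat.le_div_iff_mul_le (by have := hbpos j; omega), mul_comm]; exact h5
        omega) b b' h
      unfold Bev
      beta_reduce
      rw [h3]) J
  have h3 : Pr A (fun ω => ∑ j ∈ range J, ind (Bev A K r j (ext ω)) ≤ δ * J)
      ≤ E A (fun ω => Real.exp (δ * J) * ∏ j ∈ range J, Real.exp (- ind (Bev A K r j (ext ω)))) := by
    unfold Pr
    refine E_mono A fun ω => ?_
    rw [← Real.exp_sum, ← Real.exp_add, Finset.sum_neg_distrib]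
    by_cases h : ∑ j ∈ range J, ind (Bev A K r j (ext ω)) ≤ δ * J
    · rw [ind_of h]
      exact Real.one_le_exp (by linarith)
    · rw [ind_not h]; exact (Real.exp_pos _).le
  refine h3.trans ?_
  rw [E_mul_left, h2]
  calc Real.exp (δ * J) * ∏ j ∈ range J, E A (fun ω => Real.exp (- ind (Bev A K r j (ext ω))))
      ≤ Real.exp (δ * J) * ∏ _j ∈ range J, Real.exp (-0.058) := by
        apply mul_le_mul_of_nonneg_left _ (Real.exp_pos _).le
        exact Finset.prod_le_prod (fun j _ => E_nonneg A fun ω => (Real.exp_pos _).le) h1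
    _ = Real.exp ((δ - 0.058) * J) := by
        rw [Finset.prod_const, Finset.card_range, ← Real.exp_nat_mul, ← Real.exp_add]
        congr 1; ring

lemma wh_tail (A K r J : ℕ) (hK : 1 ≤ K) (hr : 2 ≤ r) (hA : 1 ≤ A) :
    Pr A (fun ω => 6 * (J:ℝ) ≤ ∑ m ∈ range J, |Ws A (wh A K r (m+1)) ω|) ≤ Real.exp (- 3 * J) := by
  have h1 := abs_sum_tail A J (fun m => wh A K r ((m:ℕ)+1)) (3 * 1 * J) (6 * J)
    (quad_bound A J (fun m => wh A K r ((m:ℕ)+1)) 1 zero_le_one (by
      intro m m'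
      have hnn : 0 ≤ ∑ v ∈ range A, wh A K r ((m:ℕ)+1) v * wh A K r ((m':ℕ)+1) v := by
        refine Finset.sum_nonneg fun v _ => mul_nonneg ?_ ?_ <;>
        · unfold wh
          apply mul_nonneg (by split_ifs <;> norm_num) (by positivity)
      rw [abs_of_nonneg hnn, one_mul]
      rcases le_total (m:ℕ) (m':ℕ) with h | h
      · have := wh_inner A K r hA hK hr ((m:ℕ)+1) ((m':ℕ)+1) (by omega)
        have e : ((m:ℕ) - (m':ℕ)) + ((m':ℕ) - (m:ℕ)) = ((m':ℕ)+1) - ((m:ℕ)+1) := by omega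
        rw [e]; exact this
      · have := wh_inner A K r hA hK hr ((m':ℕ)+1) ((m:ℕ)+1) (by omega)
        have e : ((m:ℕ) - (m':ℕ)) + ((m':ℕ) - (m:ℕ)) = ((m:ℕ)+1) - ((m':ℕ)+1) := by omega
        rw [e]
        refine le_trans (le_of_eq ?_) this
        exact Finset.sum_congr rfl fun v _ => mul_comm _ _))
  have h2 : Pr A (fun ω => 6 * (J:ℝ) ≤ ∑ m ∈ range J, |Ws A (wh A K r (m+1)) ω|)
      = Pr A (fun ω => 6 * (J:ℝ) ≤ ∑ m : Fin J, |Ws A (wh A K r ((m:ℕ)+1)) ω|) := by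
    refine Pr_congr A fun ω => ?_
    rw [Fin.sum_univ_eq_sum_range (fun m => |Ws A (wh A K r (m+1)) ω|) J]
  rw [h2]
  refine h1.trans ?_
  have h3 : (2:ℝ) ^ J ≤ Real.exp J := by
    have : (2:ℝ) ≤ Real.exp 1 := by have := Real.exp_one_gt_d9; linarith
    calc (2:ℝ)^J ≤ (Real.exp 1)^J := pow_le_pow_left₀ (by norm_num) this J
      _ = Real.exp J := by rw [← Real.exp_nat_mul, mul_one]
  rw [div_le_iff₀ (Real.exp_pos _), ← Real.exp_add]
  calc (2:ℝ)^J * Real.exp (3 * 1 * J / 2) ≤ Real.exp J * Real.exp (3 * 1 * J / 2) :=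
        mul_le_mul_of_nonneg_right h3 (Real.exp_pos _).le
    _ = Real.exp (J + 3 * 1 * J / 2) := (Real.exp_add _ _).symm
    _ ≤ Real.exp (-3 * J + 6 * J) := by
        apply Real.exp_le_exp.2
        have : (0:ℝ) ≤ J := Nat.cast_nonneg J
        linarith

lemma wl_tail (A K r J : ℕ) (hK : 1 ≤ K) (hr : 2 ≤ r) (hA : bb K r J ≤ A) :
    Pr A (fun ω => 6 * (J:ℝ) ≤ ∑ m ∈ range J, |Ws A (wl A K r m) ω|) ≤ Real.exp (- 2 * J) := by
  have h1 := abs_sum_tail A J (fun m => wl A K r (m:ℕ)) (3 * 2 * J) (6 * J)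
    (quad_bound A J (fun m => wl A K r (m:ℕ)) 2 (by norm_num) (by
      intro m m'
      have hnn : 0 ≤ ∑ v ∈ range A, wl A K r (m:ℕ) v * wl A K r (m':ℕ) v := by
        refine Finset.sum_nonneg fun v _ => mul_nonneg ?_ ?_ <;>
        · unfold wl
          apply mul_nonneg (by split_ifs <;> positivity) (by positivity)
      rw [abs_of_nonneg hnn]
      rcases le_total (m:ℕ) (m':ℕ) with h | h
      · have := wl_inner A K r hK hr (m:ℕ) (m':ℕ) h ((bb_mono K r (by omega) (by omega)).trans hA)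
        have e : ((m:ℕ) - (m':ℕ)) + ((m':ℕ) - (m:ℕ)) = ((m':ℕ)) - ((m:ℕ)) := by omega
        rw [e]; exact this
      · have := wl_inner A K r hK hr (m':ℕ) (m:ℕ) h ((bb_mono K r (by omega) (by omega)).trans hA)
        have e : ((m:ℕ) - (m':ℕ)) + ((m':ℕ) - (m:ℕ)) = ((m:ℕ)) - ((m':ℕ)) := by omega
        rw [e]
        refine le_trans (le_of_eq ?_) this
        exact Finset.sum_congr rfl fun v _ => mul_comm _ _))
  have h2 : Pr A (fun ω => 6 * (J:ℝ) ≤ ∑ m ∈ range J, |Ws A (wl A K r m) ω|)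
      = Pr A (fun ω => 6 * (J:ℝ) ≤ ∑ m : Fin J, |Ws A (wl A K r (m:ℕ)) ω|) := by
    refine Pr_congr A fun ω => ?_
    rw [Fin.sum_univ_eq_sum_range (fun m => |Ws A (wl A K r m) ω|) J]
  rw [h2]
  refine h1.trans ?_
  have h3 : (2:ℝ) ^ J ≤ Real.exp J := by
    have : (2:ℝ) ≤ Real.exp 1 := by have := Real.exp_one_gt_d9; linarith
    calc (2:ℝ)^J ≤ (Real.exp 1)^J := pow_le_pow_left₀ (by norm_num) this J
      _ = Real.exp J := by rw [← Real.exp_nat_mul, mul_one]
  rw [div_le_iff₀ (Real.exp_pos _), ← Real.exp_add]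
  calc (2:ℝ)^J * Real.exp (3 * 2 * J / 2) ≤ Real.exp J * Real.exp (3 * 2 * J / 2) :=
        mul_le_mul_of_nonneg_right h3 (Real.exp_pos _).le
    _ = Real.exp (J + 3 * 2 * J / 2) := (Real.exp_add _ _).symm
    _ ≤ Real.exp (-2 * J + 6 * J) := by
        apply Real.exp_le_exp.2
        have : (0:ℝ) ≤ J := Nat.cast_nonneg J
        linarith

/-- **Exponential upper bound for persistence.** -/
theorem G_exp_upper (A K r J : ℕ) (hK : 1 ≤ K) (hr : 10000 ≤ r) (hA : 4 * (K * r ^ (4*J)) ≤ A) :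
    G A K (K * r ^ (4*J)) 0 ≤ 3 * Real.exp (- (J / 20)) := by
  have hrpos : 0 < r := by omega
  have hrr : (10000:ℝ) ≤ r := by exact_mod_cast hr
  have hA1 : 1 ≤ A := by
    have : 1 ≤ K * r ^ (4*J) := Nat.one_le_iff_ne_zero.2 (by positivity)
    omega
  have hKr : (1:ℝ) ≤ K := by exact_mod_cast hK
  have hAr : (1:ℝ) ≤ A := by exact_mod_cast hA1
  have hsK : 0 < Real.sqrt K := Real.sqrt_pos.2 (by linarith)
  have hsA : 0 < Real.sqrt A := Real.sqrt_pos.2 (by linarith)
  have hJ0 : (0:ℝ) ≤ J := Nat.cast_nonneg J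
  have h1 := few_blocks A K r J hK (by omega) hA 0.0048
  have h2 := wh_tail A K r J hK (by omega) hA1
  have h3 := wl_tail A K r J hK (by omega) (by unfold bb; omega)
  have h4 : G A K (K * r ^ (4*J)) 0 ≤ Pr A (fun ω => ∑ j ∈ range J, ind (Bev A K r j (ext ω)) ≤ 0.0048 * J)
      + Pr A (fun ω => 6 * (J:ℝ) ≤ ∑ m ∈ range J, |Ws A (wh A K r (m+1)) ω| ∨
          6 * (J:ℝ) ≤ ∑ m ∈ range J, |Ws A (wl A K r m) ω|) := by
    refine Pr_le_add A fun ω h => ?_
    by_cases hh : 6 * (J:ℝ) ≤ ∑ m ∈ range J, |Ws A (wh A K r (m+1)) ω|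
    · exact Or.inr (Or.inl hh)
    by_cases hl : 6 * (J:ℝ) ≤ ∑ m ∈ range J, |Ws A (wl A K r m) ω|
    · exact Or.inr (Or.inr hl)
    left
    push Not at hh hl
    have key : ∀ j ∈ range J, ind (Bev A K r j (ext ω))
        ≤ 0.0004 * (|Ws A (wh A K r (j+1)) ω| + |Ws A (wl A K r j) ω|) := by
      intro j hj
      rw [Finset.mem_range] at hj
      by_cases hB : Bev A K r j (ext ω)
      · rw [ind_of hB]
        have h5 := h (K * r ^ (4*j+2)) (by
          rw [Finset.mem_Icc]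
          exact ⟨Nat.le_mul_of_pos_right _ (by positivity),
            Nat.mul_le_mul_left _ (Nat.pow_le_pow_right hrpos (by omega))⟩)
        rw [zero_mul, ZI_decomp A K r j hK hA1 (by omega) ω] at h5
        unfold Bev at hB
        rw [← Ws_eq_Wb] at hB
        set H := Ws A (wh A K r (j+1)) ω
        set L := Ws A (wl A K r j) ω
        set s := Real.sqrt A * (Real.sqrt K * r ^ (2*j)) with hs
        have hspos : 0 < s := by positivity
        have e : Real.sqrt A * (Real.sqrt K * r ^ (2*j+1)) / 4 = s * (r / 4) := by rw [hs]; ring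
        rw [e] at hB
        have h6 : s * (r / 4) ≤ s * (H + L) := by linarith
        have h7 := le_of_mul_le_mul_left h6 hspos
        have h8 := le_abs_self H
        have h9 := le_abs_self L
        norm_num
        linarith
      · rw [ind_not hB]
        have h8 := abs_nonneg (Ws A (wh A K r (j+1)) ω)
        have h9 := abs_nonneg (Ws A (wl A K r j) ω)
        norm_num
        linarith
    have h5 := Finset.sum_le_sum key
    rw [← Finset.mul_sum, Finset.sum_add_distrib] at h5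
    refine h5.trans ?_
    norm_num
    linarith
  have h5 := Pr_or_le A (fun ω => 6 * (J:ℝ) ≤ ∑ m ∈ range J, |Ws A (wh A K r (m+1)) ω|)
    (fun ω => 6 * (J:ℝ) ≤ ∑ m ∈ range J, |Ws A (wl A K r m) ω|)
  have h6 : Real.exp ((0.0048 - 0.058) * J) ≤ Real.exp (-(J/20)) := by
    apply Real.exp_le_exp.2
    norm_num
    linarith
  have h7 : Real.exp (-3 * J) ≤ Real.exp (-(J/20)) := Real.exp_le_exp.2 (by linarith)
  have h8 : Real.exp (-2 * J) ≤ Real.exp (-(J/20)) := Real.exp_le_exp.2 (by linarith)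
  linarith

end Pool.GP
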