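import Pool.Agent.Lib.GPX.Sinai
import Pool.Agent.Lib.GP.Tilt

set_option autoImplicit false

/-!
Tilting the integrated simple walk: from `areas ≥ 0` to `areas ≥ δ k^{3/2} / 8`.
-/

namespace Pool.GP

open Finset

lemma sum_Y_eq_Ai {n : ℕ} (ω : Fin n → Bool) (k : ℕ) (hk : k ≤ n) :
    ∑ i ∈ Icc 1 k, Y ω i = (Ai (ext ω) k : ℝ) := by
  induction k with
  | zero => simp [Ai_zero]
  | succ k ih =>
    rw [Finset.sum_Icc_succ_top (by omega), ih (by omega), Ai_succ, Y_eq_Yi ω hk]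
    push_cast; ring

lemma sqrt_le_sum_inv_sqrt' (u : ℕ) : Real.sqrt u ≤ ∑ v ∈ range u, 1 / Real.sqrt ((v:ℝ)+1) := by
  induction u with
  | zero => simp
  | succ u ih =>
    rw [Finset.sum_range_succ]
    have h1 : 0 < Real.sqrt ((u:ℝ)+1) := Real.sqrt_pos.2 (by positivity)
    have h2 : 0 ≤ Real.sqrt (u:ℝ) := Real.sqrt_nonneg _
    have h3 : Real.sqrt ((u:ℝ)+1) ^ 2 = u + 1 := Real.sq_sqrt (by positivity)
    have h4 : Real.sqrt (u:ℝ) ^ 2 = u := Real.sq_sqrt (by positivity)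
    have h5 : Real.sqrt u ≤ Real.sqrt ((u:ℝ)+1) := Real.sqrt_le_sqrt (by linarith)
    have h6 : Real.sqrt ((u:ℝ)+1) - Real.sqrt u ≤ 1 / Real.sqrt ((u:ℝ)+1) := by
      rw [le_div_iff₀ h1]
      nlinarith
    push_cast
    linarith

lemma sum_range_inv_le_log (K : ℕ) : ∑ v ∈ range K, 1 / ((v:ℝ)+1) ≤ 1 + Real.log K := by
  have h := harmonic_le_one_add_log K
  unfold harmonic at h
  push_cast at h
  simpa [one_div] using h

lemma quarter_sum (k u0 : ℕ) (h : 4 * u0 ≤ k) (hk : 1 ≤ k) :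
    3 / 8 * ((k:ℝ) * Real.sqrt k) ≤ ∑ i ∈ Icc 1 k, (if u0 ≤ i then Real.sqrt i else 0) := by
  have hkpos : (0:ℝ) < k := by exact_mod_cast hk
  have h1 : ∑ i ∈ (Icc 1 k).filter (fun i => k ≤ 4 * i), Real.sqrt k / 2
      ≤ ∑ i ∈ Icc 1 k, (if u0 ≤ i then Real.sqrt i else 0) := by
    rw [Finset.sum_filter]
    refine Finset.sum_le_sum fun i hi => ?_
    split_ifs with h1 h2
    · have : Real.sqrt k / 2 = Real.sqrt ((k:ℝ) / 4) := by
        rw [Real.sqrt_div hkpos.le]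
        have : Real.sqrt (4:ℝ) = 2 := by
          rw [show (4:ℝ) = 2 ^ 2 by norm_num, Real.sqrt_sq (by norm_num)]
        rw [this]
      rw [this]
      apply Real.sqrt_le_sqrt
      have : (k:ℝ) ≤ 4 * i := by exact_mod_cast h1
      linarith
    · omega
    · positivity
    · exact le_rfl
  refine le_trans ?_ h1
  rw [Finset.sum_const, nsmul_eq_mul]
  have h2 : 3 * k ≤ 4 * ((Icc 1 k).filter (fun i => k ≤ 4 * i)).card := by
    have h3 : Icc (k/4 + 1) k ⊆ (Icc 1 k).filter (fun i => k ≤ 4 * i) := by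
      intro i hi
      rw [Finset.mem_Icc] at hi
      rw [Finset.mem_filter, Finset.mem_Icc]
      omega
    have h4 := Finset.card_le_card h3
    rw [Nat.card_Icc] at h4
    omega
  have h3 : 3 / 4 * (k:ℝ) ≤ (((Icc 1 k).filter (fun i => k ≤ 4 * i)).card : ℝ) := by
    have : (3:ℝ) * k ≤ 4 * (((Icc 1 k).filter (fun i => k ≤ 4 * i)).card : ℝ) := by exact_mod_cast h2
    linarith
  have h4 : 0 ≤ Real.sqrt k / 2 := by positivity
  calc 3 / 8 * ((k:ℝ) * Real.sqrt k) = (3 / 4 * (k:ℝ)) * (Real.sqrt k / 2) := by ring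
    _ ≤ _ := mul_le_mul_of_nonneg_right h3 h4

/-- the tilt for areas -/
lemma tilt_area (K u0 : ℕ) (δ : ℝ) (hδ0 : 0 < δ) (hδ1 : δ ≤ 1) (hu0 : 1 ≤ u0)
    (M : ℝ) (hM : 0 < M) (p : ℕ) :
    Pr K (fun ω => Pa K (ext ω)) ≤ M * Pr K (fun ω => ∀ k ∈ Icc (4*u0) K,
        δ / 8 * ((k:ℝ) * Real.sqrt k) ≤ ∑ i ∈ Icc 1 k, Y ω i)
      + K * Real.exp (-(δ * Real.sqrt u0 / 16))
      + Real.exp (((p:ℝ) + 1) ^ 2 * (δ ^ 2 * (1 + Real.log K)) / 2) / M ^ p := by
  set b : ℕ → ℝ := fun v => δ / Real.sqrt ((v:ℝ)+1) with hb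
  have hsq1 : ∀ v : ℕ, 1 ≤ Real.sqrt ((v:ℝ)+1) := by
    intro v; rw [Real.one_le_sqrt]; have : (0:ℝ) ≤ v := by positivity
    linarith
  have hb0 : ∀ v, 0 ≤ b v := fun v => by simp only [hb]; positivity
  have hb1 : ∀ v, b v ≤ 1 := fun v => by
    simp only [hb]
    rw [div_le_one (by have := hsq1 v; linarith)]
    have := hsq1 v; linarith
  have hsumb : ∀ u : ℕ, δ * Real.sqrt u ≤ ∑ v ∈ range u, b v := by
    intro u
    simp only [hb]
    have := mul_le_mul_of_nonneg_left (sqrt_le_sum_inv_sqrt' u) hδ0.le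
    refine this.trans (le_of_eq ?_)
    rw [Finset.mul_sum]
    exact Finset.sum_congr rfl fun v _ => by ring
  have hsumb2 : ∑ v ∈ range K, b v ^ 2 ≤ δ ^ 2 * (1 + Real.log K) := by
    have h1 : ∑ v ∈ range K, b v ^ 2 = δ ^ 2 * ∑ v ∈ range K, 1 / ((v:ℝ)+1) := by
      rw [Finset.mul_sum]
      refine Finset.sum_congr rfl fun v _ => ?_
      simp only [hb]
      rw [div_pow, Real.sq_sqrt (by positivity)]; ring
    rw [h1]
    exact mul_le_mul_of_nonneg_left (sum_range_inv_le_log K) (by positivity)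
  set bad : (Fin K → Bool) → (Fin K → Bool) → Prop := fun ω F =>
    ∃ u ∈ Icc u0 K, zc u ω F < δ * Real.sqrt u / 2 / 2 with hbad
  have hJbad : J K b (fun ω F => ind (bad ω F)) ≤ K * Real.exp (-(δ * Real.sqrt u0 / 16)) := by
    have h1 : ∀ ω F : Fin K → Bool, ind (bad ω F)
        ≤ ∑ u ∈ Icc u0 K, ind (zc u ω F < δ * Real.sqrt u / 2 / 2) := by
      intro ω F
      by_cases h : bad ω F
      · rw [ind_of h]
        obtain ⟨u, hu, h2⟩ := h
        calc (1:ℝ) = ind (zc u ω F < δ * Real.sqrt u / 2 / 2) := (ind_of h2).symm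
          _ ≤ _ := Finset.single_le_sum (f := fun u : ℕ => ind (zc u ω F < δ * Real.sqrt u / 2 / 2))
              (fun j _ => ind_nonneg _) hu
      · rw [ind_not h]
        exact Finset.sum_nonneg fun j _ => ind_nonneg _
    refine (J_mono hb0 hb1 h1).trans ?_
    have h2 : ∀ s : Finset ℕ, J K b (fun ω F => ∑ u ∈ s, ind (zc u ω F < δ * Real.sqrt u / 2 / 2))
        = ∑ u ∈ s, J K b (fun ω F => ind (zc u ω F < δ * Real.sqrt u / 2 / 2)) := by
      intro s
      induction s using Finset.induction_on with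
      | empty =>
        simp only [Finset.sum_empty]
        unfold J; simp [E_const]
      | insert a s ha ih =>
        simp only [Finset.sum_insert ha]
        rw [J_add, ih]
    rw [h2]
    have h3 : ∀ u ∈ Icc u0 K, J K b (fun ω F => ind (zc u ω F < δ * Real.sqrt u / 2 / 2))
        ≤ Real.exp (-(δ * Real.sqrt u0 / 16)) := by
      intro u hu
      rw [Finset.mem_Icc] at hu
      refine (J_flips K b hb0 hb1 u hu.2 (δ * Real.sqrt u / 2) (by positivity) ?_).trans ?_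
      · have := hsumb u; linarith
      · apply Real.exp_le_exp.2
        have h4 : Real.sqrt u0 ≤ Real.sqrt u := Real.sqrt_le_sqrt (by exact_mod_cast hu.1)
        have h5 : δ * Real.sqrt u0 ≤ δ * Real.sqrt u := mul_le_mul_of_nonneg_left h4 hδ0.le
        linarith
    refine (Finset.sum_le_sum h3).trans ?_
    rw [Finset.sum_const, nsmul_eq_mul, Nat.card_Icc]
    apply mul_le_mul_of_nonneg_right _ (Real.exp_pos _).le
    exact_mod_cast (by omega : K + 1 - u0 ≤ K)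
  have key := tilt_abstract K b hb0 hb1 (fun ω => Pa K (ext ω)) (fun ω => ∀ k ∈ Icc (4*u0) K,
        δ / 8 * ((k:ℝ) * Real.sqrt k) ≤ ∑ i ∈ Icc 1 k, Y ω i) bad ?_ _ M hM p hJbad
  · refine key.trans ?_
    have h1 : Real.exp (((p:ℝ) + 1) ^ 2 * (∑ v ∈ range K, b v ^ 2) / 2) / M ^ p
        ≤ Real.exp (((p:ℝ) + 1) ^ 2 * (δ ^ 2 * (1 + Real.log K)) / 2) / M ^ p := by
      gcongr
    linarith
  · intro ω F hA hnb k hk
    rw [Finset.mem_Icc] at hk
    have h1 : ∀ i, Y (orv ω F) i = Y ω i + 2 * zc i ω F := fun i => Y_orv i ω F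
    simp only [h1]
    rw [Finset.sum_add_distrib, sum_Y_eq_Ai ω k hk.2]
    have h2 : (0:ℝ) ≤ (Ai (ext ω) k : ℝ) := by exact_mod_cast hA k hk.2
    have h3 : ∀ i ∈ Icc 1 k, δ / 2 * (if u0 ≤ i then Real.sqrt i else 0) ≤ 2 * zc i ω F := by
      intro i hi
      rw [Finset.mem_Icc] at hi
      split_ifs with h4
      · have h5 : ¬ zc i ω F < δ * Real.sqrt i / 2 / 2 := fun hc =>
          hnb ⟨i, Finset.mem_Icc.2 ⟨h4, by omega⟩, hc⟩
        push Not at h5
        linarith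
      · rw [mul_zero]
        have : 0 ≤ zc i ω F := by
          unfold zc
          exact Finset.sum_nonneg fun v _ => by split_ifs <;> norm_num
        linarith
    have h4 := Finset.sum_le_sum h3
    rw [← Finset.mul_sum] at h4
    have h5 := quarter_sum k u0 hk.1 (by omega)
    have h6 : δ / 2 * (3 / 8 * ((k:ℝ) * Real.sqrt k))
        ≤ δ / 2 * ∑ i ∈ Icc 1 k, (if u0 ≤ i then Real.sqrt i else 0) :=
      mul_le_mul_of_nonneg_left h5 (by positivity)
    have h7 : 0 ≤ δ * ((k:ℝ) * Real.sqrt k) := by positivity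
    linarith

end Pool.GP
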