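import Pool.Agent.Lib.GP.Window

set_option autoImplicit false

/-!
Sinai's lower bound for the integrated simple random walk:
`P(all areas up to time n are nonnegative) ≥ c n^(-1/4)`.
Proof: split a bridge at the last minimum of its area, reverse the first part.
-/

namespace Pool.GP

open Finset

/-- integer area -/
def Ai (b : ℕ → Bool) (u : ℕ) : ℤ := ∑ t ∈ range (u+1), Yi b t

lemma Yi_zero (b : ℕ → Bool) : Yi b 0 = 0 := by simp [Yi]

lemma Yi_succ (b : ℕ → Bool) (t : ℕ) : Yi b (t+1) = Yi b t + si (b t) := by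
  simp [Yi, Finset.sum_range_succ]

lemma Ai_zero (b : ℕ → Bool) : Ai b 0 = 0 := by simp [Ai, Yi_zero]

lemma Ai_succ (b : ℕ → Bool) (u : ℕ) : Ai b (u+1) = Ai b u + Yi b (u+1) := by
  simp [Ai, Finset.sum_range_succ _ (u+1)]

lemma Yi_congr {b b' : ℕ → Bool} {t : ℕ} (h : ∀ v < t, b v = b' v) : Yi b t = Yi b' t := by
  unfold Yi
  exact Finset.sum_congr rfl fun v hv => by rw [h v (Finset.mem_range.1 hv)]

lemma Ai_congr {b b' : ℕ → Bool} {u : ℕ} (h : ∀ v < u, b v = b' v) : Ai b u = Ai b' u := by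
  unfold Ai
  refine Finset.sum_congr rfl fun t ht => Yi_congr fun v hv => h v ?_
  rw [Finset.mem_range] at ht; omega

/-- a bridge attains the minimum of its area at a zero -/
lemma exists_argmin_zero (b : ℕ → Bool) (N : ℕ) (hN : Yi b N = 0) :
    ∃ z ≤ N, Yi b z = 0 ∧ ∀ u ≤ N, Ai b z ≤ Ai b u := by
  classical
  -- the set of argmins
  obtain ⟨z0, hz0, hmin0⟩ := Finset.exists_min_image (range (N+1)) (fun u => Ai b u)
    ⟨0, by simp⟩
  set S := (range (N+1)).filter (fun z => ∀ u ≤ N, Ai b z ≤ Ai b u) with hS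
  have hSne : S.Nonempty := by
    refine ⟨z0, Finset.mem_filter.2 ⟨hz0, fun u hu => hmin0 u (Finset.mem_range.2 (by omega))⟩⟩
  set z := S.max' hSne with hz
  have hzS : z ∈ S := S.max'_mem hSne
  have hzS' := Finset.mem_filter.1 hzS
  have hzN : z ≤ N := by have := Finset.mem_range.1 hzS'.1; omega
  have hmin := hzS'.2
  refine ⟨z, hzN, ?_, hmin⟩
  rcases Nat.eq_or_lt_of_le hzN with h | h
  · rw [h]; exact hN
  -- next value is strictly larger
  have h1 : Ai b z < Ai b (z+1) := by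
    refine lt_of_le_of_ne (hmin (z+1) (by omega)) ?_
    intro he
    have h2 : z + 1 ∈ S := by
      refine Finset.mem_filter.2 ⟨Finset.mem_range.2 (by omega), fun u hu => ?_⟩
      rw [← he]; exact hmin u hu
    have h3 := S.le_max' _ h2
    rw [← hz] at h3
    omega
  rw [Ai_succ] at h1
  have h2 : 0 < Yi b (z+1) := by omega
  rw [Yi_succ] at h2
  have h3 : Yi b z ≤ 0 := by
    rcases Nat.eq_zero_or_pos z with h0 | h0
    · rw [h0, Yi_zero]
    · obtain ⟨y, hy⟩ : ∃ y, z = y + 1 := ⟨z - 1, by omega⟩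
      have h4 := hmin y (by omega)
      rw [hy] at h4 ⊢
      rw [Ai_succ] at h4
      omega
  have h4 : si (b z) ≤ 1 := by cases b z <;> simp
  omega

/-- bridge of length `z` with nonnegative areas -/
def Qb (z : ℕ) (b : ℕ → Bool) : Prop := Yi b z = 0 ∧ ∀ u ≤ z, 0 ≤ Ai b u

lemma Qb_congr {z : ℕ} {b b' : ℕ → Bool} (h : ∀ v < z, b v = b' v) : Qb z b ↔ Qb z b' := by
  unfold Qb
  rw [Yi_congr h]
  constructor
  · rintro ⟨h1, h2⟩
    exact ⟨h1, fun u hu => by rw [← Ai_congr (fun v hv => h v (by omega))]; exact h2 u hu⟩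
  · rintro ⟨h1, h2⟩
    exact ⟨h1, fun u hu => by rw [Ai_congr (fun v hv => h v (by omega))]; exact h2 u hu⟩

/-- shift -/
def shb (z : ℕ) (b : ℕ → Bool) : ℕ → Bool := fun j => b (z + j)

lemma Yi_shb (z : ℕ) (b : ℕ → Bool) (t : ℕ) : Yi (shb z b) t = Yi b (z+t) - Yi b z := by
  induction t with
  | zero => simp [Yi_zero]
  | succ t ih => rw [Yi_succ, ih, ← add_assoc, Yi_succ]; simp only [shb]; ring

lemma Ai_shb (z : ℕ) (b : ℕ → Bool) (hz : Yi b z = 0) (u : ℕ) :
    Ai (shb z b) u = Ai b (z+u) - Ai b z := by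
  induction u with
  | zero => simp [Ai_zero]
  | succ u ih => rw [Ai_succ, ih, ← add_assoc, Ai_succ, Yi_shb, hz]; simp only [← add_assoc]; ring

/-- reversal of the first `z` steps -/
def rvb (z : ℕ) (b : ℕ → Bool) : ℕ → Bool := fun j => b (z - 1 - j)

lemma Yi_rvb (z : ℕ) (b : ℕ → Bool) (t : ℕ) (ht : t ≤ z) : Yi (rvb z b) t = Yi b z - Yi b (z-t) := by
  induction t with
  | zero => simp [Yi_zero]
  | succ t ih =>
    rw [Yi_succ, ih (by omega)]
    have h1 : z - t = (z - (t+1)) + 1 := by omega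
    have h2 : Yi b (z - t) = Yi b (z - (t+1)) + si (b (z - (t+1))) := by
      rw [h1, Yi_succ]
    rw [h2]
    simp only [rvb]
    have h3 : z - 1 - t = z - (t+1) := by omega
    rw [h3]; ring

lemma Ai_rvb (z : ℕ) (b : ℕ → Bool) (hz : Yi b z = 0) (u : ℕ) (hu : u + 1 ≤ z) :
    Ai (rvb z b) u = Ai b (z - (u+1)) - Ai b z := by
  induction u with
  | zero =>
    rw [Ai_zero]
    obtain ⟨y, rfl⟩ : ∃ y, z = y + 1 := ⟨z - 1, by omega⟩
    rw [Ai_succ, hz]; simp
  | succ u ih =>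
    rw [Ai_succ, ih (by omega), Yi_rvb z b (u+1) (by omega), hz]
    obtain ⟨y, hy⟩ : ∃ y, z - (u+1) = y + 1 := ⟨z - (u+1) - 1, by omega⟩
    have h1 : z - (u+1+1) = y := by omega
    rw [hy, h1, Ai_succ]
    ring

lemma Qb_rvb (z : ℕ) (b : ℕ → Bool) (hz : Yi b z = 0) (h : ∀ u ≤ z, Ai b z ≤ Ai b u) :
    Qb z (rvb z b) := by
  refine ⟨?_, ?_⟩
  · rw [Yi_rvb z b z le_rfl]; simp [hz, Yi_zero]
  · intro u hu
    rcases Nat.eq_or_lt_of_le hu with h1 | h1
    · rcases Nat.eq_zero_or_pos z with h0 | h0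
      · rw [h1, h0, Ai_zero]
      · obtain ⟨y, hy⟩ : ∃ y, u = y + 1 := ⟨u - 1, by omega⟩
        rw [hy, Ai_succ, Ai_rvb z b hz y (by omega), ← hy, h1, Yi_rvb z b z le_rfl]
        have h2 : z - z = 0 := by omega
        have := h 0 (by omega)
        rw [h2, Ai_zero] at *
        rw [hz, Yi_zero]; omega
    · rw [Ai_rvb z b hz u (by omega)]
      have := h (z - (u+1)) (by omega)
      omega

lemma Qb_shb (z N : ℕ) (b : ℕ → Bool) (hzN : z ≤ N) (hz : Yi b z = 0) (hN : Yi b N = 0)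
    (h : ∀ u ≤ N, Ai b z ≤ Ai b u) : Qb (N - z) (shb z b) := by
  refine ⟨?_, ?_⟩
  · rw [Yi_shb, hz]
    have : z + (N - z) = N := by omega
    rw [this, hN]; simp
  · intro u hu
    rw [Ai_shb z b hz u]
    have := h (z+u) (by omega)
    omega

/-- probability of a nonnegative-area bridge -/
noncomputable def bz (z : ℕ) : ℝ := Pr z (fun ω => Qb z (ext ω))

lemma bz_nonneg (z : ℕ) : 0 ≤ bz z := Pr_nonneg _ _

/-- reversal as a bijection -/
def revE (z : ℕ) : (Fin z → Bool) ≃ (Fin z → Bool) where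
  toFun ω := fun j => ω (Fin.rev j)
  invFun ω := fun j => ω (Fin.rev j)
  left_inv ω := by ext j; simp
  right_inv ω := by ext j; simp

lemma Pr_append (m n : ℕ) (A : (Fin m → Bool) → Prop) (B : (Fin n → Bool) → Prop) :
    Pr (m+n) (fun ω => A (fun i => ω (Fin.castAdd n i)) ∧ B (fun i => ω (Fin.natAdd m i)))
      = Pr m A * Pr n B := by
  unfold Pr
  rw [E_append]
  simp only [Fin.append_left, Fin.append_right, ind_and]
  simp only [E_mul_left]
  rw [E_mul_right]

lemma ext_castAdd {m n : ℕ} (ω : Fin (m+n) → Bool) {v : ℕ} (hv : v < m) :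
    ext (fun i : Fin m => ω (Fin.castAdd n i)) v = ext ω v := by
  rw [ext_lt _ hv, ext_lt _ (by omega : v < m + n)]
  rfl

lemma ext_natAdd {m n : ℕ} (ω : Fin (m+n) → Bool) {v : ℕ} (hv : v < n) :
    ext (fun i : Fin n => ω (Fin.natAdd m i)) v = ext ω (m+v) := by
  rw [ext_lt _ hv, ext_lt _ (by omega : m + v < m + n)]
  rfl

lemma split_one (z r : ℕ) :
    Pr (z+r) (fun ω => Yi (ext ω) z = 0 ∧ Yi (ext ω) (z+r) = 0 ∧
      ∀ u ≤ z + r, Ai (ext ω) z ≤ Ai (ext ω) u) ≤ bz z * bz r := by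
  have h1 : Pr (z+r) (fun ω => Yi (ext ω) z = 0 ∧ Yi (ext ω) (z+r) = 0 ∧
      ∀ u ≤ z + r, Ai (ext ω) z ≤ Ai (ext ω) u)
      ≤ Pr (z+r) (fun ω => (fun a => Qb z (rvb z (ext a))) (fun i => ω (Fin.castAdd r i))
        ∧ (fun a => Qb r (ext a)) (fun i => ω (Fin.natAdd z i))) := by
    refine Pr_mono _ fun ω h => ?_
    obtain ⟨h1, h2, h3⟩ := h
    constructor
    · have h4 := Qb_rvb z (ext ω) h1 (fun u hu => h3 u (by omega))
      refine (Qb_congr fun v hv => ?_).1 h4
      simp only [rvb]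
      exact (ext_castAdd ω (by omega)).symm
    · have h4 := Qb_shb z (z+r) (ext ω) (by omega) h1 h2 h3
      have h5 : z + r - z = r := by omega
      rw [h5] at h4
      refine (Qb_congr fun v hv => ?_).1 h4
      simp only [shb]
      exact (ext_natAdd ω hv).symm
  refine h1.trans ?_
  rw [Pr_append z r (fun a => Qb z (rvb z (ext a))) (fun a => Qb r (ext a))]
  refine mul_le_mul_of_nonneg_right (le_of_eq ?_) (bz_nonneg r)
  unfold bz
  rw [← Pr_equiv z (revE z) (fun ω => Qb z (ext ω))]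
  refine Pr_congr z fun ω => Qb_congr fun v hv => ?_
  simp only [rvb]
  rw [ext_lt _ (by omega : z - 1 - v < z), ext_lt _ hv]
  simp only [revE, Equiv.coe_fn_mk]
  congr 1
  ext
  simp only [Fin.val_rev]
  omega

lemma split_bridge (N : ℕ) :
    Pr N (fun ω => Yi (ext ω) N = 0) ≤ ∑ z ∈ range (N+1), bz z * bz (N - z) := by
  have h1 : Pr N (fun ω => Yi (ext ω) N = 0)
      ≤ Pr N (fun ω => ∃ z ∈ range (N+1), Yi (ext ω) z = 0 ∧ Yi (ext ω) N = 0 ∧
        ∀ u ≤ N, Ai (ext ω) z ≤ Ai (ext ω) u) := by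
    refine Pr_mono N fun ω h => ?_
    obtain ⟨z, hz, h2, h3⟩ := exists_argmin_zero (ext ω) N h
    exact ⟨z, Finset.mem_range.2 (by omega), h2, h, h3⟩
  refine h1.trans ((Pr_exists_le N (range (N+1)) _).trans (Finset.sum_le_sum fun z hz => ?_))
  rw [Finset.mem_range] at hz
  obtain ⟨r, rfl⟩ : ∃ r, N = z + r := ⟨N - z, by omega⟩
  have h5 : z + r - z = r := by omega
  rw [h5]
  exact split_one z r

lemma Ws_one_eq {n : ℕ} (ω : Fin n → Bool) : Ws n (fun _ => 1) ω = (Yi (ext ω) n : ℝ) := by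
  rw [← Y_eq_Yi ω le_rfl]
  unfold Y
  exact Ws_congr n (fun j hj => by simp [hj]) ω

lemma int_abs_id (w : ℤ) : |(w:ℝ) + 1| + |(w:ℝ) - 1| = 2 * ind (w = 0) + 2 * |(w:ℝ)| := by
  rcases lt_trichotomy w 0 with h | h | h
  · have h1 : (w:ℝ) ≤ -1 := by exact_mod_cast (by omega : w ≤ -1)
    rw [ind_not (by omega : ¬ (w = 0)), abs_of_nonpos (by linarith), abs_of_nonpos (by linarith),
      abs_of_nonpos (by linarith)]
    ring
  · subst h
    rw [ind_of rfl]; norm_num
  · have h1 : (1:ℝ) ≤ w := by exact_mod_cast (by omega : 1 ≤ w)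
    rw [ind_not (by omega : ¬ (w = 0)), abs_of_nonneg (by linarith), abs_of_nonneg (by linarith),
      abs_of_nonneg (by linarith)]
    ring

/-- Tanaka: expected number of zeros -/
lemma sum_zero_eq (n : ℕ) :
    ∑ N ∈ range n, Pr N (fun ω => Yi (ext ω) N = 0) = E n (fun ω => |Ws n (fun _ => 1) ω|) := by
  induction n with
  | zero => rw [E_zero]; simp [Ws]
  | succ n ih =>
    rw [Finset.sum_range_succ, ih, E_succ]
    simp only [Ws_snoc, sg_true, sg_false, mul_neg, mul_one]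
    rw [eq_div_iff (by norm_num : (2:ℝ) ≠ 0)]
    unfold Pr
    rw [← E_add, ← E_add, ← E_mul_right]
    refine E_congr n fun ω => ?_
    rw [Ws_one_eq]
    have := int_abs_id (Yi (ext ω) n)
    rw [← sub_eq_add_neg, this]
    ring

lemma poly_ineq (l y : ℝ) (hl : 0 < l) : 3 * y ^ 2 - y ^ 4 / l ^ 2 ≤ 2 * l * |y| := by
  set u := |y| / l with hu
  have hu0 : 0 ≤ u := by positivity
  have hy : |y| = l * u := by rw [hu]; field_simp
  have h2 : y ^ 2 = l ^ 2 * u ^ 2 := by rw [← sq_abs, hy]; ring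
  have h4 : y ^ 4 = l ^ 4 * u ^ 4 := by
    have : y ^ 4 = (y ^ 2) ^ 2 := by ring
    rw [this, h2]; ring
  rw [h2, h4, hy]
  have e1 : l ^ 4 * u ^ 4 / l ^ 2 = l ^ 2 * u ^ 4 := by field_simp
  rw [e1]
  have key : 0 ≤ u * (u - 1) ^ 2 * (u + 2) := by positivity
  nlinarith [mul_nonneg (sq_nonneg l) key]

lemma E_abs_ge (n : ℕ) : Real.sqrt n / 2 ≤ E n (fun ω => |Ws n (fun _ => 1) ω|) := by
  rcases Nat.eq_zero_or_pos n with rfl | hn
  · simp; exact E_nonneg 0 fun ω => abs_nonneg _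
  have hn' : (0:ℝ) < n := by exact_mod_cast hn
  set l := Real.sqrt (3 * n) with hl
  have hl2 : l ^ 2 = 3 * n := Real.sq_sqrt (by positivity)
  have hlpos : 0 < l := Real.sqrt_pos.2 (by positivity)
  have h1 : E n (fun ω => 3 * Ws n (fun _ => 1) ω ^ 2 + (-(1 / l ^ 2)) * Ws n (fun _ => 1) ω ^ 4)
      ≤ E n (fun ω => 2 * l * |Ws n (fun _ => 1) ω|) := by
    refine E_mono n fun ω => ?_
    have := poly_ineq l (Ws n (fun _ => 1) ω) hlpos
    calc _ = 3 * Ws n (fun _ => 1) ω ^ 2 - Ws n (fun _ => 1) ω ^ 4 / l ^ 2 := by ring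
      _ ≤ _ := this
  rw [E_add, E_mul_left, E_mul_left, E_mul_left, E_Ws_sq] at h1
  have h4 := E_Ws_four n (fun _ => (1:ℝ))
  simp only [one_pow, Finset.sum_const, Finset.card_range, nsmul_eq_mul, mul_one] at h1 h4
  rw [hl2] at h1
  have h5 : -(1 / (3 * (n:ℝ))) * E n (fun ω => Ws n (fun _ => 1) ω ^ 4) ≥ - n := by
    have : 1 / (3 * (n:ℝ)) * E n (fun ω => Ws n (fun _ => 1) ω ^ 4) ≤ 1 / (3 * (n:ℝ)) * (3 * (n:ℝ) ^ 2) :=
      mul_le_mul_of_nonneg_left h4 (by positivity)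
    have e : 1 / (3 * (n:ℝ)) * (3 * (n:ℝ) ^ 2) = n := by field_simp
    rw [e] at this
    linarith
  have h6 : 2 * (n:ℝ) ≤ 2 * l * E n (fun ω => |Ws n (fun _ => 1) ω|) := by linarith
  have h7 : l ≤ 2 * Real.sqrt n := by
    rw [hl]
    calc Real.sqrt (3 * n) ≤ Real.sqrt (2 ^ 2 * n) := Real.sqrt_le_sqrt (by nlinarith)
      _ = 2 * Real.sqrt n := by rw [Real.sqrt_mul (by norm_num), Real.sqrt_sq (by norm_num)]
  have h8 : 0 ≤ E n (fun ω => |Ws n (fun _ => 1) ω|) := E_nonneg n fun ω => abs_nonneg _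
  have hs : 0 < Real.sqrt n := Real.sqrt_pos.2 hn'
  have hss : Real.sqrt n * Real.sqrt n = n := Real.mul_self_sqrt hn'.le
  have h9 : Real.sqrt n * Real.sqrt n ≤ 2 * Real.sqrt n * E n (fun ω => |Ws n (fun _ => 1) ω|) := by
    rw [hss]
    have := mul_le_mul_of_nonneg_right h7 h8
    linarith
  have h10 : Real.sqrt n * (Real.sqrt n / 2) ≤ Real.sqrt n * E n (fun ω => |Ws n (fun _ => 1) ω|) := by
    nlinarith
  exact le_of_mul_le_mul_left h10 hs

/-- many good bridges -/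
lemma sum_bz_sq (n : ℕ) : Real.sqrt (n+1) / 2 ≤ (∑ z ∈ range (n+1), bz z) ^ 2 := by
  have h1 := E_abs_ge (n+1)
  rw [← sum_zero_eq (n+1)] at h1
  push_cast at h1
  refine h1.trans ?_
  calc ∑ N ∈ range (n+1), Pr N (fun ω => Yi (ext ω) N = 0)
      ≤ ∑ N ∈ range (n+1), ∑ z ∈ range (N+1), bz z * bz (N - z) :=
        Finset.sum_le_sum fun N _ => split_bridge N
    _ = ∑ z ∈ range (n+1), ∑ r ∈ range (n+1-z), bz z * bz r := by
        rw [Finset.sum_sigma', Finset.sum_sigma']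
        refine Finset.sum_bij' (fun x _ => ⟨x.2, x.1 - x.2⟩) (fun x _ => ⟨x.1 + x.2, x.1⟩)
          ?_ ?_ ?_ ?_ ?_
        · rintro ⟨N, z⟩ h
          simp only [Finset.mem_sigma, Finset.mem_range] at h ⊢
          omega
        · rintro ⟨z, r⟩ h
          simp only [Finset.mem_sigma, Finset.mem_range] at h ⊢
          omega
        · rintro ⟨N, z⟩ h
          simp only [Finset.mem_sigma, Finset.mem_range] at h
          simp only [Sigma.mk.injEq, heq_eq_eq, and_true]
          omega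
        · rintro ⟨z, r⟩ h
          simp
        · rintro ⟨N, z⟩ h
          rfl
    _ ≤ ∑ z ∈ range (n+1), ∑ r ∈ range (n+1), bz z * bz r := by
        refine Finset.sum_le_sum fun z _ => ?_
        refine Finset.sum_le_sum_of_subset_of_nonneg (Finset.range_subset_range.2 (by omega)) ?_
        intro r _ _
        exact mul_nonneg (bz_nonneg z) (bz_nonneg r)
    _ = (∑ z ∈ range (n+1), bz z) ^ 2 := by
        rw [pow_two, Finset.sum_mul_sum]

/-- strict positivity after time zero -/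
def Sp (r : ℕ) (b : ℕ → Bool) : Prop := ∀ u, 1 ≤ u → u ≤ r → 0 < Yi b u

lemma Sp_congr {r : ℕ} {b b' : ℕ → Bool} (h : ∀ v < r, b v = b' v) : Sp r b ↔ Sp r b' := by
  unfold Sp
  constructor
  · intro h2 u hu1 hu2
    rw [← Yi_congr (fun v hv => h v (by omega))]; exact h2 u hu1 hu2
  · intro h2 u hu1 hu2
    rw [Yi_congr (fun v hv => h v (by omega))]; exact h2 u hu1 hu2

lemma Pr_Sp (r : ℕ) : 1 / (4 * Real.sqrt (2 * ((r:ℝ)+1))) ≤ Pr r (fun ω => Sp r (ext ω)) := by
  rcases Nat.eq_zero_or_pos r with rfl | hr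
  · have h1 : Pr 0 (fun ω => Sp 0 (ext ω)) = 1 := by
      rw [← Pr_true 0]
      refine Pr_congr 0 fun ω => ⟨fun _ => trivial, fun _ u h1 h2 => by omega⟩
    rw [h1, div_le_one (by positivity)]
    have : (1:ℝ) ≤ Real.sqrt (2 * ((0:ℕ):ℝ) + 2) := by
      rw [Real.one_le_sqrt]; norm_num
    have e : 2 * (((0:ℕ):ℝ)+1) = 2 * ((0:ℕ):ℝ) + 2 := by ring
    rw [e]; linarith
  obtain ⟨s, rfl⟩ : ∃ s, r = s + 1 := ⟨r - 1, by omega⟩
  have h1 := survive s (fun _ => 1) 1 s 1 (fun j _ => by norm_num) (by simp) one_pos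
  have h2 : Pr s (fun ω => ∀ k ≤ s, 0 < 1 + Wk (fun _ => 1) ω k) / 2
      ≤ Pr (s+1) (fun ω => Sp (s+1) (ext ω)) := by
    unfold Pr
    rw [E_succ']
    apply div_le_div_of_nonneg_right _ (by norm_num)
    have h3 : 0 ≤ E s (fun ω => ind (Sp (s+1) (ext (Fin.cons false ω : Fin (s+1) → Bool)))) :=
      E_nonneg s fun ω => ind_nonneg _
    have h4 : E s (fun ω => ind (∀ k ≤ s, 0 < 1 + Wk (fun _ => 1) ω k))
        ≤ E s (fun ω => ind (Sp (s+1) (ext (Fin.cons true ω : Fin (s+1) → Bool)))) := by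
      refine E_mono s fun ω => ind_mono fun h u hu1 hu2 => ?_
      obtain ⟨k, rfl⟩ : ∃ k, u = k + 1 := ⟨u - 1, by omega⟩
      have h5 := h k (by omega)
      have h6 : Wk (fun _ => 1) ω k = (Yi (ext ω) k : ℝ) := by
        rw [← Y_eq_Yi ω (by omega), Wk_eq_Ws]; rfl
      have h7 : ext (Fin.cons true ω : Fin (s+1) → Bool) 0 = true := by
        rw [ext_lt _ (by omega : 0 < s+1)]; rfl
      have h8 : Yi (ext (Fin.cons true ω : Fin (s+1) → Bool)) (k+1) = 1 + Yi (ext ω) k := by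
        have h9 : ∀ k ≤ s, Yi (ext (Fin.cons true ω : Fin (s+1) → Bool)) (k+1) = 1 + Yi (ext ω) k := by
          intro k
          induction k with
          | zero => intro _; rw [Yi_succ, Yi_zero, Yi_zero, h7]; simp
          | succ k ih =>
            intro hk
            rw [Yi_succ _ (k+1), ih (by omega), Yi_succ _ k]
            have : ext (Fin.cons true ω : Fin (s+1) → Bool) (k+1) = ext ω k := by
              rw [ext_lt _ (by omega : k+1 < s+1), ext_lt _ (by omega : k < s)]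
              have : (⟨k+1, by omega⟩ : Fin (s+1)) = Fin.succ ⟨k, by omega⟩ := rfl
              rw [this, Fin.cons_succ]
            rw [this]; ring
        exact h9 k (by omega)
      rw [h8]
      rw [h6] at h5
      exact_mod_cast h5
    linarith
  refine le_trans ?_ h2
  have h3 : 1 / (2 * Real.sqrt (2 * (s:ℝ) + 1 ^ 2 + 1 ^ 2)) / 2
      ≤ Pr s (fun ω => ∀ k ≤ s, 0 < 1 + Wk (fun _ => 1) ω k) / 2 := by linarith
  refine le_trans ?_ h3
  rw [div_div]
  apply one_div_le_one_div_of_le (by positivity)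
  have : Real.sqrt (2 * (s:ℝ) + 1 ^ 2 + 1 ^ 2) ≤ Real.sqrt (2 * (((s+1:ℕ):ℝ) + 1)) := by
    apply Real.sqrt_le_sqrt; push_cast; linarith
  linarith

/-- all areas nonnegative -/
def Pa (n : ℕ) (b : ℕ → Bool) : Prop := ∀ u ≤ n, 0 ≤ Ai b u

lemma Pa_of (z r : ℕ) (b : ℕ → Bool) (h1 : Qb z b) (h2 : Sp r (shb z b)) : Pa (z+r) b := by
  have h3 : ∀ k ≤ r, 0 ≤ Ai b (z + k) := by
    intro k
    induction k with
    | zero => intro _; exact h1.2 z le_rfl
    | succ k ih =>
      intro hk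
      have h4 := ih (by omega)
      have h5 := h2 (k+1) (by omega) hk
      rw [Yi_shb, h1.1] at h5
      rw [← add_assoc, Ai_succ]
      have : z + k + 1 = z + (k+1) := by omega
      rw [this]; omega
  intro u hu
  rcases le_or_gt u z with h | h
  · exact h1.2 u h
  · have := h3 (u - z) (by omega)
    have h6 : z + (u - z) = u := by omega
    rwa [h6] at this

/-- **Sinai's lower bound** -/
theorem sinai (n : ℕ) : 1 / (8 * Real.sqrt (Real.sqrt (n+1))) ≤ Pr n (fun ω => Pa n (ext ω)) := by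
  have h1 : ∑ z ∈ range (n+1), bz z * Pr (n - z) (fun ω => Sp (n-z) (ext ω))
      ≤ Pr n (fun ω => Pa n (ext ω)) := by
    have h2 : ∀ z ∈ range (n+1), bz z * Pr (n - z) (fun ω => Sp (n-z) (ext ω))
        = E n (fun ω => ind (Qb z (ext ω) ∧ Sp (n-z) (shb z (ext ω)))) := by
      intro z hz
      rw [Finset.mem_range] at hz
      obtain ⟨r, rfl⟩ : ∃ r, n = z + r := ⟨n - z, by omega⟩
      have h5 : z + r - z = r := by omega
      rw [h5]
      have h6 := Pr_append z r (fun a => Qb z (ext a)) (fun a => Sp r (ext a))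
      unfold bz
      rw [← h6]
      unfold Pr
      refine E_congr _ fun ω => ?_
      congr 1
      refine propext (and_congr (Qb_congr fun v hv => ext_castAdd ω hv)
        (Sp_congr fun v hv => ?_))
      simp only [shb]
      exact ext_natAdd ω hv
    rw [Finset.sum_congr rfl h2, ← E_sum]
    unfold Pr
    refine E_mono n fun ω => ?_
    by_cases hex : ∃ z ∈ range (n+1), Qb z (ext ω) ∧ Sp (n-z) (shb z (ext ω))
    · obtain ⟨z, hz, hq, hs⟩ := hex
      have hpa : Pa n (ext ω) := by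
        have := Pa_of z (n-z) (ext ω) hq hs
        rw [Finset.mem_range] at hz
        have h6 : z + (n - z) = n := by omega
        rwa [h6] at this
      rw [ind_of hpa, Finset.sum_eq_single z]
      · exact ind_le_one _
      · intro z' hz' hne
        apply ind_not
        rintro ⟨hq', hs'⟩
        rw [Finset.mem_range] at hz hz'
        rcases lt_or_gt_of_ne hne with h | h
        · have := hs' (z - z') (by omega) (by omega)
          rw [Yi_shb, hq'.1] at this
          have h6 : z' + (z - z') = z := by omega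
          rw [h6, hq.1] at this
          omega
        · have := hs (z' - z) (by omega) (by omega)
          rw [Yi_shb, hq.1] at this
          have h6 : z + (z' - z) = z' := by omega
          rw [h6, hq'.1] at this
          omega
      · intro h; exact absurd hz h
    · have : ∑ z ∈ range (n+1), ind (Qb z (ext ω) ∧ Sp (n-z) (shb z (ext ω))) = 0 := by
        refine Finset.sum_eq_zero fun z hz => ind_not fun h => hex ⟨z, hz, h⟩
      rw [this]; exact ind_nonneg _
  refine le_trans ?_ h1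
  have hn : (0:ℝ) < (n:ℝ) + 1 := by positivity
  have h3 : (∑ z ∈ range (n+1), bz z) * (1 / (4 * Real.sqrt (2 * ((n:ℝ)+1))))
      ≤ ∑ z ∈ range (n+1), bz z * Pr (n - z) (fun ω => Sp (n-z) (ext ω)) := by
    rw [Finset.sum_mul]
    refine Finset.sum_le_sum fun z hz => ?_
    refine mul_le_mul_of_nonneg_left ?_ (bz_nonneg z)
    refine le_trans ?_ (Pr_Sp (n-z))
    apply one_div_le_one_div_of_le (by positivity)
    have : Real.sqrt (2 * (((n-z:ℕ):ℝ)+1)) ≤ Real.sqrt (2 * ((n:ℝ)+1)) := by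
      apply Real.sqrt_le_sqrt
      have : ((n-z:ℕ):ℝ) ≤ n := by exact_mod_cast Nat.sub_le n z
      linarith
    linarith
  refine le_trans ?_ h3
  set S := ∑ z ∈ range (n+1), bz z with hS
  have hS0 : 0 ≤ S := Finset.sum_nonneg fun z _ => bz_nonneg z
  have h4 := sum_bz_sq n
  rw [← hS] at h4
  set q := Real.sqrt (Real.sqrt ((n:ℝ)+1)) with hq
  have hq2 : q ^ 2 = Real.sqrt ((n:ℝ)+1) := Real.sq_sqrt (Real.sqrt_nonneg _)
  have hqpos : 0 < q := Real.sqrt_pos.2 (Real.sqrt_pos.2 hn)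
  have h5 : Real.sqrt (2 * ((n:ℝ)+1)) = Real.sqrt 2 * q ^ 2 := by
    rw [Real.sqrt_mul (by norm_num), hq2]
  rw [h5]
  have h2pos : 0 < Real.sqrt 2 := Real.sqrt_pos.2 (by norm_num)
  have h22 : Real.sqrt 2 * Real.sqrt 2 = 2 := Real.mul_self_sqrt (by norm_num)
  have h6 : q / Real.sqrt 2 ≤ S := by
    rw [← pow_le_pow_iff_left₀ (by positivity) hS0 (by norm_num : (2:ℕ) ≠ 0),
      div_pow, hq2, pow_two (Real.sqrt 2), h22]
    exact h4
  calc 1 / (8 * q) = (q / Real.sqrt 2) * (1 / (4 * (Real.sqrt 2 * q ^ 2))) := by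
        rw [div_mul_div_comm, mul_one, div_eq_div_iff (by positivity) (by positivity)]
        have : Real.sqrt 2 * (4 * (Real.sqrt 2 * q ^ 2)) = 4 * (Real.sqrt 2 * Real.sqrt 2) * q ^ 2 := by
          ring
        rw [this, h22]; ring
    _ ≤ S * (1 / (4 * (Real.sqrt 2 * q ^ 2))) := mul_le_mul_of_nonneg_right h6 (by positivity)

end Pool.GP
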