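import Mathlib

set_option autoImplicit false

/-!
Slepian's inequality for orthant probabilities of finite-dimensional Gaussian vectors,
proved by coupling (no differentiation).
-/

namespace Pool.GP

open Finset MeasureTheory ProbabilityTheory

/-- the space -/
abbrev EV (n : ℕ) : Type := EuclideanSpace ℝ (Fin n)

/-- quadratic form -/
noncomputable def qf {n : ℕ} (S : Fin n → Fin n → ℝ) (t : Fin n → ℝ) : ℝ := ∑ k, ∑ l, t k * t l * S k l

/-- centred Gaussian law with covariance `S` -/
def IsG {n : ℕ} (μ : Measure (EV n)) (S : Fin n → Fin n → ℝ) : Prop :=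
  IsProbabilityMeasure μ ∧ ∀ t : EV n, charFun μ t = ((Real.exp (-(qf S t / 2)) : ℝ) : ℂ)

/-- upper orthant -/
def orth {n : ℕ} (a : Fin n → ℝ) : Set (EV n) := {y | ∀ i, a i ≤ y i}

lemma measurableSet_orth {n : ℕ} (a : Fin n → ℝ) : MeasurableSet (orth a) := by
  have : orth a = ⋂ i, {y : EV n | a i ≤ y i} := by ext y; simp [orth]
  rw [this]
  exact MeasurableSet.iInter fun i => measurableSet_le measurable_const (by fun_prop)

/-- orthant order -/
def Ole {n : ℕ} (μ ν : Measure (EV n)) : Prop := ∀ a : Fin n → ℝ, μ (orth a) ≤ ν (orth a)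

lemma Ole.refl {n : ℕ} (μ : Measure (EV n)) : Ole μ μ := fun _ => le_rfl

lemma Ole.trans {n : ℕ} {μ ν ρ : Measure (EV n)} (h1 : Ole μ ν) (h2 : Ole ν ρ) : Ole μ ρ :=
  fun a => (h1 a).trans (h2 a)

lemma conv_orth {n : ℕ} (μ ν : Measure (EV n)) [SFinite ν] (a : Fin n → ℝ) :
    (μ ∗ ν) (orth a) = ∫⁻ x, ν (orth (fun i => a i - x i)) ∂μ := by
  unfold Measure.conv
  rw [Measure.map_apply (by fun_prop) (measurableSet_orth a), Measure.prod_apply]
  · refine lintegral_congr fun x => ?_
    congr 1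
    ext y
    simp only [orth, Set.mem_preimage, Set.mem_ofPred_eq, PiLp.add_apply]
    refine forall_congr' fun i => ?_
    constructor <;> intro h <;> linarith
  · exact (measurableSet_orth a).preimage (by fun_prop)

lemma Ole.conv {n : ℕ} {μ ν μ' ν' : Measure (EV n)} [SFinite μ] [SFinite ν] [SFinite μ'] [SFinite ν']
    (h1 : Ole μ ν) (h2 : Ole μ' ν') : Ole (μ ∗ μ') (ν ∗ ν') := by
  intro a
  calc (μ ∗ μ') (orth a) ≤ (μ ∗ ν') (orth a) := by
        rw [conv_orth, conv_orth]
        exact lintegral_mono fun x => h2 _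
    _ = (ν' ∗ μ) (orth a) := by rw [Measure.conv_comm]
    _ ≤ (ν' ∗ ν) (orth a) := by
        rw [conv_orth, conv_orth]
        exact lintegral_mono fun x => h1 _
    _ = (ν ∗ ν') (orth a) := by rw [Measure.conv_comm]

lemma IsG.unique {n : ℕ} {μ ν : Measure (EV n)} {S : Fin n → Fin n → ℝ} (h1 : IsG μ S) (h2 : IsG ν S) :
    μ = ν := by
  have := h1.1
  have := h2.1
  apply Measure.ext_of_charFun
  funext t
  rw [h1.2 t, h2.2 t]

lemma IsG.congr {n : ℕ} {μ : Measure (EV n)} {S T : Fin n → Fin n → ℝ} (h1 : IsG μ S)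
    (h : ∀ i j, S i j = T i j) : IsG μ T := by
  have : S = T := funext fun i => funext fun j => h i j
  rwa [← this]

lemma qf_add {n : ℕ} (S T : Fin n → Fin n → ℝ) (t : Fin n → ℝ) :
    qf (fun i j => S i j + T i j) t = qf S t + qf T t := by
  unfold qf
  rw [← Finset.sum_add_distrib]
  refine Finset.sum_congr rfl fun k _ => ?_
  rw [← Finset.sum_add_distrib]
  exact Finset.sum_congr rfl fun l _ => by ring

lemma IsG.conv {n : ℕ} {μ ν : Measure (EV n)} {S T : Fin n → Fin n → ℝ} (h1 : IsG μ S) (h2 : IsG ν T) :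
    IsG (μ ∗ ν) (fun i j => S i j + T i j) := by
  have := h1.1
  have := h2.1
  refine ⟨inferInstance, fun t => ?_⟩
  rw [charFun_conv, h1.2 t, h2.2 t, ← Complex.ofReal_mul, ← Real.exp_add, qf_add]
  congr 2
  ring

lemma isG_dirac {n : ℕ} : IsG (Measure.dirac (0 : EV n)) (fun _ _ => 0) := by
  refine ⟨inferInstance, fun t => ?_⟩
  rw [charFun_dirac]
  simp [qf]

lemma exists_isG {n : ℕ} (S : Fin n → Fin n → ℝ) (hsymm : ∀ i j, S i j = S j i)
    (hpos : ∀ t : Fin n → ℝ, 0 ≤ qf S t) : ∃ μ : Measure (EV n), IsG μ S := by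
  have hq : ∀ t : Fin n → ℝ, dotProduct t ((Matrix.of S).mulVec t) = qf S t := by
    intro t
    unfold dotProduct Matrix.mulVec dotProduct qf
    refine Finset.sum_congr rfl fun k _ => ?_
    rw [Finset.mul_sum]
    refine Finset.sum_congr rfl fun l _ => ?_
    change t k * (S k l * t l) = _
    ring
  have hS : (Matrix.of S).PosSemidef := by
    rw [Matrix.posSemidef_iff_dotProduct_mulVec]
    refine ⟨?_, fun t => ?_⟩
    · ext i j
      simp [Matrix.conjTranspose_apply, hsymm i j]
    · rw [star_trivial, hq]; exact hpos t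
  refine ⟨multivariateGaussian 0 (Matrix.of S), inferInstance, fun t => ?_⟩
  rw [charFun_multivariateGaussian hS]
  have := hq t
  rw [inner_zero_right, Complex.ofReal_exp]
  congr 1
  rw [this]
  push_cast
  ring

/-- Gaussian on a line -/
noncomputable def gline {n : ℕ} (u : EV n) : Measure (EV n) := (gaussianReal 0 1).map (fun x => x • u)

instance {n : ℕ} (u : EV n) : IsProbabilityMeasure (gline u) :=
  Measure.isProbabilityMeasure_map (by fun_prop)

lemma isG_gline {n : ℕ} (u : EV n) : IsG (gline u) (fun i j => u i * u j) := by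
  refine ⟨inferInstance, fun t => ?_⟩
  rw [charFun_apply]
  unfold gline
  rw [integral_map (by fun_prop) (by fun_prop)]
  have h1 := charFun_gaussianReal (μ := 0) (v := 1) (inner ℝ u t)
  rw [charFun_apply_real] at h1
  have h2 : ∀ x : ℝ, Complex.exp ((inner ℝ (x • u) t : ℝ) * Complex.I)
      = Complex.exp (((inner ℝ u t : ℝ) : ℂ) * (x:ℂ) * Complex.I) := by
    intro x
    rw [real_inner_smul_left]; push_cast; ring_nf
  simp only [h2]
  rw [h1, Complex.ofReal_exp]
  congr 1
  have h3 : qf (fun i j => u i * u j) t = (inner ℝ u t : ℝ) ^ 2 := by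
    unfold qf
    rw [PiLp.inner_apply, pow_two, Finset.sum_mul_sum]
    refine Finset.sum_congr rfl fun k _ => Finset.sum_congr rfl fun l _ => ?_
    simp only [RCLike.inner_apply, conj_trivial]
    ring
  rw [h3]
  push_cast
  ring

/-- the basic pair comparison: independent noises versus a common noise -/
lemma pair_ole {n : ℕ} (i j : Fin n) (hij : i ≠ j) (s : ℝ) :
    Ole (gline (s • EuclideanSpace.single i (1:ℝ)) ∗ gline (s • EuclideanSpace.single j (1:ℝ)))
      (gline (s • (EuclideanSpace.single i (1:ℝ) + EuclideanSpace.single j (1:ℝ)))) := by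
  intro a
  unfold Measure.conv
  rw [Measure.map_apply (by fun_prop) (measurableSet_orth a)]
  unfold gline
  rw [Measure.map_prod_map _ _ (by fun_prop) (by fun_prop),
    Measure.map_apply (by fun_prop) ((measurableSet_orth a).preimage (by fun_prop)),
    Measure.map_apply (by fun_prop) (measurableSet_orth a)]
  have hsi : (EuclideanSpace.single i (1:ℝ) : EV n) i = 1 := by simp
  have hsj : (EuclideanSpace.single j (1:ℝ) : EV n) j = 1 := by simp
  have hsij : (EuclideanSpace.single i (1:ℝ) : EV n) j = 0 := by simp [hij.symm]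
  have hsji : (EuclideanSpace.single j (1:ℝ) : EV n) i = 0 := by simp [hij]
  have hsik : ∀ k, k ≠ i → (EuclideanSpace.single i (1:ℝ) : EV n) k = 0 := by intro k hk; simp [hk]
  have hsjk : ∀ k, k ≠ j → (EuclideanSpace.single j (1:ℝ) : EV n) k = 0 := by intro k hk; simp [hk]
  rcases le_total (a i) (a j) with hle | hle
  · -- bound by the second coordinate
    have h1 : (Prod.map (fun x : ℝ => x • s • (EuclideanSpace.single i (1:ℝ) : EV n))
        (fun x : ℝ => x • s • (EuclideanSpace.single j (1:ℝ) : EV n))) ⁻¹' ((fun x : EV n × EV n => x.1 + x.2) ⁻¹' orth a)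
        ⊆ Set.univ ×ˢ ((fun x : ℝ => x • s • ((EuclideanSpace.single i (1:ℝ) : EV n) + EuclideanSpace.single j (1:ℝ))) ⁻¹' orth a) := by
      rintro ⟨x, y⟩ h
      simp only [orth, Set.mem_preimage, Set.mem_ofPred_eq, Prod.map_apply, PiLp.add_apply, PiLp.smul_apply,
        smul_eq_mul, Set.mem_prod, Set.mem_univ, true_and] at h ⊢
      intro k
      have hj := h j
      rw [hsij, hsj] at hj
      by_cases hki : k = i
      · rw [hki, hsi, hsji]; linarith
      by_cases hkj : k = j
      · rw [hkj, hsij, hsj]; linarith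
      · have hk := h k
        rw [hsik k hki, hsjk k hkj] at hk ⊢
        linarith
    refine (measure_mono h1).trans ?_
    rw [Measure.prod_prod, measure_univ, one_mul]
  · have h1 : (Prod.map (fun x : ℝ => x • s • (EuclideanSpace.single i (1:ℝ) : EV n))
        (fun x : ℝ => x • s • (EuclideanSpace.single j (1:ℝ) : EV n))) ⁻¹' ((fun x : EV n × EV n => x.1 + x.2) ⁻¹' orth a)
        ⊆ ((fun x : ℝ => x • s • ((EuclideanSpace.single i (1:ℝ) : EV n) + EuclideanSpace.single j (1:ℝ))) ⁻¹' orth a) ×ˢ Set.univ := by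
      rintro ⟨x, y⟩ h
      simp only [orth, Set.mem_preimage, Set.mem_ofPred_eq, Prod.map_apply, PiLp.add_apply, PiLp.smul_apply,
        smul_eq_mul, Set.mem_prod, Set.mem_univ, and_true] at h ⊢
      intro k
      have hi := h i
      rw [hsi, hsji] at hi
      by_cases hki : k = i
      · rw [hki, hsi, hsji]; linarith
      by_cases hkj : k = j
      · rw [hkj, hsij, hsj]; linarith
      · have hk := h k
        rw [hsik k hki, hsjk k hkj] at hk ⊢
        linarith
    refine (measure_mono h1).trans ?_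
    rw [Measure.prod_prod, measure_univ, mul_one]


/-- matrix unit pairs -/
noncomputable def dg {n : ℕ} (p : Fin n × Fin n) (i j : Fin n) : ℝ :=
  (if i = p.1 ∧ j = p.1 then 1 else 0) + (if i = p.2 ∧ j = p.2 then 1 else 0)

/-- off-diagonal units -/
noncomputable def od {n : ℕ} (p : Fin n × Fin n) (i j : Fin n) : ℝ :=
  (if i = p.1 ∧ j = p.2 then 1 else 0) + (if i = p.2 ∧ j = p.1 then 1 else 0)

lemma pair_step {n : ℕ} (p : Fin n × Fin n) (hp : p.1 ≠ p.2) (d : ℝ) (hd : 0 ≤ d) :
    ∃ μ ν : Measure (EV n), IsG μ (fun i j => d * dg p i j) ∧ IsG ν (fun i j => d * (dg p i j + od p i j))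
      ∧ Ole μ ν := by
  obtain ⟨a, b⟩ := p
  simp only at hp
  have hs := Real.mul_self_sqrt hd
  refine ⟨gline (Real.sqrt d • EuclideanSpace.single a (1:ℝ)) ∗ gline (Real.sqrt d • EuclideanSpace.single b (1:ℝ)),
    gline (Real.sqrt d • (EuclideanSpace.single a (1:ℝ) + EuclideanSpace.single b (1:ℝ))), ?_, ?_,
    pair_ole a b hp _⟩
  · refine ((isG_gline _).conv (isG_gline _)).congr fun i j => ?_
    simp only [PiLp.smul_apply, smul_eq_mul, PiLp.single_apply, dg]
    by_cases h1 : i = a <;> by_cases h2 : j = a <;> by_cases h3 : i = b <;> by_cases h4 : j = b <;>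
      simp [h1, h2, h3, h4, hp, hp.symm, hs]
  · refine (isG_gline _).congr fun i j => ?_
    simp only [PiLp.smul_apply, PiLp.add_apply, smul_eq_mul, PiLp.single_apply, dg, od]
    by_cases h1 : i = a <;> by_cases h2 : j = a <;> by_cases h3 : i = b <;> by_cases h4 : j = b <;>
      simp [h1, h2, h3, h4, hp, hp.symm, hs]

lemma pairs_step {n : ℕ} (s : Finset (Fin n × Fin n)) (hs : ∀ p ∈ s, p.1 ≠ p.2)
    (δ : Fin n × Fin n → ℝ) (hδ : ∀ p ∈ s, 0 ≤ δ p) :
    ∃ μ ν : Measure (EV n), IsG μ (fun i j => ∑ p ∈ s, δ p * dg p i j)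
      ∧ IsG ν (fun i j => ∑ p ∈ s, δ p * (dg p i j + od p i j)) ∧ Ole μ ν := by
  induction s using Finset.induction_on with
  | empty =>
    refine ⟨Measure.dirac 0, Measure.dirac 0, ?_, ?_, Ole.refl _⟩
    · simpa using isG_dirac
    · simpa using isG_dirac
  | insert p s hp ih =>
    obtain ⟨μ, ν, h1, h2, h3⟩ := ih (fun q hq => hs q (Finset.mem_insert_of_mem hq))
      (fun q hq => hδ q (Finset.mem_insert_of_mem hq))
    obtain ⟨μ', ν', h1', h2', h3'⟩ := pair_step p (hs p (Finset.mem_insert_self _ _)) (δ p)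
      (hδ p (Finset.mem_insert_self _ _))
    have := h1.1
    have := h2.1
    have := h1'.1
    have := h2'.1
    refine ⟨μ' ∗ μ, ν' ∗ ν, (h1'.conv h1).congr fun i j => ?_, (h2'.conv h2).congr fun i j => ?_, h3'.conv h3⟩
    · rw [Finset.sum_insert hp]
    · rw [Finset.sum_insert hp]

/-- the set of pairs -/
def prs (n : ℕ) : Finset (Fin n × Fin n) := Finset.univ.filter (fun p => p.1 < p.2)

lemma sum_od {n : ℕ} (Δ : Fin n → Fin n → ℝ) (hsymm : ∀ i j, Δ i j = Δ j i) (hdiag : ∀ i, Δ i i = 0)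
    (i j : Fin n) : ∑ p ∈ prs n, Δ p.1 p.2 * od p i j = Δ i j := by
  unfold prs od
  rw [Finset.sum_filter, Fintype.sum_prod_type]
  rcases lt_trichotomy i j with h | h | h
  · rw [Finset.sum_eq_single i, Finset.sum_eq_single j]
    · simp [h, h.ne, h.ne']
    · intro b _ hb
      by_cases h1 : i < b
      · simp [h1, hb.symm, h1.ne]
      · simp [h1]
    · intro h1; exact absurd (Finset.mem_univ _) h1
    · intro b _ hb
      refine Finset.sum_eq_zero fun c _ => ?_
      by_cases h1 : b < c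
      · simp only [h1, if_true]
        have : ¬ (i = b ∧ j = c) := fun h2 => hb h2.1.symm
        have h3 : ¬ (i = c ∧ j = b) := fun h2 => by
          have := h2.1 ▸ h2.2 ▸ h
          exact absurd h1 (not_lt.2 this.le)
        simp [this, h3]
      · simp [h1]
    · intro h1; exact absurd (Finset.mem_univ _) h1
  · subst h
    rw [hdiag]
    refine Finset.sum_eq_zero fun b _ => Finset.sum_eq_zero fun c _ => ?_
    by_cases h1 : b < c
    · simp only [h1, if_true]
      have : ¬ (i = b ∧ i = c) := fun h2 => h1.ne (h2.1.symm.trans h2.2)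
      have h3 : ¬ (i = c ∧ i = b) := fun h2 => h1.ne (h2.2.symm.trans h2.1)
      simp [this, h3]
    · simp [h1]
  · rw [Finset.sum_eq_single j, Finset.sum_eq_single i]
    · simp [h, h.ne, h.ne']
      rw [hsymm]
    · intro b _ hb
      by_cases h1 : j < b
      · simp [h1, hb.symm, h1.ne]
      · simp [h1]
    · intro h1; exact absurd (Finset.mem_univ _) h1
    · intro b _ hb
      refine Finset.sum_eq_zero fun c _ => ?_
      by_cases h1 : b < c
      · simp only [h1, if_true]
        have : ¬ (i = c ∧ j = b) := fun h2 => hb h2.2.symm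
        have h3 : ¬ (i = b ∧ j = c) := fun h2 => by
          have := h2.1 ▸ h2.2 ▸ h
          exact absurd h1 (not_lt.2 this.le)
        simp [this, h3]
      · simp [h1]
    · intro h1; exact absurd (Finset.mem_univ _) h1


lemma qf_sum_dg {n : ℕ} (s : Finset (Fin n × Fin n)) (δ : Fin n × Fin n → ℝ) (t : Fin n → ℝ) :
    qf (fun i j => ∑ p ∈ s, δ p * dg p i j) t = ∑ p ∈ s, δ p * (t p.1 ^ 2 + t p.2 ^ 2) := by
  unfold qf
  have h1 : ∀ k l, t k * t l * ∑ p ∈ s, δ p * dg p k l = ∑ p ∈ s, δ p * (t k * t l * dg p k l) := by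
    intro k l; rw [Finset.mul_sum]; exact Finset.sum_congr rfl fun p _ => by ring
  simp only [h1]
  have h2 : ∀ k, ∑ l, ∑ p ∈ s, δ p * (t k * t l * dg p k l) = ∑ p ∈ s, δ p * ∑ l, (t k * t l * dg p k l) := by
    intro k; rw [Finset.sum_comm]; exact Finset.sum_congr rfl fun p _ => by rw [Finset.mul_sum]
  simp only [h2]
  rw [Finset.sum_comm]
  refine Finset.sum_congr rfl fun p _ => ?_
  rw [← Finset.mul_sum]
  congr 1
  unfold dg
  have h3 : ∀ (a k l : Fin n), (if k = a ∧ l = a then (1:ℝ) else 0) = (if k = a then 1 else 0) * (if l = a then 1 else 0) := by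
    intro a k l
    by_cases h1 : k = a <;> by_cases h2 : l = a <;> simp [h1, h2]
  simp only [h3]
  have h4 : ∀ a : Fin n, ∑ k, ∑ l, t k * t l * ((if k = a then (1:ℝ) else 0) * (if l = a then 1 else 0)) = t a ^ 2 := by
    intro a
    have h5 : ∀ k l, t k * t l * ((if k = a then (1:ℝ) else 0) * (if l = a then 1 else 0))
        = (if k = a then t k else 0) * (if l = a then t l else 0) := by
      intro k l
      by_cases h1 : k = a <;> by_cases h2 : l = a <;> simp [h1, h2]
    simp only [h5]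
    rw [← Finset.sum_mul_sum]
    simp [pow_two]
  simp only [mul_add]
  simp only [Finset.sum_add_distrib]
  rw [h4, h4]

lemma slep_step {n : ℕ} {S T : Fin n → Fin n → ℝ} (hS : ∀ i j, S i j = S j i) (hT : ∀ i j, T i j = T j i)
    (hdiag : ∀ i, S i i = T i i) (hle : ∀ i j, S i j ≤ T i j) (lam : ℝ)
    (hlam : ∑ p ∈ prs n, (T p.1 p.2 - S p.1 p.2) ≤ lam)
    (hpos : ∀ t : Fin n → ℝ, lam * ∑ i, t i ^ 2 ≤ qf S t)
    {μ ν : Measure (EV n)} (hμ : IsG μ S) (hν : IsG ν T) : Ole μ ν := by
  set δ : Fin n × Fin n → ℝ := fun p => T p.1 p.2 - S p.1 p.2 with hδ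
  have hδ0 : ∀ p ∈ prs n, 0 ≤ δ p := fun p _ => sub_nonneg.2 (hle _ _)
  obtain ⟨μ1, ν1, h1, h2, h3⟩ := pairs_step (prs n) (fun p hp => ((Finset.mem_filter.1 hp).2).ne) δ hδ0
  set D : Fin n → Fin n → ℝ := fun i j => ∑ p ∈ prs n, δ p * dg p i j with hD
  have hDsymm : ∀ i j, D i j = D j i := by
    intro i j
    simp only [hD]
    refine Finset.sum_congr rfl fun p _ => ?_
    congr 1
    unfold dg
    simp only [and_comm]
  obtain ⟨κ, hκ⟩ := exists_isG (fun i j => S i j - D i j) (fun i j => by rw [hS i j, hDsymm i j]) (by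
    intro t
    have e1 : qf S t = qf (fun i j => S i j - D i j) t + qf D t := by
      rw [← qf_add]; congr 1; funext i j; ring
    have e2 : qf D t ≤ lam * ∑ i, t i ^ 2 := by
      rw [hD, qf_sum_dg]
      have h4 : ∀ p ∈ prs n, δ p * (t p.1 ^ 2 + t p.2 ^ 2) ≤ δ p * ∑ i, t i ^ 2 := by
        intro p hp
        apply mul_le_mul_of_nonneg_left _ (hδ0 p hp)
        have hne : p.1 ≠ p.2 := ((Finset.mem_filter.1 hp).2).ne
        rw [← Finset.sum_pair (f := fun i => t i ^ 2) hne]
        exact Finset.sum_le_sum_of_subset_of_nonneg (Finset.subset_univ _) fun i _ _ => sq_nonneg _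
      refine (Finset.sum_le_sum h4).trans ?_
      rw [← Finset.sum_mul]
      exact mul_le_mul_of_nonneg_right hlam (Finset.sum_nonneg fun i _ => sq_nonneg _)
    have := hpos t
    linarith)
  have p1 := hκ.1
  have p2 := h1.1
  have p3 := h2.1
  have e1 : μ = κ ∗ μ1 := hμ.unique ((hκ.conv h1).congr fun i j => by simp only [hD]; ring)
  have e2 : ν = κ ∗ ν1 := by
    refine hν.unique ((hκ.conv h2).congr fun i j => ?_)
    have h5 : ∑ p ∈ prs n, δ p * (dg p i j + od p i j) = D i j + ∑ p ∈ prs n, δ p * od p i j := by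
      simp only [hD]
      rw [← Finset.sum_add_distrib]
      exact Finset.sum_congr rfl fun p _ => by ring
    rw [h5, sum_od (fun i j => T i j - S i j) (fun i j => by rw [hT i j, hS i j]) (fun i => by rw [hdiag i]; ring)]
    ring
  rw [e1, e2]
  exact (Ole.refl κ).conv h3

/-- **Slepian's inequality** (positive definite case). -/
theorem slepian {n : ℕ} {S T : Fin n → Fin n → ℝ} (hS : ∀ i j, S i j = S j i) (hT : ∀ i j, T i j = T j i)
    (hdiag : ∀ i, S i i = T i i) (hle : ∀ i j, S i j ≤ T i j) (lam : ℝ) (hlam : 0 < lam)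
    (hSpos : ∀ t : Fin n → ℝ, lam * ∑ i, t i ^ 2 ≤ qf S t)
    (hTpos : ∀ t : Fin n → ℝ, lam * ∑ i, t i ^ 2 ≤ qf T t)
    {μ ν : Measure (EV n)} (hμ : IsG μ S) (hν : IsG ν T) : Ole μ ν := by
  obtain ⟨N, hN⟩ : ∃ N : ℕ, (∑ p ∈ prs n, (T p.1 p.2 - S p.1 p.2)) / lam + 1 ≤ N := exists_nat_ge _
  have hsum0 : 0 ≤ ∑ p ∈ prs n, (T p.1 p.2 - S p.1 p.2) := Finset.sum_nonneg fun p _ => sub_nonneg.2 (hle _ _)
  have hN1 : (1:ℝ) ≤ N := by
    have : 0 ≤ (∑ p ∈ prs n, (T p.1 p.2 - S p.1 p.2)) / lam := div_nonneg hsum0 hlam.le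
    linarith
  have hNpos : (0:ℝ) < N := by linarith
  have hNsum : (∑ p ∈ prs n, (T p.1 p.2 - S p.1 p.2)) / N ≤ lam := by
    rw [div_le_iff₀ hNpos]
    have : (∑ p ∈ prs n, (T p.1 p.2 - S p.1 p.2)) / lam ≤ N := by linarith
    rw [div_le_iff₀ hlam] at this
    linarith
  set P : ℕ → Fin n → Fin n → ℝ := fun r i j => S i j + (r / N : ℝ) * (T i j - S i j) with hP
  have hPsymm : ∀ r i j, P r i j = P r j i := by
    intro r i j; simp only [hP]; rw [hS i j, hT i j]
  have hqP : ∀ r t, qf (P r) t = (1 - (r / N : ℝ)) * qf S t + (r / N : ℝ) * qf T t := by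
    intro r t
    unfold qf
    rw [Finset.mul_sum, Finset.mul_sum, ← Finset.sum_add_distrib]
    refine Finset.sum_congr rfl fun k _ => ?_
    rw [Finset.mul_sum, Finset.mul_sum, ← Finset.sum_add_distrib]
    refine Finset.sum_congr rfl fun l _ => ?_
    simp only [hP]; ring
  have hPpos : ∀ r : ℕ, r ≤ N → ∀ t, lam * ∑ i, t i ^ 2 ≤ qf (P r) t := by
    intro r hr t
    rw [hqP]
    have h1 : (0:ℝ) ≤ r / N := by positivity
    have h2 : (r:ℝ) / N ≤ 1 := by rw [div_le_one hNpos]; exact_mod_cast hr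
    have h3 := hSpos t
    have h4 := hTpos t
    nlinarith
  have hPos0 : ∀ r : ℕ, r ≤ N → ∀ t, 0 ≤ qf (P r) t := by
    intro r hr t
    refine le_trans ?_ (hPpos r hr t)
    exact mul_nonneg hlam.le (Finset.sum_nonneg fun i _ => sq_nonneg _)
  have main : ∀ r : ℕ, r ≤ N → ∀ ρ : Measure (EV n), IsG ρ (P r) → Ole μ ρ := by
    intro r
    induction r with
    | zero =>
      intro _ ρ hρ
      have : μ = ρ := hμ.unique (hρ.congr fun i j => by simp [hP])
      rw [this]; exact Ole.refl _
    | succ r ih =>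
      intro hr ρ hρ
      obtain ⟨κ, hκ⟩ := exists_isG (P r) (hPsymm r) (hPos0 r (by omega))
      refine (ih (by omega) κ hκ).trans ?_
      have hinc : ∀ i j, P (r+1) i j - P r i j = (T i j - S i j) / N := by
        intro i j; simp only [hP]; push_cast; field_simp; ring
      refine slep_step (hPsymm r) (hPsymm (r+1)) (fun i => ?_) (fun i j => ?_) lam ?_ (hPpos r (by omega)) hκ hρ
      · have := hinc i i; rw [hdiag i] at this; simp at this; linarith
      · have := hinc i j
        have h2 : 0 ≤ (T i j - S i j) / N := div_nonneg (sub_nonneg.2 (hle i j)) hNpos.le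
        linarith
      · simp only [hinc]
        rw [← Finset.sum_div]
        exact hNsum
  refine main N le_rfl ν (hν.congr fun i j => ?_)
  simp only [hP]
  rw [div_self hNpos.ne']
  ring

end Pool.GP
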