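import Pool.Agent.Lib.GPX.SlepApp
import Pool.Agent.Lib.GPX.Ident
import Pool.Agent.Lib.GPX.GAUpper

set_option autoImplicit false

/-!
`1/(4 √3) ≤ theta`, from the Slepian comparison and the upper bound for the area of the walk.
-/

namespace Pool.GP

open Finset Filter Topology MeasureTheory ProbabilityTheory

lemma kp_ge (p : ℝ) (hp : 1 ≤ p) (M : ℕ) : M ≤ kp p M := by
  have h : (M:ℝ) ≤ kp p M := by
    unfold kp
    refine le_trans ?_ (Nat.le_ceil _)
    rcases Nat.eq_zero_or_pos M with rfl | h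
    · simp only [Nat.cast_zero]; positivity
    have hM : (1:ℝ) ≤ M := by exact_mod_cast h
    calc (M:ℝ) ≤ ((M:ℝ)+1/2) := by linarith
      _ = ((M:ℝ)+1/2) ^ (1:ℝ) := (Real.rpow_one _).symm
      _ ≤ ((M:ℝ)+1/2) ^ p := Real.rpow_le_rpow_of_exponent_le (by linarith) hp
  exact_mod_cast h

lemma log_kp_le (p : ℝ) (hp : 1 ≤ p) (M : ℕ) (hM : 1 ≤ M) :
    Real.log (kp p M) ≤ p * Real.log M + (1 + p) * Real.log 2 := by
  have hMr : (1:ℝ) ≤ M := by exact_mod_cast hM
  have h1 : (kp p M : ℝ) ≤ 2 * (2 * (M:ℝ)) ^ p := by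
    have h2 : (kp p M : ℝ) < ((M:ℝ)+1/2) ^ p + 1 := Nat.ceil_lt_add_one (by positivity)
    have h3 : ((M:ℝ)+1/2) ^ p ≤ (2 * (M:ℝ)) ^ p := Real.rpow_le_rpow (by linarith) (by linarith) (by linarith)
    have h4 : 1 ≤ (2 * (M:ℝ)) ^ p := Real.one_le_rpow (by linarith) (by linarith)
    linarith
  have hk : (0:ℝ) < kp p M := by exact_mod_cast kp_pos p M
  have h2 := Real.log_le_log hk h1
  rw [Real.log_mul (by norm_num) (by positivity), Real.log_rpow (by positivity),
    Real.log_mul (by norm_num) (by positivity)] at h2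
  linarith

/-- the bound for one value of `p` -/
lemma theta_p (hC : ∀ K0 : ℕ, 1 ≤ K0 → ∀ ε : ℝ, 0 < ε → ∀ᶠ K : ℕ in atTop, gA0 K0 K ≤ (K:ℝ) ^ (-(1/4) + ε))
    (p : ℝ) (hp0 : 0 < p) (hp : 3 < p ^ 2) : 1 / 4 ≤ theta * p := by
  have hp1 : 1 ≤ p := by nlinarith
  obtain ⟨M0, hM0, hB⟩ := gB_le_gA0 p hp0 hp
  have hθ := theta_nonneg
  -- it suffices: for all ε ∈ (0,1): 1/4 - ε ≤ (θ+ε) p
  have main : ∀ ε : ℝ, 0 < ε → 1/4 - ε ≤ (theta + ε) * p := by
    intro ε hε
    have hkt : Tendsto (fun M : ℕ => kp p M) atTop atTop :=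
      tendsto_atTop_mono (fun M => kp_ge p hp1 M) tendsto_id
    have ev := (hkt.eventually (gB_lower_theta ε hε)).and ((hC M0 hM0 ε hε).and (eventually_ge_atTop (M0 + 2)))
    have hlim : Tendsto (fun M : ℕ => (theta + ε) * (p + (1 + p) * Real.log 2 / Real.log M)) atTop
        (𝓝 ((theta + ε) * (p + 0))) := by
      apply Tendsto.const_mul
      apply Tendsto.const_add
      apply Tendsto.const_div_atTop
      exact Real.tendsto_log_atTop.comp tendsto_natCast_atTop_atTop
    rw [add_zero] at hlim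
    refine ge_of_tendsto hlim ?_
    filter_upwards [ev] with M hM
    obtain ⟨h1, h2, h3⟩ := hM
    have hMr : (2:ℝ) ≤ M := by exact_mod_cast (by omega : 2 ≤ M)
    have hlog : 0 < Real.log M := Real.log_pos (by linarith)
    have hk0 : (0:ℝ) < kp p M := by exact_mod_cast kp_pos p M
    have h4 := h1.trans ((hB M (by omega)).trans h2)
    have h5 := Real.log_le_log (by positivity) h4
    rw [Real.log_rpow hk0, Real.log_rpow (by linarith)] at h5
    have h6 := log_kp_le p hp1 M (by omega)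
    have h7 : (theta + ε) * Real.log (kp p M) ≤ (theta + ε) * (p * Real.log M + (1 + p) * Real.log 2) :=
      mul_le_mul_of_nonneg_left h6 (by linarith)
    have h8 : (1/4 - ε) * Real.log M ≤ (theta + ε) * (p * Real.log M + (1 + p) * Real.log 2) := by linarith
    have h9 : (theta + ε) * (p + (1 + p) * Real.log 2 / Real.log M) * Real.log M
        = (theta + ε) * (p * Real.log M + (1 + p) * Real.log 2) := by field_simp
    rw [← h9] at h8
    exact le_of_mul_le_mul_right h8 hlog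
  apply le_of_forall_pos_le_add
  intro δ hδ
  have h := main (δ / (1 + p)) (by positivity)
  have h2 : δ / (1 + p) * (1 + p) = δ := by field_simp
  nlinarith

/-- **Lower bound for the exponent**, given the upper bound for areas. -/
theorem theta_ge_sqrt (hC : ∀ K0 : ℕ, 1 ≤ K0 → ∀ ε : ℝ, 0 < ε → ∀ᶠ K : ℕ in atTop, gA0 K0 K ≤ (K:ℝ) ^ (-(1/4) + ε)) :
    1 / (4 * Real.sqrt 3) ≤ theta := by
  have hs3 : 0 < Real.sqrt 3 := Real.sqrt_pos.2 (by norm_num)
  have hθ := theta_nonneg
  have h1 : 1 / 4 ≤ theta * Real.sqrt 3 := by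
    apply le_of_forall_pos_le_add
    intro δ hδ
    have h := theta_p hC (Real.sqrt 3 + δ / (theta + 1)) (by positivity) (by
      have h3 : Real.sqrt 3 ^ 2 = 3 := Real.sq_sqrt (by norm_num)
      have h4 : 0 < δ / (theta + 1) := by positivity
      nlinarith)
    have h2 : theta * (δ / (theta + 1)) ≤ δ := by
      rw [← mul_div_assoc, div_le_iff₀ (by linarith)]
      nlinarith
    linarith
  rw [div_le_iff₀ (by positivity)]
  linarith


/-- **Lower bound for the exponent.** -/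
theorem theta_ge_sqrt3 : 1 / (4 * Real.sqrt 3) ≤ theta := theta_ge_sqrt fun K0 hK0 ε hε => gA_upper K0 hK0 ε hε

end Pool.GP
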